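import Pool.Agent.LibOL36.S0

/-! # Row B1: the boundary of a 1-chain, and the cycle of a curve, in coordinates

Plan. `bd1_ev`: exchange sums: `∑ i, ∑ d, if d.1 = j ∧ d.2.1 2 = i then y d • nil (u j (d.2.1 0)) else 0 =
∑ d, if d.1 = j then y d • nil (u j (d.2.1 0)) else 0` and `∑ a, (∑ d, if (d.1, d.2.1 0) = (j, a) then y d else 0) • nil (u j a)` is
the same (`Finset.sum_smul`, `Finset.sum_comm`, `ite` bookkeeping with `Prod.mk.injEq`).
`curve_ev`: `funext j i`; unfold; exchange the sum over `k` with the sum over `d`; for fixed `k` with flag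
`x_k = (j_k, π)`: the darts `d` with `d.1 = j_k`, `d.2.1 2 = π 2`, `d.2.1 0 = π 0` are exactly one (`exists_dt02`, `dt_ext02`), the same with
`π 3`; so `∑ d, if d.1 = j ∧ d.2.1 2 = i then (if .. then 1 else 0) • nil .. else 0 = if j_k = j ∧ π 2 = i then nil (u j (π 0)) else 0`. -/

set_option autoImplicit false

open Matrix

namespace Pool.Agent.OL36

variable {N : ℕ}

/-- Local contribution of one arc of a curve. -/
private theorem arc_sum (u : Fin N → Fin 4 → Fin 2 → ℂ) (x : Flag N) (q : Fin 4) (hq : (0 : Fin 4) ≠ q)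
    (j : Fin N) (i : Fin 4) :
    (∑ d : Dt N, if d.1 = j ∧ d.2.1 2 = i then
      (if x.1 = d.1 ∧ x.2 q = d.2.1 2 ∧ x.2 0 = d.2.1 0 then (1 : ℂ) else 0) •
        nil (u j (d.2.1 0)) else 0) =
      if x.1 = j ∧ x.2 q = i then nil (u j (x.2 0)) else 0 := by
  obtain ⟨d0, h1, h2, h3⟩ := exists_dt02 x.1 (x.2 0) (x.2 q) (fun h => hq (x.2.injective h))
  rw [Finset.sum_eq_single d0]
  · rw [h1, h2, h3]
    by_cases hc : x.1 = j ∧ x.2 q = i
    · rw [if_pos hc, if_pos hc, if_pos ⟨rfl, rfl, rfl⟩, one_smul]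
    · rw [if_neg hc, if_neg hc]
  · intro d _ hd
    by_cases hc : d.1 = j ∧ d.2.1 2 = i
    · rw [if_pos hc, if_neg, zero_smul]
      rintro ⟨h4, h5, h6⟩
      exact hd (dt_ext02 d d0 (by rw [h1, h4]) (by rw [h2, h6]) (by rw [h3, h5]))
    · rw [if_neg hc]
  · intro h
    exact absurd (Finset.mem_univ _) h

/-- B1: the boundary of a 1-chain in coordinates. -/
theorem bd1_ev (u : Fin N → Fin 4 → Fin 2 → ℂ) (y : Dt N → ℂ) (j : Fin N) :
    bd1 (ev1 u y) j =
      -∑ a, (∑ d : Dt N, if (d.1, d.2.1 0) = (j, a) then y d else 0) • nil (u j a) := by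
  have hL : ∑ i, ev1 u y j i =
      ∑ d : Dt N, if d.1 = j then y d • nil (u j (d.2.1 0)) else 0 := by
    unfold ev1
    rw [Finset.sum_comm]
    refine Finset.sum_congr rfl (fun d _ => ?_)
    rw [Finset.sum_eq_single (d.2.1 2)]
    · by_cases h : d.1 = j
      · rw [if_pos ⟨h, rfl⟩, if_pos h]
      · rw [if_neg (fun h' => h h'.1), if_neg h]
    · intro i _ hi
      rw [if_neg (fun h' => hi h'.2.symm)]
    · intro h
      exact absurd (Finset.mem_univ _) h
  have hR : ∑ a, (∑ d : Dt N, if (d.1, d.2.1 0) = (j, a) then y d else 0) • nil (u j a) =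
      ∑ d : Dt N, if d.1 = j then y d • nil (u j (d.2.1 0)) else 0 := by
    simp only [Finset.sum_smul]
    rw [Finset.sum_comm]
    refine Finset.sum_congr rfl (fun d _ => ?_)
    rw [Finset.sum_eq_single (d.2.1 0)]
    · by_cases h : d.1 = j
      · rw [if_pos (by rw [h]), if_pos h]
      · rw [if_neg (fun h' => h (congrArg Prod.fst h')), if_neg h, zero_smul]
    · intro a _ ha
      rw [if_neg (fun h' => ha (congrArg Prod.snd h').symm), zero_smul]
    · intro h
      exact absurd (Finset.mem_univ _) h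
  unfold bd1
  rw [hL, hR]

/-- H1: the cycle of a curve in coordinates. -/
theorem curve_ev (T : Tri N) (γ : Curve T) (u : Fin N → Fin 4 → Fin 2 → ℂ) :
    curveCycle γ (fun j a => nil (u j a)) = ev1 u (hc γ) := by
  funext j i
  unfold curveCycle ev1 hc
  have h1 : ∀ d : Dt N,
      (if d.1 = j ∧ d.2.1 2 = i then
        (∑ k ∈ Finset.range γ.m,
          ((if (γ.x k).1 = d.1 ∧ (γ.x k).2 2 = d.2.1 2 ∧ (γ.x k).2 0 = d.2.1 0 then (1 : ℂ)
              else 0) -
           (if (γ.x k).1 = d.1 ∧ (γ.x k).2 3 = d.2.1 2 ∧ (γ.x k).2 0 = d.2.1 0 then (1 : ℂ)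
              else 0))) • nil (u j (d.2.1 0)) else 0) =
      ∑ k ∈ Finset.range γ.m,
        ((if d.1 = j ∧ d.2.1 2 = i then
          (if (γ.x k).1 = d.1 ∧ (γ.x k).2 2 = d.2.1 2 ∧ (γ.x k).2 0 = d.2.1 0 then (1 : ℂ)
              else 0) • nil (u j (d.2.1 0)) else 0) -
         (if d.1 = j ∧ d.2.1 2 = i then
          (if (γ.x k).1 = d.1 ∧ (γ.x k).2 3 = d.2.1 2 ∧ (γ.x k).2 0 = d.2.1 0 then (1 : ℂ)
              else 0) • nil (u j (d.2.1 0)) else 0)) := by
    intro d
    by_cases hc : d.1 = j ∧ d.2.1 2 = i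
    · simp only [if_pos hc]
      rw [Finset.sum_smul]
      refine Finset.sum_congr rfl (fun k _ => ?_)
      rw [sub_smul]
    · simp only [if_neg hc, sub_zero, Finset.sum_const_zero]
  rw [Finset.sum_congr rfl (fun d _ => h1 d), Finset.sum_comm]
  refine Finset.sum_congr rfl (fun k _ => ?_)
  rw [Finset.sum_sub_distrib, arc_sum u (γ.x k) 2 (by decide) j i,
    arc_sum u (γ.x k) 3 (by decide) j i]


end Pool.Agent.OL36
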