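import Pool.Agent.LibOL36.E1

/-! # Row E2: oriented and unoriented edge classes

Plan. `OE_edge`: induction over `EqvGen`, with `T.edge_eq` (the relation of `OE` is part of the relation of `edge_eq`;
`a ≠ b` is preserved by the injectivity of `glue`); better: map the whole `EqvGen` chain
(`Relation.EqvGen.mono`) and use `T.edge_eq` once. `edge_OE`: from `edge_eq.mp` get an `EqvGen` chain for the
bigger relation; show by induction over the chain that `s` and `s'` satisfy
`T.OE s s' ∨ T.OE s (s'.1, s'.2.2, s'.2.1)` (with `OE_rev` for the swap steps; formulate the induction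
symmetrically). `OE_rev`: `EqvGen` map of swapped triples (the gluing relation is symmetric in the two vertices).
`vmE` statements: `vmE_swap`: `(vmE j b a).2 = !(vmE j a b).2`: with `e = edge j a b = edge j b a`
(`edge_eq` with one swap step) and `x = E e`: by `edge_OE`, `OE x (j,a,b)` or `OE x (j,b,a)`, not both by
`no_rev` (transitivity, `OE_rev`). `vmE_iff`: `→`: equal edges `e`, and the same truth value of `OE (E e) ·`: both
true: transitivity; both false: then `OE (E e) (j,b,a)` and `OE (E e) (j',b',a')`, use `OE_rev`.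
`←`: `OE_edge` and transitivity. `vmE_E`: `E e` itself by reflexivity, the reverse by `vmE_swap`. -/

set_option autoImplicit false

open Matrix

namespace Pool.Agent.OL36

variable {N : ℕ}

/-- the generating relation of `OE` -/
private def e2R (T : Tri N) (s s' : Fin N × Fin 4 × Fin 4) : Prop :=
  ∃ i, i ≠ s.2.1 ∧ i ≠ s.2.2 ∧ s' = (T.nbr s.1 i, T.glue s.1 i s.2.1, T.glue s.1 i s.2.2)

private def e2Sw (s : Fin N × Fin 4 × Fin 4) : Fin N × Fin 4 × Fin 4 := (s.1, s.2.2, s.2.1)

private theorem e2_mono {S : Type*} {r p : S → S → Prop} (hrp : ∀ a b, r a b → p a b) (a b : S)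
    (h : Relation.EqvGen r a b) : Relation.EqvGen p a b := by
  induction h with
  | rel x y hxy => exact Relation.EqvGen.rel _ _ (hrp _ _ hxy)
  | refl x => exact Relation.EqvGen.refl _
  | symm x y _ ih => exact Relation.EqvGen.symm _ _ ih
  | trans x y z _ _ ih1 ih2 => exact Relation.EqvGen.trans _ _ _ ih1 ih2

private theorem e2_rev (T : Tri N) (s s' : Fin N × Fin 4 × Fin 4) (h : T.OE s s') :
    T.OE (e2Sw s) (e2Sw s') := by
  induction h with
  | rel x y hxy =>
    obtain ⟨i, h1, h2, rfl⟩ := hxy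
    exact Relation.EqvGen.rel _ _ ⟨i, h2, h1, rfl⟩
  | refl x => exact Relation.EqvGen.refl _
  | symm x y _ ih => exact Relation.EqvGen.symm _ _ ih
  | trans x y z _ _ ih1 ih2 => exact Relation.EqvGen.trans _ _ _ ih1 ih2

private theorem e2_ne (T : Tri N) (s s' : Fin N × Fin 4 × Fin 4) (h : T.OE s s') :
    s.2.1 = s.2.2 ↔ s'.2.1 = s'.2.2 := by
  induction h with
  | rel x y hxy =>
    obtain ⟨i, h1, h2, rfl⟩ := hxy
    exact ((T.glue x.1 i).injective.eq_iff).symm
  | refl x => exact Iff.rfl
  | symm x y _ ih => exact ih.symm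
  | trans x y z _ _ ih1 ih2 => exact ih1.trans ih2


theorem OE_rev (T : Tri N) (j : Fin N) (a b : Fin 4) (j' : Fin N) (a' b' : Fin 4)
    (h : T.OE (j, a, b) (j', a', b')) : T.OE (j, b, a) (j', b', a') := by
  exact e2_rev T _ _ h

theorem OE_ne (T : Tri N) (j : Fin N) (a b : Fin 4) (j' : Fin N) (a' b' : Fin 4)
    (h : T.OE (j, a, b) (j', a', b')) : a = b ↔ a' = b' := by
  exact e2_ne T _ _ h

theorem OE_edge (T : Tri N) (j : Fin N) (a b : Fin 4) (j' : Fin N) (a' b' : Fin 4) (hab : a ≠ b)
    (h : T.OE (j, a, b) (j', a', b')) : T.edge j a b = T.edge j' a' b' := by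
  have hab' : a' ≠ b' := fun h' => hab ((e2_ne T _ _ h).mpr h')
  refine (T.edge_eq j a b j' a' b' hab hab').mpr ?_
  exact e2_mono (fun x y hxy => Or.inr hxy) _ _ h

theorem edge_OE (T : Tri N) (j : Fin N) (a b : Fin 4) (j' : Fin N) (a' b' : Fin 4) (hab : a ≠ b)
    (hab' : a' ≠ b') (h : T.edge j a b = T.edge j' a' b') :
    T.OE (j, a, b) (j', a', b') ∨ T.OE (j, a, b) (j', b', a') := by
  have h1 := (T.edge_eq j a b j' a' b' hab hab').mp h
  have key : ∀ s s' : Fin N × Fin 4 × Fin 4,
      Relation.EqvGen (fun s s' : Fin N × Fin 4 × Fin 4 =>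
        s' = (s.1, s.2.2, s.2.1) ∨ ∃ i, i ≠ s.2.1 ∧ i ≠ s.2.2 ∧
          s' = (T.nbr s.1 i, T.glue s.1 i s.2.1, T.glue s.1 i s.2.2)) s s' →
      T.OE s s' ∨ T.OE s (e2Sw s') := by
    intro s s' hs
    induction hs with
    | rel x y hxy =>
      rcases hxy with rfl | hxy
      · right
        exact Relation.EqvGen.refl _
      · left
        exact Relation.EqvGen.rel _ _ hxy
    | refl x => exact Or.inl (Relation.EqvGen.refl _)
    | symm x y _ ih =>
      rcases ih with ih | ih
      · exact Or.inl (Relation.EqvGen.symm _ _ ih)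
      · exact Or.inr (Relation.EqvGen.symm _ _ (e2_rev T _ _ ih))
    | trans x y z _ _ ih1 ih2 =>
      rcases ih1 with ih1 | ih1
      · rcases ih2 with ih2 | ih2
        · exact Or.inl (Relation.EqvGen.trans _ _ _ ih1 ih2)
        · exact Or.inr (Relation.EqvGen.trans _ _ _ ih1 ih2)
      · rcases ih2 with ih2 | ih2
        · exact Or.inr (Relation.EqvGen.trans _ _ _ ih1 (e2_rev T _ _ ih2))
        · exact Or.inl (Relation.EqvGen.trans _ _ _ ih1 (e2_rev T _ _ ih2))
  exact key _ _ h1

theorem edge_comm (T : Tri N) (j : Fin N) (a b : Fin 4) (hab : a ≠ b) :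
    T.edge j b a = T.edge j a b := by
  refine (T.edge_eq j b a j a b hab.symm hab).mpr ?_
  exact Relation.EqvGen.rel _ _ (Or.inl rfl)

theorem vmE_swap (T : Tri N) (E : Fin N → Fin N × Fin 4 × Fin 4) (hE : IsEdges T E) (j : Fin N)
    (a b : Fin 4) (hab : a ≠ b) : vmE T E j b a = (T.edge j a b, !(vmE T E j a b).2) := by
  classical
  unfold vmE
  rw [edge_comm T j a b hab]
  refine Prod.ext rfl ?_
  change decide _ = !(decide _)
  have he := hE (T.edge j a b)
  have hrev := no_rev T j a b hab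
  obtain ⟨hne, hedge⟩ := he
  have hcases := edge_OE T _ _ _ j a b hne hab hedge
  by_cases h1 : T.OE (E (T.edge j a b)) (j, a, b)
  · have h2 : ¬ T.OE (E (T.edge j a b)) (j, b, a) := fun h2 =>
      hrev (Relation.EqvGen.trans _ _ _ (Relation.EqvGen.symm _ _ h1) h2)
    simp [h1, h2]
  · have h2 : T.OE (E (T.edge j a b)) (j, b, a) := by
      rcases hcases with h | h
      · exact absurd h h1
      · exact h
    simp [h1, h2]

theorem vmE_iff (T : Tri N) (E : Fin N → Fin N × Fin 4 × Fin 4) (hE : IsEdges T E) (j : Fin N)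
    (a b : Fin 4) (j' : Fin N) (a' b' : Fin 4) (hab : a ≠ b) (hab' : a' ≠ b') :
    vmE T E j a b = vmE T E j' a' b' ↔ T.OE (j, a, b) (j', a', b') := by
  classical
  constructor
  · intro h
    have h1 : T.edge j a b = T.edge j' a' b' := congrArg Prod.fst h
    have h2 : decide (T.OE (E (T.edge j a b)) (j, a, b)) =
      decide (T.OE (E (T.edge j' a' b')) (j', a', b')) := congrArg Prod.snd h
    rw [← h1] at h2
    have h3 : T.OE (E (T.edge j a b)) (j, a, b) ↔ T.OE (E (T.edge j a b)) (j', a', b') :=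
      decide_eq_decide.mp h2
    obtain ⟨hne, hedge⟩ := hE (T.edge j a b)
    have hc1 := edge_OE T _ _ _ j a b hne hab hedge
    have hc2 := edge_OE T _ _ _ j' a' b' hne hab' (hedge.trans h1)
    by_cases h4 : T.OE (E (T.edge j a b)) (j, a, b)
    · exact Relation.EqvGen.trans _ _ _ (Relation.EqvGen.symm _ _ h4) (h3.mp h4)
    · have h5 : T.OE (E (T.edge j a b)) (j, b, a) := hc1.resolve_left h4
      have h6 : T.OE (E (T.edge j a b)) (j', b', a') :=
        hc2.resolve_left (fun h => h4 (h3.mpr h))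
      exact OE_rev T _ _ _ _ _ _ (Relation.EqvGen.trans _ _ _ (Relation.EqvGen.symm _ _ h5) h6)
  · intro h
    have h1 : T.edge j a b = T.edge j' a' b' := OE_edge T j a b j' a' b' hab h
    unfold vmE
    refine Prod.ext h1 ?_
    change decide _ = decide _
    rw [decide_eq_decide, ← h1]
    exact ⟨fun h' => Relation.EqvGen.trans _ _ _ h' h,
      fun h' => Relation.EqvGen.trans _ _ _ h' (Relation.EqvGen.symm _ _ h)⟩

/-- S2. -/
theorem vmE_E (T : Tri N) (E : Fin N → Fin N × Fin 4 × Fin 4) (hE : IsEdges T E) (e : Fin N) :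
    vmE T E (E e).1 (E e).2.1 (E e).2.2 = (e, true) ∧
    vmE T E (E e).1 (E e).2.2 (E e).2.1 = (e, false) := by
  classical
  obtain ⟨hne, hedge⟩ := hE e
  have h1 : vmE T E (E e).1 (E e).2.1 (E e).2.2 = (e, true) := by
    unfold vmE
    rw [hedge]
    refine Prod.ext rfl ?_
    change decide _ = true
    rw [decide_eq_true_eq]
    exact Relation.EqvGen.refl _
  refine ⟨h1, ?_⟩
  rw [vmE_swap T E hE _ _ _ hne, h1, hedge]
  rfl

end Pool.Agent.OL36
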