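import Pool.Agent.LibOL36.S0
import Pool.Agent.LibOL36.E2

/-! # Row B2: the boundary of a 2-chain in coordinates

Plan. Fix `j, i`; take an even flag `d0 = (j, (a, p, i, q))` (`exists_dt02` with any `a ≠ i`). The even permutations
with third value `i` are `π1 = (a,p,i,q)`, `π2 = (p,q,i,a)`, `π3 = (q,a,i,p)`; so
`bd2 X j i = X j a p + X j p q + X j q a`, `ev1 u y j i = y (j,π1) • nil (u a) + y (j,π2) • nil (u p) + y (j,π3) • nil (u q)`
(suggestion: prove once `∑ π ∈ univ.filter (sign π = 1 ∧ π 2 = i), φ π = φ π1 + φ π2 + φ π3` via `decide` on the filter for each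
`i` by `fin_cases i`, with the three explicit permutations). Insert `ev2` and `hm_face` (write
`L_a = Lk (u a) (u p) (u q)`, `L_p = Lk (u p) (u q) (u a)`, `L_q = Lk (u q) (u a) (u p)`; `Hm a p = 1/2 (L_q nil q - L_a nil a - L_p nil p)` etc.)
and compare the coefficients of `nil (u a)`: `f(ap) - f(aq) + L_a/2 (y(pq) - y(qa) - y(ap))`, which is the right side, since
`∑ e, y e * VV T u e d = L_a/2 * (y (edge p q) - y (edge q a) - y (edge a p))` (`Finset.sum_ite_eq`).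
`edge` is symmetric in its two vertices: `edge_comm`. -/

set_option autoImplicit false

open Matrix

namespace Pool.Agent.OL36

variable {N : ℕ}


/-- The cycle `0 → 1 → 3 → 0`. -/
private def b2c : Equiv.Perm (Fin 4) := Equiv.swap 0 1 * Equiv.swap 1 3

private theorem b2c_val : b2c 0 = 1 ∧ b2c 1 = 3 ∧ b2c 2 = 2 ∧ b2c 3 = 0 := by decide

private theorem b2_three : ∀ ρ : Equiv.Perm (Fin 4),
    (Equiv.Perm.sign ρ = 1 ∧ ρ 2 = 2) ↔ (ρ = 1 ∨ ρ = b2c ∨ ρ = b2c * b2c) := by decide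

private theorem b2_filter (π : Equiv.Perm (Fin 4)) (hπ : Equiv.Perm.sign π = 1)
    (ρ : Equiv.Perm (Fin 4)) :
    (Equiv.Perm.sign ρ = 1 ∧ ρ 2 = π 2) ↔ (ρ = π ∨ ρ = π * b2c ∨ ρ = π * (b2c * b2c)) := by
  have h := b2_three (π⁻¹ * ρ)
  rw [Equiv.Perm.sign_mul, Equiv.Perm.sign_inv, hπ, one_mul, Equiv.Perm.mul_apply,
    Equiv.Perm.inv_eq_iff_eq, inv_mul_eq_one, inv_mul_eq_iff_eq_mul, inv_mul_eq_iff_eq_mul] at h
  rw [h, eq_comm (a := ρ) (b := π)]

private theorem b2_sum {M : Type*} [AddCommMonoid M] (π : Equiv.Perm (Fin 4))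
    (hπ : Equiv.Perm.sign π = 1) (φ : Equiv.Perm (Fin 4) → M) :
    ∑ ρ ∈ Finset.univ.filter (fun ρ : Equiv.Perm (Fin 4) => Equiv.Perm.sign ρ = 1 ∧ ρ 2 = π 2),
      φ ρ = φ π + φ (π * b2c) + φ (π * (b2c * b2c)) := by
  have h1 : Finset.univ.filter (fun ρ : Equiv.Perm (Fin 4) =>
      Equiv.Perm.sign ρ = 1 ∧ ρ 2 = π 2) = {π, π * b2c, π * (b2c * b2c)} := by
    ext ρ
    simp only [Finset.mem_filter, Finset.mem_univ, true_and, Finset.mem_insert,
      Finset.mem_singleton]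
    exact b2_filter π hπ ρ
  have hc1 : (1 : Equiv.Perm (Fin 4)) ≠ b2c := by decide
  have hc2 : (1 : Equiv.Perm (Fin 4)) ≠ b2c * b2c := by decide
  have hc3 : b2c ≠ b2c * b2c := by decide
  have n1 : π ≠ π * b2c := fun h => hc1 (mul_left_cancel ((mul_one π).trans h))
  have n2 : π ≠ π * (b2c * b2c) := fun h => hc2 (mul_left_cancel ((mul_one π).trans h))
  have n3 : π * b2c ≠ π * (b2c * b2c) := fun h => hc3 (mul_left_cancel h)
  rw [h1, Finset.sum_insert (by simp [n1, n2]), Finset.sum_insert (by simp [n3]),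
    Finset.sum_singleton, add_assoc]

private theorem b2_ev1 (u : Fin N → Fin 4 → Fin 2 → ℂ) (Y : Dt N → ℂ) (j : Fin N) (i : Fin 4) :
    ev1 u Y j i = ∑ ρ ∈ Finset.univ.filter
      (fun ρ : Equiv.Perm (Fin 4) => Equiv.Perm.sign ρ = 1 ∧ ρ 2 = i),
      (if h : Equiv.Perm.sign ρ = 1 then Y (j, ⟨ρ, h⟩) else 0) • nil (u j (ρ 0)) := by
  rw [ev1, Fintype.sum_prod_type, Finset.sum_eq_single j]
  · rw [← Finset.filter_filter, Finset.sum_filter,
      Finset.sum_subtype (Finset.univ.filter fun ρ : Equiv.Perm (Fin 4) =>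
        Equiv.Perm.sign ρ = 1) (p := fun ρ => Equiv.Perm.sign ρ = 1) (by simp)]
    refine Finset.sum_congr rfl fun π _ => ?_
    by_cases h : π.1 2 = i
    · rw [if_pos ⟨rfl, h⟩, if_pos h, dif_pos π.2]
    · rw [if_neg fun h' => h h'.2, if_neg h]
  · intro x _ hx
    refine Finset.sum_eq_zero fun π _ => if_neg fun h => hx h.1
  · intro h
    exact absurd (Finset.mem_univ j) h

/-- B2: the boundary of a 2-chain in coordinates. -/
theorem bd2_ev (T : Tri N) (z : Fin N → ℂ) (u : Fin N → Fin 4 → Fin 2 → ℂ) (hu : IsDec T z u)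
    (E : Fin N → Fin N × Fin 4 × Fin 4) (hE : IsEdges T E) (f : Fin N × Bool → ℂ) (y : Fin N → ℂ)
    (X : Fin N → Fin 4 → Fin 4 → M2) (hX : ∀ j a b, a ≠ b → X j a b = ev2 T E u f y j a b) :
    bd2 X = ev1 u (fun d => (f (vmE T E d.1 (d.2.1 0) (d.2.1 1)) -
      f (vmE T E d.1 (d.2.1 0) (d.2.1 3))) + ∑ e, y e * VV T u e d) := by
  have hex : ∀ i : Fin 4, ∃ π : Equiv.Perm (Fin 4), Equiv.Perm.sign π = 1 ∧ π 2 = i := by decide
  funext j i
  obtain ⟨π, hπ, rfl⟩ := hex i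
  have hc : Equiv.Perm.sign b2c = 1 := by decide
  have hπ2 : Equiv.Perm.sign (π * b2c) = 1 := by rw [Equiv.Perm.sign_mul, hπ, hc, one_mul]
  have hπ3 : Equiv.Perm.sign (π * (b2c * b2c)) = 1 := by
    rw [Equiv.Perm.sign_mul, Equiv.Perm.sign_mul, hπ, hc, one_mul, one_mul]
  rw [bd2, b2_sum π hπ, b2_ev1, b2_sum π hπ, dif_pos hπ, dif_pos hπ2, dif_pos hπ3]
  have hVV : ∀ d : Dt N, ∑ e, y e * VV T u e d =
      Lk (u d.1 (d.2.1 0)) (u d.1 (d.2.1 1)) (u d.1 (d.2.1 3)) / 2 *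
        (y (T.edge d.1 (d.2.1 1) (d.2.1 3)) - y (T.edge d.1 (d.2.1 3) (d.2.1 0)) -
          y (T.edge d.1 (d.2.1 0) (d.2.1 1))) := by
    intro d
    have h : ∀ e, y e * VV T u e d =
        Lk (u d.1 (d.2.1 0)) (u d.1 (d.2.1 1)) (u d.1 (d.2.1 3)) / 2 *
          ((if T.edge d.1 (d.2.1 1) (d.2.1 3) = e then y e else 0) -
           (if T.edge d.1 (d.2.1 3) (d.2.1 0) = e then y e else 0) -
           (if T.edge d.1 (d.2.1 0) (d.2.1 1) = e then y e else 0)) := by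
      intro e
      rw [VV]
      split_ifs <;> ring
    rw [Finset.sum_congr rfl fun e _ => h e, ← Finset.mul_sum, Finset.sum_sub_distrib,
      Finset.sum_sub_distrib, Finset.sum_ite_eq, Finset.sum_ite_eq, Finset.sum_ite_eq]
    simp
  rw [hVV, hVV, hVV]
  obtain ⟨c0, c1, c2, c3⟩ := b2c_val
  simp only [Equiv.Perm.mul_apply, c0, c1, c3]
  generalize ha : π 0 = a
  generalize hp : π 1 = p
  generalize hq : π 3 = q
  have hap : a ≠ p := by
    rw [← ha, ← hp]
    exact fun h => absurd (π.injective h) (by decide)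
  have hpq : p ≠ q := by
    rw [← hq, ← hp]
    exact fun h => absurd (π.injective h) (by decide)
  have haq : a ≠ q := by
    rw [← ha, ← hq]
    exact fun h => absurd (π.injective h) (by decide)
  rw [hX j a p hap, hX j p q hpq, hX j q a haq.symm, ev2, ev2, ev2,
    hm_face (u j a) (u j p) (u j q) (hu.ne j a p hap) (hu.ne j p q hpq) (hu.ne j a q haq),
    hm_face (u j p) (u j q) (u j a) (hu.ne j p q hpq) (hu.ne j q a haq.symm)
      (hu.ne j p a hap.symm),
    hm_face (u j q) (u j a) (u j p) (hu.ne j q a haq.symm) (hu.ne j a p hap)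
      (hu.ne j q p hpq.symm)]
  module


end Pool.Agent.OL36
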