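import Pool.Agent.LibOL36.S0

/-! # Row C1: coordinates of 1-chains

Plan. Local lemma: for `u, v, w` with non-zero `om` and a traceless `X : M2`:
`X = c u v w X • nil u + c v w u X • nil v + c w u v X • nil w` where
`c u v w X := om v (X *ᵥ w) / (om v u * om u w)` (check: `om v (nil u *ᵥ w) = om v u * om u w`, and it
vanishes on `nil v`, `nil w`); prove it entrywise (`fin_cases`, `simp`, `field_simp`, `ring` with `X 1 1 = -X 0 0`), or get
existence and uniqueness from `det_face` (the determinant of the coordinates is non-zero).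
Uniqueness: the three nilpotents are linearly independent (`c` of the combination gives the coefficient).
Define `y d := c (u j a) (u j p) (u j q) (Y j i)` for `d = (j, (a, p, i, q))`. `Y = ev1 u y`: in `ev1 u y j i` the darts with
`d.1 = j`, `d.2.1 2 = i` are three (`a` ranges over the vertices `≠ i`): rewrite the sum over `Dt N` as a sum over these
three: if `d0 = (j, (a, p, i, q))` is one, the others are `(p, q, i, a)`, `(q, a, i, p)` (even). Suggestion: first prove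
`ev1 u y j i = ∑ π : {π // sign π = 1}, if π.1 2 = i then y (j, π) • nil (u j (π.1 0)) else 0` (Fintype.sum_prod_type), then for fixed `i`
`fin_cases i` and expand with `decide`-computed filter, or use an injection from `Fin 3`.
Antisymmetry: `Y (nbr j i) (σ i) = -(g * Y j i * g⁻¹) = -∑ y • nil (u' (σ a))` (hg), and uniqueness of the
coefficients for the face `(nbr j i, σ i)` with the vertices `σ a` (`ne` of `IsDec`). -/

set_option autoImplicit false

open Matrix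

namespace Pool.Agent.OL36

variable {N : ℕ}

private noncomputable def c1c (u v w : Fin 2 → ℂ) (X : M2) : ℂ :=
  om v (X *ᵥ w) / (om v u * om u w)

private theorem c1_dec (u v w : Fin 2 → ℂ) (X : M2) (h1 : om u v ≠ 0) (h2 : om v w ≠ 0)
    (h3 : om u w ≠ 0) (hX : X.trace = 0) :
    X = c1c u v w X • nil u + c1c v w u X • nil v + c1c w u v X • nil w := by
  have h2' : om w v ≠ 0 := om_ne_comm h2
  have h3' : om w u ≠ 0 := om_ne_comm h3
  have h1' : om v u ≠ 0 := om_ne_comm h1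
  have hX' : X 1 1 = -X 0 0 := by
    rw [Matrix.trace_fin_two] at hX
    linear_combination hX
  apply M2_ext
  intro i j
  fin_cases i <;> fin_cases j <;>
    simp [nil, c1c, hX'] <;> field_simp <;>
    simp [om] <;> ring

private theorem c1_comb (u v w : Fin 2 → ℂ) (h1 : om u v ≠ 0) (h3 : om u w ≠ 0) (x y t : ℂ) :
    c1c u v w (x • nil u + y • nil v + t • nil w) = x := by
  have h1' : om v u ≠ 0 := om_ne_comm h1
  unfold c1c
  rw [div_eq_iff (mul_ne_zero h1' h3)]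
  simp [om, nil, Matrix.mulVec, dotProduct, Fin.sum_univ_two]
  ring

/-- The 3-cycle `(0 1 3)`. -/
private def c1r : Equiv.Perm (Fin 4) := Equiv.swap 0 1 * Equiv.swap 1 3

private theorem c1r_sign : Equiv.Perm.sign c1r = 1 := by decide

private theorem c1_three : ∀ τ : Equiv.Perm (Fin 4), Equiv.Perm.sign τ = 1 → τ 2 = 2 →
    τ = 1 ∨ τ = c1r ∨ τ = c1r * c1r := by decide

private def c1n (d : Dt N) : Dt N :=
  (d.1, ⟨d.2.1 * c1r, by rw [Equiv.Perm.sign_mul, d.2.2, c1r_sign]; rfl⟩)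

private theorem c1n_val (d : Dt N) : (c1n d).1 = d.1 ∧ (c1n d).2.1 0 = d.2.1 1 ∧
    (c1n d).2.1 1 = d.2.1 3 ∧ (c1n d).2.1 2 = d.2.1 2 ∧ (c1n d).2.1 3 = d.2.1 0 := by
  refine ⟨rfl, ?_, ?_, ?_, ?_⟩
  · change d.2.1 (c1r 0) = _
    rw [show c1r 0 = 1 by decide]
  · change d.2.1 (c1r 1) = _
    rw [show c1r 1 = 3 by decide]
  · change d.2.1 (c1r 2) = _
    rw [show c1r 2 = 2 by decide]
  · change d.2.1 (c1r 3) = _
    rw [show c1r 3 = 0 by decide]

private theorem c1_filter (d0 : Dt N) :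
    (Finset.univ.filter (fun d : Dt N => d.1 = d0.1 ∧ d.2.1 2 = d0.2.1 2)) =
      {d0, c1n d0, c1n (c1n d0)} := by
  ext d
  simp only [Finset.mem_filter, Finset.mem_univ, true_and, Finset.mem_insert,
    Finset.mem_singleton]
  constructor
  · rintro ⟨h1, h2⟩
    have h := c1_three (d0.2.1⁻¹ * d.2.1)
      (by rw [Equiv.Perm.sign_mul, Equiv.Perm.sign_inv, d0.2.2, d.2.2]; rfl)
      (by rw [Equiv.Perm.mul_apply, h2]; exact d0.2.1.symm_apply_apply 2)
    rcases h with h | h | h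
    · left
      refine Prod.ext h1 (Subtype.ext ?_)
      rw [← mul_one d0.2.1, ← h, mul_inv_cancel_left]
    · right; left
      refine Prod.ext h1 (Subtype.ext ?_)
      change d.2.1 = d0.2.1 * c1r
      rw [← h, mul_inv_cancel_left]
    · right; right
      refine Prod.ext h1 (Subtype.ext ?_)
      change d.2.1 = d0.2.1 * c1r * c1r
      rw [mul_assoc, ← h, mul_inv_cancel_left]
  · rintro (h | h | h)
    · rw [h]; exact ⟨rfl, rfl⟩
    · rw [h]; exact ⟨rfl, (c1n_val d0).2.2.2.1⟩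
    · rw [h]; exact ⟨rfl, ((c1n_val (c1n d0)).2.2.2.1).trans (c1n_val d0).2.2.2.1⟩

private theorem c1_ev (u : Fin N → Fin 4 → Fin 2 → ℂ) (y : Dt N → ℂ) (d0 : Dt N) :
    ev1 u y d0.1 (d0.2.1 2) = y d0 • nil (u d0.1 (d0.2.1 0)) +
      y (c1n d0) • nil (u d0.1 (d0.2.1 1)) + y (c1n (c1n d0)) • nil (u d0.1 (d0.2.1 3)) := by
  unfold ev1
  rw [← Finset.sum_filter, c1_filter]
  have e1 : (c1n d0).2.1 0 = d0.2.1 1 := (c1n_val d0).2.1
  have e2 : (c1n (c1n d0)).2.1 0 = d0.2.1 3 :=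
    ((c1n_val (c1n d0)).2.1).trans (c1n_val d0).2.2.1
  have n1 : d0 ∉ ({c1n d0, c1n (c1n d0)} : Finset (Dt N)) := by
    simp only [Finset.mem_insert, Finset.mem_singleton, not_or]
    constructor
    · intro h
      have h0 : d0.2.1 0 = d0.2.1 1 := by rw [← e1, ← h]
      exact absurd (d0.2.1.injective h0) (by decide)
    · intro h
      have h0 : d0.2.1 0 = d0.2.1 3 := by rw [← e2, ← h]
      exact absurd (d0.2.1.injective h0) (by decide)
  have n2 : c1n d0 ∉ ({c1n (c1n d0)} : Finset (Dt N)) := by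
    simp only [Finset.mem_singleton]
    intro h
    have h0 : d0.2.1 1 = d0.2.1 3 := by rw [← e1, ← e2, ← h]
    exact absurd (d0.2.1.injective h0) (by decide)
  rw [Finset.sum_insert n1, Finset.sum_insert n2, Finset.sum_singleton, e1, e2, ← add_assoc]

private noncomputable def c1y (u : Fin N → Fin 4 → Fin 2 → ℂ) (Y : Fin N → Fin 4 → M2)
    (d : Dt N) : ℂ :=
  c1c (u d.1 (d.2.1 0)) (u d.1 (d.2.1 1)) (u d.1 (d.2.1 3)) (Y d.1 (d.2.1 2))

private theorem c1_Y (T : Tri N) (z : Fin N → ℂ) (u : Fin N → Fin 4 → Fin 2 → ℂ)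
    (hu : IsDec T z u) (Y : Fin N → Fin 4 → M2) (htr : ∀ j i, (Y j i).trace = 0) (d0 : Dt N) :
    Y d0.1 (d0.2.1 2) = c1y u Y d0 • nil (u d0.1 (d0.2.1 0)) +
      c1y u Y (c1n d0) • nil (u d0.1 (d0.2.1 1)) +
      c1y u Y (c1n (c1n d0)) • nil (u d0.1 (d0.2.1 3)) := by
  obtain ⟨a1, a2, a3, a4, a5⟩ := c1n_val d0
  obtain ⟨b1, b2, b3, b4, b5⟩ := c1n_val (c1n d0)
  have e1 : c1y u Y (c1n d0) = c1c (u d0.1 (d0.2.1 1)) (u d0.1 (d0.2.1 3)) (u d0.1 (d0.2.1 0))
      (Y d0.1 (d0.2.1 2)) := by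
    unfold c1y
    rw [a1, a2, a3, a4, a5]
  have e2 : c1y u Y (c1n (c1n d0)) = c1c (u d0.1 (d0.2.1 3)) (u d0.1 (d0.2.1 0))
      (u d0.1 (d0.2.1 1)) (Y d0.1 (d0.2.1 2)) := by
    unfold c1y
    rw [b1, b2, b3, b4, b5, a1, a2, a3, a4, a5]
  rw [e1, e2]
  exact c1_dec _ _ _ _ (hu.ne _ _ _ (dt_ne d0 0 1 (by decide)))
    (hu.ne _ _ _ (dt_ne d0 1 3 (by decide))) (hu.ne _ _ _ (dt_ne d0 0 3 (by decide)))
    (htr _ _)

/-- C1: coordinates of 1-chains. -/
theorem coord1 (T : Tri N) (z : Fin N → ℂ) (g : Fin N → Fin 4 → M2) (u : Fin N → Fin 4 → Fin 2 → ℂ)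
    (hu : IsDec T z u)
    (hg : ∀ j i a, a ≠ i →
      nil (u (T.nbr j i) (T.glue j i a)) = g j i * nil (u j a) * (g j i)⁻¹)
    (Y : Fin N → Fin 4 → M2) (hY : IsChain1 T g Y) :
    ∃ y : Dt N → ℂ, (∀ d, y (T.al d) = -y d) ∧ Y = ev1 u y := by
  have htr : ∀ j i, (Y j i).trace = 0 := fun j i => (hY j i).1
  refine ⟨c1y u Y, ?_, ?_⟩
  · intro d
    obtain ⟨v1, v2, v3, v4, v5⟩ := al_val T d
    have hd := c1_Y T z u hu Y htr d
    have h2 := (hY d.1 (d.2.1 2)).2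
    have hya : c1y u Y (T.al d) = c1c (u (T.nbr d.1 (d.2.1 2)) (T.glue d.1 (d.2.1 2) (d.2.1 0)))
        (u (T.nbr d.1 (d.2.1 2)) (T.glue d.1 (d.2.1 2) (d.2.1 3)))
        (u (T.nbr d.1 (d.2.1 2)) (T.glue d.1 (d.2.1 2) (d.2.1 1)))
        (Y (T.nbr d.1 (d.2.1 2)) (T.glue d.1 (d.2.1 2) (d.2.1 2))) := by
      unfold c1y
      rw [v1, v2, v3, v4, v5]
    have hY2 : Y (T.nbr d.1 (d.2.1 2)) (T.glue d.1 (d.2.1 2) (d.2.1 2)) =
        (-c1y u Y d) • nil (u (T.nbr d.1 (d.2.1 2)) (T.glue d.1 (d.2.1 2) (d.2.1 0))) +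
        (-c1y u Y (c1n (c1n d))) •
          nil (u (T.nbr d.1 (d.2.1 2)) (T.glue d.1 (d.2.1 2) (d.2.1 3))) +
        (-c1y u Y (c1n d)) •
          nil (u (T.nbr d.1 (d.2.1 2)) (T.glue d.1 (d.2.1 2) (d.2.1 1))) := by
      rw [h2, hg _ _ _ (dt_ne d 0 2 (by decide)), hg _ _ _ (dt_ne d 3 2 (by decide)),
        hg _ _ _ (dt_ne d 1 2 (by decide))]
      conv_lhs => rw [hd]
      simp only [mul_add, add_mul, Matrix.mul_smul, Matrix.smul_mul, neg_smul]
      abel
    rw [hya, hY2]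
    refine c1_comb _ _ _ ?_ ?_ _ _ _
    · exact hu.ne _ _ _ (fun h => dt_ne d 0 3 (by decide) ((T.glue d.1 (d.2.1 2)).injective h))
    · exact hu.ne _ _ _ (fun h => dt_ne d 0 1 (by decide) ((T.glue d.1 (d.2.1 2)).injective h))
  · funext j i
    have hex : ∀ i : Fin 4, ∃ π : Equiv.Perm (Fin 4), Equiv.Perm.sign π = 1 ∧ π 2 = i := by
      decide
    obtain ⟨π, h1, h2⟩ := hex i
    have hA := c1_Y T z u hu Y htr (j, ⟨π, h1⟩)
    have hB := c1_ev u (c1y u Y) (j, ⟨π, h1⟩)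
    rw [← hA] at hB
    simp only [h2] at hB
    exact hB.symm

end Pool.Agent.OL36
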