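import Pool.Agent.LibOL36.S0
import Pool.Agent.LibOL36.E2

/-! # Row C2: coordinates of 2-chains

Plan. Local lemma: for `a, b` with `om a b ≠ 0` every traceless `X` is uniquely
`X = α • nil a + β • nil b + η • Hm a b` (`det_edge ≠ 0`; explicit: `α = om b (X *ᵥ b) / (om b a * om a b)`,
`β` symmetric, `η` from the rest; `Hm a b` has eigenvectors `a, b`). For `a ≠ b` let
`X j a b = x j a b • nil (u a) - x' j a b • nil (u b) + h j a b • Hm (u a) (u b)`; `X j b a = -X j a b` and `hm_comm`
give `x' j a b = x j b a` and `h j b a = h j a b`. Gluing across `i ∉ {a, b}`: `g * nil (u a) * g⁻¹ = nil (u' (σ a))` (hg), and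
`g * Hm (u a) (u b) * g⁻¹ = Hm (u' (σ a)) (u' (σ b))`: take the third vertex `c` of the face, `hm_face` expresses
`Hm` by the three nilpotents with coefficients `Lk / 2`, which are preserved (`hu.mat`). So `x` and `h` are
invariant under the gluings, hence constant on the classes: `x j a b` depends only on `vmE T E j a b` (`vmE_iff`, induction
over `OE`), `h j a b` only on `edge j a b` (`edge_OE` and symmetry). Define `f v := x (chosen representative)`:
`f (e, true) := x (E e)`, `f (e, false) := x (reverse of E e)`, `y e := h (E e)` (`vmE_E`, `vmE_iff`, `hE`). -/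

set_option autoImplicit false

open Matrix

namespace Pool.Agent.OL36

variable {N : ℕ}


/-- The coefficient of `nil a`. -/
private noncomputable def c2al (a b : Fin 2 → ℂ) (X : M2) : ℂ :=
  om b (X *ᵥ b) / (om a b * om b a)

/-- The coefficient of `Hm a b`. -/
private noncomputable def c2et (a b : Fin 2 → ℂ) (X : M2) : ℂ :=
  2 * om b (X *ᵥ a) / om b a

private theorem c2_dec (a b : Fin 2 → ℂ) (h : om a b ≠ 0) (X : M2) (hX : X.trace = 0) :
    X = c2al a b X • nil a + c2al b a X • nil b + c2et a b X • Hm a b := by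
  have h' : om b a ≠ 0 := om_ne_comm h
  have h11 : X 1 1 = -X 0 0 := by
    rw [Matrix.trace_fin_two] at hX
    linear_combination hX
  apply M2_ext
  intro i j
  fin_cases i <;> fin_cases j <;>
    simp [c2al, c2et, Hm, nil, h11] <;>
    field_simp <;> unfold om at * <;> simp <;> ring

private theorem c2al_eval (a b : Fin 2 → ℂ) (h : om a b ≠ 0) (p q r : ℂ) :
    c2al a b (p • nil a + q • nil b + r • Hm a b) = p := by
  have h' : om b a ≠ 0 := om_ne_comm h
  rw [c2al, div_eq_iff (mul_ne_zero h h')]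
  simp [Hm, nil, Matrix.mulVec, dotProduct, Fin.sum_univ_two, om]
  unfold om at h
  field_simp
  ring

private theorem c2et_eval (a b : Fin 2 → ℂ) (h : om a b ≠ 0) (p q r : ℂ) :
    c2et a b (p • nil a + q • nil b + r • Hm a b) = r := by
  have h' : om b a ≠ 0 := om_ne_comm h
  have ht : 1 / (2 * om a b) * (2 * om a b) = 1 := by field_simp
  rw [c2et, div_eq_iff h', Hm]
  generalize 1 / (2 * om a b) = t at ht
  unfold om at ht
  simp [nil, Matrix.mulVec, dotProduct, Fin.sum_univ_two, om]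
  linear_combination (r * (b 0 * a 1 - b 1 * a 0)) * ht

private theorem c2al_neg (a b : Fin 2 → ℂ) (X : M2) : c2al a b (-X) = -c2al a b X := by
  simp [c2al, Matrix.neg_mulVec, om]
  ring

private theorem c2et_swap (a b : Fin 2 → ℂ) (h : om a b ≠ 0) (X : M2) (hX : X.trace = 0) :
    c2et b a (-X) = c2et a b X := by
  have h' : om b a ≠ 0 := om_ne_comm h
  have h11 : X 1 1 = -X 0 0 := by
    rw [Matrix.trace_fin_two] at hX
    linear_combination hX
  rw [c2et, c2et, div_eq_div_iff h h']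
  simp [Matrix.mulVec, dotProduct, Fin.sum_univ_two, h11, om]
  ring

private theorem c2_third : ∀ i a b : Fin 4, i ≠ a → i ≠ b → a ≠ b →
    ∃ c, c ≠ i ∧ c ≠ a ∧ c ≠ b := by decide

section

variable (T : Tri N) (u : Fin N → Fin 4 → Fin 2 → ℂ) (X : Fin N → Fin 4 → Fin 4 → M2)

open Classical in
private noncomputable def c2F (s : Fin N × Fin 4 × Fin 4) : ℂ :=
  if s.2.1 = s.2.2 then 0 else c2al (u s.1 s.2.1) (u s.1 s.2.2) (X s.1 s.2.1 s.2.2)

open Classical in
private noncomputable def c2H (s : Fin N × Fin 4 × Fin 4) : ℂ :=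
  if s.2.1 = s.2.2 then 0 else c2et (u s.1 s.2.1) (u s.1 s.2.2) (X s.1 s.2.1 s.2.2)

private theorem c2_glue (z : Fin N → ℂ) (g : Fin N → Fin 4 → M2) (hu : IsDec T z u)
    (hg : ∀ j i a, a ≠ i →
      nil (u (T.nbr j i) (T.glue j i a)) = g j i * nil (u j a) * (g j i)⁻¹)
    (hX : IsChain2 T g X) (j : Fin N) (i a b : Fin 4) (hab : a ≠ b) (hai : a ≠ i) (hbi : b ≠ i) :
    c2F u X (T.nbr j i, T.glue j i a, T.glue j i b) = c2F u X (j, a, b) ∧
    c2H u X (T.nbr j i, T.glue j i a, T.glue j i b) = c2H u X (j, a, b) := by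
  have hab' : T.glue j i a ≠ T.glue j i b := fun h => hab ((T.glue j i).injective h)
  obtain ⟨c, hci, hca, hcb⟩ := c2_third i a b hai.symm hbi.symm hab
  have hac' : T.glue j i a ≠ T.glue j i c := fun h => hca.symm ((T.glue j i).injective h)
  have hbc' : T.glue j i b ≠ T.glue j i c := fun h => hcb.symm ((T.glue j i).injective h)
  have hH : g j i * Hm (u j a) (u j b) * (g j i)⁻¹ =
      Hm (u (T.nbr j i) (T.glue j i a)) (u (T.nbr j i) (T.glue j i b)) := by
    rw [hm_face (u j a) (u j b) (u j c) (hu.ne j a b hab) (hu.ne j b c hcb.symm)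
        (hu.ne j a c hca.symm),
      hm_face (u (T.nbr j i) (T.glue j i a)) (u (T.nbr j i) (T.glue j i b))
        (u (T.nbr j i) (T.glue j i c)) (hu.ne _ _ _ hab') (hu.ne _ _ _ hbc') (hu.ne _ _ _ hac'),
      hu.mat j i c a b hci hai hbi hca hcb hab, hu.mat j i a b c hai hbi hci hab hca.symm hcb.symm,
      hu.mat j i b c a hbi hci hai hcb.symm hab.symm hca, hg j i a hai, hg j i b hbi, hg j i c hci]
    simp only [mul_sub, sub_mul, mul_smul_comm, smul_mul_assoc]
  have hdec := c2_dec (u j a) (u j b) (hu.ne j a b hab) (X j a b) (hX.1 j a b hab).1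
  have hX' : X (T.nbr j i) (T.glue j i a) (T.glue j i b) =
      c2al (u j a) (u j b) (X j a b) • nil (u (T.nbr j i) (T.glue j i a)) +
      c2al (u j b) (u j a) (X j a b) • nil (u (T.nbr j i) (T.glue j i b)) +
      c2et (u j a) (u j b) (X j a b) •
        Hm (u (T.nbr j i) (T.glue j i a)) (u (T.nbr j i) (T.glue j i b)) := by
    rw [hX.2 j i a b hab hai hbi, ← hH, hg j i a hai, hg j i b hbi]
    conv_lhs => rw [hdec]
    simp only [mul_add, add_mul, mul_smul_comm, smul_mul_assoc]
  have hne := hu.ne (T.nbr j i) _ _ hab'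
  constructor
  · rw [c2F, c2F, if_neg hab', if_neg hab]
    change c2al _ _ (X (T.nbr j i) (T.glue j i a) (T.glue j i b)) = c2al _ _ (X j a b)
    rw [hX']
    exact c2al_eval _ _ hne _ _ _
  · rw [c2H, c2H, if_neg hab', if_neg hab]
    change c2et _ _ (X (T.nbr j i) (T.glue j i a) (T.glue j i b)) = c2et _ _ (X j a b)
    rw [hX']
    exact c2et_eval _ _ hne _ _ _

private theorem c2_OE (z : Fin N → ℂ) (g : Fin N → Fin 4 → M2) (hu : IsDec T z u)
    (hg : ∀ j i a, a ≠ i →
      nil (u (T.nbr j i) (T.glue j i a)) = g j i * nil (u j a) * (g j i)⁻¹)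
    (hX : IsChain2 T g X) (s s' : Fin N × Fin 4 × Fin 4) (h : T.OE s s') :
    c2F u X s = c2F u X s' ∧ c2H u X s = c2H u X s' := by
  induction h with
  | rel x y hxy =>
    obtain ⟨i, h1, h2, rfl⟩ := hxy
    obtain ⟨j, a, b⟩ := x
    by_cases hab : a = b
    · subst hab
      simp [c2F, c2H]
    · have := c2_glue T u X z g hu hg hX j i a b hab h1.symm h2.symm
      exact ⟨this.1.symm, this.2.symm⟩
  | refl x => exact ⟨rfl, rfl⟩
  | symm x y _ ih => exact ⟨ih.1.symm, ih.2.symm⟩
  | trans x y w _ _ ih1 ih2 => exact ⟨ih1.1.trans ih2.1, ih1.2.trans ih2.2⟩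

private theorem c2H_swap (z : Fin N → ℂ) (g : Fin N → Fin 4 → M2) (hu : IsDec T z u)
    (hX : IsChain2 T g X) (j : Fin N) (a b : Fin 4) (hab : a ≠ b) :
    c2H u X (j, b, a) = c2H u X (j, a, b) := by
  rw [c2H, c2H, if_neg hab, if_neg hab.symm]
  change c2et _ _ (X j b a) = c2et _ _ (X j a b)
  rw [(hX.1 j a b hab).2]
  exact c2et_swap _ _ (hu.ne j a b hab) _ (hX.1 j a b hab).1

end

/-- C2: coordinates of 2-chains. -/
theorem coord2 (T : Tri N) (z : Fin N → ℂ) (g : Fin N → Fin 4 → M2) (u : Fin N → Fin 4 → Fin 2 → ℂ)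
    (hu : IsDec T z u)
    (hg : ∀ j i a, a ≠ i →
      nil (u (T.nbr j i) (T.glue j i a)) = g j i * nil (u j a) * (g j i)⁻¹)
    (E : Fin N → Fin N × Fin 4 × Fin 4) (hE : IsEdges T E)
    (X : Fin N → Fin 4 → Fin 4 → M2) (hX : IsChain2 T g X) :
    ∃ (f : Fin N × Bool → ℂ) (y : Fin N → ℂ), ∀ j a b, a ≠ b → X j a b = ev2 T E u f y j a b := by
  let f : Fin N × Bool → ℂ := fun v =>
    if v.2 = true then c2F u X (E v.1) else c2F u X ((E v.1).1, (E v.1).2.2, (E v.1).2.1)
  let y : Fin N → ℂ := fun e => c2H u X (E e)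
  have key : ∀ j a b, a ≠ b → f (vmE T E j a b) = c2F u X (j, a, b) ∧
      y (T.edge j a b) = c2H u X (j, a, b) := by
    intro j a b hab
    have hE1 := hE (T.edge j a b)
    have h1 := vmE_E T E hE (T.edge j a b)
    by_cases hv : (vmE T E j a b).2 = true
    · have h2 : vmE T E j a b = (T.edge j a b, true) := Prod.ext rfl hv
      have h3 : T.OE (E (T.edge j a b)) (j, a, b) :=
        (vmE_iff T E hE _ _ _ j a b hE1.1 hab).1 (h1.1.trans h2.symm)
      have h4 := c2_OE T u X z g hu hg hX _ _ h3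
      refine ⟨?_, h4.2⟩
      rw [h2]
      simp only [f, if_true]
      exact h4.1
    · have hv' : (vmE T E j a b).2 = false := by simpa using hv
      have h2 : vmE T E j a b = (T.edge j a b, false) := Prod.ext rfl hv'
      have h3 : T.OE ((E (T.edge j a b)).1, (E (T.edge j a b)).2.2, (E (T.edge j a b)).2.1)
          (j, a, b) :=
        (vmE_iff T E hE _ _ _ j a b hE1.1.symm hab).1 (h1.2.trans h2.symm)
      have h4 := c2_OE T u X z g hu hg hX _ _ h3
      have h5 := c2H_swap T u X z g hu hX (E (T.edge j a b)).1 (E (T.edge j a b)).2.1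
        (E (T.edge j a b)).2.2 hE1.1
      refine ⟨?_, h5.symm.trans h4.2⟩
      rw [h2]
      simp only [f, Bool.false_eq_true, if_false]
      exact h4.1
  refine ⟨f, y, fun j a b hab => ?_⟩
  rw [ev2, (key j a b hab).1, (key j a b hab).2, (key j b a hab.symm).1]
  have hdec := c2_dec (u j a) (u j b) (hu.ne j a b hab) (X j a b) (hX.1 j a b hab).1
  have h6 : c2F u X (j, a, b) = c2al (u j a) (u j b) (X j a b) := by
    rw [c2F, if_neg hab]
  have h7 : c2F u X (j, b, a) = -c2al (u j b) (u j a) (X j a b) := by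
    rw [c2F, if_neg hab.symm]
    change c2al _ _ (X j b a) = _
    rw [(hX.1 j a b hab).2, c2al_neg]
  have h8 : c2H u X (j, a, b) = c2et (u j a) (u j b) (X j a b) := by
    rw [c2H, if_neg hab]
  rw [h6, h7, h8, neg_smul, sub_neg_eq_add]
  exact hdec


end Pool.Agent.OL36
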