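import Pool.Agent.LibOL36.Sq

/-! # Row CO: the linear algebra of the Neumann-Zagier matrix

Plan. Fix a bijection `ε : Fin N ⊕ κ ≃ Q` (`hcard`) and work with square matrices over `Fin N ⊕ κ` (`dsq_eq`, `dsq_reindex`). For
`x : Q → ℂ` let `Φ x := det` of the matrix with rows: `inl e` (`e ≠ e₀`): `∑ j, A e j • r j`; `inl e₀`: `x`; `inr k`: `c k`. `Φ` is linear
(`Matrix.det_updateRow_add`, `det_updateRow_smul`). (1) If `∑ τ, x τ = 0` then `Φ x = 0`: the all-ones vector is in the
kernel (`Matrix.exists_mulVec_eq_zero_iff`, `hA`, `hc`; `Q` is non-empty because of `τ0`). So `Φ x = (∑ x) Φ (e_{τ0})`.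
(2) `Φ (∑ j, C j • r j) = det (A.updateRow e₀ C) * det (rows r, c)`: the matrix is
`fromBlocks (A.updateRow e₀ C) 0 0 1 * (rows r, c)`. Hence `det (A.updateRow e₀ C) * D = (∑ C j ∑ r j) * Φ (e_{τ0})`, square it, and
`Φ(e_{τ0})^2 = dsq` of the last matrix by reindexing the rows `Unit ⊕ ({e // e ≠ e₀} ⊕ κ) ≃ Fin N ⊕ κ`. -/

set_option autoImplicit false

open Matrix

namespace Pool.Agent.OL36

/-- The comparison of the two determinants: the linear algebra of the Neumann-Zagier matrix. -/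
theorem core {N : ℕ} {Q κ : Type} [Fintype Q] [DecidableEq Q] [Fintype κ] [DecidableEq κ]
    (A : Matrix (Fin N) (Fin N) ℂ) (e₀ : Fin N) (C : Fin N → ℂ) (r : Fin N → Q → ℂ)
    (c : κ → Q → ℂ) (τ0 : Q) (hcard : N + Fintype.card κ = Fintype.card Q)
    (hA : ∀ e, ∑ j, A e j * ∑ τ, r j τ = 0) (hc : ∀ k, ∑ τ, c k τ = 0) :
    (A.updateRow e₀ C).det ^ 2 * dsq (fun (x : Fin N ⊕ κ) (τ : Q) => Sum.elim r c x τ) =
    (∑ j, C j * ∑ τ, r j τ) ^ 2 *
      dsq (fun (x : Unit ⊕ ({e : Fin N // e ≠ e₀} ⊕ κ)) (τ : Q) =>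
        Sum.elim (fun _ => if τ = τ0 then (1 : ℂ) else 0)
          (Sum.elim (fun e => ∑ j, A e.1 j * r j τ) (fun k => c k τ)) x) := by
  have hcard' : Fintype.card (Fin N ⊕ κ) = Fintype.card Q := by
    rw [Fintype.card_sum, Fintype.card_fin, hcard]
  let ε : Fin N ⊕ κ ≃ Q := Fintype.equivOfCardEq hcard'
  set M : Matrix (Fin N ⊕ κ) Q ℂ := fun (x : Fin N ⊕ κ) (τ : Q) => Sum.elim r c x τ with hM
  let L : Matrix (Fin N ⊕ κ) (Fin N ⊕ κ) ℂ := fromBlocks (A.updateRow e₀ C) 0 0 1
  have hL : L.det = (A.updateRow e₀ C).det := by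
    simp only [L, det_fromBlocks_zero₁₂, det_one, mul_one]
  have hLM : ∀ e τ, (L * M) (Sum.inl e) τ = ∑ j, (A.updateRow e₀ C) e j * r j τ := by
    intro e τ
    rw [mul_apply, Fintype.sum_sum_type]
    simp [L, M]
  have hLMk : ∀ k τ, (L * M) (Sum.inr k) τ = c k τ := by
    intro k τ
    rw [mul_apply, Fintype.sum_sum_type]
    simp [L, M, one_apply]
  let δ : Q → ℂ := fun τ => if τ = τ0 then 1 else 0
  have hδ : ∑ τ, δ τ = 1 := by simp [δ]
  set s : ℂ := ∑ j, C j * ∑ τ, r j τ with hs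
  let W : Matrix (Fin N ⊕ κ) Q ℂ := (L * M).updateRow (Sum.inl e₀) δ
  have h1 : dsq (L * M) = (A.updateRow e₀ C).det ^ 2 * dsq M := by rw [dsq_mul_left, hL]
  have hsum0 : ∑ τ, (L * M) (Sum.inl e₀) τ = s := by
    simp only [hLM, updateRow_self]
    rw [Finset.sum_comm, hs]
    exact Finset.sum_congr rfl fun j _ => (Finset.mul_sum _ _ _).symm
  have hsume : ∀ e, e ≠ e₀ → ∑ τ, (L * M) (Sum.inl e) τ = 0 := by
    intro e he
    simp only [hLM, updateRow_ne he]
    rw [Finset.sum_comm, ← hA e]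
    exact Finset.sum_congr rfl fun j _ => (Finset.mul_sum _ _ _).symm
  have hsumk : ∀ k, ∑ τ, (L * M) (Sum.inr k) τ = 0 := by
    intro k
    simp only [hLMk]
    exact hc k
  have h2 : dsq (L * M) = s ^ 2 * dsq W := by
    rw [dsq_eq ε (L * M), dsq_eq ε W]
    have key : ((L * M).submatrix id ε).det = s * (W.submatrix id ε).det := by
      set W' : Matrix (Fin N ⊕ κ) (Fin N ⊕ κ) ℂ := (L * M).submatrix id ε with hW'
      let v : Fin N ⊕ κ → ℂ := fun p => δ (ε p)
      let u : Fin N ⊕ κ → ℂ := W' (Sum.inl e₀) - s • v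
      have hW : W.submatrix id ε = W'.updateRow (Sum.inl e₀) v := by
        ext i p
        rcases eq_or_ne i (Sum.inl e₀) with rfl | hi
        · simp [W, v]
        · simp [W, hi, W']
      have hself : W' = W'.updateRow (Sum.inl e₀) (u + s • v) := by
        have : u + s • v = W' (Sum.inl e₀) := sub_add_cancel _ _
        rw [this, updateRow_eq_self]
      have hu : (W'.updateRow (Sum.inl e₀) u).det = 0 := by
        rw [← exists_mulVec_eq_zero_iff]
        refine ⟨fun _ => 1, ?_, ?_⟩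
        · intro h
          exact one_ne_zero (congrFun h (Sum.inl e₀))
        · funext i
          rw [Pi.zero_apply, mulVec, dotProduct]
          simp only [mul_one]
          rcases eq_or_ne i (Sum.inl e₀) with rfl | hi
          · simp only [updateRow_self]
            have e1 : ∑ p, u p = ∑ p, (L * M) (Sum.inl e₀) (ε p) - s * ∑ p, δ (ε p) := by
              rw [Finset.mul_sum, ← Finset.sum_sub_distrib]
              rfl
            rw [e1, Equiv.sum_comp ε (fun τ => (L * M) (Sum.inl e₀) τ), Equiv.sum_comp ε δ,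
              hsum0, hδ]
            ring
          · simp only [updateRow_ne hi]
            have e2 : ∑ p, W' i p = ∑ τ, (L * M) i τ :=
              Equiv.sum_comp ε (fun τ => (L * M) i τ)
            rw [e2]
            rcases i with e | k
            · exact hsume e (fun h => hi (by rw [h]))
            · exact hsumk k
      rw [hW]
      conv_lhs => rw [hself]
      rw [det_updateRow_add, hu, zero_add, det_updateRow_smul]
    rw [key]
    ring
  let a : Unit ⊕ ({e : Fin N // e ≠ e₀} ⊕ κ) ≃ Fin N ⊕ κ :=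
    (Equiv.sumAssoc Unit {e : Fin N // e ≠ e₀} κ).symm.trans
      (Equiv.sumCongr ((Equiv.sumCongr (Equiv.ofUnique Unit {e : Fin N // e = e₀})
        (Equiv.refl {e : Fin N // e ≠ e₀})).trans (Equiv.sumCompl (fun e => e = e₀)))
        (Equiv.refl κ))
  have ha1 : ∀ x, a (Sum.inl x) = Sum.inl e₀ := by
    intro x
    show Sum.inl ((Equiv.ofUnique Unit {e : Fin N // e = e₀} x : {e : Fin N // e = e₀}) : Fin N)
      = Sum.inl e₀
    rw [(Equiv.ofUnique Unit {e : Fin N // e = e₀} x).2]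
  have ha2 : ∀ x, a (Sum.inr (Sum.inl x)) = Sum.inl x.1 := fun x => rfl
  have ha3 : ∀ x, a (Sum.inr (Sum.inr x)) = Sum.inr x := fun x => rfl
  have h3 : dsq W = dsq (fun (x : Unit ⊕ ({e : Fin N // e ≠ e₀} ⊕ κ)) (τ : Q) =>
        Sum.elim (fun _ => if τ = τ0 then (1 : ℂ) else 0)
          (Sum.elim (fun e => ∑ j, A e.1 j * r j τ) (fun k => c k τ)) x) := by
    rw [← dsq_reindex a (Equiv.refl Q) W]
    congr 1
    funext x τ
    rcases x with x | x | x
    · simp only [submatrix_apply, ha1, Equiv.refl_apply, W, updateRow_self, δ, Sum.elim_inl]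
    · simp only [submatrix_apply, ha2, Equiv.refl_apply, W, Sum.elim_inr, Sum.elim_inl]
      rw [updateRow_ne (fun h => x.2 (Sum.inl_injective h)), hLM, updateRow_ne x.2]
    · simp only [submatrix_apply, ha3, Equiv.refl_apply, W, Sum.elim_inr]
      rw [updateRow_ne (by simp), hLMk]
  rw [← h1, h2, h3]

end Pool.Agent.OL36
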