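import Pool.Agent.LibOL36.TDefs

/-! # Row D1: decoration (2x2 matrices)

Plan. `nil v = v ω(v, ·)`, so `nil (c • v) = c ^ 2 • nil v`. For `(j, a)` take `s ≠ 0` with
`P j a = s • nil (pt (z j) a)` and a square root `q ^ 2 = s` (`IsAlgClosed.exists_pow_nat_eq` or
`Complex.cpow`), `u j a := q • pt (z j) a`. Then `P j a = nil (u j a)`.
`ne`: `om (pt z a) (pt z b) ≠ 0` for `a ≠ b` (`fin_cases`, uses `z ≠ 0, 1`; values: 01: -1, 02: -1, 03: -z,
12: 1, 13: 1, 23: 1 - z), `om (q • x) (q' • y) = q * q' * om x y`.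
`cr`: `fin_cases`-free computation: `om (u 0) (u 2) = q0 q2 * (-1)` etc.; both sides are `q0 q1 q2 q3 * z`.
`mat`: Lemma A: for `g` with `det g ≠ 0`: `nil (g *ᵥ v) = g.det • (g * nil v * g⁻¹)` (prove
`nil (g *ᵥ v) * g = g.det • (g * nil v)` by `ext; fin_cases; simp; ring`, then multiply by `g⁻¹`).
Lemma B: `nil x = nil y → x = y ∨ x = -y`. For the three vertices `x = a, b, c` of the face (all `≠ i`):
`nil (u' (σ x)) = g * nil (u x) * g⁻¹` (hP.2), hence, `δ ^ 2 = det g`,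
`nil (δ • u' (σ x)) = nil (g *ᵥ u x)`, so `δ • u' (σ x) = ± g *ᵥ u x`. `om (g *ᵥ x) (g *ᵥ y) = g.det * om x y`.
`Lk (s • a) (t • b) (r • c) = Lk a b c / s ^ 2` for non-zero `s, t, r` (no condition on the `om`: unfold, `field_simp`
needs `om ≠ 0`, which you have). With `s, t, r = ± δ⁻¹`: `Lk (u' σa) (u' σb) (u' σc) = δ ^ 2 * Lk (g a) (g b) (g c) =
δ ^ 2 * Lk a b c / det g = Lk a b c`. -/

set_option autoImplicit false

open Matrix

namespace Pool.Agent.OL36

variable {N : ℕ}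

private theorem nil_smul (c : ℂ) (v : Fin 2 → ℂ) : nil (c • v) = c ^ 2 • nil v := by
  apply M2_ext
  intro i j
  fin_cases i <;> fin_cases j <;> simp [nil] <;> ring

private theorem om_smul (c d : ℂ) (v w : Fin 2 → ℂ) : om (c • v) (d • w) = c * d * om v w := by
  simp only [om, Pi.smul_apply, smul_eq_mul]
  ring

private theorem om_mulVec (g : M2) (v w : Fin 2 → ℂ) :
    om (g *ᵥ v) (g *ᵥ w) = g.det * om v w := by
  rw [Matrix.det_fin_two]
  simp only [om, Matrix.mulVec, dotProduct, Fin.sum_univ_two]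
  ring

private theorem nil_mulVec_mul (g : M2) (v : Fin 2 → ℂ) :
    nil (g *ᵥ v) * g = g.det • (g * nil v) := by
  apply M2_ext
  intro i j
  rw [Matrix.det_fin_two]
  fin_cases i <;> fin_cases j <;>
    simp [nil, Matrix.mulVec, dotProduct, Matrix.mul_apply, Fin.sum_univ_two] <;> ring

private theorem nil_mulVec (g : M2) (hg : g.det ≠ 0) (v : Fin 2 → ℂ) :
    nil (g *ᵥ v) = g.det • (g * nil v * g⁻¹) := by
  have hu : IsUnit g.det := isUnit_iff_ne_zero.mpr hg
  have h := nil_mulVec_mul g v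
  calc nil (g *ᵥ v) = nil (g *ᵥ v) * g * g⁻¹ := by
        rw [Matrix.mul_assoc, Matrix.mul_nonsing_inv g hu, Matrix.mul_one]
    _ = g.det • (g * nil v * g⁻¹) := by rw [h, Matrix.smul_mul]

private theorem nil_eq {x y : Fin 2 → ℂ} (h : nil x = nil y) : x = y ∨ x = -y := by
  have h00 : x 0 * x 1 = y 0 * y 1 := by
    have := congrFun (congrFun h 1) 1
    simpa [nil] using this
  have h01 : x 0 * x 0 = y 0 * y 0 := by
    have := congrFun (congrFun h 0) 1
    simpa [nil] using this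
  have h10 : x 1 * x 1 = y 1 * y 1 := by
    have := congrFun (congrFun h 1) 0
    simpa [nil] using this
  have e0 : x 0 = y 0 ∨ x 0 = -y 0 := mul_self_eq_mul_self_iff.mp h01
  have e1 : x 1 = y 1 ∨ x 1 = -y 1 := mul_self_eq_mul_self_iff.mp h10
  by_cases hy : y 0 = 0
  · have hx : x 0 = 0 := by rcases e0 with h | h <;> simp [h, hy]
    rcases e1 with h1 | h1
    · left; ext i; fin_cases i
      · simp [hx, hy]
      · simpa using h1
    · right; ext i; fin_cases i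
      · simp [hx, hy]
      · simpa using h1
  · rcases e0 with h0 | h0
    · left
      have h1 : x 1 = y 1 := by
        rw [h0] at h00
        exact mul_left_cancel₀ hy h00
      ext i; fin_cases i
      · simpa using h0
      · simpa using h1
    · right
      have h1 : x 1 = - y 1 := by
        rw [h0] at h00
        apply mul_left_cancel₀ hy
        linear_combination -h00
      ext i; fin_cases i
      · simpa using h0
      · simpa using h1

private theorem om_pt (z : ℂ) (h0 : z ≠ 0) (h1 : z ≠ 1) (a b : Fin 4) (hab : a ≠ b) :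
    om (pt z a) (pt z b) ≠ 0 := by
  have h2 : 1 - z ≠ 0 := sub_ne_zero.mpr (Ne.symm h1)
  have h3 : z - 1 ≠ 0 := sub_ne_zero.mpr h1
  fin_cases a <;> fin_cases b <;> simp [om, pt, h0, h2, h3] at hab ⊢

private theorem Lk_smul (s t r : ℂ) (hs : s ≠ 0) (ht : t ≠ 0) (hr : r ≠ 0)
    (a b c : Fin 2 → ℂ) : Lk (s • a) (t • b) (r • c) = Lk a b c / s ^ 2 := by
  unfold Lk
  rw [om_smul, om_smul, om_smul]
  by_cases h1 : om a b = 0
  · simp [h1]
  by_cases h2 : om a c = 0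
  · simp [h2]
  field_simp

private theorem Lk_mulVec (g : M2) (hg : g.det ≠ 0) (a b c : Fin 2 → ℂ) :
    Lk (g *ᵥ a) (g *ᵥ b) (g *ᵥ c) = Lk a b c / g.det := by
  unfold Lk
  rw [om_mulVec, om_mulVec, om_mulVec]
  by_cases h1 : om a b = 0
  · simp [h1]
  by_cases h2 : om a c = 0
  · simp [h2]
  field_simp

private theorem exists_scale (g : M2) (hg : g.det ≠ 0) (x y : Fin 2 → ℂ)
    (h : nil y = g * nil x * g⁻¹) :
    ∃ s : ℂ, s ≠ 0 ∧ s ^ 2 = (g.det)⁻¹ ∧ y = s • (g *ᵥ x) := by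
  obtain ⟨δ, hδ⟩ := IsAlgClosed.exists_pow_nat_eq g.det (n := 2) (by norm_num)
  have hδ0 : δ ≠ 0 := by
    rintro rfl
    apply hg
    rw [← hδ]; simp
  have h1 : nil (δ • y) = nil (g *ᵥ x) := by
    rw [nil_smul, hδ, nil_mulVec g hg, h]
  rcases nil_eq h1 with h2 | h2
  · refine ⟨δ⁻¹, inv_ne_zero hδ0, by rw [inv_pow, hδ], ?_⟩
    rw [← h2, smul_smul, inv_mul_cancel₀ hδ0, one_smul]
  · refine ⟨-δ⁻¹, neg_ne_zero.mpr (inv_ne_zero hδ0), by rw [neg_sq, inv_pow, hδ], ?_⟩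
    have h3 : g *ᵥ x = -(δ • y) := by rw [h2, neg_neg]
    rw [h3, neg_smul, smul_neg, neg_neg, smul_smul, inv_mul_cancel₀ hδ0, one_smul]

/-- D1: decoration. -/
theorem exists_dec (T : Tri N) (z : Fin N → ℂ) (hz : ∀ j, z j ≠ 0 ∧ z j ≠ 1)
    (g P : Fin N → Fin 4 → M2) (hg : IsHol T z g) (hP : IsPar T z g P) :
    ∃ u : Fin N → Fin 4 → Fin 2 → ℂ, IsDec T z u ∧ ∀ j a, P j a = nil (u j a) := by
  have hs : ∀ j a, ∃ q : ℂ, q ≠ 0 ∧ P j a = nil (q • pt (z j) a) := by
    intro j a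
    obtain ⟨s, hs0, hs⟩ := hP.1 j a
    obtain ⟨q, hq⟩ := IsAlgClosed.exists_pow_nat_eq s (n := 2) (by norm_num)
    refine ⟨q, ?_, ?_⟩
    · rintro rfl
      apply hs0
      rw [← hq]; simp
    · rw [nil_smul, hq, hs]
  choose q hq0 hq using hs
  refine ⟨fun j a => q j a • pt (z j) a, ⟨?_, ?_, ?_⟩, hq⟩
  · intro j a b hab
    rw [om_smul]
    exact mul_ne_zero (mul_ne_zero (hq0 j a) (hq0 j b)) (om_pt (z j) (hz j).1 (hz j).2 a b hab)
  · intro j i a b c ha hb hc _ _ _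
    have hdet := (hg j i).1
    have key : ∀ x, x ≠ i → ∃ s : ℂ, s ≠ 0 ∧ s ^ 2 = ((g j i).det)⁻¹ ∧
        q (T.nbr j i) (T.glue j i x) • pt (z (T.nbr j i)) (T.glue j i x) =
          s • ((g j i) *ᵥ (q j x • pt (z j) x)) := by
      intro x hx
      apply exists_scale (g j i) hdet
      rw [← hq, ← hq]
      exact hP.2 j i x hx
    obtain ⟨s, hs0, hs2, hs⟩ := key a ha
    obtain ⟨t, ht0, _, ht⟩ := key b hb
    obtain ⟨r, hr0, _, hr⟩ := key c hc
    rw [hs, ht, hr, Lk_smul s t r hs0 ht0 hr0, Lk_mulVec (g j i) hdet, hs2]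
    field_simp
  · intro j
    simp only [om_smul]
    simp [om, pt]
    ring

end Pool.Agent.OL36
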