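import Mathlib

/-!
The 1-loop conjecture: ideal triangulations, gluing equations, peripheral curves, the 1-loop
invariant and the adjoint torsion.

A flag `(j, π)` is a tetrahedron `j` with an ordering `(a, b, c, d) = (π 0, π 1, π 2, π 3)` of its
four vertices.
-/

set_option autoImplicit false

open Matrix

namespace Pool.Agent.OL36

/-- A tetrahedron together with an ordering of its vertices. -/
abbrev Flag (N : ℕ) := Fin N × Equiv.Perm (Fin 4)

/-- An oriented one-cusped ideal triangulation with `N` tetrahedra `0, ..., N-1`, each with vertices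
`0, 1, 2, 3` (ordered compatibly with the orientation), and with `N` edges.
The face of the tetrahedron `j` opposite to the vertex `i` is glued to the face of the
tetrahedron `nbr j i` opposite to the vertex `glue j i i`; a vertex `a ≠ i` of the face goes to the
vertex `glue j i a`. The gluings reverse the orientation of the faces: the permutation `glue j i` is
odd. `edge j a b` is the number of the class of the edge `ab` of the tetrahedron `j` (there are
exactly `N` classes) and the link of the ideal vertex is connected (one cusp).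
No edge is identified with itself reversed (this follows from `odd` and `ne_self`), so the link is a
closed connected oriented surface with `2 N` vertices, `6 N` sides and `4 N` triangles: a torus. The
complement of the vertices is an oriented manifold `M`, the interior of a compact manifold with
boundary the torus. -/
structure Tri (N : ℕ) where
  nbr : Fin N → Fin 4 → Fin N
  glue : Fin N → Fin 4 → Equiv.Perm (Fin 4)
  nbr_nbr : ∀ j i, nbr (nbr j i) (glue j i i) = j
  glue_glue : ∀ j i, glue (nbr j i) (glue j i i) = (glue j i)⁻¹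
  odd : ∀ j i, Equiv.Perm.sign (glue j i) = -1
  ne_self : ∀ j i, (nbr j i, glue j i i) ≠ (j, i)
  edge : Fin N → Fin 4 → Fin 4 → Fin N
  edge_eq : ∀ j a b j' a' b', a ≠ b → a' ≠ b' →
    (edge j a b = edge j' a' b' ↔
      Relation.EqvGen (fun s s' : Fin N × Fin 4 × Fin 4 =>
        s' = (s.1, s.2.2, s.2.1) ∨ ∃ i, i ≠ s.2.1 ∧ i ≠ s.2.2 ∧
          s' = (nbr s.1 i, glue s.1 i s.2.1, glue s.1 i s.2.2)) (j, a, b) (j', a', b'))
  edge_surj : ∀ e, ∃ j a b, a ≠ b ∧ edge j a b = e
  link_conn : ∀ j a j' a',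
    Relation.EqvGen (fun s s' : Fin N × Fin 4 =>
      ∃ i, i ≠ s.2 ∧ s' = (nbr s.1 i, glue s.1 i s.2)) (j, a) (j', a')

variable {N : ℕ}

/-- The type of an edge `ab` of a tetrahedron: `0` (shape `z`) for `01, 23`, `1` (shape
`z' = 1/(1-z)`) for `03, 12`, `2` (shape `z'' = 1 - 1/z`) for `02, 13`. -/
def typ (a b : Fin 4) : Fin 3 :=
  if a.val + b.val = 1 ∨ a.val + b.val = 5 then 0
  else if a.val + b.val = 3 then 1 else 2

/-- The shapes `z, z', z''`. -/
noncomputable def shape (t : Fin 3) (z : ℂ) : ℂ := ![z, 1 / (1 - z), 1 - 1 / z] t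

/-- `ζ, ζ', ζ''`: the derivatives of the logarithms of `z, z', z''`. -/
noncomputable def zeta (t : Fin 3) (z : ℂ) : ℂ := ![1 / z, 1 / (1 - z), 1 / (z * (z - 1))] t

/-- The gluing matrices `G = G 0`, `G' = G 1`, `G'' = G 2`. -/
def Tri.G (T : Tri N) (t : Fin 3) : Matrix (Fin N) (Fin N) ℤ := fun e j =>
  ((Finset.univ.filter (fun p : Fin 4 × Fin 4 =>
    p.1 < p.2 ∧ typ p.1 p.2 = t ∧ T.edge j p.1 p.2 = e)).card : ℤ)

/-- The edge equations: the product of the shapes around every edge is `1`. -/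
def Tri.EdgeEq (T : Tri N) (z : Fin N → ℂ) : Prop :=
  ∀ e, ∏ j, ∏ t, shape t (z j) ^ (T.G t e j) = 1

/-- An arc in the triangle at the ideal vertex `a` of a tetrahedron, given by the flag
`(a, b, c, d)`: it enters through the face opposite to `d`, leaves through the face opposite
to `c`, and so turns around the edge `ab`. `Step T s s'`: the arc `s'` continues the arc `s`. -/
def Step (T : Tri N) (s s' : Flag N) : Prop :=
  s'.1 = T.nbr s.1 (s.2 2) ∧ s'.2 0 = T.glue s.1 (s.2 2) (s.2 0) ∧
    s'.2 3 = T.glue s.1 (s.2 2) (s.2 2)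

/-- A closed oriented peripheral curve in normal position: a cyclic sequence of `m` arcs. -/
structure Curve (T : Tri N) where
  m : ℕ
  x : ℕ → Flag N
  closed : x m = x 0
  step : ∀ k < m, Step T (x k) (x (k + 1))

/-- The rows `C = row 0`, `C' = row 1`, `C'' = row 2` of the completeness equation along a curve:
every arc `(a, b, c, d)` contributes the shape of the edge `ab` with the sign of `(a, b, c, d)`. -/
def Curve.row {T : Tri N} (γ : Curve T) (t : Fin 3) (j : Fin N) : ℤ :=
  ∑ k ∈ Finset.range γ.m,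
    if (γ.x k).1 = j ∧ typ ((γ.x k).2 0) ((γ.x k).2 1) = t
    then ((Equiv.Perm.sign (γ.x k).2 : ℤˣ) : ℤ) else 0

/-- The completeness equations, for all peripheral curves (equivalently, for two curves which
generate the homology of the torus). -/
def Tri.Complete (T : Tri N) (z : Fin N → ℂ) : Prop :=
  ∀ γ : Curve T, ∏ j, ∏ t, shape t (z j) ^ (γ.row t j) = 1

/-- The first two conditions for a (strong) combinatorial flattening
`(f, f', f'') = (f 0, f 1, f 2)`; the peripheral conditions are not needed. -/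
def Tri.Flat (T : Tri N) (f : Fin 3 → Fin N → ℤ) : Prop :=
  (∀ e, ∑ t, ∑ j, T.G t e j * f t j = 2) ∧ ∀ j, ∑ t, f t j = 1

/-- The matrix `Ĝ diag ζ + Ĝ' diag ζ' + Ĝ'' diag ζ''`, where the row `e₀` of the gluing matrices is
replaced by the row of the completeness equation along `γ`. -/
noncomputable def hatG (T : Tri N) (z : Fin N → ℂ) (γ : Curve T) (e₀ : Fin N) :
    Matrix (Fin N) (Fin N) ℂ :=
  ∑ t, ((T.G t).updateRow e₀ (γ.row t)).map (fun n : ℤ => (n : ℂ)) *
    Matrix.diagonal (fun j => zeta t (z j))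

/-! ### The adjoint torsion -/

/-- `2 × 2` matrices. -/
abbrev M2 := Matrix (Fin 2) (Fin 2) ℂ

/-- The vertices `0, ∞, 1, z` of a tetrahedron of shape `z`, in homogeneous coordinates. -/
def pt (z : ℂ) : Fin 4 → Fin 2 → ℂ := ![![0, 1], ![1, 0], ![1, 1], ![z, 1]]

/-- The nilpotent matrix `v ω(v, ·)`, `ω(v, x) = v₀ x₁ - v₁ x₀`, with image and kernel `ℂ v`. -/
def nil (v : Fin 2 → ℂ) : M2 := !![-(v 0 * v 1), v 0 * v 0; -(v 1 * v 1), v 0 * v 1]

/-- The holonomy: `g j i` is the Moebius transformation from the frame of the tetrahedron `j`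
(where its vertices are `0, ∞, 1, z j`) to the frame of its neighbour across the face opposite to
`i`; it takes the three vertices of the face to the corresponding ones. -/
def IsHol (T : Tri N) (z : Fin N → ℂ) (g : Fin N → Fin 4 → M2) : Prop :=
  ∀ j i, (g j i).det ≠ 0 ∧ ∀ a, a ≠ i → ∃ c : ℂ, c ≠ 0 ∧
    (g j i) *ᵥ (pt (z j) a) = c • pt (z (T.nbr j i)) (T.glue j i a)

/-- The vector `P` of `sl₂` which is invariant under the peripheral subgroup, seen at every
corner `a` of every tetrahedron `j`. -/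
def IsPar (T : Tri N) (z : Fin N → ℂ) (g : Fin N → Fin 4 → M2) (P : Fin N → Fin 4 → M2) : Prop :=
  (∀ j a, ∃ s : ℂ, s ≠ 0 ∧ P j a = s • nil (pt (z j) a)) ∧
  ∀ j i a, a ≠ i → P (T.nbr j i) (T.glue j i a) = g j i * P j a * (g j i)⁻¹

/-- 1-chains of the dual 2-complex with coefficients in `sl₂` twisted by the holonomy: `Y j i` is
the coefficient, in the frame of `j`, of the dual edge leaving `j` through the face opposite
to `i`. -/
def IsChain1 (T : Tri N) (g : Fin N → Fin 4 → M2) (Y : Fin N → Fin 4 → M2) : Prop :=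
  ∀ j i, (Y j i).trace = 0 ∧ Y (T.nbr j i) (T.glue j i i) = -(g j i * Y j i * (g j i)⁻¹)

/-- 2-chains: `X j a b` is the coefficient, in the frame of `j`, of the 2-cell dual to the edge
`ab` oriented from `a` to `b`. -/
def IsChain2 (T : Tri N) (g : Fin N → Fin 4 → M2) (X : Fin N → Fin 4 → Fin 4 → M2) : Prop :=
  (∀ j a b, a ≠ b → (X j a b).trace = 0 ∧ X j b a = -(X j a b)) ∧
  ∀ j i a b, a ≠ b → a ≠ i → b ≠ i →
    X (T.nbr j i) (T.glue j i a) (T.glue j i b) = g j i * X j a b * (g j i)⁻¹

/-- The boundary of a 2-chain: the 2-cell dual to the oriented edge `ab` passes through the face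
opposite to `c` from the tetrahedron `j` outwards when `(a, b, c, d)` is even. -/
def bd2 (X : Fin N → Fin 4 → Fin 4 → M2) (j : Fin N) (i : Fin 4) : M2 :=
  ∑ π ∈ Finset.univ.filter (fun π : Equiv.Perm (Fin 4) => Equiv.Perm.sign π = 1 ∧ π 2 = i),
    X j (π 0) (π 1)

/-- The boundary of a 1-chain. -/
def bd1 (Y : Fin N → Fin 4 → M2) (j : Fin N) : M2 := -∑ i, Y j i

/-- The 1-cycle `γ ⊗ P`. -/
noncomputable def curveCycle {T : Tri N} (γ : Curve T) (P : Fin N → Fin 4 → M2) (j : Fin N)
    (i : Fin 4) : M2 :=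
  ∑ k ∈ Finset.range γ.m,
    ((if (γ.x k).1 = j ∧ (γ.x k).2 2 = i then P j ((γ.x k).2 0) else 0) -
     (if (γ.x k).1 = j ∧ (γ.x k).2 3 = i then P j ((γ.x k).2 0) else 0))

/-- The 2-cycle `∂M ⊗ P`. -/
def torusCycle (P : Fin N → Fin 4 → M2) (j : Fin N) (a b : Fin 4) : M2 := P j a - P j b

/-- Coordinates on `sl₂`. -/
def co (X : M2) : Fin 3 → ℂ := ![X 0 1, X 1 0, X 0 0]

/-- `F` lists every face once, as a side `(j, i)` (the face opposite to `i` seen from `j`). -/
def IsFaces (T : Tri N) (F : Fin N ⊕ Fin N → Fin N × Fin 4) : Prop :=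
  ∀ s : Fin N × Fin 4, ∃! k, s = F k ∨ s = (T.nbr (F k).1 (F k).2, T.glue (F k).1 (F k).2 (F k).2)

/-- `E` lists every edge once, as an oriented edge of a tetrahedron. -/
def IsEdges (T : Tri N) (E : Fin N → Fin N × Fin 4 × Fin 4) : Prop :=
  ∀ e, (E e).2.1 ≠ (E e).2.2 ∧ T.edge (E e).1 (E e).2.1 (E e).2.2 = e

/-- `t` is a value of the adjoint Reidemeister torsion `ATor(M, γ)` (defined up to sign):
the torsion of the chain complex `C₂ → C₁ → C₀` of the dual 2-complex with coefficients in `sl₂`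
twisted by the holonomy, `C₀ = sl₂^N`, `C₁ = sl₂^(2N)`, `C₂ = sl₂^N`, with respect to the
geometric bases (cells tensor a basis of `sl₂`) and the basis `γ ⊗ P`, `∂M ⊗ P` of the homology:
`t = [∂b₂ h₁ b₁ / c₁] / ([∂b₁ / c₀] [h₂ b₂ / c₂])`.
Here `b₁` is the family `b`, and `w` is the family `b₂` together with `w k₀ = h₂ = ∂M ⊗ P`. -/
def IsATor (T : Tri N) (z : Fin N → ℂ) (γ : Curve T) (t : ℂ) : Prop :=
  ∃ (g : Fin N → Fin 4 → M2) (P : Fin N → Fin 4 → M2) (F : Fin N ⊕ Fin N → Fin N × Fin 4)
    (E : Fin N → Fin N × Fin 4 × Fin 4)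
    (k₀ : Fin N × Fin 3) (w : Fin N × Fin 3 → Fin N → Fin 4 → Fin 4 → M2)
    (b : Fin N × Fin 3 → Fin N → Fin 4 → M2),
    IsHol T z g ∧ IsPar T z g P ∧ IsFaces T F ∧ IsEdges T E ∧
    (∀ r, IsChain2 T g (w r)) ∧ (∀ r, IsChain1 T g (b r)) ∧ w k₀ = torusCycle P ∧
    ∃ A₀ A₁ A₂ : ℂ,
      A₀ = Matrix.det (fun r c : Fin N × Fin 3 => co (bd1 (b r) c.1) c.2) ∧
      A₁ = Matrix.det (fun r c : (Fin N × Fin 3) ⊕ (Fin N × Fin 3) =>
        co (Sum.elim (fun r => if r = k₀ then curveCycle γ P else bd2 (w r)) b r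
          (F (Sum.map Prod.fst Prod.fst c)).1 (F (Sum.map Prod.fst Prod.fst c)).2)
          (Sum.elim Prod.snd Prod.snd c)) ∧
      A₂ = Matrix.det (fun r c : Fin N × Fin 3 =>
        co (w r (E c.1).1 (E c.1).2.1 (E c.1).2.2) c.2) ∧
      A₀ ≠ 0 ∧ A₁ ≠ 0 ∧ A₂ ≠ 0 ∧ t = A₁ / (A₀ * A₂)

/-! ### The 1-loop invariant, null-homologous curves, the holonomy of a curve -/

/-- The 1-loop invariant of Dimofte and Garoufalidis, with the row `e₀` replaced by the row of the
completeness equation along `γ`, computed with the flattening `f`. -/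
noncomputable def oneLoop (T : Tri N) (z : Fin N → ℂ) (γ : Curve T) (e₀ : Fin N)
    (f : Fin 3 → Fin N → ℤ) : ℂ :=
  (hatG T z γ e₀).det / (2 * ∏ j, ∏ t, zeta t (z j) ^ (f t j))

/-- How often the curve leaves the link triangle `(j, a)` through the face opposite to `i`, minus
how often it enters through it. -/
def Curve.cross {T : Tri N} (γ : Curve T) (j : Fin N) (a i : Fin 4) : ℤ :=
  ∑ k ∈ Finset.range γ.m,
    ((if (γ.x k).1 = j ∧ (γ.x k).2 0 = a ∧ (γ.x k).2 2 = i then 1 else 0) -
     (if (γ.x k).1 = j ∧ (γ.x k).2 0 = a ∧ (γ.x k).2 3 = i then 1 else 0))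

/-- The curve is null-homologous in the boundary torus: it is the boundary of a 2-chain
`∑ m j a b`, where `m j a b` is the multiplicity of the dual cell around the vertex of the link given
by the end at `a` of the edge `ab`. -/
def Curve.NullHomologous {T : Tri N} (γ : Curve T) : Prop :=
  ∃ m : Fin N → Fin 4 → Fin 4 → ℤ,
    (∀ j i a b, a ≠ b → a ≠ i → b ≠ i → m (T.nbr j i) (T.glue j i a) (T.glue j i b) = m j a b) ∧
    ∀ j (π : Equiv.Perm (Fin 4)), Equiv.Perm.sign π = 1 →
      γ.cross j (π 0) (π 2) = m j (π 0) (π 1) - m j (π 0) (π 3)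

/-- The holonomy along the first `k` steps of a curve. -/
noncomputable def Curve.holk {T : Tri N} (γ : Curve T) (g : Fin N → Fin 4 → M2) : ℕ → M2
  | 0 => 1
  | k + 1 => g (γ.x k).1 ((γ.x k).2 2) * γ.holk g k

/-- The holonomy of a closed peripheral curve. -/
noncomputable def Curve.hol {T : Tri N} (γ : Curve T) (g : Fin N → Fin 4 → M2) : M2 :=
  γ.holk g γ.m

end Pool.Agent.OL36
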