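import Pool.Agent.LibOL36.TDefs

/-! # Row E1: an edge is not identified with its reverse

Plan (combinatorics of permutations). Work with `Dt N` (even flags `(j, (a, b, c, d))`). Put
`R (j, π) := (T.nbr j (π 2), T.glue j (π 2) * π * swap 2 3)` (even again, since `glue` is odd): the rotation around
the oriented edge `ab`, crossing the face opposite to `c`; new flag `(σ a, σ b, σ d, σ c)`. `R` is bijective
(injective: from `R (j, π)` one recovers `(j, π)`: cross back the face opposite to the last vertex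
`d' = σ c`: `nbr_nbr`, `glue_glue`). `bar (j, π) := (j, π * swap 0 1 * swap 2 3)`, an involution without fixed
points, and `R (bar (R x)) = bar x`.
(1) `T.OE (j, a, b) (j', a', b')` with `a ≠ b` implies: for the unique even flags `x, x'` over them,
`∃ n : ℕ, R^[n] x = x'` (one gluing step across `i ∉ {a, b}`: `i = π 2` is `R`; `i = π 3` is the inverse of `R`; `R` is a
permutation of a finite type, so inverses are powers of `R`, e.g. use `Equiv.Perm.SameCycle` and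
`sameCycle` to natural powers `SameCycle.exists_pow_eq'`; induction over `EqvGen`; also `a' ≠ b'` is preserved).
(2) If `R^[n] x = bar x`: `n = 2k`: `y = R^[k] x` satisfies `R^[k] y = bar x`, and `bar x = R^[k] (bar (R^[k] x)) =
R^[k] (bar y)` so `y = bar y`, contradiction. `n = 2k+1`: `R (R^[k] y) = R^[k] (bar y)`, commute, inject: `R y = bar y`.
Then for `y = (j, π)`: `nbr j (π 2) = j` and `glue j (π 2) * π * swap 2 3 = π * swap 0 1 * swap 2 3`, evaluated at `3`: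
`glue j (π 2) (π 2) = π 2`; contradiction to `T.ne_self j (π 2)`. -/

set_option autoImplicit false

open Matrix

namespace Pool.Agent.OL36

variable {N : ℕ}

private theorem perm_one (ρ : Equiv.Perm (Fin 4)) (h : Equiv.Perm.sign ρ = 1) (h0 : ρ 0 = 0)
    (h1 : ρ 1 = 1) : ρ = 1 := by
  revert ρ
  decide

private theorem eo_ne (d : Dt N) (x y : Fin 4) (h : x ≠ y) : d.2.1 x ≠ d.2.1 y :=
  fun h' => h (d.2.1.injective h')

private theorem eo_ext (d d' : Dt N) (h1 : d.1 = d'.1) (h2 : d.2.1 0 = d'.2.1 0)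
    (h3 : d.2.1 1 = d'.2.1 1) : d = d' := by
  refine Prod.ext h1 (Subtype.ext ?_)
  have h : (d'.2.1)⁻¹ * d.2.1 = 1 := by
    apply perm_one
    · rw [Equiv.Perm.sign_mul, Equiv.Perm.sign_inv, d.2.2, d'.2.2]
      rfl
    · rw [Equiv.Perm.mul_apply, h2, Equiv.Perm.inv_def, Equiv.symm_apply_apply]
    · rw [Equiv.Perm.mul_apply, h3, Equiv.Perm.inv_def, Equiv.symm_apply_apply]
  exact (inv_mul_eq_one.mp h).symm

private theorem eo_exists (j : Fin N) (a b : Fin 4) (h : a ≠ b) :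
    ∃ d : Dt N, d.1 = j ∧ d.2.1 0 = a ∧ d.2.1 1 = b := by
  have hp : ∀ a b : Fin 4, a ≠ b →
      ∃ π : Equiv.Perm (Fin 4), Equiv.Perm.sign π = 1 ∧ π 0 = a ∧ π 1 = b := by
    decide
  obtain ⟨π, h1, h2, h3⟩ := hp a b h
  exact ⟨(j, ⟨π, h1⟩), rfl, h2, h3⟩

private theorem sign_R (T : Tri N) (d : Dt N) :
    Equiv.Perm.sign (T.glue d.1 (d.2.1 2) * d.2.1 * Equiv.swap 2 3) = 1 := by
  rw [Equiv.Perm.sign_mul, Equiv.Perm.sign_mul, T.odd, d.2.2,
    Equiv.Perm.sign_swap (by decide)]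
  decide

private theorem sign_bar (d : Dt N) :
    Equiv.Perm.sign (d.2.1 * (Equiv.swap 0 1 * Equiv.swap 2 3)) = 1 := by
  rw [Equiv.Perm.sign_mul, Equiv.Perm.sign_mul, d.2.2, Equiv.Perm.sign_swap (by decide),
    Equiv.Perm.sign_swap (by decide)]
  decide

/-- Rotation around the oriented edge. -/
private def rotD (T : Tri N) (d : Dt N) : Dt N :=
  (T.nbr d.1 (d.2.1 2), ⟨T.glue d.1 (d.2.1 2) * d.2.1 * Equiv.swap 2 3, sign_R T d⟩)

/-- Reversal of the oriented edge. -/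
private def barD (d : Dt N) : Dt N :=
  (d.1, ⟨d.2.1 * (Equiv.swap 0 1 * Equiv.swap 2 3), sign_bar d⟩)

private theorem rot_val (T : Tri N) (d : Dt N) :
    (rotD T d).1 = T.nbr d.1 (d.2.1 2) ∧
    (rotD T d).2.1 0 = T.glue d.1 (d.2.1 2) (d.2.1 0) ∧
    (rotD T d).2.1 1 = T.glue d.1 (d.2.1 2) (d.2.1 1) ∧
    (rotD T d).2.1 2 = T.glue d.1 (d.2.1 2) (d.2.1 3) ∧
    (rotD T d).2.1 3 = T.glue d.1 (d.2.1 2) (d.2.1 2) := by
  have e0 : (Equiv.swap (2 : Fin 4) 3) 0 = 0 := by decide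
  have e1 : (Equiv.swap (2 : Fin 4) 3) 1 = 1 := by decide
  have e2 : (Equiv.swap (2 : Fin 4) 3) 2 = 3 := by decide
  have e3 : (Equiv.swap (2 : Fin 4) 3) 3 = 2 := by decide
  refine ⟨rfl, ?_, ?_, ?_, ?_⟩
  · change (T.glue d.1 (d.2.1 2) * d.2.1 * Equiv.swap 2 3 : Equiv.Perm (Fin 4)) 0 = _
    rw [Equiv.Perm.mul_apply, Equiv.Perm.mul_apply, e0]
  · change (T.glue d.1 (d.2.1 2) * d.2.1 * Equiv.swap 2 3 : Equiv.Perm (Fin 4)) 1 = _
    rw [Equiv.Perm.mul_apply, Equiv.Perm.mul_apply, e1]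
  · change (T.glue d.1 (d.2.1 2) * d.2.1 * Equiv.swap 2 3 : Equiv.Perm (Fin 4)) 2 = _
    rw [Equiv.Perm.mul_apply, Equiv.Perm.mul_apply, e2]
  · change (T.glue d.1 (d.2.1 2) * d.2.1 * Equiv.swap 2 3 : Equiv.Perm (Fin 4)) 3 = _
    rw [Equiv.Perm.mul_apply, Equiv.Perm.mul_apply, e3]

private theorem bar_val (d : Dt N) :
    (barD d).1 = d.1 ∧ (barD d).2.1 0 = d.2.1 1 ∧ (barD d).2.1 1 = d.2.1 0 ∧
    (barD d).2.1 2 = d.2.1 3 ∧ (barD d).2.1 3 = d.2.1 2 := by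
  have e0 : ((Equiv.swap 0 1 * Equiv.swap 2 3 : Equiv.Perm (Fin 4))) 0 = 1 := by decide
  have e1 : ((Equiv.swap 0 1 * Equiv.swap 2 3 : Equiv.Perm (Fin 4))) 1 = 0 := by decide
  have e2 : ((Equiv.swap 0 1 * Equiv.swap 2 3 : Equiv.Perm (Fin 4))) 2 = 3 := by decide
  have e3 : ((Equiv.swap 0 1 * Equiv.swap 2 3 : Equiv.Perm (Fin 4))) 3 = 2 := by decide
  refine ⟨rfl, ?_, ?_, ?_, ?_⟩
  · change (d.2.1 * (Equiv.swap 0 1 * Equiv.swap 2 3) : Equiv.Perm (Fin 4)) 0 = _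
    rw [Equiv.Perm.mul_apply d.2.1, e0]
  · change (d.2.1 * (Equiv.swap 0 1 * Equiv.swap 2 3) : Equiv.Perm (Fin 4)) 1 = _
    rw [Equiv.Perm.mul_apply d.2.1, e1]
  · change (d.2.1 * (Equiv.swap 0 1 * Equiv.swap 2 3) : Equiv.Perm (Fin 4)) 2 = _
    rw [Equiv.Perm.mul_apply d.2.1, e2]
  · change (d.2.1 * (Equiv.swap 0 1 * Equiv.swap 2 3) : Equiv.Perm (Fin 4)) 3 = _
    rw [Equiv.Perm.mul_apply d.2.1, e3]

private theorem bar_bar (d : Dt N) : barD (barD d) = d := by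
  obtain ⟨a0, a1, a2, a3, a4⟩ := bar_val (barD d)
  obtain ⟨b0, b1, b2, b3, b4⟩ := bar_val d
  exact eo_ext _ _ (by rw [a0, b0]) (by rw [a1, b2]) (by rw [a2, b1])

private theorem rot_bar_rot (T : Tri N) (d : Dt N) : rotD T (barD (rotD T d)) = barD d := by
  obtain ⟨r0, r1, r2, r3, r4⟩ := rot_val T (barD (rotD T d))
  obtain ⟨a0, a1, a2, a3, a4⟩ := bar_val (rotD T d)
  obtain ⟨b0, b1, b2, b3, b4⟩ := bar_val d
  obtain ⟨c0, c1, c2, c3, c4⟩ := rot_val T d
  have hg : T.glue (barD (rotD T d)).1 ((barD (rotD T d)).2.1 2) =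
      (T.glue d.1 (d.2.1 2))⁻¹ := by
    rw [a0, a3, c0, c4]
    exact T.glue_glue _ _
  refine eo_ext _ _ ?_ ?_ ?_
  · rw [r0, a0, a3, c0, c4, b0]
    exact T.nbr_nbr _ _
  · rw [r1, hg, a1, c2, b1]
    exact Equiv.symm_apply_apply _ _
  · rw [r2, hg, a2, c1, b2]
    exact Equiv.symm_apply_apply _ _

private def rotE (T : Tri N) : Equiv.Perm (Dt N) where
  toFun := rotD T
  invFun := fun d => barD (rotD T (barD d))
  left_inv := fun d => by
    change barD (rotD T (barD (rotD T d))) = d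
    rw [rot_bar_rot, bar_bar]
  right_inv := fun d => by
    change rotD T (barD (rotD T (barD d))) = d
    rw [rot_bar_rot, bar_bar]

private theorem same_rot (T : Tri N) (d : Dt N) :
    Equiv.Perm.SameCycle (rotE T) d (rotD T d) := by
  change Equiv.Perm.SameCycle (rotE T) d (rotE T d)
  exact (Equiv.Perm.sameCycle_apply_right).mpr (Equiv.Perm.SameCycle.refl _ _)

private theorem oe_cycle (T : Tri N) (s s' : Fin N × Fin 4 × Fin 4) (h : T.OE s s') :
    (s.2.1 ≠ s.2.2 ↔ s'.2.1 ≠ s'.2.2) ∧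
    ∀ d d' : Dt N, d.1 = s.1 → d.2.1 0 = s.2.1 → d.2.1 1 = s.2.2 →
      d'.1 = s'.1 → d'.2.1 0 = s'.2.1 → d'.2.1 1 = s'.2.2 →
      Equiv.Perm.SameCycle (rotE T) d d' := by
  unfold Tri.OE at h
  induction h with
  | rel s s' h =>
    obtain ⟨i, hi1, hi2, rfl⟩ := h
    refine ⟨?_, ?_⟩
    · change s.2.1 ≠ s.2.2 ↔ T.glue s.1 i s.2.1 ≠ T.glue s.1 i s.2.2
      exact ((T.glue s.1 i).injective.ne_iff).symm
    · intro d d' h1 h2 h3 h4 h5 h6
      change d'.1 = T.nbr s.1 i at h4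
      change d'.2.1 0 = T.glue s.1 i s.2.1 at h5
      change d'.2.1 1 = T.glue s.1 i s.2.2 at h6
      have hcase : d.2.1 2 = i ∨ d.2.1 3 = i := by
        obtain ⟨k, hk⟩ := d.2.1.surjective i
        fin_cases k
        · exact absurd (hk.symm.trans h2) hi1
        · exact absurd (hk.symm.trans h3) hi2
        · exact Or.inl hk
        · exact Or.inr hk
      rcases hcase with hc | hc
      · obtain ⟨r0, r1, r2, r3, r4⟩ := rot_val T d
        have hd : rotD T d = d' :=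
          eo_ext _ _ (by rw [r0, h4, hc, h1]) (by rw [r1, h5, hc, h1, h2])
            (by rw [r2, h6, hc, h1, h3])
        rw [← hd]
        exact same_rot T d
      · obtain ⟨r0, r1, r2, r3, r4⟩ := rot_val T (barD d)
        obtain ⟨a0, a1, a2, a3, a4⟩ := bar_val (rotD T (barD d))
        obtain ⟨b0, b1, b2, b3, b4⟩ := bar_val d
        have hd : barD (rotD T (barD d)) = d' :=
          eo_ext _ _ (by rw [a0, r0, h4, b0, b3, hc, h1])
            (by rw [a1, r2, h5, b0, b3, hc, h1, b2, h2])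
            (by rw [a2, r1, h6, b0, b3, hc, h1, b1, h3])
        have hd' : rotD T d' = d := by
          rw [← hd, rot_bar_rot, bar_bar]
        rw [← hd']
        exact (same_rot T d').symm
  | refl s =>
    refine ⟨Iff.rfl, ?_⟩
    intro d d' h1 h2 h3 h4 h5 h6
    rw [eo_ext d d' (by rw [h1, h4]) (by rw [h2, h5]) (by rw [h3, h6])]
  | symm s s' _ ih =>
    refine ⟨ih.1.symm, ?_⟩
    intro d d' h1 h2 h3 h4 h5 h6
    exact (ih.2 d' d h4 h5 h6 h1 h2 h3).symm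
  | trans s s' s'' _ _ ih1 ih2 =>
    refine ⟨ih1.1.trans ih2.1, ?_⟩
    intro d d' h1 h2 h3 h4 h5 h6
    have hne : s.2.1 ≠ s.2.2 := by
      rw [← h2, ← h3]
      exact eo_ne d 0 1 (by decide)
    obtain ⟨e, he1, he2, he3⟩ := eo_exists s'.1 s'.2.1 s'.2.2 (ih1.1.mp hne)
    exact (ih1.2 d e h1 h2 h3 he1 he2 he3).trans (ih2.2 e d' he1 he2 he3 h4 h5 h6)

private theorem pow_bar (T : Tri N) (k : ℕ) (d : Dt N) :
    ((rotE T) ^ k) (barD (((rotE T) ^ k) d)) = barD d := by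
  induction k generalizing d with
  | zero => rfl
  | succ k ih =>
    have h1 : ((rotE T) ^ (k + 1)) d = rotE T (((rotE T) ^ k) d) := by
      rw [pow_succ', Equiv.Perm.mul_apply]
    rw [h1, pow_succ, Equiv.Perm.mul_apply]
    have h2 : (rotE T) (barD ((rotE T) (((rotE T) ^ k) d))) = barD (((rotE T) ^ k) d) :=
      rot_bar_rot T _
    rw [h2, ih]

/-- E1. -/
theorem no_rev (T : Tri N) (j : Fin N) (a b : Fin 4) (hab : a ≠ b) :
    ¬ T.OE (j, a, b) (j, b, a) := by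
  intro h
  obtain ⟨x, hx1, hx2, hx3⟩ := eo_exists j a b hab
  obtain ⟨b0, b1, b2, b3, b4⟩ := bar_val x
  have hs : Equiv.Perm.SameCycle (rotE T) x (barD x) :=
    (oe_cycle T _ _ h).2 x (barD x) hx1 hx2 hx3 (by rw [b0, hx1]) (by rw [b1, hx3])
      (by rw [b2, hx2])
  obtain ⟨n, hn⟩ : ∃ n : ℕ, ((rotE T) ^ n) x = barD x := by
    obtain ⟨n, _, _, hn⟩ := hs.exists_pow_eq
    exact ⟨n, hn⟩
  rcases Nat.even_or_odd' n with ⟨k, hk | hk⟩
  · have h1 : ((rotE T) ^ k) (((rotE T) ^ k) x) = ((rotE T) ^ k) (barD (((rotE T) ^ k) x)) := by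
      rw [pow_bar, ← hn, hk, ← Equiv.Perm.mul_apply, ← pow_add, two_mul]
    have h2 := ((rotE T) ^ k).injective h1
    obtain ⟨_, c1, _, _, _⟩ := bar_val (((rotE T) ^ k) x)
    exact eo_ne (((rotE T) ^ k) x) 0 1 (by decide) (by rw [← c1, ← h2])
  · have h1 : ((rotE T) ^ k) (rotE T (((rotE T) ^ k) x)) =
        ((rotE T) ^ k) (barD (((rotE T) ^ k) x)) := by
      rw [pow_bar, ← hn, hk, ← Equiv.Perm.mul_apply, ← pow_succ, ← Equiv.Perm.mul_apply,
        ← pow_add]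
      congr 2
      omega
    have h2 : rotD T (((rotE T) ^ k) x) = barD (((rotE T) ^ k) x) :=
      ((rotE T) ^ k).injective h1
    obtain ⟨r0, r1, r2, r3, r4⟩ := rot_val T (((rotE T) ^ k) x)
    obtain ⟨c0, c1, c2, c3, c4⟩ := bar_val (((rotE T) ^ k) x)
    rw [h2] at r0 r4
    rw [c0] at r0
    rw [c4] at r4
    exact T.ne_self _ _ (Prod.ext r0.symm r4.symm)

end Pool.Agent.OL36
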