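import Pool.Agent.LibOL36.S0

/-! # Row F1: change of basis on the faces

Plan. Left matrix `M r c = co (ev1 u (y r) (F k)) t`, `k = Sum.map fst fst c`, `t = Sum.elim snd snd c`. For `(j, i) = F k`:
`ev1 u (y r) j i = ∑_{t' : Fin 3} y r (s (k,t')) • nil (u j (i.succAbove t'))`, where `s (k, t')` is the value of `s` at the index
with face `k` and third component `t'` (the darts `d` with `d.1 = j`, `d.2.1 2 = i` correspond bijectively to `t'` by
`d.2.1 0 = i.succAbove t'`: `dt_ext02`, `Fin.exists_succAbove_eq`, `hs`). So `M = Y * B`, `Y r c' = y r (s c')`,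
`B c' c = if Sum.map fst fst c' = Sum.map fst fst c then co (nil (u j (i.succAbove t'))) t else 0`. `det B = ∏_k det (3 × 3 block)`:
reindex by `Equiv.sumProdDistrib` to `(Fin N ⊕ Fin N) × Fin 3` and `Matrix.det_blockDiagonal` (blockDiagonal is
indexed by `m × o`; adjust with `Equiv.prodComm`); the block is `![co (nil v0), co (nil v1), co (nil v2)]`
with determinant `om v0 v1 * om v1 v2 * om v2 v0 = tp u (F k)` (`det_face`). `co` is additive and homogeneous
(`co (a • X + b • Y) = a • co X + b • co Y`). -/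

set_option autoImplicit false

open Matrix

namespace Pool.Agent.OL36

variable {N : ℕ}

private theorem co_sum {ι : Type*} (S : Finset ι) (a : ι → ℂ) (X : ι → M2) (t : Fin 3) :
    co (∑ i ∈ S, a i • X i) t = ∑ i ∈ S, a i * co (X i) t := by
  fin_cases t <;> simp [co, Matrix.sum_apply]

private theorem ev1_face (u : Fin N → Fin 4 → Fin 2 → ℂ) (y : Dt N → ℂ) (f : Fin N × Fin 4)
    (g : Fin 3 → Dt N)
    (hg : ∀ t, (g t).1 = f.1 ∧ (g t).2.1 2 = f.2 ∧ (g t).2.1 0 = f.2.succAbove t) :
    ev1 u y f.1 f.2 = ∑ t : Fin 3, y (g t) • nil (u f.1 (f.2.succAbove t)) := by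
  unfold ev1
  rw [← Finset.sum_filter]
  symm
  refine Finset.sum_bij (fun t _ => g t) ?_ ?_ ?_ ?_
  · intro t _
    rw [Finset.mem_filter]
    exact ⟨Finset.mem_univ _, (hg t).1, (hg t).2.1⟩
  · intro t _ t' _ h
    have h1 : f.2.succAbove t = f.2.succAbove t' := by
      rw [← (hg t).2.2, ← (hg t').2.2]
      exact congrArg (fun d : Dt N => d.2.1 0) h
    exact Fin.succAbove_right_injective h1
  · intro d hd
    rw [Finset.mem_filter] at hd
    have hne : d.2.1 0 ≠ f.2 := by
      rw [← hd.2.2]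
      exact dt_ne d 0 2 (by decide)
    obtain ⟨t, ht⟩ := Fin.exists_succAbove_eq hne
    refine ⟨t, Finset.mem_univ _, ?_⟩
    exact dt_ext02 (g t) d ((hg t).1.trans hd.2.1.symm) ((hg t).2.2.trans ht)
      ((hg t).2.1.trans hd.2.2.symm)
  · intro t _
    rw [(hg t).2.2]

/-- The index equivalence. -/
private def ee (N : ℕ) : (Fin N × Fin 3) ⊕ (Fin N × Fin 3) ≃ Fin 3 × (Fin N ⊕ Fin N) :=
  (Equiv.sumProdDistrib (Fin N) (Fin N) (Fin 3)).symm.trans (Equiv.prodComm _ _)

private theorem ee_fst (c : (Fin N × Fin 3) ⊕ (Fin N × Fin 3)) :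
    (ee N c).1 = Sum.elim Prod.snd Prod.snd c := by
  rcases c with c | c <;> rfl

private theorem ee_snd (c : (Fin N × Fin 3) ⊕ (Fin N × Fin 3)) :
    (ee N c).2 = Sum.map Prod.fst Prod.fst c := by
  rcases c with c | c <;> rfl

private theorem block_det (u : Fin N → Fin 4 → Fin 2 → ℂ) (f : Fin N × Fin 4) :
    Matrix.det (Matrix.of (fun t' t : Fin 3 => co (nil (u f.1 (f.2.succAbove t'))) t)) =
      tp u f := by
  unfold tp
  rw [← det_face]
  congr 1
  funext i
  fin_cases i <;> rfl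

/-- F1: change of basis on the faces. -/
theorem A1_eq (u : Fin N → Fin 4 → Fin 2 → ℂ) (F : Fin N ⊕ Fin N → Fin N × Fin 4)
    (s : (Fin N × Fin 3) ⊕ (Fin N × Fin 3) → Dt N) (hs : IsSd F s)
    (y : (Fin N × Fin 3) ⊕ (Fin N × Fin 3) → Dt N → ℂ) :
    (Matrix.det (fun r c : (Fin N × Fin 3) ⊕ (Fin N × Fin 3) =>
        co (ev1 u (y r) (F (Sum.map Prod.fst Prod.fst c)).1 (F (Sum.map Prod.fst Prod.fst c)).2)
          (Sum.elim Prod.snd Prod.snd c))) ^ 2 =
      (Matrix.det (fun r c : (Fin N × Fin 3) ⊕ (Fin N × Fin 3) => y r (s c))) ^ 2 *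
        ∏ k, tp u (F k) ^ 2 := by
  have hM : (Matrix.of (fun r c : (Fin N × Fin 3) ⊕ (Fin N × Fin 3) =>
        co (ev1 u (y r) (F (Sum.map Prod.fst Prod.fst c)).1 (F (Sum.map Prod.fst Prod.fst c)).2)
          (Sum.elim Prod.snd Prod.snd c))) =
      Matrix.of (fun r c : (Fin N × Fin 3) ⊕ (Fin N × Fin 3) => y r (s c)) *
        (Matrix.blockDiagonal (fun k : Fin N ⊕ Fin N => Matrix.of (fun t' t : Fin 3 =>
          co (nil (u (F k).1 ((F k).2.succAbove t'))) t))).submatrix (ee N) (ee N) := by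
    ext r c
    rw [Matrix.mul_apply]
    have h1 := ev1_face u (y r) (F (Sum.map Prod.fst Prod.fst c))
      (fun t => s ((ee N).symm (t, Sum.map Prod.fst Prod.fst c))) (by
        intro t
        have h2 := hs ((ee N).symm (t, Sum.map Prod.fst Prod.fst c))
        have e1 := ee_fst ((ee N).symm (t, Sum.map Prod.fst Prod.fst c))
        have e2 := ee_snd ((ee N).symm (t, Sum.map Prod.fst Prod.fst c))
        rw [Equiv.apply_symm_apply] at e1 e2
        rw [← e1, ← e2] at h2
        exact h2)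
    rw [Matrix.of_apply, h1, co_sum]
    rw [← Equiv.sum_comp (ee N).symm]
    rw [Fintype.sum_prod_type]
    refine Finset.sum_congr rfl ?_
    intro t _
    rw [Finset.sum_eq_single (Sum.map Prod.fst Prod.fst c)]
    · rw [Matrix.submatrix_apply, Matrix.of_apply, Equiv.apply_symm_apply,
        Matrix.blockDiagonal_apply, if_pos (ee_snd c).symm, Matrix.of_apply, ee_fst]
    · intro k _ hk
      rw [Matrix.submatrix_apply, Equiv.apply_symm_apply, Matrix.blockDiagonal_apply,
        if_neg, mul_zero]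
      intro h
      exact hk (h.trans (ee_snd c))
    · intro h
      exact absurd (Finset.mem_univ _) h
  have h3 := congrArg Matrix.det hM
  rw [Matrix.det_mul, Matrix.det_submatrix_equiv_self, Matrix.det_blockDiagonal] at h3
  simp only [block_det] at h3
  have h4 : (Matrix.det (fun r c : (Fin N × Fin 3) ⊕ (Fin N × Fin 3) =>
        co (ev1 u (y r) (F (Sum.map Prod.fst Prod.fst c)).1 (F (Sum.map Prod.fst Prod.fst c)).2)
          (Sum.elim Prod.snd Prod.snd c))) =
      Matrix.det (fun r c : (Fin N × Fin 3) ⊕ (Fin N × Fin 3) => y r (s c)) *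
        ∏ k, tp u (F k) := h3
  rw [h4, mul_pow, Finset.prod_pow]


end Pool.Agent.OL36
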