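import Pool.Agent.LibOL36.S0
import Pool.Agent.LibOL36.E2

/-! # Row F2: change of basis on the edges

Plan. At `c = (e, t)`: `co (ev2 T E u (f r) (y r) (E e)) t = f r (e,true) * co (nil a) t + f r (e,false) * co (-nil b) t +
y r e * co (Hm a b) t`, `a = u (E e).1 (E e).2.1`, `b = u (E e).1 (E e).2.2`, by `vmE_E` and `(hE e).2`. So the matrix is `W * B` with
`W r (e,t') = ![f r (e,true), f r (e,false), y r e] t'` and `B (e',t') (e,t) = if e' = e then (![co (nil a), co (-nil b), co (Hm a b)]) t' t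
else 0`; `det B = ∏_e om a b ^ 2 / 2` by `Matrix.det_blockDiagonal` (with `Equiv.prodComm` reindexing) and `det_edge`
(`(hE e).1`, `hu.ne`). -/

set_option autoImplicit false

open Matrix

namespace Pool.Agent.OL36

variable {N : ℕ}

private theorem f2_co (α β η : ℂ) (A B C : M2) (t : Fin 3) :
    co (α • A - β • B + η • C) t = α * co A t + β * co (-B) t + η * co C t := by
  fin_cases t <;> simp [co] <;> ring

/-- F2: change of basis on the edges. -/
theorem A2_eq (T : Tri N) (z : Fin N → ℂ) (u : Fin N → Fin 4 → Fin 2 → ℂ) (hu : IsDec T z u)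
    (E : Fin N → Fin N × Fin 4 × Fin 4) (hE : IsEdges T E)
    (f : Fin N × Fin 3 → Fin N × Bool → ℂ) (y : Fin N × Fin 3 → Fin N → ℂ) :
    Matrix.det (fun r c : Fin N × Fin 3 =>
        co (ev2 T E u (f r) (y r) (E c.1).1 (E c.1).2.1 (E c.1).2.2) c.2) =
      Matrix.det (fun r c : Fin N × Fin 3 =>
        (![f r (c.1, true), f r (c.1, false), y r c.1] : Fin 3 → ℂ) c.2) *
      ∏ e, (om (u (E e).1 (E e).2.1) (u (E e).1 (E e).2.2) ^ 2 / 2) := by
  classical
  set W : Matrix (Fin N × Fin 3) (Fin N × Fin 3) ℂ := fun r c =>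
    (![f r (c.1, true), f r (c.1, false), y r c.1] : Fin 3 → ℂ) c.2 with hW
  set K : Fin N → Matrix (Fin 3) (Fin 3) ℂ := fun e =>
    ![co (nil (u (E e).1 (E e).2.1)), co (-nil (u (E e).1 (E e).2.2)),
      co (Hm (u (E e).1 (E e).2.1) (u (E e).1 (E e).2.2))] with hK
  have hdet : ∀ e, (K e).det = om (u (E e).1 (E e).2.1) (u (E e).1 (E e).2.2) ^ 2 / 2 :=
    fun e => det_edge _ _ (hu.ne _ _ _ (hE e).1)
  set B : Matrix (Fin N × Fin 3) (Fin N × Fin 3) ℂ :=
    (blockDiagonal K).submatrix (Equiv.prodComm (Fin N) (Fin 3)) (Equiv.prodComm (Fin N) (Fin 3))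
    with hB
  have hBdet : B.det = ∏ e, (om (u (E e).1 (E e).2.1) (u (E e).1 (E e).2.2) ^ 2 / 2) := by
    rw [hB, Matrix.det_submatrix_equiv_self, Matrix.det_blockDiagonal]
    exact Finset.prod_congr rfl fun e _ => hdet e
  have hM : (fun r c : Fin N × Fin 3 =>
      co (ev2 T E u (f r) (y r) (E c.1).1 (E c.1).2.1 (E c.1).2.2) c.2) = W * B := by
    ext r c
    obtain ⟨e, t⟩ := c
    rw [Matrix.mul_apply, Fintype.sum_prod_type]
    have h1 : ∀ e' : Fin N, ∀ t' : Fin 3,
        W r (e', t') * B (e', t') (e, t) = if e' = e then W r (e', t') * K e t' t else 0 := by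
      intro e' t'
      rw [hB, Matrix.submatrix_apply]
      simp only [Equiv.prodComm_apply, Prod.swap_prod_mk, Matrix.blockDiagonal_apply]
      by_cases h : e' = e
      · subst h
        simp
      · simp [h]
    simp only [h1]
    rw [Finset.sum_comm]
    simp only [Finset.sum_ite_eq', Finset.mem_univ, if_true]
    rw [Fin.sum_univ_three]
    show co (ev2 T E u (f r) (y r) (E e).1 (E e).2.1 (E e).2.2) t = _
    rw [ev2, (vmE_E T E hE e).1, (vmE_E T E hE e).2, (hE e).2, f2_co]
    rfl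
  rw [hM, Matrix.det_mul, hBdet]


end Pool.Agent.OL36
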