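import Pool.Agent.LibOL36.Sq

/-! Abstract triangulated closed surfaces of Euler characteristic zero, as combinatorial maps.
A dart `d` is a side of a triangle directed from its tail `vm (φ (φ d))` to its head `vm d`;
`φ` is the next side of the triangle, `α` the same side seen from the other triangle. -/

set_option autoImplicit false

open Matrix

namespace Pool.Agent.OL36

structure Surf (Δ Q P : Type) where
  α : Δ → Δ
  φ : Δ → Δ
  qm : Δ → Q
  vm : Δ → P
  αα : ∀ d, α (α d) = d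
  α_ne : ∀ d, α d ≠ d
  φφφ : ∀ d, φ (φ (φ d)) = d
  φ_ne : ∀ d, φ d ≠ d
  qm_φ : ∀ d, qm (φ d) = qm d
  qm_inj : ∀ d d', qm d = qm d' → d' = d ∨ d' = φ d ∨ d' = φ (φ d)
  qm_surj : Function.Surjective qm
  vm_R : ∀ d, vm (φ (φ (α d))) = vm d
  vm_inj : ∀ d d', vm d = vm d' → Relation.EqvGen (fun x y => y = φ (φ (α x))) d d'
  vm_surj : Function.Surjective vm
  conn : ∀ d d', Relation.EqvGen (fun x y => y = α x ∨ y = φ x) d d'

variable {Δ Q P : Type}

namespace Surf

/-- Antisymmetric functions on darts (1-cochains). -/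
def Anti (Sf : Surf Δ Q P) {R : Type} [Ring R] (y : Δ → R) : Prop := ∀ d, y (Sf.α d) = -y d

/-- Cocycles. -/
def Cyc (Sf : Surf Δ Q P) {R : Type} [Ring R] (y : Δ → R) : Prop :=
  Sf.Anti y ∧ ∀ d, y d + y (Sf.φ d) + y (Sf.φ (Sf.φ d)) = 0

/-- The coboundary of a function on the vertices. -/
def dl (Sf : Surf Δ Q P) {R : Type} [Ring R] (f : P → R) (d : Δ) : R :=
  f (Sf.vm d) - f (Sf.vm (Sf.φ (Sf.φ d)))

/-- The coboundary of a 1-cochain: a function on the triangles. -/
def dd (Sf : Surf Δ Q P) [Fintype Δ] [DecidableEq Q] {R : Type} [Ring R] (y : Δ → R) (τ : Q) : R :=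
  ∑ d, if Sf.qm d = τ then y d else 0

/-- Six times the intersection form. -/
def J (Sf : Surf Δ Q P) [Fintype Δ] {R : Type} [Ring R] (x y : Δ → R) : R :=
  ∑ d, x d * (y (Sf.φ d) - y (Sf.φ (Sf.φ d)))

end Surf

end Pool.Agent.OL36
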