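import Pool.Agent.LibOL36.S0
import Pool.Agent.LibOL36.E2

/-! # Row V4: the Neumann-Zagier matrix

Plan. Fix `τ = (j, a)`. The darts over `τ` are `(a,b,c,d), (a,c,d,b), (a,d,b,c)` (even). With
`L1 = Lk a b d`, `L2 = Lk a c b`, `L3 = Lk a d c` the left side is `1/2 ∑ L (..)` and with `χ_{xy} = if edge j x y = e then 1 else 0`
it equals `1/2 [L1 (χ_bd - χ_da - χ_ab) + L2 (χ_cb - χ_ba - χ_ac) + L3 (χ_dc - χ_ca - χ_ad)]`. `L1 + L2 + L3 = 0`, so
`= 1/2 [L1 (χ_bd + χ_ac) + L2 (χ_cb + χ_ad) + L3 (χ_dc + χ_ab)]`. And `L3 = -om a b * om c d * ρ_a`, `L1 = -om a c * om d b * ρ_a`,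
`L2 = -om a d * om b c * ρ_a`, `ρ_a = 1/(om a b * om a c * om a d)` (this is the product in `rr`). `κ := kap z u j`; the
relation `hu.cr` and Plücker give `zeta t (z j) = κ * p_t` with `p_0 = om 0 1 * om 2 3`, `p_1 = om 0 3 * om 1 2`,
`p_2 = om 0 2 * om 3 1` (lemma `zeta_eq`; `z = -p_1/p_2`, `1 - z = -p_0/p_2`, `κ = 1/(z p_0) ≠ 0`). Right side: only `j = τ.1`:
`Gz T z e j * rr z u j τ = (∑ t, G t e j * κ p_t) * (-ρ_a / (2κ)) = -1/2 ρ_a ∑_t G t e j p_t`, and
`∑_t G t e j * p_t = p_0 (χ_01 + χ_23) + p_1 (χ_03 + χ_12) + p_2 (χ_02 + χ_13)` (lemma `G_sum`: unfold `Tri.G`, card of a filter over the 6 pairs: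
`Finset.card_filter`, expand `Fin 4 × Fin 4`). Then `fin_cases a` (4 cases, with explicit darts) or a uniform argument with
an even flag. Please keep `zeta_eq`, `kap_ne`, `G_sum` as public lemmas with exactly the statements below: other rows cite
them. -/

set_option autoImplicit false

open Matrix

namespace Pool.Agent.OL36

variable {N : ℕ}

private theorem v4_zeta_aux (z p0 p1 p2 : ℂ) (hz0 : z ≠ 0) (hz1 : z ≠ 1) (h0 : p0 ≠ 0)
    (hp : p0 + p1 + p2 = 0) (hc : z * p2 = -p1) :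
    1 / z = 1 / z / p0 * p0 ∧ 1 / (1 - z) = 1 / z / p0 * p1 ∧
      1 / (z * (z - 1)) = 1 / z / p0 * p2 := by
  have h1 : (1 - z) ≠ 0 := sub_ne_zero.mpr (Ne.symm hz1)
  have h2 : (z - 1) ≠ 0 := sub_ne_zero.mpr hz1
  have h3 : p0 = (z - 1) * p2 := by linear_combination hp - hc
  refine ⟨?_, ?_, ?_⟩
  · rw [div_mul_cancel₀ _ h0]
  · rw [div_div, div_mul_eq_mul_div, one_mul, div_eq_div_iff h1 (mul_ne_zero hz0 h0)]
    linear_combination z * h3 + (z - 1) * hc
  · rw [div_div, div_mul_eq_mul_div, one_mul,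
      div_eq_div_iff (mul_ne_zero hz0 h2) (mul_ne_zero hz0 h0)]
    linear_combination z * h3

theorem zeta_eq (T : Tri N) (z : Fin N → ℂ) (hz : ∀ j, z j ≠ 0 ∧ z j ≠ 1)
    (u : Fin N → Fin 4 → Fin 2 → ℂ) (hu : IsDec T z u) (j : Fin N) :
    zeta 0 (z j) = kap z u j * (om (u j 0) (u j 1) * om (u j 2) (u j 3)) ∧
    zeta 1 (z j) = kap z u j * (om (u j 0) (u j 3) * om (u j 1) (u j 2)) ∧
    zeta 2 (z j) = kap z u j * (om (u j 0) (u j 2) * om (u j 3) (u j 1)) := by
  have h := v4_zeta_aux (z j) (om (u j 0) (u j 1) * om (u j 2) (u j 3))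
    (om (u j 0) (u j 3) * om (u j 1) (u j 2)) (om (u j 0) (u j 2) * om (u j 3) (u j 1))
    (hz j).1 (hz j).2 (mul_ne_zero (hu.ne j 0 1 (by decide)) (hu.ne j 2 3 (by decide)))
    (by have := plucker (u j 0) (u j 1) (u j 2) (u j 3)
        linear_combination this) (hu.cr j)
  exact h

theorem kap_ne (T : Tri N) (z : Fin N → ℂ) (hz : ∀ j, z j ≠ 0 ∧ z j ≠ 1)
    (u : Fin N → Fin 4 → Fin 2 → ℂ) (hu : IsDec T z u) (j : Fin N) : kap z u j ≠ 0 := by
  have h1 : zeta 0 (z j) = 1 / z j := rfl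
  rw [kap, h1]
  exact div_ne_zero (one_div_ne_zero (hz j).1)
    (mul_ne_zero (hu.ne j 0 1 (by decide)) (hu.ne j 2 3 (by decide)))

private theorem v4_typ : typ 0 1 = 0 ∧ typ 0 2 = 2 ∧ typ 0 3 = 1 ∧ typ 1 2 = 1 ∧ typ 1 3 = 2 ∧
    typ 2 3 = 0 := by
  decide

private theorem v4_G (T : Tri N) (e j : Fin N) (t : Fin 3) :
    (T.G t e j : ℂ) =
      (if typ 0 1 = t ∧ T.edge j 0 1 = e then 1 else 0) +
      (if typ 0 2 = t ∧ T.edge j 0 2 = e then 1 else 0) +
      (if typ 0 3 = t ∧ T.edge j 0 3 = e then 1 else 0) +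
      (if typ 1 2 = t ∧ T.edge j 1 2 = e then 1 else 0) +
      (if typ 1 3 = t ∧ T.edge j 1 3 = e then 1 else 0) +
      (if typ 2 3 = t ∧ T.edge j 2 3 = e then 1 else 0) := by
  have h : ∀ (q : Fin 4 → Fin 4 → Prop) [∀ a b, Decidable (q a b)],
      ((Finset.univ.filter (fun p : Fin 4 × Fin 4 => p.1 < p.2 ∧ q p.1 p.2)).card : ℂ) =
      (if q 0 1 then 1 else 0) + (if q 0 2 then 1 else 0) + (if q 0 3 then 1 else 0) +
      (if q 1 2 then 1 else 0) + (if q 1 3 then 1 else 0) + (if q 2 3 then 1 else 0) := by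
    intro q _
    rw [Finset.card_filter]
    push_cast
    rw [Fintype.sum_prod_type]
    simp only [Fin.sum_univ_four]
    have e1 : ∀ a b : Fin 4, a < b → (a < b ∧ q a b ↔ q a b) := fun a b hab => by
      simp [hab]
    have e2 : ∀ a b : Fin 4, ¬ a < b → (a < b ∧ q a b ↔ False) := fun a b hab => by
      simp [hab]
    simp only [e2 0 0 (by decide), e1 0 1 (by decide), e1 0 2 (by decide), e1 0 3 (by decide),
      e2 1 0 (by decide), e2 1 1 (by decide), e1 1 2 (by decide), e1 1 3 (by decide),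
      e2 2 0 (by decide), e2 2 1 (by decide), e2 2 2 (by decide), e1 2 3 (by decide),
      e2 3 0 (by decide), e2 3 1 (by decide), e2 3 2 (by decide), e2 3 3 (by decide), if_false]
    ring
  have h1 := h (fun a b => typ a b = t ∧ T.edge j a b = e)
  rw [Tri.G, Int.cast_natCast]
  exact h1

theorem G_sum (T : Tri N) (e j : Fin N) (p : Fin 3 → ℂ) :
    ∑ t, (T.G t e j : ℂ) * p t =
      p 0 * ((if T.edge j 0 1 = e then 1 else 0) + (if T.edge j 2 3 = e then 1 else 0)) +
      p 1 * ((if T.edge j 0 3 = e then 1 else 0) + (if T.edge j 1 2 = e then 1 else 0)) +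
      p 2 * ((if T.edge j 0 2 = e then 1 else 0) + (if T.edge j 1 3 = e then 1 else 0)) := by
  obtain ⟨t01, t02, t03, t12, t13, t23⟩ := v4_typ
  rw [Fin.sum_univ_three, v4_G, v4_G, v4_G, t01, t02, t03, t12, t13, t23]
  have a01 : ¬ ((0 : Fin 3) = 1) := by decide
  have a02 : ¬ ((0 : Fin 3) = 2) := by decide
  have a10 : ¬ ((1 : Fin 3) = 0) := by decide
  have a12 : ¬ ((1 : Fin 3) = 2) := by decide
  have a20 : ¬ ((2 : Fin 3) = 0) := by decide
  have a21 : ¬ ((2 : Fin 3) = 1) := by decide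
  simp only [a01, a02, a10, a12, a20, a21, false_and, true_and, if_false]
  ring

private theorem v4_sum_even (W : Fin 4 → Fin 4 → Fin 4 → Fin 4 → ℂ) :
    ∑ π : {π : Equiv.Perm (Fin 4) // Equiv.Perm.sign π = 1},
      W (π.1 0) (π.1 1) (π.1 2) (π.1 3) =
    W 0 1 2 3 + W 0 2 3 1 + W 0 3 1 2 + W 1 0 3 2 + W 1 2 0 3 + W 1 3 2 0 +
    W 2 0 1 3 + W 2 1 3 0 + W 2 3 0 1 + W 3 0 2 1 + W 3 1 0 2 + W 3 2 1 0 := by
  have hS : (Finset.univ.image (fun π : {π : Equiv.Perm (Fin 4) // Equiv.Perm.sign π = 1} =>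
      (π.1 0, π.1 1, π.1 2, π.1 3))) =
      ({(0, 1, 2, 3), (0, 2, 3, 1), (0, 3, 1, 2), (1, 0, 3, 2), (1, 2, 0, 3), (1, 3, 2, 0),
        (2, 0, 1, 3), (2, 1, 3, 0), (2, 3, 0, 1), (3, 0, 2, 1), (3, 1, 0, 2), (3, 2, 1, 0)} :
        Finset (Fin 4 × Fin 4 × Fin 4 × Fin 4)) := by
    decide +kernel
  have hinj : Function.Injective (fun π : {π : Equiv.Perm (Fin 4) // Equiv.Perm.sign π = 1} =>
      (π.1 0, π.1 1, π.1 2, π.1 3)) := by
    intro π π' h
    simp only [Prod.mk.injEq] at h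
    obtain ⟨h0, h1, h2, h3⟩ := h
    apply Subtype.ext
    apply Equiv.ext
    intro i
    fin_cases i
    · exact h0
    · exact h1
    · exact h2
    · exact h3
  have h1 : ∑ π : {π : Equiv.Perm (Fin 4) // Equiv.Perm.sign π = 1},
      W (π.1 0) (π.1 1) (π.1 2) (π.1 3) =
      ∑ x ∈ Finset.univ.image (fun π : {π : Equiv.Perm (Fin 4) // Equiv.Perm.sign π = 1} =>
      (π.1 0, π.1 1, π.1 2, π.1 3)), W x.1 x.2.1 x.2.2.1 x.2.2.2 := by
    rw [Finset.sum_image (fun a _ b _ h => hinj h)]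
  rw [h1, hS]
  rw [Finset.sum_insert (by decide), Finset.sum_insert (by decide), Finset.sum_insert (by decide),
    Finset.sum_insert (by decide), Finset.sum_insert (by decide), Finset.sum_insert (by decide),
    Finset.sum_insert (by decide), Finset.sum_insert (by decide), Finset.sum_insert (by decide),
    Finset.sum_insert (by decide), Finset.sum_insert (by decide), Finset.sum_singleton]
  ring

/-- the local identity at one vertex -/
private theorem v4_loc (a b c d : Fin 2 → ℂ) (h1 : om a b ≠ 0) (h2 : om a c ≠ 0)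
    (h3 : om a d ≠ 0) (xab xac xad xbc xbd xcd : ℂ) :
    Lk a b d / 2 * (xbd - xad - xab) + Lk a c b / 2 * (xbc - xab - xac) +
      Lk a d c / 2 * (xcd - xac - xad) =
    -(1 / (om a b * om a c * om a d)) / 2 *
      (om a b * om c d * (xab + xcd) + om a d * om b c * (xad + xbc) +
        om a c * om d b * (xac + xbd)) := by
  unfold Lk
  have hp := plucker a b c d
  have hbd : om b d = -om d b := om_comm d b
  have hcb : om c b = -om b c := om_comm b c
  have hdc : om d c = -om c d := om_comm c d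
  rw [hbd, hcb, hdc]
  field_simp
  linear_combination (xab + xac + xad) * hp

set_option linter.unusedSimpArgs false in
/-- V4: the Neumann-Zagier matrix. -/
theorem dd_VV (T : Tri N) (z : Fin N → ℂ) (hz : ∀ j, z j ≠ 0 ∧ z j ≠ 1)
    (u : Fin N → Fin 4 → Fin 2 → ℂ) (hu : IsDec T z u) (e : Fin N) (τ : Fin N × Fin 4) :
    (∑ d : Dt N, if (d.1, d.2.1 0) = τ then VV T u e d else 0) =
      ∑ j, Gz T z e j * rr z u j τ := by
  obtain ⟨j, a⟩ := τ
  have hne := hu.ne j
  have hk := kap_ne T z hz u hu j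
  obtain ⟨z0, z1, z2⟩ := zeta_eq T z hz u hu j
  have hR : ∑ j', Gz T z e j' * rr z u j' (j, a) = Gz T z e j * rr z u j (j, a) := by
    refine Finset.sum_eq_single j (fun j' _ hj' => ?_) (fun h => absurd (Finset.mem_univ j) h)
    rw [rr, if_neg (Ne.symm hj'), mul_zero]
  have hG : Gz T z e j = kap z u j *
      (om (u j 0) (u j 1) * om (u j 2) (u j 3) *
        ((if T.edge j 0 1 = e then 1 else 0) + (if T.edge j 2 3 = e then 1 else 0)) +
      om (u j 0) (u j 3) * om (u j 1) (u j 2) *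
        ((if T.edge j 0 3 = e then 1 else 0) + (if T.edge j 1 2 = e then 1 else 0)) +
      om (u j 0) (u j 2) * om (u j 3) (u j 1) *
        ((if T.edge j 0 2 = e then 1 else 0) + (if T.edge j 1 3 = e then 1 else 0))) := by
    rw [Gz, G_sum T e j (fun t => zeta t (z j)), z0, z1, z2]
    ring
  obtain ⟨W, hW⟩ : ∃ W : Fin 4 → Fin 4 → Fin 4 → Fin 4 → ℂ, ∀ b0 b1 b2 b3,
      W b0 b1 b2 b3 = if b0 = a then
          Lk (u j b0) (u j b1) (u j b3) / 2 *
          ((if T.edge j b1 b3 = e then 1 else 0) -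
          (if T.edge j b3 b0 = e then 1 else 0) -
          (if T.edge j b0 b1 = e then (1 : ℂ) else 0)) else 0 :=
    ⟨fun b0 b1 _ b3 => _, fun _ _ _ _ => rfl⟩
  have hL : (∑ d : Dt N, if (d.1, d.2.1 0) = (j, a) then VV T u e d else 0) =
      ∑ π : {π : Equiv.Perm (Fin 4) // Equiv.Perm.sign π = 1},
        W (π.1 0) (π.1 1) (π.1 2) (π.1 3) := by
    rw [Fintype.sum_prod_type]
    rw [Finset.sum_eq_single j]
    · refine Finset.sum_congr rfl (fun π _ => ?_)
      rw [hW]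
      by_cases h : π.1 0 = a
      · rw [if_pos (show ((j, π).1, ((j, π) : Dt N).2.1 0) = (j, a) from Prod.ext rfl h),
          if_pos h]
        rfl
      · rw [if_neg (fun h' => h (congrArg Prod.snd h')), if_neg h]
    · intro j' _ hj'
      refine Finset.sum_eq_zero (fun π _ => ?_)
      rw [if_neg (fun h' => hj' (congrArg Prod.fst h'))]
    · intro h; exact absurd (Finset.mem_univ j) h
  rw [hL, v4_sum_even W, hR, hG, rr, if_pos rfl, Fin.prod_univ_four]
  simp only [hW]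
  have c10 := edge_comm T j 0 1 (by decide)
  have c20 := edge_comm T j 0 2 (by decide)
  have c30 := edge_comm T j 0 3 (by decide)
  have c21 := edge_comm T j 1 2 (by decide)
  have c31 := edge_comm T j 1 3 (by decide)
  have c32 := edge_comm T j 2 3 (by decide)
  rw [c10, c20, c30, c21, c31, c32]
  generalize (if T.edge j 0 1 = e then (1 : ℂ) else 0) = x01
  generalize (if T.edge j 0 2 = e then (1 : ℂ) else 0) = x02
  generalize (if T.edge j 0 3 = e then (1 : ℂ) else 0) = x03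
  generalize (if T.edge j 1 2 = e then (1 : ℂ) else 0) = x12
  generalize (if T.edge j 1 3 = e then (1 : ℂ) else 0) = x13
  generalize (if T.edge j 2 3 = e then (1 : ℂ) else 0) = x23
  have a01 : ¬ ((0 : Fin 4) = 1) := by decide
  have a02 : ¬ ((0 : Fin 4) = 2) := by decide
  have a03 : ¬ ((0 : Fin 4) = 3) := by decide
  have a10 : ¬ ((1 : Fin 4) = 0) := by decide
  have a12 : ¬ ((1 : Fin 4) = 2) := by decide
  have a13 : ¬ ((1 : Fin 4) = 3) := by decide
  have a20 : ¬ ((2 : Fin 4) = 0) := by decide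
  have a21 : ¬ ((2 : Fin 4) = 1) := by decide
  have a23 : ¬ ((2 : Fin 4) = 3) := by decide
  have a30 : ¬ ((3 : Fin 4) = 0) := by decide
  have a31 : ¬ ((3 : Fin 4) = 1) := by decide
  have a32 : ¬ ((3 : Fin 4) = 2) := by decide
  have key : ∀ X Y : ℂ, kap z u j * X * (-(1 / Y) / (2 * kap z u j)) = -(1 / Y) / 2 * X := by
    intro X Y
    field_simp
  rw [key]
  have o10 : om (u j 1) (u j 0) = -om (u j 0) (u j 1) := om_comm _ _
  have o20 : om (u j 2) (u j 0) = -om (u j 0) (u j 2) := om_comm _ _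
  have o30 : om (u j 3) (u j 0) = -om (u j 0) (u j 3) := om_comm _ _
  have o21 : om (u j 2) (u j 1) = -om (u j 1) (u j 2) := om_comm _ _
  have o31 : om (u j 3) (u j 1) = -om (u j 1) (u j 3) := om_comm _ _
  have o32 : om (u j 3) (u j 2) = -om (u j 2) (u j 3) := om_comm _ _
  fin_cases a
  · simp only [Fin.zero_eta, Fin.isValue, if_true, a01, a02, a03, a10, a12, a13, a20, a21, a23, a30,
      a31, a32, if_false, add_zero, zero_add, one_mul]
    rw [← v4_loc (u j 0) (u j 1) (u j 2) (u j 3) (hne 0 1 a01) (hne 0 2 a02) (hne 0 3 a03)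
      x01 x02 x03 x12 x13 x23]
  · have h := v4_loc (u j 1) (u j 0) (u j 3) (u j 2) (hne 1 0 a10) (hne 1 3 a13) (hne 1 2 a12)
      x01 x13 x12 x03 x02 x23
    simp only [Fin.mk_one, Fin.isValue, if_true, a01, a02, a03, a10, a12, a13, a20, a21, a23, a30,
      a31, a32, if_false, add_zero, zero_add, mul_one]
    rw [o10, o20, o30, o21, o31, o32] at *
    linear_combination h
  · have h := v4_loc (u j 2) (u j 3) (u j 0) (u j 1) (hne 2 3 a23) (hne 2 0 a20) (hne 2 1 a21)
      x23 x02 x12 x03 x13 x01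
    simp only [Fin.reduceFinMk, Fin.isValue, if_true, a01, a02, a03, a10, a12, a13, a20, a21, a23,
      a30, a31, a32, if_false, add_zero, zero_add, mul_one]
    rw [o10, o20, o30, o21, o31, o32] at *
    linear_combination h
  · have h := v4_loc (u j 3) (u j 2) (u j 1) (u j 0) (hne 3 2 a32) (hne 3 1 a31) (hne 3 0 a30)
      x23 x13 x03 x12 x02 x01
    simp only [Fin.reduceFinMk, Fin.isValue, if_true, a01, a02, a03, a10, a12, a13, a20, a21, a23,
      a30, a31, a32, if_false, add_zero, zero_add, mul_one]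
    rw [o10, o20, o30, o21, o31, o32] at *
    linear_combination h

end Pool.Agent.OL36
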