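import Pool.Agent.LibOL36.B1
import Pool.Agent.LibOL36.V4
import Pool.Agent.LibOL36.Surf

/-! # Row F3: the tetrahedra

Plan. Write `x r (j, a) := ∑ d, if (d.1, d.2.1 0) = (j, a) then y r d else 0`, so `bd1 (ev1 u (y r)) j = -∑_a x r (j,a) • nil (u j a)`
(`bd1_ev`). Let `Q : Matrix (Fin N ⊕ (Fin N × Fin 3)) (Fin N × Fin 4) ℂ` be the matrix under `dsq`. Let
`B : Matrix (Fin N × Fin 4) (Fin N × Fin 4) ℂ`, block diagonal over `j`: the `4 × 4` block has row `a` equal to
`(co (nil (u j a)) 0, co .. 1, co .. 2, if a = 3 then 1 else 0)`. `det B_j = om 0 1 * om 1 2 * om 2 0` up to sign (`det_face` for the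
vertices 0, 1, 2 by expanding the last column, `Matrix.det_succ_column` or reorder), all squared.
`Q * B`: columns `(j, 3)`: for the row `inl j'`: `rr z u j' (j, 3)`; columns `(j, t)`, `t < 3`: for `inl j'`: `co` of the
relation = 0 (`rel4`: `rh` is the coefficient in `rr` up to the factor `-1/(2κ)`); for `inr r`: `-co (bd1 (ev1 u (y r)) j) t`. Reorder the
columns: `Fin N × Fin 4 ≃ Fin N ⊕ (Fin N × Fin 3)` (`(j,3) ↦ inl j`, `(j,t) ↦ inr (j,t)`): the matrix is
`fromBlocks (diagonal (rr j (j,3))) 0 * (-A₀ matrix)`. With `dsq_mul`, `dsq_reindex`, `dsq_fromBlocks`, `dsq_square`: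
`dsq Q * ∏ (om 01 * om 12 * om 20)^2 = ∏_j (rr z u j (j,3))^2 * A₀^2` and
`rr z u j (j,3) * 2 κ * six = ∓ om 01 om 12 om 02`: (`rr (j,3) = -1/(om 3 0 * om 3 1 * om 3 2) / (2 κ)`). Conclude by
cancelling non-zero factors (`hu.ne`, `kap_ne`). -/

set_option autoImplicit false

open Matrix

namespace Pool.Agent.OL36

variable {N : ℕ}

private def f3phi : Fin N ⊕ (Fin N × Fin 3) → Fin N × Fin 4 :=
  Sum.elim (fun j => (j, 3)) (fun p => (p.1, p.2.castSucc))

private theorem f3phi_bij : Function.Bijective (f3phi (N := N)) := by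
  constructor
  · rintro (a | ⟨a, t⟩) (b | ⟨b, t'⟩) h
    · simp only [f3phi, Sum.elim_inl, Prod.mk.injEq, and_true] at h
      rw [h]
    · exfalso
      simp only [f3phi, Sum.elim_inl, Sum.elim_inr, Prod.mk.injEq] at h
      have h2 := congrArg Fin.val h.2
      have h3 : t'.val < 3 := t'.2
      simp at h2
      omega
    · exfalso
      simp only [f3phi, Sum.elim_inl, Sum.elim_inr, Prod.mk.injEq] at h
      have h2 := congrArg Fin.val h.2
      have h3 : t.val < 3 := t.2
      simp at h2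
      omega
    · simp only [f3phi, Sum.elim_inr, Prod.mk.injEq] at h
      obtain ⟨h1, h2⟩ := h
      have h3 : t = t' := Fin.castSucc_injective _ h2
      rw [h1, h3]
  · rintro ⟨j, a⟩
    by_cases h : a = 3
    · exact ⟨Sum.inl j, by simp [f3phi, h]⟩
    · have h' : a.val < 3 := by
        have := a.2
        have h2 : a.val ≠ 3 := fun h2 => h (Fin.ext h2)
        omega
      exact ⟨Sum.inr (j, ⟨a.val, h'⟩), by
        simp only [f3phi, Sum.elim_inr, Prod.mk.injEq, true_and]
        exact Fin.ext rfl⟩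

private noncomputable def f3blk (u : Fin N → Fin 4 → Fin 2 → ℂ) (j : Fin N) :
    Matrix (Fin 4) (Fin 4) ℂ :=
  fun a => ![co (nil (u j a)) 0, co (nil (u j a)) 1, co (nil (u j a)) 2, if a = 3 then 1 else 0]

private theorem f3blk_det (u : Fin N → Fin 4 → Fin 2 → ℂ) (j : Fin N) :
    (f3blk u j).det =
      om (u j 0) (u j 1) * om (u j 1) (u j 2) * om (u j 2) (u j 0) := by
  rw [Matrix.det_succ_column (f3blk u j) 3, Fin.sum_univ_four]
  have h0 : f3blk u j 0 3 = 0 := by simp [f3blk]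
  have h1 : f3blk u j 1 3 = 0 := by simp [f3blk]
  have h2 : f3blk u j 2 3 = 0 := by simp [f3blk]
  have h3 : f3blk u j 3 3 = 1 := by simp [f3blk]
  rw [h0, h1, h2, h3]
  have h4 : ((f3blk u j).submatrix (Fin.succAbove 3) (Fin.succAbove 3)) =
      (![co (nil (u j 0)), co (nil (u j 1)), co (nil (u j 2))] : Matrix (Fin 3) (Fin 3) ℂ) := by
    ext a t
    fin_cases a <;> fin_cases t <;> rfl
  rw [h4, det_face]
  norm_num

private noncomputable def f3B (u : Fin N → Fin 4 → Fin 2 → ℂ) :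
    Matrix (Fin N × Fin 4) (Fin N × Fin 4) ℂ :=
  (Matrix.blockDiagonal (f3blk u)).submatrix (Equiv.prodComm (Fin N) (Fin 4))
    (Equiv.prodComm (Fin N) (Fin 4))

private theorem f3B_apply (u : Fin N → Fin 4 → Fin 2 → ℂ) (j j' : Fin N) (a b : Fin 4) :
    f3B u (j, a) (j', b) = if j = j' then f3blk u j a b else 0 := by
  unfold f3B
  rw [Matrix.submatrix_apply, Equiv.prodComm_apply, Equiv.prodComm_apply]
  exact Matrix.blockDiagonal_apply' _ _ _ _ _

private theorem f3B_det (u : Fin N → Fin 4 → Fin 2 → ℂ) :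
    (f3B u).det = ∏ j, (om (u j 0) (u j 1) * om (u j 1) (u j 2) * om (u j 2) (u j 0)) := by
  unfold f3B
  rw [Matrix.det_submatrix_equiv_self, Matrix.det_blockDiagonal]
  exact Finset.prod_congr rfl (fun j _ => f3blk_det u j)

private theorem f3_sum (f : Fin N × Fin 4 → ℂ) (u : Fin N → Fin 4 → Fin 2 → ℂ) (j : Fin N)
    (b : Fin 4) : ∑ τ, f τ * f3B u τ (j, b) = ∑ a, f (j, a) * f3blk u j a b := by
  rw [Fintype.sum_prod_type, Finset.sum_eq_single j]
  · refine Finset.sum_congr rfl (fun a _ => ?_)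
    rw [f3B_apply, if_pos rfl]
  · intro j' _ hj
    refine Finset.sum_eq_zero (fun a _ => ?_)
    rw [f3B_apply, if_neg hj, mul_zero]
  · intro h
    exact absurd (Finset.mem_univ _) h

private theorem f3blk_cast (u : Fin N → Fin 4 → Fin 2 → ℂ) (j : Fin N) (a : Fin 4)
    (t : Fin 3) : f3blk u j a t.castSucc = co (nil (u j a)) t := by
  fin_cases t <;> rfl

private theorem f3blk_three (u : Fin N → Fin 4 → Fin 2 → ℂ) (j : Fin N) (a : Fin 4) :
    f3blk u j a 3 = if a = 3 then 1 else 0 := rfl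

private theorem f3_rel (z : Fin N → ℂ) (u : Fin N → Fin 4 → Fin 2 → ℂ)
    (hne : ∀ j a b, a ≠ b → om (u j a) (u j b) ≠ 0) (j : Fin N) (t : Fin 3) :
    ∑ a, rr z u j (j, a) * co (nil (u j a)) t = 0 := by
  have h := rel4 (u j 0) (u j 1) (u j 2) (u j 3) (hne j 0 1 (by decide)) (hne j 0 2 (by decide))
    (hne j 0 3 (by decide)) (hne j 1 2 (by decide)) (hne j 1 3 (by decide))
    (hne j 2 3 (by decide))
  have r0 : rr z u j (j, 0) = -(rh (u j 0) (u j 1) (u j 2) (u j 3)) / (2 * kap z u j) := by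
    simp [rr, rh, Fin.prod_univ_four]
  have r1 : rr z u j (j, 1) = -(rh (u j 1) (u j 2) (u j 3) (u j 0)) / (2 * kap z u j) := by
    simp [rr, rh, Fin.prod_univ_four]
    ring
  have r2 : rr z u j (j, 2) = -(rh (u j 2) (u j 3) (u j 0) (u j 1)) / (2 * kap z u j) := by
    simp [rr, rh, Fin.prod_univ_four]
    ring
  have r3 : rr z u j (j, 3) = -(rh (u j 3) (u j 0) (u j 1) (u j 2)) / (2 * kap z u j) := by
    simp [rr, rh, Fin.prod_univ_four]
  have hco : ∀ (a b : Fin 2), rh (u j 0) (u j 1) (u j 2) (u j 3) * nil (u j 0) a b +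
      rh (u j 1) (u j 2) (u j 3) (u j 0) * nil (u j 1) a b +
      rh (u j 2) (u j 3) (u j 0) (u j 1) * nil (u j 2) a b +
      rh (u j 3) (u j 0) (u j 1) (u j 2) * nil (u j 3) a b = 0 := by
    intro a b
    have h' := congrFun (congrFun h a) b
    simpa [Matrix.add_apply, Matrix.smul_apply] using h'
  rw [Fin.sum_univ_four, r0, r1, r2, r3]
  fin_cases t
  · have h' := hco 0 1
    simp only [co]
    simp only [Fin.zero_eta, Matrix.cons_val_zero]
    linear_combination (-1 / (2 * kap z u j)) * h'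
  · have h' := hco 1 0
    simp only [co]
    simp only [Fin.mk_one, Matrix.cons_val_one, Matrix.cons_val_zero]
    linear_combination (-1 / (2 * kap z u j)) * h'
  · have h' := hco 0 0
    simp only [co]
    simp only [Fin.reduceFinMk, Matrix.cons_val]
    linear_combination (-1 / (2 * kap z u j)) * h'

private theorem f3_bd (u : Fin N → Fin 4 → Fin 2 → ℂ) (y : Dt N → ℂ) (j : Fin N) (t : Fin 3) :
    ∑ a, (∑ d : Dt N, if (d.1, d.2.1 0) = (j, a) then y d else 0) * co (nil (u j a)) t =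
      -co (bd1 (ev1 u y) j) t := by
  rw [bd1_ev]
  have h : ∀ (a b : Fin 2), (-∑ a', (∑ d : Dt N, if (d.1, d.2.1 0) = (j, a') then y d else 0) •
      nil (u j a')) a b = -∑ a', (∑ d : Dt N, if (d.1, d.2.1 0) = (j, a') then y d else 0) *
      nil (u j a') a b := by
    intro a b
    rw [Matrix.neg_apply, Matrix.sum_apply]
    rfl
  fin_cases t
  · change _ = -((-∑ a', (∑ d : Dt N, if (d.1, d.2.1 0) = (j, a') then y d else 0) •
      nil (u j a')) 0 1)
    rw [h, neg_neg]
    rfl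
  · change _ = -((-∑ a', (∑ d : Dt N, if (d.1, d.2.1 0) = (j, a') then y d else 0) •
      nil (u j a')) 1 0)
    rw [h, neg_neg]
    rfl
  · change _ = -((-∑ a', (∑ d : Dt N, if (d.1, d.2.1 0) = (j, a') then y d else 0) •
      nil (u j a')) 0 0)
    rw [h, neg_neg]
    rfl

/-- F3: the tetrahedra. -/
theorem A0_eq (T : Tri N) (z : Fin N → ℂ) (hz : ∀ j, z j ≠ 0 ∧ z j ≠ 1)
    (u : Fin N → Fin 4 → Fin 2 → ℂ) (hu : IsDec T z u) (y : Fin N × Fin 3 → Dt N → ℂ) :
    (Matrix.det (fun r c : Fin N × Fin 3 => co (bd1 (ev1 u (y r)) c.1) c.2)) ^ 2 =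
      dsq (fun (x : Fin N ⊕ (Fin N × Fin 3)) (τ : Fin N × Fin 4) =>
        Sum.elim (rr z u)
          (fun r τ => ∑ d : Dt N, if (d.1, d.2.1 0) = τ then y r d else 0) x τ) *
      ∏ j, (2 * kap z u j * six u j) ^ 2 := by
  classical
  set Q : Matrix (Fin N ⊕ (Fin N × Fin 3)) (Fin N × Fin 4) ℂ :=
    (fun (x : Fin N ⊕ (Fin N × Fin 3)) (τ : Fin N × Fin 4) =>
        Sum.elim (rr z u)
          (fun r τ => ∑ d : Dt N, if (d.1, d.2.1 0) = τ then y r d else 0) x τ) with hQ
  set M0 : Matrix (Fin N × Fin 3) (Fin N × Fin 3) ℂ :=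
    (fun r c : Fin N × Fin 3 => co (bd1 (ev1 u (y r)) c.1) c.2) with hM0
  let e : (Fin N ⊕ (Fin N × Fin 3)) ≃ (Fin N × Fin 4) := Equiv.ofBijective f3phi f3phi_bij
  let C : Matrix (Fin N × Fin 3) (Fin N) ℂ :=
    fun r j => (Q * f3B u) (Sum.inr r) (j, 3)
  have hblk : (Q * f3B u).submatrix id e =
      fromBlocks (Matrix.diagonal (fun j => rr z u j (j, 3))) 0 C (-M0) := by
    ext x w
    rcases x with j' | r <;> rcases w with j | ⟨j, t⟩
    · rw [Matrix.submatrix_apply, Matrix.fromBlocks_apply₁₁, Matrix.mul_apply]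
      have h := f3_sum (fun τ => Q (Sum.inl j') τ) u j 3
      have he : e (Sum.inl j) = (j, 3) := rfl
      rw [he]
      simp only [id] at h ⊢
      rw [h]
      simp only [f3blk_three]
      simp only [mul_ite, mul_one, mul_zero, Finset.sum_ite_eq', Finset.mem_univ, if_true]
      by_cases hj : j' = j
      · subst hj
        rw [Matrix.diagonal_apply_eq]
        rfl
      · rw [Matrix.diagonal_apply_ne _ hj]
        simp only [hQ, Sum.elim_inl, rr]
        rw [if_neg (fun h => hj h.symm)]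
    · rw [Matrix.submatrix_apply, Matrix.fromBlocks_apply₁₂, Matrix.mul_apply]
      have h := f3_sum (fun τ => Q (Sum.inl j') τ) u j t.castSucc
      have he : e (Sum.inr (j, t)) = (j, t.castSucc) := rfl
      rw [he]
      simp only [id] at h ⊢
      rw [h]
      simp only [f3blk_cast]
      by_cases hj : j' = j
      · subst hj
        exact f3_rel z u hu.ne j' t
      · refine Finset.sum_eq_zero (fun a _ => ?_)
        simp only [hQ, Sum.elim_inl, rr]
        rw [if_neg (fun h => hj h.symm), zero_mul]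
    · rfl
    · rw [Matrix.submatrix_apply, Matrix.fromBlocks_apply₂₂, Matrix.mul_apply]
      have h := f3_sum (fun τ => Q (Sum.inr r) τ) u j t.castSucc
      have he : e (Sum.inr (j, t)) = (j, t.castSucc) := rfl
      rw [he]
      simp only [id] at h ⊢
      rw [h]
      simp only [f3blk_cast]
      exact f3_bd u (y r) j t
  have h1 : dsq ((Q * f3B u).submatrix id e) = dsq Q * (f3B u).det ^ 2 := by
    have h2 : (Q * f3B u).submatrix id e = (Q * f3B u).submatrix (Equiv.refl _) e := rfl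
    rw [h2, dsq_reindex, dsq_mul e Q (f3B u) (Equiv.refl _), dsq_square]
  rw [hblk, dsq_square, Matrix.det_fromBlocks_zero₁₂, Matrix.det_diagonal, f3B_det,
    Matrix.det_neg] at h1
  have hsq : ((-1 : ℂ) ^ Fintype.card (Fin N × Fin 3)) ^ 2 = 1 := by
    rw [← pow_mul, mul_comm, pow_mul]
    norm_num
  have hk : ∀ j, rr z u j (j, 3) ≠ 0 ∧
      rr z u j (j, 3) ^ 2 * (2 * kap z u j * six u j) ^ 2 =
        (om (u j 0) (u j 1) * om (u j 1) (u j 2) * om (u j 2) (u j 0)) ^ 2 := by
    intro j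
    have hκ := kap_ne T z hz u hu j
    have n30 := hu.ne j 3 0 (by decide)
    have n31 := hu.ne j 3 1 (by decide)
    have n32 := hu.ne j 3 2 (by decide)
    have r3 : rr z u j (j, 3) =
        -(1 / (om (u j 3) (u j 0) * om (u j 3) (u j 1) * om (u j 3) (u j 2))) /
          (2 * kap z u j) := by
      simp [rr, Fin.prod_univ_four]
    constructor
    · rw [r3]
      exact div_ne_zero (neg_ne_zero.mpr (one_div_ne_zero (mul_ne_zero (mul_ne_zero n30 n31) n32)))
        (mul_ne_zero two_ne_zero hκ)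
    · rw [r3, six, om_comm (u j 3) (u j 0), om_comm (u j 3) (u j 1), om_comm (u j 3) (u j 2),
        om_comm (u j 2) (u j 0)]
      field_simp
  have hP : (∏ j, rr z u j (j, 3)) ≠ 0 := Finset.prod_ne_zero_iff.mpr (fun j _ => (hk j).1)
  have hP2 : (∏ j, rr z u j (j, 3)) ^ 2 * ∏ j, (2 * kap z u j * six u j) ^ 2 =
      (∏ j, (om (u j 0) (u j 1) * om (u j 1) (u j 2) * om (u j 2) (u j 0))) ^ 2 := by
    rw [← Finset.prod_pow, ← Finset.prod_pow, ← Finset.prod_mul_distrib]
    exact Finset.prod_congr rfl (fun j _ => (hk j).2)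
  apply mul_left_cancel₀ (pow_ne_zero 2 hP)
  linear_combination h1 + dsq Q * hP2 * (-1) + (-(∏ j, rr z u j (j, 3)) ^ 2 * M0.det ^ 2) * hsq


end Pool.Agent.OL36
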