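import Pool.Agent.LibOL36.Surf

/-! # Row TJ: the intersection form

Plan (`R` commutative ring). `φ` and `α` are bijections of `Δ` (`φφφ`, `αα`): `Equiv.sum_comp`.
`J_antisymm`: `J y x = ∑ y d x(φ d) - ∑ y d x(φ² d)`; substitute `d = φ² d'` in the first and `d = φ d'` in the second sum:
`= ∑ x d' (y (φ² d') - y (φ d')) = -J x y`. `J_dl`: `J (dl f) y = -J y (dl f)`; with `F = f ∘ vm`,
`dl f (φ d) - dl f (φ² d) = 2 F (φ d) - F d - F (φ² d)`; reindex: `J y (dl f) = ∑ F d (2 y (φ² d) - y d - y (φ d)) = 3 ∑ F d y (φ² d) =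
-3 ∑ F d (y d + y (φ d))`. And `∑ F d y (φ d) = -∑ F d y (d)`: the bijection `d ↦ α (φ d)` preserves `F`
(`vm (α (φ d)) = vm (φ² (α (α (φ d)))) = vm (φ² (φ d)) = vm d`, by `vm_R`) and `y (α (φ d)) = -y (φ d)`. So it is `0`.
`dd_eq`: the three darts over a triangle are `d, φ d, φ² d` (`qm_inj`, `qm_φ`, `φ_ne`, distinct). `cyc_iff`: from it.
`dl_anti`, `dl_cyc`: `vm (α d) = vm (φ² d)` (`vm_R (α d)` and `αα`), telescoping. -/

set_option autoImplicit false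

open Matrix

namespace Pool.Agent.OL36

variable {Δ Q P : Type}

variable {R : Type} [CommRing R]

private def tjφ (Sf : Surf Δ Q P) : Δ ≃ Δ where
  toFun := Sf.φ
  invFun := fun d => Sf.φ (Sf.φ d)
  left_inv := Sf.φφφ
  right_inv := Sf.φφφ

private def tjα (Sf : Surf Δ Q P) : Δ ≃ Δ where
  toFun := Sf.α
  invFun := Sf.α
  left_inv := Sf.αα
  right_inv := Sf.αα

private lemma tj_sumφ (Sf : Surf Δ Q P) [Fintype Δ] (f : Δ → R) :
    ∑ d, f (Sf.φ d) = ∑ d, f d := Equiv.sum_comp (tjφ Sf) f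

private lemma tj_sumφ2 (Sf : Surf Δ Q P) [Fintype Δ] (f : Δ → R) :
    ∑ d, f (Sf.φ (Sf.φ d)) = ∑ d, f d :=
  (tj_sumφ Sf fun d => f (Sf.φ d)).trans (tj_sumφ Sf f)

private lemma tj_sumα (Sf : Surf Δ Q P) [Fintype Δ] (f : Δ → R) :
    ∑ d, f (Sf.α d) = ∑ d, f d := Equiv.sum_comp (tjα Sf) f

private lemma tj_φ_shift (Sf : Surf Δ Q P) [Fintype Δ] (x y : Δ → R) :
    ∑ d, y d * x (Sf.φ d) = ∑ d, x d * y (Sf.φ (Sf.φ d)) := by
  rw [← tj_sumφ2 Sf fun d => y d * x (Sf.φ d)]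
  refine Finset.sum_congr rfl fun d _ => ?_
  simp only [Sf.φφφ]
  ring

private lemma tj_φ2_shift (Sf : Surf Δ Q P) [Fintype Δ] (x y : Δ → R) :
    ∑ d, y d * x (Sf.φ (Sf.φ d)) = ∑ d, x d * y (Sf.φ d) := by
  rw [← tj_sumφ Sf fun d => y d * x (Sf.φ (Sf.φ d))]
  refine Finset.sum_congr rfl fun d _ => ?_
  simp only [Sf.φφφ]
  ring

private lemma tj_vm_α (Sf : Surf Δ Q P) (d : Δ) : Sf.vm (Sf.α d) = Sf.vm (Sf.φ (Sf.φ d)) := by
  rw [← Sf.vm_R (Sf.α d), Sf.αα]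

theorem Surf.J_antisymm (Sf : Surf Δ Q P) [Fintype Δ] (x y : Δ → R) : Sf.J y x = -Sf.J x y := by
  unfold Surf.J
  simp only [mul_sub, Finset.sum_sub_distrib]
  rw [tj_φ_shift Sf x y, tj_φ2_shift Sf x y]
  ring

theorem Surf.J_dl (Sf : Surf Δ Q P) [Fintype Δ] (f : P → R) (y : Δ → R) (hy : Sf.Cyc y) :
    Sf.J (Sf.dl f) y = 0 := by
  rw [Surf.J_antisymm Sf y (Sf.dl f)]
  have h1 : Sf.J y (Sf.dl f) = ∑ d, f (Sf.vm d) * (2 * y (Sf.φ (Sf.φ d)) - y d - y (Sf.φ d)) := by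
    have e1 : Sf.J y (Sf.dl f) = 2 * ∑ d, y d * (fun d => f (Sf.vm d)) (Sf.φ d)
        - ∑ d, y d * f (Sf.vm d) - ∑ d, y d * (fun d => f (Sf.vm d)) (Sf.φ (Sf.φ d)) := by
      unfold Surf.J Surf.dl
      rw [Finset.mul_sum, ← Finset.sum_sub_distrib, ← Finset.sum_sub_distrib]
      refine Finset.sum_congr rfl fun d _ => ?_
      simp only [Sf.φφφ]
      ring
    rw [e1, tj_φ_shift Sf (fun d => f (Sf.vm d)) y, tj_φ2_shift Sf (fun d => f (Sf.vm d)) y,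
      Finset.mul_sum, ← Finset.sum_sub_distrib, ← Finset.sum_sub_distrib]
    refine Finset.sum_congr rfl fun d _ => ?_
    ring
  have h2 : ∑ d, f (Sf.vm d) * y (Sf.φ d) = -∑ d, f (Sf.vm d) * y d := by
    have e1 : ∑ d, f (Sf.vm d) * y d = ∑ d, f (Sf.vm (Sf.α (Sf.φ d))) * y (Sf.α (Sf.φ d)) := by
      rw [tj_sumφ Sf fun d => f (Sf.vm (Sf.α d)) * y (Sf.α d)]
      rw [tj_sumα Sf fun d => f (Sf.vm d) * y d]
    rw [e1, ← Finset.sum_neg_distrib]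
    refine Finset.sum_congr rfl fun d _ => ?_
    rw [tj_vm_α, Sf.φφφ, hy.1]
    ring
  have h3 : Sf.J y (Sf.dl f) = -3 * (∑ d, f (Sf.vm d) * y d + ∑ d, f (Sf.vm d) * y (Sf.φ d)) := by
    rw [h1, ← Finset.sum_add_distrib, Finset.mul_sum]
    refine Finset.sum_congr rfl fun d _ => ?_
    have e := hy.2 d
    have e2 : y (Sf.φ (Sf.φ d)) = -(y d + y (Sf.φ d)) := by linear_combination e
    rw [e2]
    ring
  rw [h3, h2]
  ring

theorem Surf.J_lin (Sf : Surf Δ Q P) [Fintype Δ] (a b : R) (x x' y : Δ → R) :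
    Sf.J (fun d => a * x d + b * x' d) y = a * Sf.J x y + b * Sf.J x' y := by
  unfold Surf.J
  rw [Finset.mul_sum, Finset.mul_sum, ← Finset.sum_add_distrib]
  refine Finset.sum_congr rfl fun d _ => ?_
  ring

theorem Surf.dl_cyc (Sf : Surf Δ Q P) (f : P → R) : Sf.Cyc (Sf.dl f) := by
  refine ⟨fun d => ?_, fun d => ?_⟩
  · unfold Surf.dl
    rw [Sf.vm_R d, tj_vm_α]
    ring
  · unfold Surf.dl
    simp only [Sf.φφφ]
    ring

theorem Surf.dd_eq (Sf : Surf Δ Q P) [Fintype Δ] [DecidableEq Q] (y : Δ → R) (d : Δ) :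
    Sf.dd y (Sf.qm d) = y d + y (Sf.φ d) + y (Sf.φ (Sf.φ d)) := by
  classical
  have h1 : Sf.φ d ≠ d := Sf.φ_ne d
  have h2 : Sf.φ (Sf.φ d) ≠ Sf.φ d := Sf.φ_ne (Sf.φ d)
  have h3 : Sf.φ (Sf.φ d) ≠ d := fun h => h1 (by
    have := congrArg Sf.φ h
    rw [Sf.φφφ] at this
    exact this.symm)
  unfold Surf.dd
  rw [← Finset.sum_filter]
  have h4 : (Finset.univ.filter fun e => Sf.qm e = Sf.qm d) =
      ({d, Sf.φ d, Sf.φ (Sf.φ d)} : Finset Δ) := by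
    ext e
    simp only [Finset.mem_filter, Finset.mem_univ, true_and, Finset.mem_insert,
      Finset.mem_singleton]
    constructor
    · intro h
      exact Sf.qm_inj d e h.symm
    · rintro (rfl | rfl | rfl)
      · rfl
      · exact Sf.qm_φ d
      · rw [Sf.qm_φ, Sf.qm_φ]
  rw [h4, Finset.sum_insert, Finset.sum_insert, Finset.sum_singleton]
  · ring
  · simpa using h2.symm
  · simp only [Finset.mem_insert, Finset.mem_singleton, not_or]
    exact ⟨h1.symm, h3.symm⟩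

theorem Surf.cyc_iff (Sf : Surf Δ Q P) [Fintype Δ] [DecidableEq Q] (y : Δ → R) :
    Sf.Cyc y ↔ Sf.Anti y ∧ ∀ τ, Sf.dd y τ = 0 := by
  constructor
  · intro h
    refine ⟨h.1, fun τ => ?_⟩
    obtain ⟨d, rfl⟩ := Sf.qm_surj τ
    rw [Surf.dd_eq]
    exact h.2 d
  · intro h
    refine ⟨h.1, fun d => ?_⟩
    rw [← Surf.dd_eq]
    exact h.2 _

theorem Surf.sum_dd (Sf : Surf Δ Q P) [Fintype Δ] [Fintype Q] [DecidableEq Q] (y : Δ → R)
    (hy : Sf.Anti y) (h2 : IsUnit (2 : R) ∨ Function.Injective (fun r : R => (2 : R) * r)) :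
    ∑ τ, Sf.dd y τ = 0 := by
  have h1 : ∑ τ, Sf.dd y τ = ∑ d, y d := by
    unfold Surf.dd
    rw [Finset.sum_comm]
    refine Finset.sum_congr rfl fun d _ => ?_
    simp
  have h3 : (2 : R) * ∑ d, y d = 0 := by
    have e := tj_sumα Sf y
    have e2 : ∑ d, y (Sf.α d) = -∑ d, y d := by
      rw [← Finset.sum_neg_distrib]
      exact Finset.sum_congr rfl fun d _ => hy d
    rw [e2] at e
    linear_combination -e
  rw [h1]
  rcases h2 with h2 | h2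
  · exact (h2.mul_right_eq_zero).1 h3
  · refine h2 ?_
    simpa using h3

end Pool.Agent.OL36
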