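import Pool.Agent.LibOL36.TS
import Pool.Agent.LibOL36.TJ

/-! # Row TK: the adapted basis is unimodular

Plan. The integer matrix `K` (rows `r`, columns `i : S`) is square: `card = (card P - 1) + 2 + (card Q - 1) = card S`
since `2 card S = card Δ` (`hs`) and `hchi`. It has an integer left inverse `M K = 1`: for `i : S` let `ε_i := (1 at s i, -1 at α (s i))`
(so `ε_i (s j) = δ_ij` by `hs`). `ε_i - ∑_{τ ≠ τ0} dd ε_i τ • σ_τ` is a cocycle (`cyc_iff`; for `τ0` use `sum_dd`), so by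
`hspan` it is `a x0 + b y0 + dl f`, and `dl f = ∑_{p ≠ p0} (f p - f p0) dl 1_p`. Hence `ε_i|_S` is an integer combination of
the rows. So `det K = ± 1` (after reindexing: `det M * det K = 1`, `Int.isUnit_iff`), and `dsq` of the cast is
`(det)^2 = 1` (`dsq_eq`; `Matrix.det` commutes with the ring hom `ℤ → ℂ`: `RingHom.map_det`). -/

set_option autoImplicit false

open Matrix

namespace Pool.Agent.OL36

variable {Δ Q P : Type}

private theorem tk_sum_ne {P : Type} [Fintype P] [DecidableEq P] (p0 : P) (g : P → ℤ)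
    (h0 : g p0 = 0) (q : P) :
    ∑ p : {p : P // p ≠ p0}, g p.1 * (if q = p.1 then (1 : ℤ) else 0) = g q := by
  by_cases hq : q = p0
  · rw [Finset.sum_eq_zero]
    · rw [hq, h0]
    · intro p _
      rw [if_neg, mul_zero]
      intro h
      exact p.2 (h ▸ hq)
  · rw [Finset.sum_eq_single (⟨q, hq⟩ : {p : P // p ≠ p0})]
    · simp
    · intro p _ hp
      rw [if_neg, mul_zero]
      intro h
      exact hp (Subtype.ext h.symm)
    · intro h
      exact absurd (Finset.mem_univ _) h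

private theorem tk_dl (Sf : Surf Δ Q P) [Fintype P] [DecidableEq P] (p0 : P) (f : P → ℤ) (d : Δ) :
    Sf.dl f d = ∑ p : {p : P // p ≠ p0}, (f p.1 - f p0) *
      Sf.dl (fun p' => if p' = p.1 then (1 : ℤ) else 0) d := by
  have h1 := tk_sum_ne p0 (fun p => f p - f p0) (sub_self _) (Sf.vm d)
  have h2 := tk_sum_ne p0 (fun p => f p - f p0) (sub_self _) (Sf.vm (Sf.φ (Sf.φ d)))
  simp only [Surf.dl, mul_sub, Finset.sum_sub_distrib] at *
  rw [h1, h2]
  ring

private theorem tk_row (Sf : Surf Δ Q P) [Fintype Δ] [DecidableEq Δ] [Fintype Q]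
    [DecidableEq Q] [Fintype P] [DecidableEq P]
    (x0 y0 : Δ → ℤ)
    (hspan : ∀ y : Δ → ℤ, Sf.Cyc y → ∃ (a b : ℤ) (f : P → ℤ),
        ∀ d, y d = a * x0 d + b * y0 d + Sf.dl f d)
    {S : Type} [Fintype S] [DecidableEq S] (s : S → Δ)
    (hs : Function.Bijective (Sum.elim s (fun i => Sf.α (s i)))) (p0 : P) (τ0 : Q)
    (σ : {τ : Q // τ ≠ τ0} → Δ → ℤ) (hσ : ∀ τ, Sf.Anti (σ τ))
    (hσd : ∀ τ τ', Sf.dd (σ τ) τ' = (if τ' = τ.1 then 1 else 0) - (if τ' = τ0 then 1 else 0))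
    (i : S) :
    ∃ m : {p : P // p ≠ p0} ⊕ (Fin 2 ⊕ {τ : Q // τ ≠ τ0}) → ℤ, ∀ j : S,
      ∑ r, m r * (Sum.elim (fun p => Sf.dl (fun p' => if p' = p.1 then (1 : ℤ) else 0) (s j))
        (Sum.elim (fun k => (![x0 (s j), y0 (s j)] : Fin 2 → ℤ) k) (fun τ => σ τ (s j))) r : ℤ) =
        if i = j then 1 else 0 := by
  classical
  obtain ⟨ε, hε⟩ : ∃ ε : Δ → ℤ, ∀ d, ε d = (if d = s i then 1 else 0) -
    (if d = Sf.α (s i) then 1 else 0) := ⟨_, fun _ => rfl⟩
  have hinj : ∀ a b, s a = s b → a = b := by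
    intro a b h
    have := @hs.1 (Sum.inl a) (Sum.inl b) (by simpa using h)
    simpa using this
  have hne : ∀ a b, s a ≠ Sf.α (s b) := by
    intro a b h
    have := @hs.1 (Sum.inl a) (Sum.inr b) (by simpa using h)
    simp at this
  have hεs : ∀ j, ε (s j) = if i = j then 1 else 0 := by
    intro j
    rw [hε, if_neg (hne j i), sub_zero]
    by_cases h : i = j
    · subst h; simp
    · rw [if_neg h, if_neg]
      intro h'
      exact h (hinj _ _ h').symm
  have hεa : Sf.Anti ε := by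
    intro d
    rw [hε, hε]
    have h1 : (Sf.α d = s i) ↔ (d = Sf.α (s i)) := by
      constructor
      · intro h; rw [← h, Sf.αα]
      · intro h; rw [h, Sf.αα]
    have h2 : (Sf.α d = Sf.α (s i)) ↔ (d = s i) := by
      constructor
      · intro h; rw [← Sf.αα d, h, Sf.αα]
      · intro h; rw [h]
    simp only [h1, h2]
    ring
  obtain ⟨y, hy⟩ : ∃ y : Δ → ℤ, ∀ d, y d = ε d - ∑ τ : {τ : Q // τ ≠ τ0},
    Sf.dd ε τ.1 * σ τ d := ⟨_, fun _ => rfl⟩
  have hya : Sf.Anti y := by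
    intro d
    rw [hy, hy, hεa d]
    have : ∀ τ : {τ : Q // τ ≠ τ0}, Sf.dd ε τ.1 * σ τ (Sf.α d) = -(Sf.dd ε τ.1 * σ τ d) := by
      intro τ
      rw [hσ τ d, mul_neg]
    rw [Finset.sum_congr rfl (fun τ _ => this τ), Finset.sum_neg_distrib]
    ring
  have hdd : ∀ τ', Sf.dd y τ' = Sf.dd ε τ' - ∑ τ : {τ : Q // τ ≠ τ0},
      Sf.dd ε τ.1 * Sf.dd (σ τ) τ' := by
    intro τ'
    have h1 : Sf.dd y τ' = ∑ d, ((if Sf.qm d = τ' then ε d else 0) -
        ∑ τ : {τ : Q // τ ≠ τ0}, Sf.dd ε τ.1 * (if Sf.qm d = τ' then σ τ d else 0)) := by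
      unfold Surf.dd
      refine Finset.sum_congr rfl (fun d _ => ?_)
      by_cases h : Sf.qm d = τ'
      · simp only [if_pos h]
        rw [hy]
        rfl
      · simp only [if_neg h, mul_zero, Finset.sum_const_zero, sub_zero]
    rw [h1, Finset.sum_sub_distrib, Finset.sum_comm]
    congr 1
    refine Finset.sum_congr rfl (fun τ _ => ?_)
    rw [← Finset.mul_sum]
    rfl
  have hdd0 : ∀ τ', τ' ≠ τ0 → Sf.dd y τ' = 0 := by
    intro τ' hτ'
    rw [hdd]
    have h := tk_sum_ne τ0 (fun τ => if τ = τ0 then 0 else Sf.dd ε τ) (by simp) τ'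
    simp only [if_neg hτ'] at h
    rw [← h, sub_eq_zero]
    refine Finset.sum_congr rfl (fun τ _ => ?_)
    rw [hσd, if_neg hτ', sub_zero, if_neg τ.2]
  have hddt : Sf.dd y τ0 = 0 := by
    have h := Sf.sum_dd y hya (Or.inr (fun a b h => by
      have h' : (2 : ℤ) * a = 2 * b := h
      omega))
    rw [← h, Finset.sum_eq_single τ0]
    · intro τ' _ hτ'
      exact hdd0 τ' hτ'
    · intro h
      exact absurd (Finset.mem_univ _) h
  have hcyc : Sf.Cyc y := by
    rw [Sf.cyc_iff]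
    refine ⟨hya, fun τ => ?_⟩
    by_cases h : τ = τ0
    · rw [h]; exact hddt
    · exact hdd0 τ h
  obtain ⟨a, b, f, hf⟩ := hspan y hcyc
  refine ⟨Sum.elim (fun p => f p.1 - f p0) (Sum.elim (![a, b] : Fin 2 → ℤ)
    (fun τ => Sf.dd ε τ.1)), fun j => ?_⟩
  rw [Fintype.sum_sum_type, Fintype.sum_sum_type, Fin.sum_univ_two]
  simp only [Sum.elim_inl, Sum.elim_inr, Matrix.cons_val_zero, Matrix.cons_val_one]
  rw [← tk_dl Sf p0 f (s j), ← hεs j]
  have h1 := hf (s j)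
  have h2 := hy (s j)
  linarith

private theorem tk_card [Fintype Δ] [Fintype Q] [DecidableEq Q] [Fintype P] [DecidableEq P]
    (hchi : 2 * Fintype.card P + 2 * Fintype.card Q = Fintype.card Δ)
    {S : Type} [Fintype S] (F : S ⊕ S → Δ) (hs : Function.Bijective F) (p0 : P) (τ0 : Q) :
    Fintype.card ({p : P // p ≠ p0} ⊕ (Fin 2 ⊕ {τ : Q // τ ≠ τ0})) = Fintype.card S := by
  have h1 : Fintype.card (S ⊕ S) = Fintype.card Δ := Fintype.card_of_bijective hs
  rw [Fintype.card_sum] at h1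
  rw [Fintype.card_sum, Fintype.card_sum, Fintype.card_fin]
  have h2 : Fintype.card {p : P // p ≠ p0} = Fintype.card P - 1 := by
    rw [Fintype.card_subtype_compl, Fintype.card_subtype_eq]
  have h3 : Fintype.card {τ : Q // τ ≠ τ0} = Fintype.card Q - 1 := by
    rw [Fintype.card_subtype_compl, Fintype.card_subtype_eq]
  have h4 : 0 < Fintype.card P := Fintype.card_pos_iff.mpr ⟨p0⟩
  have h5 : 0 < Fintype.card Q := Fintype.card_pos_iff.mpr ⟨τ0⟩
  omega

private theorem tk_dsq {I S : Type} [Fintype I] [DecidableEq I] [Fintype S] [DecidableEq S]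
    (hc : Fintype.card I = Fintype.card S) (K : I → S → ℤ) (M : S → I → ℤ)
    (h : ∀ i j, ∑ r, M i r * K r j = if i = j then 1 else 0) :
    dsq (fun (r : I) (i : S) => ((K r i : ℤ) : ℂ)) = 1 := by
  have e : I ≃ S := Fintype.equivOfCardEq hc
  obtain ⟨K', hK'⟩ : ∃ K' : Matrix I I ℤ, ∀ r r', K' r r' = K r (e r') :=
    ⟨fun r r' => K r (e r'), fun _ _ => rfl⟩
  obtain ⟨M', hM'⟩ : ∃ M' : Matrix I I ℤ, ∀ r r', M' r r' = M (e r) r' :=
    ⟨fun r r' => M (e r) r', fun _ _ => rfl⟩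
  have h1 : M' * K' = 1 := by
    ext i j
    rw [Matrix.mul_apply, Matrix.one_apply]
    have h2 := h (e i) (e j)
    simp only [e.injective.eq_iff] at h2
    rw [← h2]
    refine Finset.sum_congr rfl (fun r _ => ?_)
    rw [hK', hM']
  have h3 : M'.det * K'.det = 1 := by
    rw [← Matrix.det_mul, h1, Matrix.det_one]
  have h4 : IsUnit K'.det := by
    refine IsUnit.of_mul_eq_one M'.det ?_
    rw [mul_comm]
    exact h3
  have h5 : K'.det ^ 2 = 1 := by
    rcases Int.isUnit_iff.mp h4 with h | h <;> rw [h] <;> norm_num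
  refine (dsq_eq e _).trans ?_
  have h7 := RingHom.map_det (Int.castRingHom ℂ) K'
  have h8 : (Int.castRingHom ℂ).mapMatrix K' =
      Matrix.submatrix (fun (r : I) (i : S) => ((K r i : ℤ) : ℂ)) id e := by
    ext r r'
    rw [RingHom.mapMatrix_apply, Matrix.map_apply, hK']
    rfl
  rw [h8] at h7
  rw [← h7, ← map_pow, h5, map_one]

theorem Surf.unim (Sf : Surf Δ Q P) [Nonempty Δ] [Fintype Δ] [DecidableEq Δ] [Fintype Q]
    [DecidableEq Q] [Fintype P] [DecidableEq P]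
    (hchi : 2 * Fintype.card P + 2 * Fintype.card Q = Fintype.card Δ)
    (x0 y0 : Δ → ℤ) (hx : Sf.Cyc x0) (hy : Sf.Cyc y0)
    (hspan : ∀ y : Δ → ℤ, Sf.Cyc y → ∃ (a b : ℤ) (f : P → ℤ),
        ∀ d, y d = a * x0 d + b * y0 d + Sf.dl f d)
    {S : Type} [Fintype S] [DecidableEq S] (s : S → Δ)
    (hs : Function.Bijective (Sum.elim s (fun i => Sf.α (s i)))) (p0 : P) (τ0 : Q)
    (σ : {τ : Q // τ ≠ τ0} → Δ → ℤ) (hσ : ∀ τ, Sf.Anti (σ τ))
    (hσd : ∀ τ τ', Sf.dd (σ τ) τ' = (if τ' = τ.1 then 1 else 0) - (if τ' = τ0 then 1 else 0)) :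
    dsq (fun (r : {p : P // p ≠ p0} ⊕ (Fin 2 ⊕ {τ : Q // τ ≠ τ0})) (i : S) =>
      ((Sum.elim (fun p => Sf.dl (fun p' => if p' = p.1 then (1 : ℤ) else 0) (s i))
        (Sum.elim (fun k => (![x0 (s i), y0 (s i)] : Fin 2 → ℤ) k) (fun τ => σ τ (s i))) r : ℤ) :
          ℂ)) = 1 := by
  choose m hm using fun i => tk_row Sf x0 y0 hspan s hs p0 τ0 σ hσ hσd i
  exact tk_dsq (I := {p : P // p ≠ p0} ⊕ (Fin 2 ⊕ {τ : Q // τ ≠ τ0})) (S := S)
    (tk_card hchi _ hs p0 τ0) _ m hm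

end Pool.Agent.OL36
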