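import Pool.Agent.LibOL36.TS
import Pool.Agent.LibOL36.TJ

/-! # Row TU: unimodularity of the intersection form

Plan. Choose a base dart `bd τ` with `qm (bd τ) = τ` for every triangle, and for a cocycle `x` (here `x = x0`) the function
`h : Δ → ℤ`, `h d :=` value of `x` from the base vertex `vm (bd τ)` to the head of `d` (`τ = qm d`): `h = 0` at `bd τ`,
`h = x (φ (bd τ))` at `φ (bd τ)`, `h = -x (bd τ)` at `φ² (bd τ)`; property: `h d - h (φ (φ d)) = x d` for all `d` (tail of `d` = head of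
`φ² d`). Choose a set of representatives `S ⊂ Δ` of the pairs `{d, α d}`; `X d := h d` if `d ∈ S`, `X d := h (φ² d)` if `d ∉ S`
(value of `x` at the chosen end point of the side). (1) For every cocycle `y`: `6 * ∑ X d y d = J x y` (computation
in the message/header: `∑ h y - ∑ X y = ∑_{d ∉ S} x d y d`, `∑ h(φ² d) y d - ∑ X y = -∑_{d ∈ S} x d y d`, and these two right sides cancel as
`x y` is `α`-invariant; so `2 ∑ X y = ∑ (h d + h (φ² d)) y d = -∑ h (φ d) y d` (three terms of a triangle, `∑_τ y = 0`), and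
`J x y = -3 ∑ h (φ d) y d` by reindexing). So put `i y := ∑ X d y d`, `g := i y0`, `J x0 y0 = 6 g`; to show: `g = ± 1`.
(2) `i x0 = 0` (`6 i x0 = J x0 x0 = 0`), `i (dl f) = 0` (`J_antisymm`, `J_dl`), so by `hspan` `g ∣ i y` for all integer cocycles.
(3) `u τ := i (σ_τ)` with `σ_τ` from `Surf.sigma τ τ0` (`τ0` fixed). For every `d`: `ε_d := (1 at d, -1 at α d)`;
`ε_d - σ_{qm d} + σ_{qm (α d)}` is a cocycle (`cyc_iff`), so `X d - X (α d) ≡ u (qm d) - u (qm (α d))` mod `g`.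
(4) `F d := h d - u (qm d)`: then `F (φ² (α d)) ≡ F d` mod `g` (if `d ∈ S` directly from (3), as `X d = h d`, `X (α d) = h (φ² α d)`;
if `α d ∈ S`: `X d = h (φ² d) = h d - x d`, `X (α d) = h (α d) = h (φ² α d) + x (α d) = h (φ² α d) - x d`). So `F` is
constant mod `g` on the fibres of `vm` (`vm_inj`, `EqvGen`): choose `f : P → ℤ`, `f p := F (chosen dart)`: `F d ≡ f (vm d)`.
`x0 d = h d - h (φ² d) = F d - F (φ² d) ≡ dl f d` mod `g`. (5) So `x0 = dl f + g x'` with an integer function `x'`; if `g = 0`: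
`x0 = dl f` contradicts `hind` (with `a = 1`); else `x'` is a cocycle (cancel `g`), expand it by `hspan`: `x' = a x0 + b y0 + dl f'`, so
`(1 - g a) x0 - g b y0 - dl (..) = 0`, `hind`: `g a = 1`, so `g = ± 1` (`Int.isUnit_iff`). -/

set_option autoImplicit false

open Matrix

namespace Pool.Agent.OL36

variable {Δ Q P : Type}

private theorem tu_bij (Sf : Surf Δ Q P) : Function.Bijective Sf.φ := by
  refine ⟨fun d d' h => ?_, fun d => ⟨Sf.φ (Sf.φ d), Sf.φφφ d⟩⟩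
  rw [← Sf.φφφ d, ← Sf.φφφ d', h]

private theorem tu_sum_phi (Sf : Surf Δ Q P) [Fintype Δ] (F : Δ → ℤ) :
    ∑ d, F (Sf.φ d) = ∑ d, F d :=
  (tu_bij Sf).sum_comp F

private theorem tu_sum_alpha (Sf : Surf Δ Q P) [Fintype Δ] (F : Δ → ℤ) :
    ∑ d, F (Sf.α d) = ∑ d, F d :=
  (Function.Involutive.bijective Sf.αα).sum_comp F

private theorem tu_h (Sf : Surf Δ Q P) [DecidableEq Δ] (x : Δ → ℤ) (hx : Sf.Cyc x) :
    ∃ h : Δ → ℤ, ∀ d, h d - h (Sf.φ (Sf.φ d)) = x d := by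
  choose bd hbd using Sf.qm_surj
  have hne2 : ∀ d, Sf.φ (Sf.φ d) ≠ d := by
    intro d hd
    have h1 := Sf.φφφ d
    rw [hd] at h1
    exact Sf.φ_ne d h1
  have hne3 : ∀ d, Sf.φ (Sf.φ d) ≠ Sf.φ d := fun d => Sf.φ_ne (Sf.φ d)
  refine ⟨fun d => if d = bd (Sf.qm d) then 0 else if d = Sf.φ (bd (Sf.qm d)) then x d
    else -x (Sf.φ d), fun d => ?_⟩
  have hq1 : Sf.qm (Sf.φ (Sf.φ d)) = Sf.qm d := by rw [Sf.qm_φ, Sf.qm_φ]
  have hcases := Sf.qm_inj (bd (Sf.qm d)) d (hbd _)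
  simp only [hq1]
  generalize bd (Sf.qm d) = e at hcases ⊢
  have hxe := hx.2 e
  rcases hcases with hd | hd | hd
  · subst hd
    rw [if_pos rfl, if_neg (hne2 d), if_neg (hne3 d), Sf.φφφ]
    ring
  · subst hd
    rw [if_neg (Sf.φ_ne e), if_pos rfl, Sf.φφφ, if_pos rfl]
    ring
  · subst hd
    rw [if_neg (hne2 e), if_neg (hne3 e), Sf.φφφ, if_neg (Sf.φ_ne e), if_pos rfl]
    linarith

private theorem tu_s (Sf : Surf Δ Q P) [Fintype Δ] :
    ∃ s : Δ → Prop, ∀ d, s (Sf.α d) ↔ ¬ s d := by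
  classical
  let e := Fintype.equivFin Δ
  refine ⟨fun d => e d < e (Sf.α d), fun d => ?_⟩
  have h1 : e (Sf.α d) ≠ e d := fun h => Sf.α_ne d (e.injective h)
  show e (Sf.α d) < e (Sf.α (Sf.α d)) ↔ ¬ (e d < e (Sf.α d))
  rw [Sf.αα, not_lt]
  exact ⟨fun h => h.le, fun h => lt_of_le_of_ne h h1⟩

private theorem tu_i (Sf : Surf Δ Q P) [Fintype Δ] (x h : Δ → ℤ) (hx : Sf.Cyc x)
    (hh : ∀ d, h d - h (Sf.φ (Sf.φ d)) = x d) (s : Δ → Prop) [DecidablePred s]
    (hs : ∀ d, s (Sf.α d) ↔ ¬ s d) (y : Δ → ℤ) (hy : Sf.Cyc y) :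
    6 * ∑ d, (if s d then h d else h (Sf.φ (Sf.φ d))) * y d = Sf.J x y := by
  have hMN : ∑ d, (if s d then x d * y d else 0) = ∑ d, (if s d then 0 else x d * y d) := by
    rw [← tu_sum_alpha Sf (fun d => if s d then 0 else x d * y d)]
    refine Finset.sum_congr rfl fun d _ => ?_
    by_cases hd : s d
    · rw [if_pos hd, if_neg (fun h1 => (hs d).1 h1 hd), hx.1 d, hy.1 d]
      ring
    · rw [if_neg hd, if_pos ((hs d).2 hd)]
  have h1 : ∑ d, (if s d then h d else h (Sf.φ (Sf.φ d))) * y d =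
      ∑ d, h d * y d - ∑ d, (if s d then 0 else x d * y d) := by
    rw [← Finset.sum_sub_distrib]
    refine Finset.sum_congr rfl fun d _ => ?_
    by_cases hd : s d
    · rw [if_pos hd, if_pos hd]
      ring
    · rw [if_neg hd, if_neg hd, ← hh d]
      ring
  have h2 : ∑ d, (if s d then h d else h (Sf.φ (Sf.φ d))) * y d =
      ∑ d, h (Sf.φ (Sf.φ d)) * y d + ∑ d, (if s d then x d * y d else 0) := by
    rw [← Finset.sum_add_distrib]
    refine Finset.sum_congr rfl fun d _ => ?_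
    by_cases hd : s d
    · rw [if_pos hd, if_pos hd, ← hh d]
      ring
    · rw [if_neg hd, if_neg hd]
      ring
  have hB : ∑ d, h (Sf.φ (Sf.φ d)) * y d = ∑ d, h d * y (Sf.φ d) := by
    rw [← tu_sum_phi Sf (fun d => h (Sf.φ (Sf.φ d)) * y d)]
    refine Finset.sum_congr rfl fun d _ => ?_
    rw [Sf.φφφ]
  have hC : ∑ d, h (Sf.φ (Sf.φ d)) * y (Sf.φ d) = ∑ d, h d * y (Sf.φ (Sf.φ d)) := by
    rw [← tu_sum_phi Sf (fun d => h (Sf.φ (Sf.φ d)) * y (Sf.φ d))]
    refine Finset.sum_congr rfl fun d _ => ?_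
    rw [Sf.φφφ]
  have hA : ∑ d, h (Sf.φ (Sf.φ d)) * y (Sf.φ (Sf.φ d)) = ∑ d, h d * y d := by
    rw [tu_sum_phi Sf (fun d => h (Sf.φ d) * y (Sf.φ d)), tu_sum_phi Sf (fun d => h d * y d)]
  have h0 : ∑ d, h d * y d + ∑ d, h d * y (Sf.φ d) + ∑ d, h d * y (Sf.φ (Sf.φ d)) = 0 := by
    rw [← Finset.sum_add_distrib, ← Finset.sum_add_distrib]
    refine Finset.sum_eq_zero fun d _ => ?_
    rw [← mul_add, ← mul_add, hy.2 d, mul_zero]
  have hJ : Sf.J x y = ∑ d, h d * y (Sf.φ d) - ∑ d, h d * y (Sf.φ (Sf.φ d)) -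
      ∑ d, h (Sf.φ (Sf.φ d)) * y (Sf.φ d) + ∑ d, h (Sf.φ (Sf.φ d)) * y (Sf.φ (Sf.φ d)) := by
    unfold Surf.J
    rw [← Finset.sum_sub_distrib, ← Finset.sum_sub_distrib, ← Finset.sum_add_distrib]
    refine Finset.sum_congr rfl fun d _ => ?_
    rw [← hh d]
    ring
  rw [hJ, hC, hA]
  rw [hMN] at h2
  rw [hB] at h2
  linarith

private theorem tu_eps_anti (Sf : Surf Δ Q P) [DecidableEq Δ] (d : Δ) :
    Sf.Anti (fun d' => (if d' = d then (1 : ℤ) else 0) - (if d' = Sf.α d then 1 else 0)) := by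
  intro d'
  have h1 : (Sf.α d' = d) = (d' = Sf.α d) := by
    apply propext
    constructor
    · intro h
      rw [← h, Sf.αα]
    · intro h
      rw [h, Sf.αα]
  have h2 : (Sf.α d' = Sf.α d) = (d' = d) := by
    apply propext
    constructor
    · intro h
      rw [← Sf.αα d', h, Sf.αα]
    · intro h
      rw [h]
  simp only [h1, h2]
  ring

private theorem tu_eps_dd (Sf : Surf Δ Q P) [Fintype Δ] [DecidableEq Δ] [DecidableEq Q] (d : Δ)
    (τ : Q) :
    Sf.dd (fun d' => (if d' = d then (1 : ℤ) else 0) - (if d' = Sf.α d then 1 else 0)) τ =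
      (if τ = Sf.qm d then 1 else 0) - (if τ = Sf.qm (Sf.α d) then 1 else 0) := by
  unfold Surf.dd
  have h1 : ∀ e : Δ, ∑ d', (if Sf.qm d' = τ then (if d' = e then (1 : ℤ) else 0) else 0) =
      if τ = Sf.qm e then 1 else 0 := by
    intro e
    rw [Finset.sum_eq_single e]
    · rw [if_pos rfl]
      by_cases h : Sf.qm e = τ
      · rw [if_pos h, if_pos h.symm]
      · rw [if_neg h, if_neg (fun h' => h h'.symm)]
    · intro b _ hb
      rw [if_neg hb, ite_self]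
    · intro h
      exact absurd (Finset.mem_univ e) h
  rw [← h1 d, ← h1 (Sf.α d), ← Finset.sum_sub_distrib]
  refine Finset.sum_congr rfl fun d' _ => ?_
  by_cases h : Sf.qm d' = τ
  · rw [if_pos h, if_pos h, if_pos h]
  · rw [if_neg h, if_neg h, if_neg h, sub_zero]

theorem Surf.unimod (Sf : Surf Δ Q P) [Nonempty Δ] [Fintype Δ] [DecidableEq Δ] [Fintype Q]
    [DecidableEq Q] [Fintype P] [DecidableEq P] (x0 y0 : Δ → ℤ) (hx : Sf.Cyc x0) (hy : Sf.Cyc y0)
    (hspan : ∀ y : Δ → ℤ, Sf.Cyc y → ∃ (a b : ℤ) (f : P → ℤ),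
        ∀ d, y d = a * x0 d + b * y0 d + Sf.dl f d)
    (hind : ∀ (a b : ℤ) (f : P → ℤ), (∀ d, a * x0 d + b * y0 d + Sf.dl f d = 0) → a = 0 ∧ b = 0) :
    Sf.J x0 y0 = 6 ∨ Sf.J x0 y0 = -6 := by
  classical
  obtain ⟨h, hh⟩ := tu_h Sf x0 hx
  obtain ⟨s, hs⟩ := tu_s Sf
  let X : Δ → ℤ := fun d => if s d then h d else h (Sf.φ (Sf.φ d))
  have hXs : ∀ d, s d → X d = h d := fun d hd => if_pos hd
  have hXn : ∀ d, ¬ s d → X d = h (Sf.φ (Sf.φ d)) := fun d hd => if_neg hd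
  have hi : ∀ y : Δ → ℤ, Sf.Cyc y → 6 * ∑ d, X d * y d = Sf.J x0 y :=
    fun y hy => tu_i Sf x0 h hx hh s hs y hy
  set g : ℤ := ∑ d, X d * y0 d with hg
  have hJg : Sf.J x0 y0 = 6 * g := (hi y0 hy).symm
  have hix : ∑ d, X d * x0 d = 0 := by
    have h1 := hi x0 hx
    have h2 := Sf.J_antisymm x0 x0
    linarith
  have hidl : ∀ f : P → ℤ, ∑ d, X d * Sf.dl f d = 0 := by
    intro f
    have h1 := hi _ (Sf.dl_cyc f)
    have h2 := Sf.J_antisymm (Sf.dl f) x0
    rw [Sf.J_dl f x0 hx] at h2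
    linarith
  have hdvd : ∀ y : Δ → ℤ, Sf.Cyc y → g ∣ ∑ d, X d * y d := by
    intro y hyc
    obtain ⟨a, b, f, hy'⟩ := hspan y hyc
    refine ⟨b, ?_⟩
    have h1 : ∑ d, X d * y d = a * ∑ d, X d * x0 d + b * ∑ d, X d * y0 d +
        ∑ d, X d * Sf.dl f d := by
      rw [Finset.mul_sum, Finset.mul_sum, ← Finset.sum_add_distrib, ← Finset.sum_add_distrib]
      refine Finset.sum_congr rfl fun d _ => ?_
      rw [hy' d]
      ring
    rw [h1, hix, hidl f, ← hg]
    ring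
  obtain ⟨dz⟩ := ‹Nonempty Δ›
  choose σ hσ1 hσ2 using fun τ => Sf.sigma τ (Sf.qm dz)
  let u : Q → ℤ := fun τ => ∑ d, X d * σ τ d
  have hstep : ∀ d, g ∣ X d - X (Sf.α d) - (u (Sf.qm d) - u (Sf.qm (Sf.α d))) := by
    intro d
    have hc : Sf.Cyc (fun d' => ((if d' = d then (1 : ℤ) else 0) - (if d' = Sf.α d then 1 else 0)) -
        σ (Sf.qm d) d' + σ (Sf.qm (Sf.α d)) d') := by
      rw [Sf.cyc_iff]
      constructor
      · intro d'
        have h1 := tu_eps_anti Sf d d'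
        have h2 := hσ1 (Sf.qm d) d'
        have h3 := hσ1 (Sf.qm (Sf.α d)) d'
        simp only at h1 ⊢
        rw [h1, h2, h3]
        ring
      · intro τ
        have h1 := tu_eps_dd Sf d τ
        have h2 := hσ2 (Sf.qm d) τ
        have h3 := hσ2 (Sf.qm (Sf.α d)) τ
        have h4 : Sf.dd (fun d' => ((if d' = d then (1 : ℤ) else 0) -
            (if d' = Sf.α d then 1 else 0)) - σ (Sf.qm d) d' + σ (Sf.qm (Sf.α d)) d') τ =
            Sf.dd (fun d' => (if d' = d then (1 : ℤ) else 0) - (if d' = Sf.α d then 1 else 0)) τ -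
              Sf.dd (σ (Sf.qm d)) τ + Sf.dd (σ (Sf.qm (Sf.α d))) τ := by
          unfold Surf.dd
          rw [← Finset.sum_sub_distrib, ← Finset.sum_add_distrib]
          refine Finset.sum_congr rfl fun d' _ => ?_
          by_cases h : Sf.qm d' = τ
          · simp only [if_pos h]
          · simp only [if_neg h]
            ring
        rw [h4, h1, h2, h3]
        ring
    have h5 := hdvd _ hc
    have h6 : ∑ d', X d' * (((if d' = d then (1 : ℤ) else 0) - (if d' = Sf.α d then 1 else 0)) -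
        σ (Sf.qm d) d' + σ (Sf.qm (Sf.α d)) d') =
        X d - X (Sf.α d) - (u (Sf.qm d) - u (Sf.qm (Sf.α d))) := by
      have h7 : ∀ e : Δ, ∑ d', X d' * (if d' = e then (1 : ℤ) else 0) = X e := by
        intro e
        simp
      have h8 : ∀ d' : Δ, X d' * (((if d' = d then (1 : ℤ) else 0) -
          (if d' = Sf.α d then 1 else 0)) - σ (Sf.qm d) d' + σ (Sf.qm (Sf.α d)) d') =
          X d' * (if d' = d then (1 : ℤ) else 0) - X d' * (if d' = Sf.α d then (1 : ℤ) else 0) -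
            X d' * σ (Sf.qm d) d' + X d' * σ (Sf.qm (Sf.α d)) d' := fun d' => by ring
      rw [Finset.sum_congr rfl fun d' _ => h8 d', Finset.sum_add_distrib, Finset.sum_sub_distrib,
        Finset.sum_sub_distrib, h7, h7]
      ring
    rwa [h6] at h5
  let F : Δ → ℤ := fun d => h d - u (Sf.qm d)
  have hF : ∀ d, g ∣ F d - F (Sf.φ (Sf.φ (Sf.α d))) := by
    intro d
    have hq : Sf.qm (Sf.φ (Sf.φ (Sf.α d))) = Sf.qm (Sf.α d) := by rw [Sf.qm_φ, Sf.qm_φ]
    have h1 := hstep d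
    have h2 : X d - X (Sf.α d) = h d - h (Sf.φ (Sf.φ (Sf.α d))) := by
      by_cases hd : s d
      · rw [hXs d hd, hXn (Sf.α d) (fun h' => (hs d).1 h' hd)]
      · rw [hXn d hd, hXs (Sf.α d) ((hs d).2 hd)]
        have h3 := hh d
        have h4 := hh (Sf.α d)
        have h5 := hx.1 d
        linarith
    have h6 : F d - F (Sf.φ (Sf.φ (Sf.α d))) =
        X d - X (Sf.α d) - (u (Sf.qm d) - u (Sf.qm (Sf.α d))) := by
      rw [h2]
      show h d - u (Sf.qm d) - (h (Sf.φ (Sf.φ (Sf.α d))) - u (Sf.qm (Sf.φ (Sf.φ (Sf.α d))))) = _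
      rw [hq]
      ring
    rw [h6]
    exact h1
  have hFv : ∀ d d', Relation.EqvGen (fun x y => y = Sf.φ (Sf.φ (Sf.α x))) d d' →
      g ∣ F d - F d' := by
    intro d d' hr
    induction hr with
    | rel a b hab =>
      rw [hab]
      exact hF a
    | refl a => simp
    | symm a b _ ih =>
      rw [← neg_sub]
      exact (dvd_neg).2 ih
    | trans a b c _ _ ih1 ih2 =>
      have h1 := dvd_add ih1 ih2
      have h2 : F a - F b + (F b - F c) = F a - F c := by ring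
      rwa [h2] at h1
  choose vd hvd using Sf.vm_surj
  let f : P → ℤ := fun p => F (vd p)
  have hFf : ∀ d, g ∣ F d - f (Sf.vm d) := fun d =>
    hFv d (vd (Sf.vm d)) (Sf.vm_inj d (vd (Sf.vm d)) (hvd _).symm)
  have hx0 : ∀ d, g ∣ x0 d - Sf.dl f d := by
    intro d
    have h1 := dvd_sub (hFf d) (hFf (Sf.φ (Sf.φ d)))
    have hq : Sf.qm (Sf.φ (Sf.φ d)) = Sf.qm d := by rw [Sf.qm_φ, Sf.qm_φ]
    have h2 : F d - f (Sf.vm d) - (F (Sf.φ (Sf.φ d)) - f (Sf.vm (Sf.φ (Sf.φ d)))) =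
        x0 d - Sf.dl f d := by
      show h d - u (Sf.qm d) - f (Sf.vm d) - (h (Sf.φ (Sf.φ d)) - u (Sf.qm (Sf.φ (Sf.φ d))) -
        f (Sf.vm (Sf.φ (Sf.φ d)))) = x0 d - (f (Sf.vm d) - f (Sf.vm (Sf.φ (Sf.φ d))))
      rw [hq, ← hh d]
      ring
    rwa [h2] at h1
  choose x' hx' using hx0
  have hdl := Sf.dl_cyc f
  have hg0 : g ≠ 0 := by
    intro hg0
    have h1 : ∀ d, (1 : ℤ) * x0 d + 0 * y0 d + Sf.dl (fun p => -f p) d = 0 := by
      intro d
      have h2 := hx' d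
      rw [hg0, zero_mul] at h2
      have h3 : Sf.dl (fun p => -f p) d = -Sf.dl f d := by
        show -f (Sf.vm d) - -f (Sf.vm (Sf.φ (Sf.φ d))) =
          -(f (Sf.vm d) - f (Sf.vm (Sf.φ (Sf.φ d))))
        ring
      rw [h3]
      linarith
    have h4 := (hind 1 0 _ h1).1
    exact one_ne_zero h4
  have hcx' : Sf.Cyc x' := by
    constructor
    · intro d
      apply mul_left_cancel₀ hg0
      have h1 := hx' d
      have h2 := hx' (Sf.α d)
      have h3 := hx.1 d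
      have h4 := hdl.1 d
      rw [h3, h4] at h2
      linarith
    · intro d
      apply mul_left_cancel₀ hg0
      have h1 := hx' d
      have h2 := hx' (Sf.φ d)
      have h3 := hx' (Sf.φ (Sf.φ d))
      have h4 := hx.2 d
      have h5 := hdl.2 d
      rw [mul_add, mul_add, mul_zero]
      linarith
  obtain ⟨a, b, f', hexp⟩ := hspan x' hcx'
  have hrel : ∀ d, (1 - g * a) * x0 d + (-(g * b)) * y0 d +
      Sf.dl (fun p => -(f p + g * f' p)) d = 0 := by
    intro d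
    have h1 := hx' d
    have h2 := hexp d
    have h3 : Sf.dl (fun p => -(f p + g * f' p)) d = -(Sf.dl f d + g * Sf.dl f' d) := by
      show -(f (Sf.vm d) + g * f' (Sf.vm d)) -
        -(f (Sf.vm (Sf.φ (Sf.φ d))) + g * f' (Sf.vm (Sf.φ (Sf.φ d)))) =
        -((f (Sf.vm d) - f (Sf.vm (Sf.φ (Sf.φ d)))) +
          g * (f' (Sf.vm d) - f' (Sf.vm (Sf.φ (Sf.φ d)))))
      ring
    rw [h3]
    rw [h2] at h1
    linear_combination h1
  have hga := (hind _ _ _ hrel).1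
  have hunit : IsUnit g := IsUnit.of_mul_eq_one a (by linarith)
  rw [hJg]
  rcases Int.isUnit_iff.1 hunit with h1 | h1
  · left
    rw [h1]
    rfl
  · right
    rw [h1]
    rfl

end Pool.Agent.OL36
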