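import Pool.Agent.LibOL36.TB
import Pool.Agent.LibOL36.TU
import Pool.Agent.LibOL36.TK

/-! # Row TT: the determinant formula for the torus

Plan. Take `x0, y0` (`basisZ`), `σ` (`sigma` for each `τ ≠ τ0`), `K` (`unim`, `dsq K = 1`). Every `Anti` function `y : Δ → ℂ`
restricted to `S` is uniquely `∑_{p ≠ p0} y_p dl 1_p + a x0 + b y0 + ∑_{τ ≠ τ0} y_τ σ_τ` (the square matrix `K` is
invertible over `ℂ`), the same identity holds on all of `Δ` (both sides `Anti`, `hs`), and applying `dd`: `y_τ = dd y τ`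
(`dd` of `dl` and of cocycles is `0`; at `τ`: `dd σ_τ' τ = δ`). So the matrix on the left is `Nm * K` with the coefficient matrix
`Nm` (rows `P ⊕ (Unit ⊕ κ)`, columns `{p ≠ p0} ⊕ (Fin 2 ⊕ {τ ≠ τ0})`), `dsq = dsq Nm * 1` (`dsq_mul`). Rows of `Nm`: `p ≠ p0`:
the unit vector; `p0`: `-∑_{p ≠ p0}` unit vectors `+` (coefficients of `μ`: `(m_p | m1, m2 | 0)`) since `∑_p dl 1_p = 0`; `ν`: `(n_p | n1, n2 | 0)`;
`k`: `(* | * | dd (b k) τ)`. Row operations (subtract multiples of the rows `p ≠ p0`, which do not change `dsq`: `dsq_mul_left` with a unitriangular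
matrix, or `fromBlocks` with `dsq_fromBlocks` after reindexing rows `P ≃ {p ≠ p0} ⊕ Unit`): `dsq Nm = (m1 n2 - m2 n1)^2 * dsq (k, τ ↦ dd (b k) τ, τ ≠ τ0)`.
`J μ ν = (m1 n2 - m2 n1) J x0 y0` (bilinear, antisymmetric, `J_dl`; casts `ℤ → ℂ`), `J x0 y0 = ± 6` (`unimod`). Finally
`dsq (Unit ⊕ κ rows, Q columns) = dsq (κ rows, τ ≠ τ0 columns)`: the row `e_{τ0}` (reindex columns `Q ≃ Unit ⊕ {τ ≠ τ0}`, `dsq_fromBlocks`
in the form with a zero upper right block). -/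

set_option autoImplicit false

open Matrix

namespace Pool.Agent.OL36

variable {Δ Q P : Type}

private theorem tt_anti_ext (Sf : Surf Δ Q P) {S : Type} (s : S → Δ)
    (hs : Function.Bijective (Sum.elim s (fun i => Sf.α (s i)))) (y y' : Δ → ℂ)
    (hy : Sf.Anti y) (hy' : Sf.Anti y') (h : ∀ i, y (s i) = y' (s i)) (d : Δ) : y d = y' d := by
  obtain ⟨i | i, hi⟩ := hs.2 d
  · simp only [Sum.elim_inl] at hi
    rw [← hi, h i]
  · simp only [Sum.elim_inr] at hi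
    rw [← hi, hy (s i), hy' (s i), h i]

private theorem tt_dd_sum (Sf : Surf Δ Q P) [Fintype Δ] [DecidableEq Q] {I : Type} [Fintype I]
    (c : I → ℂ) (B : I → Δ → ℂ) (τ : Q) :
    Sf.dd (fun d => ∑ r, c r * B r d) τ = ∑ r, c r * Sf.dd (B r) τ := by
  simp only [Surf.dd, Finset.mul_sum]
  rw [Finset.sum_comm]
  refine Finset.sum_congr rfl fun d _ => ?_
  split_ifs <;> simp

private theorem tt_J_sum (Sf : Surf Δ Q P) [Fintype Δ] {I : Type} [Fintype I]
    (c : I → ℂ) (B : I → Δ → ℂ) (y : Δ → ℂ) :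
    Sf.J (fun d => ∑ r, c r * B r d) y = ∑ r, c r * Sf.J (B r) y := by
  simp only [Surf.J, Finset.mul_sum, Finset.sum_mul]
  rw [Finset.sum_comm]
  exact Finset.sum_congr rfl fun r _ => Finset.sum_congr rfl fun d _ => by ring

private theorem tt_comb (Sf : Surf Δ Q P) {S I : Type} [Fintype S] [DecidableEq S] [Fintype I]
    [DecidableEq I] (s : S → Δ)
    (hs : Function.Bijective (Sum.elim s (fun i => Sf.α (s i)))) (B : I → Δ → ℂ)
    (hB : ∀ r, Sf.Anti (B r)) (e : I ≃ S)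
    (hK : dsq (fun (r : I) (i : S) => B r (s i)) = 1) (y : Δ → ℂ) (hy : Sf.Anti y) :
    ∃ c : I → ℂ, ∀ d, y d = ∑ r, c r * B r d := by
  have hdet : (Matrix.submatrix (fun (r : I) (i : S) => B r (s i)) id e).det ^ 2 = 1 := by
    rw [← dsq_eq e]; exact hK
  set K' : Matrix I I ℂ := Matrix.submatrix (fun (r : I) (i : S) => B r (s i)) id e with hK'
  have hne : IsUnit K'.det := by
    rw [isUnit_iff_ne_zero]
    intro h0
    rw [h0] at hdet
    norm_num at hdet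
  refine ⟨(fun j => y (s (e j))) ᵥ* K'⁻¹, ?_⟩
  set c := (fun j => y (s (e j))) ᵥ* K'⁻¹ with hc
  have h1 : c ᵥ* K' = fun j => y (s (e j)) := by
    rw [hc, vecMul_vecMul, nonsing_inv_mul _ hne, vecMul_one]
  refine tt_anti_ext Sf s hs y _ hy ?_ ?_
  · intro d
    rw [← Finset.sum_neg_distrib]
    exact Finset.sum_congr rfl fun r _ => by rw [hB r d]; ring
  · intro i
    have h2 := congrFun h1 (e.symm i)
    simp only [vecMul, dotProduct, hK', submatrix_apply, id, Equiv.apply_symm_apply] at h2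
    exact h2.symm

private theorem tt_dd_cast (Sf : Surf Δ Q P) [Fintype Δ] [DecidableEq Q] (y : Δ → ℤ) (τ : Q) :
    Sf.dd (fun d => (y d : ℂ)) τ = ((Sf.dd y τ : ℤ) : ℂ) := by
  simp only [Surf.dd]
  push_cast
  rfl

private theorem tt_J_cast (Sf : Surf Δ Q P) [Fintype Δ] (x y : Δ → ℤ) :
    Sf.J (fun d => (x d : ℂ)) (fun d => (y d : ℂ)) = ((Sf.J x y : ℤ) : ℂ) := by
  simp only [Surf.J]
  push_cast
  rfl

private theorem tt_cyc_cast (Sf : Surf Δ Q P) (y : Δ → ℤ) (h : Sf.Cyc y) :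
    Sf.Cyc (fun d => (y d : ℂ)) := by
  refine ⟨fun d => ?_, fun d => ?_⟩
  · show ((y (Sf.α d) : ℤ) : ℂ) = -((y d : ℤ) : ℂ)
    rw [h.1 d]
    push_cast
    rfl
  · show ((y d : ℤ) : ℂ) + ((y (Sf.φ d) : ℤ) : ℂ) + ((y (Sf.φ (Sf.φ d)) : ℤ) : ℂ) = 0
    have := h.2 d
    exact_mod_cast this

private def tt_eQ [DecidableEq Q] (τ0 : Q) : Unit ⊕ {τ : Q // τ ≠ τ0} ≃ Q where
  toFun := Sum.elim (fun _ => τ0) (fun τ => τ.1)
  invFun τ := if h : τ = τ0 then Sum.inl () else Sum.inr ⟨τ, h⟩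
  left_inv := by
    rintro (u | τ)
    · simp
    · simp [τ.2]
  right_inv := by
    intro τ
    by_cases h : τ = τ0
    · simp [h]
    · simp [h]

private def tt_eR [DecidableEq P] (p0 : P) (κ : Type) :
    {p : P // p ≠ p0} ⊕ (Fin 2 ⊕ κ) ≃ P ⊕ (Unit ⊕ κ) where
  toFun := Sum.elim (fun p => Sum.inl p.1)
    (Sum.elim (fun k => if k = 0 then Sum.inl p0 else Sum.inr (Sum.inl ()))
      (fun k => Sum.inr (Sum.inr k)))
  invFun := Sum.elim (fun p => if h : p = p0 then Sum.inr (Sum.inl 0) else Sum.inl ⟨p, h⟩)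
    (Sum.elim (fun _ => Sum.inr (Sum.inl 1)) (fun k => Sum.inr (Sum.inr k)))
  left_inv := by
    rintro (p | k | k)
    · simp [p.2]
    · fin_cases k <;> simp
    · simp
  right_inv := by
    rintro (p | u | k)
    · by_cases h : p = p0
      · simp [h]
      · simp [h]
    · simp
    · simp

theorem Surf.tor (Sf : Surf Δ Q P) [Fintype Δ] [DecidableEq Δ] [Fintype Q] [DecidableEq Q]
    [Fintype P] [DecidableEq P] (hchi : 2 * Fintype.card P + 2 * Fintype.card Q = Fintype.card Δ)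
    {S κ : Type} [Fintype S] [DecidableEq S] [Fintype κ] [DecidableEq κ] (s : S → Δ)
    (hs : Function.Bijective (Sum.elim s (fun i => Sf.α (s i)))) (p0 : P) (τ0 : Q)
    (hκ : Fintype.card κ + 1 = Fintype.card Q)
    (μ ν : Δ → ℂ) (hμ : Sf.Cyc μ) (hν : Sf.Cyc ν) (b : κ → Δ → ℂ) (hb : ∀ k, Sf.Anti (b k)) :
    dsq (fun (r : P ⊕ (Unit ⊕ κ)) (i : S) =>
      Sum.elim (fun p => Sf.dl (fun p' => if p' = p then (1 : ℂ) else 0) (s i) +
          if p = p0 then μ (s i) else 0)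
        (Sum.elim (fun _ => ν (s i)) (fun k => b k (s i))) r) =
    (Sf.J μ ν / 6) ^ 2 *
    dsq (fun (r : Unit ⊕ κ) (τ : Q) =>
      Sum.elim (fun _ => if τ = τ0 then (1 : ℂ) else 0) (fun k => Sf.dd (b k) τ) r) := by
  have hne : Nonempty Δ := (Sf.vm_surj p0).elim fun d _ => ⟨d⟩
  obtain ⟨x0, y0, hx, hy, hspan, hind⟩ := Sf.basisZ hchi
  have huni := Sf.unimod x0 y0 hx hy hspan hind
  choose σ0 hσ0 hσd0 using fun τ : {τ : Q // τ ≠ τ0} => Sf.sigma τ.1 τ0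
  have hK := Sf.unim hchi x0 y0 hx hy hspan s hs p0 τ0 σ0 hσ0 hσd0
  -- cardinalities
  have cQ : 1 + Fintype.card {τ : Q // τ ≠ τ0} = Fintype.card Q := by
    have := Fintype.card_congr (tt_eQ τ0)
    simpa using this
  have cR : Fintype.card {p : P // p ≠ p0} + (2 + Fintype.card κ) =
      Fintype.card P + (1 + Fintype.card κ) := by
    have := Fintype.card_congr (tt_eR p0 κ)
    simpa using this
  have cS : Fintype.card S + Fintype.card S = Fintype.card Δ := by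
    have := Fintype.card_congr (Equiv.ofBijective _ hs)
    simpa using this
  have eκ : κ ≃ {τ : Q // τ ≠ τ0} := Fintype.equivOfCardEq (by omega)
  have eS : {p : P // p ≠ p0} ⊕ (Fin 2 ⊕ {τ : Q // τ ≠ τ0}) ≃ S :=
    Fintype.equivOfCardEq (by simp only [Fintype.card_sum, Fintype.card_fin]; omega)
  -- the adapted basis
  set B : ({p : P // p ≠ p0} ⊕ (Fin 2 ⊕ {τ : Q // τ ≠ τ0})) → Δ → ℂ := fun r d =>
    ((Sum.elim (fun p => Sf.dl (fun p' => if p' = p.1 then (1 : ℤ) else 0) d)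
        (Sum.elim (fun k => (![x0 d, y0 d] : Fin 2 → ℤ) k) (fun τ => σ0 τ d)) r : ℤ) : ℂ) with hBdef
  have hK1 : dsq (fun (r : {p : P // p ≠ p0} ⊕ (Fin 2 ⊕ {τ : Q // τ ≠ τ0})) (i : S) =>
      B r (s i)) = 1 := hK
  have hBp : ∀ p : {p : P // p ≠ p0}, B (Sum.inl p) =
      Sf.dl (fun p' => if p' = p.1 then (1 : ℂ) else 0) := by
    intro p
    funext d
    simp only [hBdef, Sum.elim_inl, Surf.dl]
    push_cast
    rfl
  have hB0 : B (Sum.inr (Sum.inl 0)) = fun d => (x0 d : ℂ) := by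
    funext d; simp [hBdef]
  have hB1 : B (Sum.inr (Sum.inl 1)) = fun d => (y0 d : ℂ) := by
    funext d; simp [hBdef]
  have hBs : ∀ τ, B (Sum.inr (Sum.inr τ)) = fun d => (σ0 τ d : ℂ) := by
    intro τ; funext d; simp [hBdef]
  have hXc : Sf.Cyc (fun d => (x0 d : ℂ)) := tt_cyc_cast Sf x0 hx
  have hYc : Sf.Cyc (fun d => (y0 d : ℂ)) := tt_cyc_cast Sf y0 hy
  have hBcyc : ∀ r, (∀ τ, r ≠ Sum.inr (Sum.inr τ)) → Sf.Cyc (B r) := by
    rintro (p | k | τ) hr
    · rw [hBp p]; exact Sf.dl_cyc _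
    · fin_cases k
      · exact hB0 ▸ hXc
      · exact hB1 ▸ hYc
    · exact absurd rfl (hr τ)
  have hBanti : ∀ r, Sf.Anti (B r) := by
    rintro (p | k | τ)
    · exact (hBcyc _ (by intro τ; simp)).1
    · exact (hBcyc _ (by intro τ; simp)).1
    · rw [hBs τ]
      intro d
      show ((σ0 τ (Sf.α d) : ℤ) : ℂ) = -((σ0 τ d : ℤ) : ℂ)
      rw [hσ0 τ d]
      push_cast
      rfl
  have hBdd0 : ∀ r, (∀ τ, r ≠ Sum.inr (Sum.inr τ)) → ∀ τ', Sf.dd (B r) τ' = 0 := fun r hr =>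
    ((Sf.cyc_iff _).1 (hBcyc r hr)).2
  have hBdds : ∀ τ τ' : {τ : Q // τ ≠ τ0}, Sf.dd (B (Sum.inr (Sum.inr τ))) τ'.1 =
      if τ' = τ then 1 else 0 := by
    intro τ τ'
    rw [hBs τ, tt_dd_cast, hσd0 τ τ'.1]
    simp only [τ'.2, if_false, sub_zero, Subtype.ext_iff]
    push_cast
    rfl
  -- coefficients
  have hcomb : ∀ y : Δ → ℂ, Sf.Anti y → ∃ c : ({p : P // p ≠ p0} ⊕ (Fin 2 ⊕ {τ : Q // τ ≠ τ0})) → ℂ,
      (∀ d, y d = ∑ r, c r * B r d) ∧ ∀ τ : {τ : Q // τ ≠ τ0},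
        c (Sum.inr (Sum.inr τ)) = Sf.dd y τ.1 := by
    intro y hy
    obtain ⟨c, hc⟩ := tt_comb Sf s hs B hBanti eS hK1 y hy
    refine ⟨c, hc, fun τ => ?_⟩
    have h1 : y = fun d => ∑ r, c r * B r d := funext hc
    rw [h1, tt_dd_sum, Fintype.sum_sum_type, Fintype.sum_sum_type]
    have z1 : ∀ p : {p : P // p ≠ p0}, Sf.dd (B (Sum.inl p)) τ.1 = 0 := fun p =>
      hBdd0 _ (by intro τ; simp) _
    have z2 : ∀ k : Fin 2, Sf.dd (B (Sum.inr (Sum.inl k))) τ.1 = 0 := fun k =>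
      hBdd0 _ (by intro τ; simp) _
    simp only [z1, z2, hBdds, mul_zero, Finset.sum_const_zero, zero_add, mul_ite, mul_one]
    rw [Finset.sum_ite_eq]
    simp
  -- the three families of rows
  let μ' : Δ → ℂ := fun d => Sf.dl (fun p' => if p' = p0 then (1 : ℂ) else 0) d + μ d
  have hμ' : Sf.Cyc μ' := by
    have h1 := Sf.dl_cyc (fun p' => if p' = p0 then (1 : ℂ) else 0)
    refine ⟨fun d => ?_, fun d => ?_⟩
    · show _ + _ = -(_ + _)
      rw [h1.1 d, hμ.1 d]; ring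
    · have e1 := h1.2 d
      have e2 := hμ.2 d
      show _ + _ + (_ + _) + (_ + _) = 0
      linear_combination e1 + e2
  have hJμ : Sf.J μ' ν = Sf.J μ ν := by
    have h1 := Sf.J_lin (1 : ℂ) 1 (Sf.dl (fun p' => if p' = p0 then (1 : ℂ) else 0)) μ ν
    rw [Sf.J_dl _ ν hν] at h1
    have h2 : (fun d => (1 : ℂ) * Sf.dl (fun p' => if p' = p0 then (1 : ℂ) else 0) d + 1 * μ d) =
        μ' := by
      funext d; simp [μ']
    rw [h2] at h1
    rw [h1]; ring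
  obtain ⟨m, hm, hmτ⟩ := hcomb μ' hμ'.1
  obtain ⟨n, hn, hnτ⟩ := hcomb ν hν.1
  choose c hc hcτ using fun k => hcomb (b k) (hb k)
  have hm0 : ∀ τ, m (Sum.inr (Sum.inr τ)) = 0 := fun τ => by
    rw [hmτ τ]; exact ((Sf.cyc_iff _).1 hμ').2 _
  have hn0 : ∀ τ, n (Sum.inr (Sum.inr τ)) = 0 := fun τ => by
    rw [hnτ τ]; exact ((Sf.cyc_iff _).1 hν).2 _
  -- J of a cocycle with given coefficients
  have hJexp : ∀ (y : Δ → ℂ) (e : ({p : P // p ≠ p0} ⊕ (Fin 2 ⊕ {τ : Q // τ ≠ τ0})) → ℂ),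
      (∀ d, y d = ∑ r, e r * B r d) → (∀ τ, e (Sum.inr (Sum.inr τ)) = 0) →
      ∀ w : Δ → ℂ, Sf.Cyc w → Sf.J y w =
        e (Sum.inr (Sum.inl 0)) * Sf.J (fun d => (x0 d : ℂ)) w +
        e (Sum.inr (Sum.inl 1)) * Sf.J (fun d => (y0 d : ℂ)) w := by
    intro y e he he0 w hw
    have h1 : y = fun d => ∑ r, e r * B r d := funext he
    rw [h1, tt_J_sum, Fintype.sum_sum_type, Fintype.sum_sum_type, Fin.sum_univ_two, hB0, hB1]
    have z1 : ∀ p : {p : P // p ≠ p0}, Sf.J (B (Sum.inl p)) w = 0 := fun p => by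
      rw [hBp p]; exact Sf.J_dl _ w hw
    simp only [z1, he0, mul_zero, zero_mul, Finset.sum_const_zero, zero_add, add_zero]
  have hself : ∀ w : Δ → ℂ, Sf.J w w = 0 := fun w => by
    have h := Sf.J_antisymm w w
    have : (2 : ℂ) * Sf.J w w = 0 := by linear_combination h
    simpa using this
  have hxn : Sf.J (fun d => (x0 d : ℂ)) ν = n (Sum.inr (Sum.inl 1)) *
      Sf.J (fun d => (x0 d : ℂ)) (fun d => (y0 d : ℂ)) := by
    have h1 := Sf.J_antisymm (fun d => (x0 d : ℂ)) ν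
    have h2 := hJexp ν n hn hn0 _ hXc
    rw [hself, Sf.J_antisymm (fun d => (x0 d : ℂ)) (fun d => (y0 d : ℂ))] at h2
    linear_combination h1 - h2
  have hyn : Sf.J (fun d => (y0 d : ℂ)) ν = -(n (Sum.inr (Sum.inl 0)) *
      Sf.J (fun d => (x0 d : ℂ)) (fun d => (y0 d : ℂ))) := by
    have h1 := Sf.J_antisymm (fun d => (y0 d : ℂ)) ν
    have h2 := hJexp ν n hn hn0 _ hYc
    rw [hself] at h2
    linear_combination h1 - h2
  have hJ : (Sf.J μ ν / 6) ^ 2 = (m (Sum.inr (Sum.inl 0)) * n (Sum.inr (Sum.inl 1)) -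
      m (Sum.inr (Sum.inl 1)) * n (Sum.inr (Sum.inl 0))) ^ 2 := by
    rw [← hJμ, hJexp μ' m hm hm0 ν hν, hxn, hyn, tt_J_cast]
    rcases huni with h | h <;> rw [h] <;> push_cast <;> ring
  -- the right hand side
  have hR : dsq (fun (r : Unit ⊕ κ) (τ : Q) =>
      Sum.elim (fun _ => if τ = τ0 then (1 : ℂ) else 0) (fun k => Sf.dd (b k) τ) r) =
      dsq (fun (k : κ) (τ : {τ : Q // τ ≠ τ0}) => Sf.dd (b k) τ.1) := by
    rw [← dsq_reindex (Equiv.refl _) (tt_eQ τ0)]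
    have h1 : (Matrix.submatrix (fun (r : Unit ⊕ κ) (τ : Q) =>
        Sum.elim (fun _ => if τ = τ0 then (1 : ℂ) else 0) (fun k => Sf.dd (b k) τ) r)
        (Equiv.refl _) (tt_eQ τ0)) = fromBlocks (1 : Matrix Unit Unit ℂ) 0
          (fun k _ => Sf.dd (b k) τ0) (fun (k : κ) (τ : {τ : Q // τ ≠ τ0}) => Sf.dd (b k) τ.1) := by
      ext r t
      rcases r with r | r <;> rcases t with t | t
      · simp [tt_eQ]
      · simp [tt_eQ, t.2]
      · simp [tt_eQ]
      · simp [tt_eQ]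
    rw [h1, dsq_fromBlocks (Equiv.refl _) eκ, dsq_square, det_one, one_pow, one_mul]
  -- the left hand side
  let y2 : Fin 2 ⊕ κ → ({p : P // p ≠ p0} ⊕ (Fin 2 ⊕ {τ : Q // τ ≠ τ0})) → ℂ :=
    Sum.elim (fun k => if k = 0 then m else n) c
  let A : Matrix (Fin 2) (Fin 2) ℂ := fun k l => y2 (Sum.inl k) (Sum.inr (Sum.inl l))
  let D : Matrix (Fin 2 ⊕ κ) (Fin 2 ⊕ {τ : Q // τ ≠ τ0}) ℂ := fun j t => y2 j (Sum.inr t)
  have hD : D = fromBlocks A 0 (fun k l => c k (Sum.inr (Sum.inl l)))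
      (fun (k : κ) (τ : {τ : Q // τ ≠ τ0}) => Sf.dd (b k) τ.1) := by
    ext j t
    rcases j with j | j <;> rcases t with t | t
    · rfl
    · simp only [fromBlocks_apply₁₂, Matrix.zero_apply, D, y2, Sum.elim_inl]
      split_ifs
      · exact hm0 t
      · exact hn0 t
    · rfl
    · exact hcτ j t
  have hA : A.det = m (Sum.inr (Sum.inl 0)) * n (Sum.inr (Sum.inl 1)) -
      m (Sum.inr (Sum.inl 1)) * n (Sum.inr (Sum.inl 0)) := by
    rw [det_fin_two]
    simp [A, y2]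
  have hrow : ∀ (j : Fin 2 ⊕ κ) (i : S),
      Sum.elim (fun k : Fin 2 => if k = 0 then μ' (s i) else ν (s i)) (fun k => b k (s i)) j =
        ∑ r, y2 j r * B r (s i) := by
    rintro (k | k) i
    · fin_cases k
      · simpa [y2] using hm (s i)
      · simpa [y2] using hn (s i)
    · simpa [y2] using hc k (s i)
  let KK : Matrix ({p : P // p ≠ p0} ⊕ (Fin 2 ⊕ {τ : Q // τ ≠ τ0})) S ℂ := fun r i => B r (s i)
  have hKK : dsq KK = 1 := hK1
  rw [hR, hJ, ← dsq_reindex (tt_eR p0 κ) (Equiv.refl S)]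
  have hM : (Matrix.submatrix (fun (r : P ⊕ (Unit ⊕ κ)) (i : S) =>
      Sum.elim (fun p => Sf.dl (fun p' => if p' = p then (1 : ℂ) else 0) (s i) +
          if p = p0 then μ (s i) else 0)
        (Sum.elim (fun _ => ν (s i)) (fun k => b k (s i))) r) (tt_eR p0 κ) (Equiv.refl S)) =
      fromBlocks (1 : Matrix {p : P // p ≠ p0} {p : P // p ≠ p0} ℂ) 0
        (fun (j : Fin 2 ⊕ κ) (p : {p : P // p ≠ p0}) => y2 j (Sum.inl p)) D * KK := by
    ext r i
    rw [mul_apply]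
    rcases r with p | j
    · rw [Fintype.sum_sum_type]
      simp only [fromBlocks_apply₁₁, fromBlocks_apply₁₂, Matrix.zero_apply, zero_mul,
        Finset.sum_const_zero, add_zero, one_apply, ite_mul, one_mul, Finset.sum_ite_eq,
        Finset.mem_univ, if_true]
      have hk : KK (Sum.inl p) i = Sf.dl (fun p' => if p' = p.1 then (1 : ℂ) else 0) (s i) :=
        congrFun (hBp p) (s i)
      rw [hk]
      simp [tt_eR, p.2]
    · have h1 : ∀ r, (fromBlocks (1 : Matrix {p : P // p ≠ p0} {p : P // p ≠ p0} ℂ) 0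
        (fun (j : Fin 2 ⊕ κ) (p : {p : P // p ≠ p0}) => y2 j (Sum.inl p)) D) (Sum.inr j) r =
        y2 j r := by
        rintro (p | t)
        · rfl
        · rfl
      simp only [h1]
      have h2 : ∑ r, y2 j r * KK r i = _ := (hrow j i).symm
      rw [h2]
      rcases j with k | k
      · fin_cases k
        · simp [tt_eR, μ']
        · simp [tt_eR]
      · simp [tt_eR]
  rw [hM, dsq_mul (Equiv.sumCongr (Equiv.refl _) (Equiv.sumCongr (Equiv.refl _) eκ)) _ _ eS, hKK,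
    mul_one, dsq_fromBlocks (Equiv.refl _) (Equiv.sumCongr (Equiv.refl _) eκ), dsq_square, det_one,
    one_pow, one_mul, hD, dsq_fromBlocks (Equiv.refl _) eκ, dsq_square, hA]

end Pool.Agent.OL36
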