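import Pool.Agent.LibOL36.Row
import Pool.Agent.LibOL36.TT
import Pool.Agent.LibOL36.CO

/-! Assembly. -/

set_option autoImplicit false

open Matrix

namespace Pool.Agent.OL36

variable {N : ℕ}

theorem anti_sum {Δ Q P : Type} [Fintype Δ] (Sf : Surf Δ Q P) (y : Δ → ℂ)
    (hy : ∀ d, y (Sf.α d) = -y d) : ∑ d, y d = 0 := by
  have h : ∑ d, y d = ∑ d, y (Sf.α d) :=
    (Equiv.sum_comp (⟨Sf.α, Sf.α, Sf.αα, Sf.αα⟩ : Equiv Δ Δ) y).symm
  have h2 : ∑ d, y (Sf.α d) = -∑ d, y d := by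
    rw [← Finset.sum_neg_distrib]; exact Finset.sum_congr rfl (fun d _ => hy d)
  have h3 : ∑ d, y d = -∑ d, y d := h.trans h2
  have h4 : (2 : ℂ) * ∑ d, y d = 0 := by rw [two_mul]; nth_rewrite 2 [h3]; ring
  exact (mul_eq_zero.mp h4).resolve_left two_ne_zero

theorem sum_fib {Δ Q : Type} [Fintype Δ] [Fintype Q] [DecidableEq Q] (q : Δ → Q) (y : Δ → ℂ) :
    ∑ τ, ∑ d, (if q d = τ then y d else 0) = ∑ d, y d := by
  rw [Finset.sum_comm]
  refine Finset.sum_congr rfl (fun d _ => ?_)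
  simp

/-- The reindexing of the rows. -/
def rho (e₀ : Fin N) :
    (Fin N × Bool) ⊕ (Unit ⊕ ({e : Fin N // e ≠ e₀} ⊕ (Fin N × Fin 3))) →
      (Fin N × Fin 3) ⊕ (Fin N × Fin 3) :=
  Sum.elim (fun p => Sum.inl (p.1, if p.2 then 0 else 1))
    (Sum.elim (fun _ => Sum.inl (e₀, 2)) (Sum.elim (fun e => Sum.inl (e.1, 2)) Sum.inr))

theorem rho_bij (e₀ : Fin N) : Function.Bijective (rho e₀) := by
  constructor
  · rintro (⟨a, β⟩ | ⟨⟩ | ⟨a, ha⟩ | a) (⟨b, β'⟩ | ⟨⟩ | ⟨b, hb⟩ | b) h <;>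
      simp [rho] at h ⊢
    · obtain ⟨h1, h2⟩ := h
      refine ⟨h1, ?_⟩
      cases β <;> cases β' <;> simp at h2 ⊢
    · cases β <;> simp at h
    · cases β <;> simp at h
    · cases β' <;> simp at h
    · exact hb h.symm
    · cases β' <;> simp at h
    · exact ha h
    · exact h
    · exact h
  · rintro (⟨a, t⟩ | a)
    · fin_cases t
      · exact ⟨Sum.inl (a, true), by simp [rho]⟩
      · exact ⟨Sum.inl (a, false), by simp [rho]⟩
      · by_cases h : a = e₀
        · exact ⟨Sum.inr (Sum.inl ()), by simp [rho, h]⟩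
        · exact ⟨Sum.inr (Sum.inr (Sum.inl ⟨a, h⟩)), by simp [rho]⟩
    · exact ⟨Sum.inr (Sum.inr (Sum.inr a)), by simp [rho]⟩

/-- The determinant `det [D'; b]` of the text, up to squares. -/
theorem det_core (T : Tri N) (z : Fin N → ℂ) (hz : ∀ j, z j ≠ 0 ∧ z j ≠ 1)
    (u : Fin N → Fin 4 → Fin 2 → ℂ) (hu : IsDec T z u)
    (E : Fin N → Fin N × Fin 4 × Fin 4) (γ : Curve T) (e₀ : Fin N)
    (Sf : Surf (Dt N) (Fin N × Fin 4) (Fin N × Bool)) (hα : Sf.α = T.al) (hφ : Sf.φ = ph)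
    (hq : Sf.qm = (fun d => (d.1, d.2.1 0)))
    (hv : Sf.vm = fun d => vmE T E d.1 (d.2.1 0) (d.2.1 1))
    (s : (Fin N × Fin 3) ⊕ (Fin N × Fin 3) → Dt N)
    (hs : Function.Bijective (Sum.elim s (fun c => T.al (s c))))
    (y : Fin N × Fin 3 → Dt N → ℂ) (hy : ∀ r d, y r (T.al d) = -y r d) :
    (Matrix.det (fun r c : (Fin N × Fin 3) ⊕ (Fin N × Fin 3) =>
      Sum.elim (fun p : Fin N × Fin 3 =>
        (![Sf.dl (fun p' => if p' = (p.1, true) then (1 : ℂ) else 0) (s c),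
           Sf.dl (fun p' => if p' = (p.1, false) then (1 : ℂ) else 0) (s c),
           VV T u p.1 (s c)] : Fin 3 → ℂ) p.2 + if p = (e₀, 0) then hc γ (s c) else 0)
        (fun r => y r (s c)) r)) ^ 2 * 4 =
    (hatG T z γ e₀).det ^ 2 *
      dsq (fun (x : Fin N ⊕ (Fin N × Fin 3)) (τ : Fin N × Fin 4) =>
        Sum.elim (rr z u)
          (fun r τ => ∑ d : Dt N, if (d.1, d.2.1 0) = τ then y r d else 0) x τ) := by
  classical
  set D : Matrix ((Fin N × Fin 3) ⊕ (Fin N × Fin 3)) ((Fin N × Fin 3) ⊕ (Fin N × Fin 3)) ℂ :=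
    (fun r c : (Fin N × Fin 3) ⊕ (Fin N × Fin 3) =>
      Sum.elim (fun p : Fin N × Fin 3 =>
        (![Sf.dl (fun p' => if p' = (p.1, true) then (1 : ℂ) else 0) (s c),
           Sf.dl (fun p' => if p' = (p.1, false) then (1 : ℂ) else 0) (s c),
           VV T u p.1 (s c)] : Fin 3 → ℂ) p.2 + if p = (e₀, 0) then hc γ (s c) else 0)
        (fun r => y r (s c)) r) with hD
  -- replace the row `(e₀, 2)` by the sum
  have hD2 : (D.updateRow (Sum.inl (e₀, 2)) (fun c => ∑ e, VV T u e (s c))).det = D.det := by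
    have h := Matrix.det_updateRow_sum D (Sum.inl (e₀, 2))
      (fun k => Sum.elim (fun p : Fin N × Fin 3 => if p.2 = 2 then (1 : ℂ) else 0) (fun _ => 0) k)
    have h2 : (∑ k, (fun k => Sum.elim (fun p : Fin N × Fin 3 => if p.2 = 2 then (1 : ℂ) else 0)
        (fun _ => 0) k) k • D k) = fun c => ∑ e, VV T u e (s c) := by
      funext c
      rw [Fintype.sum_sum_type]
      simp only [Sum.elim_inl, Sum.elim_inr, zero_smul, Finset.sum_const_zero, add_zero]
      rw [Finset.sum_apply, Fintype.sum_prod_type]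
      refine Finset.sum_congr rfl (fun e _ => ?_)
      rw [Fin.sum_univ_three]
      simp [hD]
    rw [h2] at h
    rw [h]
    simp
  have hre : dsq (D.updateRow (Sum.inl (e₀, 2)) (fun c => ∑ e, VV T u e (s c))) =
      dsq (fun (r : (Fin N × Bool) ⊕ (Unit ⊕ ({e : Fin N // e ≠ e₀} ⊕ (Fin N × Fin 3))))
        (i : (Fin N × Fin 3) ⊕ (Fin N × Fin 3)) =>
      Sum.elim (fun p => Sf.dl (fun p' => if p' = p then (1 : ℂ) else 0) (s i) +
          if p = (e₀, true) then hc γ (s i) else 0)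
        (Sum.elim (fun _ => (fun d => ∑ e, VV T u e d) (s i))
          (fun k => (Sum.elim (fun e : {e : Fin N // e ≠ e₀} => VV T u e.1) y) k (s i))) r) := by
    rw [← dsq_reindex (Equiv.ofBijective _ (rho_bij e₀)) (Equiv.refl _)
      (D.updateRow (Sum.inl (e₀, 2)) (fun c => ∑ e, VV T u e (s c)))]
    congr 1
    ext r i
    simp only [Matrix.submatrix_apply, Equiv.ofBijective_apply, Equiv.refl_apply]
    rcases r with ⟨e, β⟩ | ⟨⟩ | ⟨e, he⟩ | k
    · cases β
      · rw [Matrix.updateRow_ne (by simp [rho])]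
        simp [hD, rho]
      · rw [Matrix.updateRow_ne (by simp [rho])]
        simp only [hD, rho, Sum.elim_inl, Prod.mk.injEq, if_true, and_true]
        simp
    · simp only [rho, Sum.elim_inr, Sum.elim_inl]
      rw [Matrix.updateRow_self]
    · rw [Matrix.updateRow_ne (by simp [rho, he])]
      simp [hD, rho]
    · rw [Matrix.updateRow_ne (by simp [rho])]
      simp [hD, rho]
  have hcardD : 2 * Fintype.card (Fin N × Bool) + 2 * Fintype.card (Fin N × Fin 4) =
      Fintype.card (Dt N) := by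
    have h12 : Fintype.card {π : Equiv.Perm (Fin 4) // Equiv.Perm.sign π = 1} = 12 := by decide
    rw [Fintype.card_prod, Fintype.card_prod, Fintype.card_prod, h12]
    simp
    ring
  have hN : 1 ≤ N := Nat.one_le_of_lt e₀.2
  have hκ : Fintype.card ({e : Fin N // e ≠ e₀} ⊕ (Fin N × Fin 3)) + 1 =
      Fintype.card (Fin N × Fin 4) := by
    rw [Fintype.card_sum, Fintype.card_prod, Fintype.card_prod, Fintype.card_subtype_compl]
    simp
    omega
  have hμ : Sf.Cyc (hc γ) := by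
    refine ⟨fun d => by rw [hα]; exact hc_al T γ d, fun d => by rw [hφ]; exact hc_ph T γ d⟩
  have hν : Sf.Cyc (fun d => ∑ e, VV T u e d) := by
    refine ⟨fun d => ?_, fun d => ?_⟩
    · rw [hα, ← Finset.sum_neg_distrib]
      exact Finset.sum_congr rfl (fun e _ => VV_al T z u hu e d)
    · rw [hφ]
      simp only [VV_sum]
      have := Lk_ph T z u hu d
      linear_combination -(1 / 2 : ℂ) * this
  have hbb : ∀ k, Sf.Anti ((Sum.elim (fun e : {e : Fin N // e ≠ e₀} => VV T u e.1) y) k) := by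
    rintro (e | r) d
    · rw [hα]; exact VV_al T z u hu e.1 d
    · rw [hα]; exact hy r d
  have htor := Surf.tor Sf hcardD s (by rw [hα]; exact hs) (e₀, true) (e₀, 0) hκ (hc γ)
    (fun d => ∑ e, VV T u e d) hμ hν _ hbb
  have hJ : Sf.J (hc γ) (fun d => ∑ e, VV T u e d) = -3 * trl u γ := by
    rw [Surf.J, hφ]
    exact J_eq T z u hu γ
  rw [← hre, hJ, dsq_square, hD2] at htor
  -- the core identity
  have hdd : ∀ (x : Dt N → ℂ) (τ : Fin N × Fin 4), Sf.dd x τ =
      ∑ d : Dt N, if (d.1, d.2.1 0) = τ then x d else 0 := by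
    intro x τ
    rw [Surf.dd, hq]
  have hsum0 : ∀ x : Dt N → ℂ, (∀ d, x (T.al d) = -x d) →
      ∑ τ : Fin N × Fin 4, ∑ d : Dt N, (if (d.1, d.2.1 0) = τ then x d else 0) = 0 := by
    intro x hx
    rw [sum_fib (fun d : Dt N => (d.1, d.2.1 0)) x]
    exact anti_sum Sf x (by rw [hα]; exact hx)
  have hA : ∀ e, ∑ j, Gz T z e j * ∑ τ, rr z u j τ = 0 := by
    intro e
    have h := hsum0 (VV T u e) (VV_al T z u hu e)
    rw [← h]
    simp only [dd_VV T z hz u hu e, Finset.mul_sum]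
    exact Finset.sum_comm
  have hcore := core (Gz T z) e₀ (Cz z γ) (rr z u)
    (fun r τ => ∑ d : Dt N, if (d.1, d.2.1 0) = τ then y r d else 0) (e₀, 0)
    (by rw [Fintype.card_prod, Fintype.card_prod]; simp; ring) hA (fun k => hsum0 (y k) (hy k))
  rw [trans_eq T z hz u hu γ, ← hatG_eq] at hcore
  have hmat : (fun (r : Unit ⊕ ({e : Fin N // e ≠ e₀} ⊕ (Fin N × Fin 3))) (τ : Fin N × Fin 4) =>
      Sum.elim (fun _ => if τ = (e₀, 0) then (1 : ℂ) else 0)
        (fun k => Sf.dd ((Sum.elim (fun e : {e : Fin N // e ≠ e₀} => VV T u e.1) y) k) τ) r) =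
      (fun (x : Unit ⊕ ({e : Fin N // e ≠ e₀} ⊕ (Fin N × Fin 3))) (τ : Fin N × Fin 4) =>
        Sum.elim (fun _ => if τ = (e₀, 0) then (1 : ℂ) else 0)
          (Sum.elim (fun e => ∑ j, Gz T z e.1 j * rr z u j τ)
            (fun k => ∑ d : Dt N, if (d.1, d.2.1 0) = τ then y k d else 0)) x) := by
    funext r τ
    rcases r with ⟨⟩ | e | k
    · rfl
    · simp only [Sum.elim_inr, Sum.elim_inl]
      rw [hdd, dd_VV T z hz u hu]
    · simp only [Sum.elim_inr]
      rw [hdd]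
  rw [hmat] at htor
  rw [htor]
  linear_combination -hcore

end Pool.Agent.OL36
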