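import Pool.Agent.LibOL36.Loc

/-! Part 2: `H₀ = 0` when the holonomy of a peripheral curve is not trivial. -/

set_option autoImplicit false

open Matrix

namespace Pool.Agent.OL36

variable {N : ℕ}

/-- `M2` commutation in coordinates. -/
theorem comm_coord {A B : M2} (h : A * B = B * A) :
    A 0 1 * B 1 0 = B 0 1 * A 1 0 ∧
    A 0 1 * (B 0 0 - B 1 1) = B 0 1 * (A 0 0 - A 1 1) ∧
    A 1 0 * (B 0 0 - B 1 1) = B 1 0 * (A 0 0 - A 1 1) := by
  have h00 := congrFun (congrFun h 0) 0
  have h01 := congrFun (congrFun h 0) 1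
  have h10 := congrFun (congrFun h 1) 0
  simp only [Matrix.mul_apply, Fin.sum_univ_two] at h00 h01 h10
  refine ⟨?_, ?_, ?_⟩
  · linear_combination h00
  · linear_combination (-1 : ℂ) * h01
  · linear_combination h10

theorem par_of_comm {A Q S : M2} (hA : ∀ c : ℂ, A ≠ c • (1 : M2)) (hQ : Q ≠ 0)
    (hQt : Q.trace = 0) (hSt : S.trace = 0) (h1 : A * Q = Q * A) (h2 : A * S = S * A) :
    ∃ c : ℂ, S = c • Q := by
  obtain ⟨a1, a2, a3⟩ := comm_coord h1
  obtain ⟨b1, b2, b3⟩ := comm_coord h2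
  simp only [Matrix.trace, Matrix.diag_apply, Fin.sum_univ_two] at hQt hSt
  have q11 : Q 1 1 = -Q 0 0 := by linear_combination hQt
  have s11 : S 1 1 = -S 0 0 := by linear_combination hSt
  rw [q11] at a2 a3
  rw [s11] at b2 b3
  have hv : A 0 1 ≠ 0 ∨ A 1 0 ≠ 0 ∨ A 0 0 - A 1 1 ≠ 0 := by
    by_contra hcon
    push Not at hcon
    obtain ⟨c1, c2, c3⟩ := hcon
    apply hA (A 0 0)
    apply M2_ext
    intro i j
    fin_cases i <;> fin_cases j <;> simp [c1, c2]
    linear_combination -c3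
  rcases hv with h | h | h
  · have hq0 : Q 0 1 ≠ 0 := by
      intro hq
      apply hQ
      have e1 : Q 1 0 = 0 := by
        have : A 0 1 * Q 1 0 = 0 := by rw [a1, hq, zero_mul]
        exact (mul_eq_zero.mp this).resolve_left h
      have e2 : Q 0 0 = 0 := by
        have : A 0 1 * (Q 0 0 - -Q 0 0) = 0 := by rw [a2, hq, zero_mul]
        have := (mul_eq_zero.mp this).resolve_left h
        linear_combination this / 2
      apply M2_ext
      intro i j
      fin_cases i <;> fin_cases j <;> simp [hq, e1, e2, q11]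
    refine ⟨S 0 1 / Q 0 1, ?_⟩
    apply M2_ext
    intro i j
    fin_cases i <;> fin_cases j <;> simp only [Fin.zero_eta, Fin.isValue, Fin.mk_one,
      Matrix.smul_apply, smul_eq_mul]
    · field_simp
      apply mul_left_cancel₀ h
      linear_combination (Q 0 1 / 2) * b2 - (S 0 1 / 2) * a2
    · field_simp
    · field_simp
      apply mul_left_cancel₀ h
      linear_combination (Q 0 1) * b1 - (S 0 1) * a1
    · rw [q11, s11]
      field_simp
      apply mul_left_cancel₀ h
      linear_combination -(Q 0 1 / 2) * b2 + (S 0 1 / 2) * a2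
  · have hq0 : Q 1 0 ≠ 0 := by
      intro hq
      apply hQ
      have e1 : Q 0 1 = 0 := by
        have : Q 0 1 * A 1 0 = 0 := by rw [← a1, hq, mul_zero]
        exact (mul_eq_zero.mp this).resolve_right h
      have e2 : Q 0 0 = 0 := by
        have : A 1 0 * (Q 0 0 - -Q 0 0) = 0 := by rw [a3, hq, zero_mul]
        have := (mul_eq_zero.mp this).resolve_left h
        linear_combination this / 2
      apply M2_ext
      intro i j
      fin_cases i <;> fin_cases j <;> simp [hq, e1, e2, q11]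
    refine ⟨S 1 0 / Q 1 0, ?_⟩
    apply M2_ext
    intro i j
    fin_cases i <;> fin_cases j <;> simp only [Fin.zero_eta, Fin.isValue, Fin.mk_one,
      Matrix.smul_apply, smul_eq_mul]
    · field_simp
      apply mul_left_cancel₀ h
      linear_combination (Q 1 0 / 2) * b3 - (S 1 0 / 2) * a3
    · field_simp
      apply mul_left_cancel₀ h
      linear_combination (-(Q 1 0)) * b1 + (S 1 0) * a1
    · field_simp
    · rw [q11, s11]
      field_simp
      apply mul_left_cancel₀ h
      linear_combination -(Q 1 0 / 2) * b3 + (S 1 0 / 2) * a3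
  · have hq0 : Q 0 0 ≠ 0 := by
      intro hq
      apply hQ
      have e1 : Q 0 1 = 0 := by
        have : Q 0 1 * (A 0 0 - A 1 1) = 0 := by rw [← a2, hq]; ring
        exact (mul_eq_zero.mp this).resolve_right h
      have e2 : Q 1 0 = 0 := by
        have : Q 1 0 * (A 0 0 - A 1 1) = 0 := by rw [← a3, hq]; ring
        exact (mul_eq_zero.mp this).resolve_right h
      apply M2_ext
      intro i j
      fin_cases i <;> fin_cases j <;> simp [hq, e1, e2, q11]
    refine ⟨S 0 0 / Q 0 0, ?_⟩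
    apply M2_ext
    intro i j
    fin_cases i <;> fin_cases j <;> simp only [Fin.zero_eta, Fin.isValue, Fin.mk_one,
      Matrix.smul_apply, smul_eq_mul]
    · field_simp
    · field_simp
      apply mul_right_cancel₀ h
      linear_combination (-(Q 0 0)) * b2 + (S 0 0) * a2
    · field_simp
      apply mul_right_cancel₀ h
      linear_combination (-(Q 0 0)) * b3 + (S 0 0) * a3
    · rw [q11, s11]
      field_simp

theorem trace_nil (v : Fin 2 → ℂ) : (nil v).trace = 0 := by
  simp [Matrix.trace, nil, Fin.sum_univ_two]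

theorem conj_cancel {g : M2} (hg : g.det ≠ 0) : g⁻¹ * g = 1 ∧ g * g⁻¹ = 1 :=
  ⟨Matrix.nonsing_inv_mul _ (isUnit_iff_ne_zero.mpr hg),
    Matrix.mul_nonsing_inv _ (isUnit_iff_ne_zero.mpr hg)⟩

theorem holk_det {T : Tri N} {z : Fin N → ℂ} {g : Fin N → Fin 4 → M2} (hg : IsHol T z g)
    (γ : Curve T) (k : ℕ) : (γ.holk g k).det ≠ 0 := by
  induction k with
  | zero => simp [Curve.holk]
  | succ k ih =>
    simp only [Curve.holk, Matrix.det_mul]
    exact mul_ne_zero (hg _ _).1 ih

theorem holk_par {T : Tri N} {z : Fin N → ℂ} {g : Fin N → Fin 4 → M2} (hg : IsHol T z g)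
    (γ : Curve T) (S : Fin N → M2)
    (hS : ∀ j i, S (T.nbr j i) = g j i * S j * (g j i)⁻¹) (k : ℕ) (hk : k ≤ γ.m) :
    S (γ.x k).1 * γ.holk g k = γ.holk g k * S (γ.x 0).1 := by
  induction k with
  | zero => simp [Curve.holk]
  | succ k ih =>
    have ih' := ih (by omega)
    have hst := (γ.step k (by omega)).1
    rw [hst, hS]
    simp only [Curve.holk]
    have hc := (conj_cancel (hg (γ.x k).1 ((γ.x k).2 2)).1).1
    calc g (γ.x k).1 ((γ.x k).2 2) * S (γ.x k).1 * (g (γ.x k).1 ((γ.x k).2 2))⁻¹ *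
          (g (γ.x k).1 ((γ.x k).2 2) * γ.holk g k)
        = g (γ.x k).1 ((γ.x k).2 2) * S (γ.x k).1 *
            ((g (γ.x k).1 ((γ.x k).2 2))⁻¹ * g (γ.x k).1 ((γ.x k).2 2)) * γ.holk g k := by
          noncomm_ring
      _ = g (γ.x k).1 ((γ.x k).2 2) * (S (γ.x k).1 * γ.holk g k) := by
          rw [hc]; noncomm_ring
      _ = _ := by rw [ih']; noncomm_ring

theorem holk_P {T : Tri N} {z : Fin N → ℂ} {g P : Fin N → Fin 4 → M2} (hg : IsHol T z g)
    (hP : IsPar T z g P) (γ : Curve T) (k : ℕ) (hk : k ≤ γ.m) :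
    P (γ.x k).1 ((γ.x k).2 0) * γ.holk g k = γ.holk g k * P (γ.x 0).1 ((γ.x 0).2 0) := by
  induction k with
  | zero => simp [Curve.holk]
  | succ k ih =>
    have ih' := ih (by omega)
    obtain ⟨h1, h2, h3⟩ := γ.step k (by omega)
    have hne : (γ.x k).2 0 ≠ (γ.x k).2 2 := fun h => by
      have := (γ.x k).2.injective h
      exact absurd this (by decide)
    rw [h1, h2, hP.2 _ _ _ hne]
    simp only [Curve.holk]
    have hc := (conj_cancel (hg (γ.x k).1 ((γ.x k).2 2)).1).1
    calc g (γ.x k).1 ((γ.x k).2 2) * P (γ.x k).1 ((γ.x k).2 0) *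
          (g (γ.x k).1 ((γ.x k).2 2))⁻¹ * (g (γ.x k).1 ((γ.x k).2 2) * γ.holk g k)
        = g (γ.x k).1 ((γ.x k).2 2) * P (γ.x k).1 ((γ.x k).2 0) *
            ((g (γ.x k).1 ((γ.x k).2 2))⁻¹ * g (γ.x k).1 ((γ.x k).2 2)) * γ.holk g k := by
          noncomm_ring
      _ = g (γ.x k).1 ((γ.x k).2 2) * (P (γ.x k).1 ((γ.x k).2 0) * γ.holk g k) := by
          rw [hc]; noncomm_ring
      _ = _ := by rw [ih']; noncomm_ring

theorem pt_ne_zero (z : ℂ) (a : Fin 4) : pt z a ≠ 0 := by
  intro h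
  have h0 := congrFun h 0
  have h1 := congrFun h 1
  fin_cases a <;> simp [pt] at h0 h1

theorem nil_ne_zero {v : Fin 2 → ℂ} (hv : v ≠ 0) : nil v ≠ 0 := by
  intro h
  apply hv
  have h1 := congrFun (congrFun h 0) 1
  have h2 := congrFun (congrFun h 1) 0
  simp [nil] at h1 h2
  funext i
  fin_cases i
  · exact h1
  · exact h2

/-- A parallel family of matrices vanishes. -/
theorem par_zero (T : Tri N) (z : Fin N → ℂ) (g P : Fin N → Fin 4 → M2) (hg : IsHol T z g)
    (hP : IsPar T z g P) (γ : Curve T) (hγ : ∀ c : ℂ, γ.hol g ≠ c • (1 : M2))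
    (S : Fin N → M2) (hSt : ∀ j, (S j).trace = 0)
    (hS : ∀ j i, S (T.nbr j i) = g j i * S j * (g j i)⁻¹) : ∀ j, S j = 0 := by
  have e1 := holk_par hg γ S hS γ.m le_rfl
  have e2 := holk_P hg hP γ γ.m le_rfl
  rw [γ.closed] at e1 e2
  have hPn : ∀ j a, P j a ≠ 0 ∧ (P j a).trace = 0 := by
    intro j a
    obtain ⟨s, hs, h⟩ := hP.1 j a
    rw [h]
    refine ⟨smul_ne_zero hs (nil_ne_zero (pt_ne_zero _ _)), ?_⟩
    rw [Matrix.trace_smul, trace_nil, smul_zero]
  have h0 : ∃ c : ℂ, S (γ.x 0).1 = c • P (γ.x 0).1 ((γ.x 0).2 0) :=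
    par_of_comm hγ (hPn _ _).1 (hPn _ _).2 (hSt _) e2.symm e1.symm
  have hprop : ∀ s s' : Fin N × Fin 4,
      Relation.EqvGen (fun s s' : Fin N × Fin 4 =>
        ∃ i, i ≠ s.2 ∧ s' = (T.nbr s.1 i, T.glue s.1 i s.2)) s s' →
      ((∃ c : ℂ, S s.1 = c • P s.1 s.2) ↔ (∃ c : ℂ, S s'.1 = c • P s'.1 s'.2)) := by
    intro s s' h
    induction h with
    | rel s s' h =>
      obtain ⟨i, hi, rfl⟩ := h
      obtain ⟨c1, c2⟩ := conj_cancel (hg s.1 i).1
      simp only
      rw [hP.2 s.1 i s.2 (Ne.symm hi), hS s.1 i]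
      constructor
      · rintro ⟨c, hc⟩
        refine ⟨c, ?_⟩
        rw [hc]
        simp only [Matrix.mul_smul, Matrix.smul_mul]
      · rintro ⟨c, hc⟩
        refine ⟨c, ?_⟩
        have : (g s.1 i)⁻¹ * (g s.1 i * S s.1 * (g s.1 i)⁻¹) * g s.1 i =
            (g s.1 i)⁻¹ * (c • (g s.1 i * P s.1 s.2 * (g s.1 i)⁻¹)) * g s.1 i := by rw [hc]
        have l1 : (g s.1 i)⁻¹ * (g s.1 i * S s.1 * (g s.1 i)⁻¹) * g s.1 i = S s.1 := by
          calc _ = ((g s.1 i)⁻¹ * g s.1 i) * S s.1 * ((g s.1 i)⁻¹ * g s.1 i) := by noncomm_ring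
            _ = S s.1 := by rw [c1, one_mul, mul_one]
        have l2 : (g s.1 i)⁻¹ * (c • (g s.1 i * P s.1 s.2 * (g s.1 i)⁻¹)) * g s.1 i =
            c • P s.1 s.2 := by
          simp only [Matrix.mul_smul, Matrix.smul_mul]
          congr 1
          calc _ = ((g s.1 i)⁻¹ * g s.1 i) * P s.1 s.2 * ((g s.1 i)⁻¹ * g s.1 i) := by
                noncomm_ring
            _ = P s.1 s.2 := by rw [c1, one_mul, mul_one]
        rw [l1, l2] at this
        exact this
    | refl s => exact Iff.rfl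
    | symm s s' _ ih => exact ih.symm
    | trans s s' s'' _ _ ih1 ih2 => exact ih1.trans ih2
  have hall : ∀ j a, ∃ c : ℂ, S j = c • P j a := by
    intro j a
    exact (hprop _ _ (T.link_conn (γ.x 0).1 ((γ.x 0).2 0) j a)).mp h0
  intro j
  obtain ⟨c, hc⟩ := hall j 0
  obtain ⟨c', hc'⟩ := hall j 1
  obtain ⟨s, hs, h⟩ := hP.1 j 0
  obtain ⟨s', hs', h'⟩ := hP.1 j 1
  rw [h] at hc
  rw [h'] at hc'
  apply M2_ext
  intro a b
  have f1 := congrFun (congrFun hc a) b
  have f2 := congrFun (congrFun hc' a) b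
  fin_cases a <;> fin_cases b <;> simp [pt, nil] at f1 f2 ⊢ <;> assumption

theorem scalar_of_eig {A : M2} {z : ℂ} (hz : z ≠ 0 ∧ z ≠ 1) (i : Fin 4)
    (h : ∀ a, a ≠ i → ∃ c : ℂ, A *ᵥ pt z a = c • pt z a) : ∃ c : ℂ, A = c • (1 : M2) := by
  have h' : ∀ a, a ≠ i → (A *ᵥ pt z a) 0 * pt z a 1 = (A *ᵥ pt z a) 1 * pt z a 0 := by
    intro a ha
    obtain ⟨c, hc⟩ := h a ha
    rw [hc]
    simp only [Pi.smul_apply, smul_eq_mul]
    ring
  have hz1 : z - 1 ≠ 0 := sub_ne_zero.mpr hz.2
  have fin : A 0 1 = 0 → A 1 0 = 0 → A 0 0 = A 1 1 → ∃ c : ℂ, A = c • (1 : M2) := by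
    intro e1 e2 e3
    refine ⟨A 0 0, M2_ext fun x y => ?_⟩
    fin_cases x <;> fin_cases y <;> simp [e1, e2, e3]
  fin_cases i
  · have k1 := h' 1 (by decide)
    have k2 := h' 2 (by decide)
    have k3 := h' 3 (by decide)
    simp [pt, Matrix.mulVec, dotProduct, Fin.sum_univ_two] at k1 k2 k3
    have e2 : A 1 0 = 0 := k1.symm
    rw [e2] at k2 k3
    have e3 : A 0 0 = A 1 1 := by
      apply mul_left_cancel₀ hz1
      linear_combination k3 - k2
    refine fin ?_ e2 e3
    linear_combination k2 - e3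
  · have k1 := h' 0 (by decide)
    have k2 := h' 2 (by decide)
    have k3 := h' 3 (by decide)
    simp [pt, Matrix.mulVec, dotProduct, Fin.sum_univ_two] at k1 k2 k3
    have e1 : A 0 1 = 0 := k1
    rw [e1] at k2 k3
    have e2 : A 1 0 = 0 := by
      apply mul_left_cancel₀ (mul_ne_zero hz.1 hz1)
      linear_combination z * k2 - k3
    refine fin e1 e2 ?_
    linear_combination k2 + e2
  · have k1 := h' 0 (by decide)
    have k2 := h' 1 (by decide)
    have k3 := h' 3 (by decide)
    simp [pt, Matrix.mulVec, dotProduct, Fin.sum_univ_two] at k1 k2 k3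
    have e1 : A 0 1 = 0 := k1
    have e2 : A 1 0 = 0 := k2.symm
    rw [e1, e2] at k3
    refine fin e1 e2 ?_
    apply mul_left_cancel₀ hz.1
    linear_combination k3
  · have k1 := h' 0 (by decide)
    have k2 := h' 1 (by decide)
    have k3 := h' 2 (by decide)
    simp [pt, Matrix.mulVec, dotProduct, Fin.sum_univ_two] at k1 k2 k3
    have e1 : A 0 1 = 0 := k1
    have e2 : A 1 0 = 0 := k2.symm
    rw [e1, e2] at k3
    refine fin e1 e2 ?_
    linear_combination k3

/-- The other side of a face. -/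
def Tri.nu (T : Tri N) (s : Fin N × Fin 4) : Fin N × Fin 4 :=
  (T.nbr s.1 s.2, T.glue s.1 s.2 s.2)

theorem nu_nu (T : Tri N) (s : Fin N × Fin 4) : T.nu (T.nu s) = s := by
  obtain ⟨j, i⟩ := s
  simp only [Tri.nu]
  rw [T.nbr_nbr, T.glue_glue]
  simp

theorem nu_ne (T : Tri N) (s : Fin N × Fin 4) : T.nu s ≠ s := T.ne_self s.1 s.2

/-- Going through a face and back is the identity of `PGL₂`. -/
theorem g_back (T : Tri N) (z : Fin N → ℂ) (hz : ∀ j, z j ≠ 0 ∧ z j ≠ 1)
    (g : Fin N → Fin 4 → M2) (hg : IsHol T z g) (j : Fin N) (i : Fin 4) :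
    ∃ c : ℂ, c ≠ 0 ∧ g (T.nbr j i) (T.glue j i i) * g j i = c • (1 : M2) := by
  have hs : ∃ c : ℂ, g (T.nbr j i) (T.glue j i i) * g j i = c • (1 : M2) := by
    refine scalar_of_eig (hz j) i ?_
    intro a ha
    obtain ⟨c, _, h1⟩ := (hg j i).2 a ha
    have ha' : T.glue j i a ≠ T.glue j i i := fun h => ha ((T.glue j i).injective h)
    obtain ⟨c', _, h2⟩ := (hg (T.nbr j i) (T.glue j i i)).2 (T.glue j i a) ha'
    rw [T.nbr_nbr, T.glue_glue] at h2
    refine ⟨c * c', ?_⟩
    rw [← Matrix.mulVec_mulVec, h1, Matrix.mulVec_smul, h2, smul_smul]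
    simp
  obtain ⟨c, hc⟩ := hs
  refine ⟨c, ?_, hc⟩
  rintro rfl
  have h0 : (g (T.nbr j i) (T.glue j i i) * g j i).det = 0 := by rw [hc]; simp
  rw [Matrix.det_mul] at h0
  exact mul_ne_zero (hg _ _).1 (hg _ _).1 h0

/-- The 1-chain supported on one face. -/
noncomputable def sgl (T : Tri N) (g : Fin N → Fin 4 → M2) (s : Fin N × Fin 4) (X : M2) :
    Fin N → Fin 4 → M2 := fun j i =>
  if (j, i) = s then X else if (j, i) = T.nu s then -(g s.1 s.2 * X * (g s.1 s.2)⁻¹) else 0

theorem trace_conj {g : M2} (hg : g.det ≠ 0) (X : M2) : (g * X * g⁻¹).trace = X.trace := by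
  rw [Matrix.trace_mul_comm, ← mul_assoc, (conj_cancel hg).1, one_mul]

theorem sgl_chain (T : Tri N) (z : Fin N → ℂ) (hz : ∀ j, z j ≠ 0 ∧ z j ≠ 1)
    (g : Fin N → Fin 4 → M2) (hg : IsHol T z g) (s : Fin N × Fin 4) (X : M2)
    (hX : X.trace = 0) : IsChain1 T g (sgl T g s X) := by
  intro j i
  constructor
  · unfold sgl
    split_ifs
    · exact hX
    · rw [Matrix.trace_neg, trace_conj (hg _ _).1, hX, neg_zero]
    · exact Matrix.trace_zero _ _
  · have hn : (T.nbr j i, T.glue j i i) = T.nu (j, i) := rfl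
    by_cases h1 : (j, i) = s
    · have h2 : (T.nbr j i, T.glue j i i) = T.nu s := by rw [hn, h1]
      have h3 : ¬ (T.nbr j i, T.glue j i i) = s := by rw [h2]; exact nu_ne T s
      unfold sgl
      rw [if_neg h3, if_pos h2, if_pos h1]
      subst h1
      rfl
    · by_cases h2 : (j, i) = T.nu s
      · have h3 : (T.nbr j i, T.glue j i i) = s := by rw [hn, h2, nu_nu]
        unfold sgl
        rw [if_pos h3, if_neg h1, if_pos h2]
        obtain ⟨c, hc0, hc⟩ := g_back T z hz g hg s.1 s.2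
        have e : g j i = g (T.nbr s.1 s.2) (T.glue s.1 s.2 s.2) := by
          have := congrArg (fun p : Fin N × Fin 4 => g p.1 p.2) h2
          exact this
        rw [e]
        set g1 := g s.1 s.2 with hg1
        set g2 := g (T.nbr s.1 s.2) (T.glue s.1 s.2 s.2) with hg2
        have d1 : g1.det ≠ 0 := (hg _ _).1
        have d2 : g2.det ≠ 0 := (hg _ _).1
        obtain ⟨a1, a2⟩ := conj_cancel d1
        obtain ⟨b1, b2⟩ := conj_cancel d2
        have key : g2 * g1 * X = X * (g2 * g1) := by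
          rw [hc]; simp
        calc X = X * (g2 * g1) * (g1⁻¹ * g2⁻¹) := by
              have : (g2 * g1) * (g1⁻¹ * g2⁻¹) = 1 := by
                calc _ = g2 * (g1 * g1⁻¹) * g2⁻¹ := by noncomm_ring
                  _ = 1 := by rw [a2, mul_one, b2]
              rw [mul_assoc X, this, mul_one]
          _ = g2 * g1 * X * (g1⁻¹ * g2⁻¹) := by rw [key]
          _ = -(g2 * -(g1 * X * g1⁻¹) * g2⁻¹) := by noncomm_ring
      · have h3 : ¬ (T.nbr j i, T.glue j i i) = s := by
          intro h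
          apply h2
          rw [← h, hn, nu_nu]
        have h4 : ¬ (T.nbr j i, T.glue j i i) = T.nu s := by
          intro h
          apply h1
          rw [hn] at h
          have := congrArg T.nu h
          rwa [nu_nu, nu_nu] at this
        unfold sgl
        rw [if_neg h3, if_neg h4, if_neg h1, if_neg h2]
        simp

theorem sgl_pair (T : Tri N) (g : Fin N → Fin 4 → M2) (s : Fin N × Fin 4) (X : M2)
    (S : Fin N → M2) :
    ∑ j, (S j * bd1 (sgl T g s X) j).trace =
      -(S s.1 * X).trace + (S (T.nu s).1 * (g s.1 s.2 * X * (g s.1 s.2)⁻¹)).trace := by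
  have h1 : ∀ j, (S j * bd1 (sgl T g s X) j).trace = -∑ i, (S j * sgl T g s X j i).trace := by
    intro j
    unfold bd1
    rw [mul_neg, Matrix.trace_neg, Finset.mul_sum, Matrix.trace_sum]
  simp only [h1]
  rw [Finset.sum_neg_distrib, ← Fintype.sum_prod_type']
  have h2 : ∀ x : Fin N × Fin 4, (S x.1 * sgl T g s X x.1 x.2).trace =
      (if x = s then (S s.1 * X).trace else 0) +
      (if x = T.nu s then -(S (T.nu s).1 * (g s.1 s.2 * X * (g s.1 s.2)⁻¹)).trace else 0) := by
    intro x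
    unfold sgl
    by_cases hx : x = s
    · have hx' : ¬ x = T.nu s := by rw [hx]; exact (nu_ne T s).symm
      rw [if_pos hx, if_pos hx, if_neg hx', hx, add_zero]
    · rw [if_neg hx, if_neg hx, zero_add]
      by_cases hx' : x = T.nu s
      · rw [if_pos hx', if_pos hx', hx', mul_neg, Matrix.trace_neg]
      · rw [if_neg hx', if_neg hx']; simp
  rw [Finset.sum_congr rfl (fun x _ => h2 x), Finset.sum_add_distrib]
  simp only [Finset.sum_ite_eq', Finset.mem_univ, if_true]
  ring

/-- The space of 1-chains. -/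
def chain1 (T : Tri N) (g : Fin N → Fin 4 → M2) : Submodule ℂ (Fin N → Fin 4 → M2) where
  carrier := {Y | IsChain1 T g Y}
  add_mem' := by
    intro Y Y' hY hY' j i
    obtain ⟨a1, a2⟩ := hY j i
    obtain ⟨b1, b2⟩ := hY' j i
    refine ⟨?_, ?_⟩
    · simp only [Pi.add_apply, Matrix.trace_add, a1, b1, add_zero]
    · simp only [Pi.add_apply, a2, b2]
      noncomm_ring
  zero_mem' := by
    intro j i
    simp
  smul_mem' := by
    intro c Y hY j i
    obtain ⟨a1, a2⟩ := hY j i
    refine ⟨?_, ?_⟩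
    · simp only [Pi.smul_apply, Matrix.trace_smul, a1, smul_zero]
    · simp only [Pi.smul_apply, a2, Matrix.mul_smul, Matrix.smul_mul, smul_neg]

/-- The boundary map on 1-chains, in coordinates. -/
noncomputable def bdL (T : Tri N) (g : Fin N → Fin 4 → M2) :
    chain1 T g →ₗ[ℂ] (Fin N × Fin 3 → ℂ) where
  toFun Y := fun c => co (bd1 Y.1 c.1) c.2
  map_add' := by
    intro Y Y'
    funext c
    obtain ⟨j, k⟩ := c
    fin_cases k <;> simp [co, bd1, Finset.sum_add_distrib, Matrix.sum_apply] <;> ring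
  map_smul' := by
    intro a Y
    funext c
    obtain ⟨j, k⟩ := c
    fin_cases k <;> simp [co, bd1, Finset.mul_sum, Matrix.sum_apply]

/-- The trace form is non-degenerate on `sl₂`. -/
theorem eq_zero_of_trace (D : M2) (hDt : D.trace = 0)
    (hDX : ∀ X : M2, X.trace = 0 → (D * X).trace = 0) : D = 0 := by
  have t1 := hDX !![0, 1; 0, 0] (by simp [Matrix.trace, Fin.sum_univ_two])
  have t2 := hDX !![0, 0; 1, 0] (by simp [Matrix.trace, Fin.sum_univ_two])
  have t3 := hDX !![1, 0; 0, -1] (by simp [Matrix.trace, Fin.sum_univ_two])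
  simp [Matrix.trace, Fin.sum_univ_two, Matrix.mul_apply] at t1 t2 t3 hDt
  apply M2_ext
  intro x y
  fin_cases x <;> fin_cases y <;> simp
  · linear_combination (t3 + hDt) / 2
  · exact t2
  · exact t1
  · linear_combination (hDt - t3) / 2

theorem exists_b (T : Tri N) (z : Fin N → ℂ) (hz : ∀ j, z j ≠ 0 ∧ z j ≠ 1)
    (g P : Fin N → Fin 4 → M2) (hg : IsHol T z g) (hP : IsPar T z g P)
    (γ : Curve T) (hγ : ∀ c : ℂ, γ.hol g ≠ c • (1 : M2)) :
    ∃ b : Fin N × Fin 3 → Fin N → Fin 4 → M2, (∀ r, IsChain1 T g (b r)) ∧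
      Matrix.det (fun r c : Fin N × Fin 3 => co (bd1 (b r) c.1) c.2) ≠ 0 := by
  classical
  have hsurj : LinearMap.range (bdL T g) = ⊤ := by
    by_contra hne
    obtain ⟨f, hf, hker⟩ := Submodule.exists_le_ker_of_lt_top _ (lt_top_iff_ne_top.mpr hne)
    set φ : Fin N × Fin 3 → ℂ := fun c => f (Pi.single c 1) with hφ
    have hfv : ∀ v : Fin N × Fin 3 → ℂ, f v = ∑ c, φ c * v c := by
      intro v
      have : v = ∑ c, v c • (Pi.single c (1 : ℂ) : Fin N × Fin 3 → ℂ) := by
        funext x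
        simp [Finset.sum_apply, Pi.single_apply]
      conv_lhs => rw [this]
      rw [map_sum]
      refine Finset.sum_congr rfl (fun c _ => ?_)
      rw [map_smul, smul_eq_mul, mul_comm]
    set S : Fin N → M2 := fun j => !![φ (j, 2) / 2, φ (j, 1); φ (j, 0), -(φ (j, 2) / 2)] with hSdef
    have hSt : ∀ j, (S j).trace = 0 := by
      intro j; simp [hSdef, Matrix.trace, Fin.sum_univ_two]
    have hS00 : ∀ j, S j 0 0 = φ (j, 2) / 2 := fun j => rfl
    have hS01 : ∀ j, S j 0 1 = φ (j, 1) := fun j => rfl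
    have hS10 : ∀ j, S j 1 0 = φ (j, 0) := fun j => rfl
    have htr : ∀ (j : Fin N) (X : M2), X.trace = 0 →
        (S j * X).trace = ∑ k, φ (j, k) * co X k := by
      intro j X hX
      simp only [Matrix.trace, Matrix.diag_apply, Fin.sum_univ_two] at hX
      have h11 : X 1 1 = -X 0 0 := by linear_combination hX
      have e1 : (S j * X).trace = φ (j, 2) / 2 * X 0 0 + φ (j, 1) * X 1 0 +
          (φ (j, 0) * X 0 1 + -(φ (j, 2) / 2) * X 1 1) := by
        rw [Matrix.trace_fin_two, Matrix.mul_apply, Matrix.mul_apply]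
        simp only [Fin.sum_univ_two, hSdef, Matrix.of_apply, Matrix.cons_val_zero,
          Matrix.cons_val_one, Matrix.cons_val', Matrix.cons_val_fin_one]
      rw [e1, h11]
      simp only [Fin.sum_univ_three, co, Matrix.cons_val_zero, Matrix.cons_val_one,
        Matrix.cons_val_two, Matrix.head_cons, Matrix.tail_cons]
      ring
    have hzero : ∀ Y : Fin N → Fin 4 → M2, IsChain1 T g Y →
        ∑ j, (S j * bd1 Y j).trace = 0 := by
      intro Y hY
      have h1 : f (bdL T g ⟨Y, hY⟩) = 0 := hker (LinearMap.mem_range_self _ _)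
      rw [hfv, Fintype.sum_prod_type] at h1
      rw [← h1]
      refine Finset.sum_congr rfl (fun j _ => ?_)
      rw [htr]
      · rfl
      · unfold bd1
        rw [Matrix.trace_neg, Matrix.trace_sum]
        simp [(hY j _).1]
    have hS : ∀ j i, S (T.nbr j i) = g j i * S j * (g j i)⁻¹ := by
      intro j i
      have hdet := (hg j i).1
      obtain ⟨c1, c2⟩ := conj_cancel hdet
      set D : M2 := (g j i)⁻¹ * S (T.nbr j i) * g j i - S j with hD
      have hDt : D.trace = 0 := by
        rw [hD, Matrix.trace_sub, hSt, sub_zero, Matrix.trace_mul_comm, ← mul_assoc, c2, one_mul,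
          hSt]
      have hDX : ∀ X : M2, X.trace = 0 → (D * X).trace = 0 := by
        intro X hX
        have h1 := hzero _ (sgl_chain T z hz g hg (j, i) X hX)
        rw [sgl_pair] at h1
        have h2 : (S (T.nu (j, i)).1 * (g j i * X * (g j i)⁻¹)).trace =
            ((g j i)⁻¹ * S (T.nbr j i) * g j i * X).trace := by
          have : S (T.nu (j, i)).1 = S (T.nbr j i) := rfl
          rw [this, ← mul_assoc, Matrix.trace_mul_comm]
          congr 1
          noncomm_ring
        rw [hD, sub_mul, Matrix.trace_sub, ← h2]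
        simp only at h1
        linear_combination h1
      have hD0 : D = 0 := eq_zero_of_trace D hDt hDX
      have h3 : (g j i)⁻¹ * S (T.nbr j i) * g j i = S j := by
        rw [hD] at hD0; exact sub_eq_zero.mp hD0
      rw [← h3]
      calc S (T.nbr j i) = (g j i * (g j i)⁻¹) * S (T.nbr j i) * (g j i * (g j i)⁻¹) := by
            rw [c2, one_mul, mul_one]
        _ = _ := by noncomm_ring
    have hS0 := par_zero T z g P hg hP γ hγ S hSt hS
    apply hf
    refine LinearMap.ext (fun v => ?_)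
    rw [hfv]
    simp only [LinearMap.zero_apply]
    refine Finset.sum_eq_zero (fun x _ => ?_)
    have hx : φ x = 0 := by
      obtain ⟨j, k⟩ := x
      have h0 := hS0 j
      have e1 : φ (j, 2) / 2 = 0 := by
        have := congrFun (congrFun h0 0) 0
        rwa [hS00] at this
      have e2 : φ (j, 1) = 0 := by
        have := congrFun (congrFun h0 0) 1
        rwa [hS01] at this
      have e3 : φ (j, 0) = 0 := by
        have := congrFun (congrFun h0 1) 0
        rwa [hS10] at this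
      have e1' : φ (j, 2) = 0 := by
        have := congrArg (fun t : ℂ => t * 2) e1
        simpa using this
      have hk : ∀ k : Fin 3, k = 0 ∨ k = 1 ∨ k = 2 := by decide
      rcases hk k with rfl | rfl | rfl
      · exact e3
      · exact e2
      · exact e1'
    rw [hx, zero_mul]
  have hpre : ∀ r : Fin N × Fin 3, ∃ Y : chain1 T g, bdL T g Y = Pi.single r 1 := by
    intro r
    have : (Pi.single r (1 : ℂ) : Fin N × Fin 3 → ℂ) ∈ LinearMap.range (bdL T g) := by
      rw [hsurj]; trivial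
    exact this
  choose Y hY using hpre
  refine ⟨fun r => (Y r).1, fun r => (Y r).2, ?_⟩
  have : (fun r c : Fin N × Fin 3 => co (bd1 ((Y r).1) c.1) c.2) =
      (1 : Matrix (Fin N × Fin 3) (Fin N × Fin 3) ℂ) := by
    ext r c
    have := congrFun (hY r) c
    change co (bd1 ((Y r).1) c.1) c.2 = _ at this
    rw [this]
    simp [Pi.single_apply, Matrix.one_apply, eq_comm]
  rw [this, Matrix.det_one]
  exact one_ne_zero

end Pool.Agent.OL36
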