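import Pool.Agent.LibOL36.S0

/-! # Row H1: the curve is a cycle

Plan. Write `ex k d := if x_k.1 = d.1 ∧ x_k.2 2 = d.2.1 2 ∧ x_k.2 0 = d.2.1 0 then 1 else 0` and `en k d` (with `x_k.2 3`), so
`hc γ d = ∑_{k < m} (ex k d - en k d)`. `hc_al`: for `k < m`, `Step (x k) (x (k+1))` gives `ex k d = en (k+1) (al d)` for all `d`:
`x_k` leaves through the side `d` iff `x_(k+1)` enters through `al d` (first components, third vertex: `σ (π 2)`,
corner `σ (π 0)`; the direction from `al d` back to `d` with `al_al`, `nbr_nbr`, `glue_glue`). Since `x m = x 0`: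
`∑_{k<m} en (k+1) = ∑_{k<m} en k` (`Finset.sum_range_succ'` and `Finset.sum_range_succ`). So `∑ ex k d = ∑ en k (al d)` for all `d`,
and the same with `al d` in place of `d`. `hc_ph`: for each `k`, among `d, ph d, ph (ph d)` (all sides of the link triangle
`(d.1, d.2.1 0)`, third vertices = the three vertices `≠ d.2.1 0`) exactly one (or none) is the exit side and exactly one
is the entry side: if `x_k.1 = d.1` and `x_k.2 0 = d.2.1 0` then `x_k.2 2` is one of `d.2.1 1, 2, 3` and so is `x_k.2 3`. -/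

set_option autoImplicit false

open Matrix

namespace Pool.Agent.OL36

variable {N : ℕ}

private theorem h1inv (σ : Equiv.Perm (Fin 4)) (x : Fin 4) : σ⁻¹ (σ x) = x :=
  σ.symm_apply_apply x

/-- The exit indicator. -/
private noncomputable def h1ex {T : Tri N} (γ : Curve T) (d : Dt N) (k : ℕ) : ℂ :=
  if (γ.x k).1 = d.1 ∧ (γ.x k).2 2 = d.2.1 2 ∧ (γ.x k).2 0 = d.2.1 0 then (1 : ℂ) else 0

/-- The entry indicator. -/
private noncomputable def h1en {T : Tri N} (γ : Curve T) (d : Dt N) (k : ℕ) : ℂ :=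
  if (γ.x k).1 = d.1 ∧ (γ.x k).2 3 = d.2.1 2 ∧ (γ.x k).2 0 = d.2.1 0 then (1 : ℂ) else 0

private theorem h1hc {T : Tri N} (γ : Curve T) (d : Dt N) :
    hc γ d = ∑ k ∈ Finset.range γ.m, h1ex γ d k - ∑ k ∈ Finset.range γ.m, h1en γ d k := by
  rw [← Finset.sum_sub_distrib]
  rfl

private theorem h1step {T : Tri N} (γ : Curve T) (d : Dt N) (k : ℕ) (hk : k < γ.m) :
    h1ex γ d k = h1en γ (T.al d) (k + 1) := by
  obtain ⟨s1, s2, s3⟩ := γ.step k hk
  have hiff : ((γ.x k).1 = d.1 ∧ (γ.x k).2 2 = d.2.1 2 ∧ (γ.x k).2 0 = d.2.1 0) ↔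
      ((γ.x (k + 1)).1 = (T.al d).1 ∧ (γ.x (k + 1)).2 3 = (T.al d).2.1 2 ∧
        (γ.x (k + 1)).2 0 = (T.al d).2.1 0) := by
    obtain ⟨a1, a2, a3, a4, a5⟩ := al_val T d
    constructor
    · rintro ⟨e1, e2, e3⟩
      refine ⟨?_, ?_, ?_⟩
      · rw [s1, a1, e1, e2]
      · rw [s3, a4, e1, e2]
      · rw [s2, a2, e1, e2, e3]
    · rintro ⟨e1, e2, e3⟩
      obtain ⟨b1, b2, b3, b4, b5⟩ := al_val T (T.al d)
      rw [al_al] at b1 b2 b3 b4 b5
      rw [← e1, ← e2, s1, s3] at b1 b2 b4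
      rw [T.nbr_nbr] at b1
      rw [T.glue_glue] at b2 b4
      rw [← e3, s2] at b2
      rw [h1inv] at b2 b4
      exact ⟨b1.symm, b4.symm, b2.symm⟩
  unfold h1ex h1en
  exact if_congr hiff rfl rfl

private theorem h1sum {T : Tri N} (γ : Curve T) (d : Dt N) :
    ∑ k ∈ Finset.range γ.m, h1ex γ d k = ∑ k ∈ Finset.range γ.m, h1en γ (T.al d) k := by
  have e1 : ∑ k ∈ Finset.range γ.m, h1ex γ d k =
      ∑ k ∈ Finset.range γ.m, h1en γ (T.al d) (k + 1) :=
    Finset.sum_congr rfl (fun k hk => h1step γ d k (Finset.mem_range.mp hk))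
  have e2 := Finset.sum_range_succ' (h1en γ (T.al d)) γ.m
  have e3 := Finset.sum_range_succ (h1en γ (T.al d)) γ.m
  have e4 : h1en γ (T.al d) γ.m = h1en γ (T.al d) 0 := by
    unfold h1en
    rw [γ.closed]
  rw [e1]
  rw [e3, e4] at e2
  exact (add_right_cancel e2).symm

/-- H2. -/
theorem hc_al (T : Tri N) (γ : Curve T) (d : Dt N) : hc γ (T.al d) = -hc γ d := by
  rw [h1hc, h1hc, h1sum γ d, h1sum γ (T.al d), al_al]
  ring

private theorem h1val (π : Equiv.Perm (Fin 4)) (b : Fin 4) (hb : b ≠ π 0) :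
    (if b = π 2 then (1 : ℂ) else 0) + (if b = π 3 then (1 : ℂ) else 0) +
      (if b = π 1 then (1 : ℂ) else 0) = 1 := by
  obtain ⟨c, rfl⟩ := π.surjective b
  have hc : c ≠ 0 := fun h => hb (by rw [h])
  simp only [π.injective.eq_iff]
  revert hc
  clear hb
  fin_cases c
  · intro h; exact absurd rfl h
  · intro _; simp
  · intro _; simp
  · intro _; simp

private theorem h1tri (p q : Prop) [Decidable p] [Decidable q] (π : Equiv.Perm (Fin 4)) (b : Fin 4)
    (hb : p → q → b ≠ π 0) :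
    (if p ∧ b = π 2 ∧ q then (1 : ℂ) else 0) + (if p ∧ b = π 3 ∧ q then (1 : ℂ) else 0) +
      (if p ∧ b = π 1 ∧ q then (1 : ℂ) else 0) = if p ∧ q then 1 else 0 := by
  by_cases hp : p
  · by_cases hq : q
    · have := h1val π b (hb hp hq)
      simpa [hp, hq] using this
    · simp [hq]
  · simp [hp]

/-- H3. -/
theorem hc_ph (T : Tri N) (γ : Curve T) (d : Dt N) :
    hc γ d + hc γ (ph d) + hc γ (ph (ph d)) = 0 := by
  obtain ⟨a1, a2, a3, a4, a5⟩ := ph_val d
  obtain ⟨b1, b2, b3, b4, b5⟩ := ph_val (ph d)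
  rw [a1] at b1
  rw [a2] at b2
  rw [a5] at b4
  rw [h1hc, h1hc, h1hc]
  have key : ∀ k, h1ex γ d k + h1ex γ (ph d) k + h1ex γ (ph (ph d)) k =
      h1en γ d k + h1en γ (ph d) k + h1en γ (ph (ph d)) k := by
    intro k
    unfold h1ex h1en
    rw [a1, a2, a4, b1, b2, b4]
    rw [h1tri ((γ.x k).1 = d.1) ((γ.x k).2 0 = d.2.1 0) d.2.1 ((γ.x k).2 2)
      (fun _ h => by rw [← h]; exact fun h' => absurd ((γ.x k).2.injective h') (by decide))]
    rw [h1tri ((γ.x k).1 = d.1) ((γ.x k).2 0 = d.2.1 0) d.2.1 ((γ.x k).2 3)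
      (fun _ h => by rw [← h]; exact fun h' => absurd ((γ.x k).2.injective h') (by decide))]
  have hs : ∑ k ∈ Finset.range γ.m, h1ex γ d k + ∑ k ∈ Finset.range γ.m, h1ex γ (ph d) k +
      ∑ k ∈ Finset.range γ.m, h1ex γ (ph (ph d)) k =
      ∑ k ∈ Finset.range γ.m, h1en γ d k + ∑ k ∈ Finset.range γ.m, h1en γ (ph d) k +
      ∑ k ∈ Finset.range γ.m, h1en γ (ph (ph d)) k := by
    rw [← Finset.sum_add_distrib, ← Finset.sum_add_distrib, ← Finset.sum_add_distrib,
      ← Finset.sum_add_distrib]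
    exact Finset.sum_congr rfl (fun k _ => key k)
  linear_combination hs


end Pool.Agent.OL36
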