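import Pool.Agent.LibOL36.S0
import Pool.Agent.LibOL36.E2

/-! # Row V1: VV is a cocycle

Plan. `VV_al`: with `d = (j, (a, p, i, q))`, `al d = (j', (σ a, σ q, σ i, σ p))`:
`Lk (u' σa) (u' σq) (u' σp) = Lk (u a) (u q) (u p) = -Lk (u a) (u p) (u q)` (`hu.mat`, `om_comm`), and the three edges
`pq, qa, ap` are invariant under the gluing and symmetric (`OE_edge` or directly `T.edge_eq`; `edge_comm`); note that the roles of `qa` and
`ap` are exchanged. `VV_sum`: `∑ e, (if x = e then 1 else 0) = 1` three times: `1 - 1 - 1 = -1`.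
`Lk_ph`: with `ph_val`: `Lk a p q + Lk a i p + Lk a q i = 0` where `(a, p, i, q)` are the vertices: `ph d = (a, i, q, p)`, `ph (ph d) =
(a, q, p, i)`; so the sum is `Lk a p q + Lk a i p + Lk a q i`: `field_simp`, Plücker (`plucker`), all `om` are non-zero (`hu.ne`). -/

set_option autoImplicit false

open Matrix

namespace Pool.Agent.OL36

variable {N : ℕ}

/-- V1. -/
theorem VV_al (T : Tri N) (z : Fin N → ℂ) (u : Fin N → Fin 4 → Fin 2 → ℂ) (hu : IsDec T z u)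
    (e : Fin N) (d : Dt N) : VV T u e (T.al d) = -VV T u e d := by
  obtain ⟨h1, h20, h21, h22, h23⟩ := al_val T d
  have n01 : d.2.1 0 ≠ d.2.1 1 := dt_ne d 0 1 (by decide)
  have n02 : d.2.1 0 ≠ d.2.1 2 := dt_ne d 0 2 (by decide)
  have n03 : d.2.1 0 ≠ d.2.1 3 := dt_ne d 0 3 (by decide)
  have n12 : d.2.1 1 ≠ d.2.1 2 := dt_ne d 1 2 (by decide)
  have n13 : d.2.1 1 ≠ d.2.1 3 := dt_ne d 1 3 (by decide)
  have n32 : d.2.1 3 ≠ d.2.1 2 := dt_ne d 3 2 (by decide)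
  have he : ∀ a b : Fin 4, a ≠ b → a ≠ d.2.1 2 → b ≠ d.2.1 2 →
      T.edge (T.nbr d.1 (d.2.1 2)) (T.glue d.1 (d.2.1 2) a) (T.glue d.1 (d.2.1 2) b) =
        T.edge d.1 a b := by
    intro a b hab ha hb
    exact (OE_edge T d.1 a b _ _ _ hab
      (Relation.EqvGen.rel _ _ ⟨d.2.1 2, ha.symm, hb.symm, rfl⟩)).symm
  unfold VV
  rw [h1, h20, h21, h23, he _ _ n13.symm n32 n12, he _ _ n01.symm n12 n02, he _ _ n03 n02 n32,
    hu.mat d.1 (d.2.1 2) (d.2.1 0) (d.2.1 3) (d.2.1 1) n02 n32 n12 n03 n01 n13.symm,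
    edge_comm T d.1 (d.2.1 1) (d.2.1 3) n13, edge_comm T d.1 (d.2.1 0) (d.2.1 1) n01,
    edge_comm T d.1 (d.2.1 3) (d.2.1 0) n03.symm]
  have hL : Lk (u d.1 (d.2.1 0)) (u d.1 (d.2.1 3)) (u d.1 (d.2.1 1)) =
      -Lk (u d.1 (d.2.1 0)) (u d.1 (d.2.1 1)) (u d.1 (d.2.1 3)) := by
    unfold Lk
    rw [om_comm (u d.1 (d.2.1 1)) (u d.1 (d.2.1 3)), mul_comm (om (u d.1 (d.2.1 0)) (u d.1 (d.2.1 3))),
      neg_div]
  rw [hL]
  ring

/-- V2. -/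
theorem VV_sum (T : Tri N) (u : Fin N → Fin 4 → Fin 2 → ℂ) (d : Dt N) :
    ∑ e, VV T u e d = -(Lk (u d.1 (d.2.1 0)) (u d.1 (d.2.1 1)) (u d.1 (d.2.1 3)) / 2) := by
  have h1 : ∀ x : Fin N, ∑ e : Fin N, (if x = e then (1 : ℂ) else 0) = 1 := by
    intro x
    simp
  unfold VV
  rw [← Finset.mul_sum, Finset.sum_sub_distrib, Finset.sum_sub_distrib, h1, h1, h1]
  ring

/-- V3: `Lk` around a link triangle. -/
theorem Lk_ph (T : Tri N) (z : Fin N → ℂ) (u : Fin N → Fin 4 → Fin 2 → ℂ) (hu : IsDec T z u)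
    (d : Dt N) :
    Lk (u d.1 (d.2.1 0)) (u d.1 (d.2.1 1)) (u d.1 (d.2.1 3)) +
    Lk (u (ph d).1 ((ph d).2.1 0)) (u (ph d).1 ((ph d).2.1 1)) (u (ph d).1 ((ph d).2.1 3)) +
    Lk (u (ph (ph d)).1 ((ph (ph d)).2.1 0)) (u (ph (ph d)).1 ((ph (ph d)).2.1 1))
      (u (ph (ph d)).1 ((ph (ph d)).2.1 3)) = 0 := by
  obtain ⟨p1, p0, p11, p2, p3⟩ := ph_val d
  obtain ⟨q1, q0, q11, q2, q3⟩ := ph_val (ph d)
  rw [q1, q0, q11, q3, p1, p0, p11, p2, p3]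
  have a01 := hu.ne d.1 _ _ (dt_ne d 0 1 (by decide))
  have a02 := hu.ne d.1 _ _ (dt_ne d 0 2 (by decide))
  have a03 := hu.ne d.1 _ _ (dt_ne d 0 3 (by decide))
  unfold Lk
  generalize u d.1 (d.2.1 0) = a at *
  generalize u d.1 (d.2.1 1) = b at *
  generalize u d.1 (d.2.1 2) = c at *
  generalize u d.1 (d.2.1 3) = e at *
  field_simp
  unfold om
  ring


end Pool.Agent.OL36
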