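import Pool.Agent.LibOL36.S0
import Pool.Agent.LibOL36.V1

/-! # Row J1: the intersection number of the curve and the sum of the V_e

Plan. `ν d := ∑ e, VV T u e d = -Lk (u a) (u p) (u q) / 2` for `d = (j, (a, p, i, q))` (`VV_sum`). `hc γ d = ∑_{k<m} (ex k d - en k d)`.
For each `k`, `x_k = (j, (a, b, c, d))`: there is exactly one dart `dx` with `dx.1 = j`, `dx.2.1 2 = c`, `dx.2.1 0 = a` and exactly
one `dn` with `d` in place of `c` (`exists_dt02`, `dt_ext02`); so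
`∑_d (ex k d - en k d) * φ d = φ dx - φ dn`, `φ d = ν (ph d) - ν (ph (ph d))`. If the flag is even: `dx = (a,b,c,d)`, `dn = (a,c,d,b) = ph dx`,
`third = (a,d,b,c) = ph dn`: `φ dx - φ dn = (ν dn - ν third) - (ν third - ν dx) = -3 ν third` by `ν dx + ν dn + ν third = 0` (`Lk_ph`),
`ν third = -Lk a d c / 2 = Lk a c d / 2`. If it is odd: `dn = (a,b,d,c)`, `dx = (a,d,c,b) = ph dn`, `third = (a,c,b,d) = ph dx`:
`φ dx - φ dn = (ν third - ν dn) - (ν dx - ν third) = 3 ν third`, `ν third = -Lk a c d / 2`. Both give `-3/2 Lk a c d`, and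
`trl = ∑ Lk a c d / 2`. -/

set_option autoImplicit false

open Matrix

namespace Pool.Agent.OL36

variable {N : ℕ}

private theorem j1_sel (j : Fin N) (i a : Fin 4) (D : Dt N) (h1 : D.1 = j) (h2 : D.2.1 2 = i)
    (h0 : D.2.1 0 = a) (φ : Dt N → ℂ) :
    ∑ d : Dt N, (if j = d.1 ∧ i = d.2.1 2 ∧ a = d.2.1 0 then (1 : ℂ) else 0) * φ d = φ D := by
  rw [Finset.sum_eq_single D]
  · rw [if_pos ⟨h1.symm, h2.symm, h0.symm⟩, one_mul]
  · intro d _ hd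
    rw [if_neg, zero_mul]
    rintro ⟨g1, g2, g0⟩
    exact hd (dt_ext02 d D (g1.symm.trans h1.symm) (g0.symm.trans h0.symm) (g2.symm.trans h2.symm))
  · intro h
    exact absurd (Finset.mem_univ D) h

private theorem j1_phi (T : Tri N) (z : Fin N → ℂ) (u : Fin N → Fin 4 → Fin 2 → ℂ)
    (hu : IsDec T z u) (D : Dt N) :
    ((∑ e, VV T u e (ph D)) - ∑ e, VV T u e (ph (ph D))) -
      ((∑ e, VV T u e (ph (ph D))) - ∑ e, VV T u e (ph (ph (ph D)))) =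
      3 * (Lk (u D.1 (D.2.1 0)) (u D.1 (D.2.1 3)) (u D.1 (D.2.1 2)) / 2) := by
  have hL := Lk_ph T z u hu D
  obtain ⟨a1, a2, a3, a4, a5⟩ := ph_val D
  obtain ⟨b1, b2, b3, b4, b5⟩ := ph_val (ph D)
  rw [ph_ph_ph D, VV_sum, VV_sum, VV_sum]
  simp only [b1, b2, b3, b5, a1, a2, a3, a4, a5] at hL ⊢
  linear_combination (-1 / 2 : ℂ) * hL

private theorem j1_lk (a b c : Fin 2 → ℂ) : Lk a c b = -Lk a b c := by
  unfold Lk
  rw [om_comm b c, mul_comm (om a c) (om a b), neg_div]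

private theorem j1_flag (T : Tri N) (z : Fin N → ℂ) (u : Fin N → Fin 4 → Fin 2 → ℂ)
    (hu : IsDec T z u) (x : Flag N) :
    ∑ d : Dt N, ((if x.1 = d.1 ∧ x.2 2 = d.2.1 2 ∧ x.2 0 = d.2.1 0 then (1 : ℂ) else 0) -
      (if x.1 = d.1 ∧ x.2 3 = d.2.1 2 ∧ x.2 0 = d.2.1 0 then (1 : ℂ) else 0)) *
        ((∑ e, VV T u e (ph d)) - ∑ e, VV T u e (ph (ph d))) =
      -3 * (Lk (u x.1 (x.2 0)) (u x.1 (x.2 2)) (u x.1 (x.2 3)) / 2) := by
  have hs : ∀ (φ : Dt N → ℂ), ∑ d : Dt N,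
      ((if x.1 = d.1 ∧ x.2 2 = d.2.1 2 ∧ x.2 0 = d.2.1 0 then (1 : ℂ) else 0) -
      (if x.1 = d.1 ∧ x.2 3 = d.2.1 2 ∧ x.2 0 = d.2.1 0 then (1 : ℂ) else 0)) * φ d =
      (∑ d : Dt N, (if x.1 = d.1 ∧ x.2 2 = d.2.1 2 ∧ x.2 0 = d.2.1 0 then (1 : ℂ) else 0) * φ d) -
      ∑ d : Dt N, (if x.1 = d.1 ∧ x.2 3 = d.2.1 2 ∧ x.2 0 = d.2.1 0 then (1 : ℂ) else 0) * φ d := by
    intro φ
    rw [← Finset.sum_sub_distrib]
    exact Finset.sum_congr rfl fun d _ => by rw [sub_mul]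
  have hs' := hs (fun d => (∑ e, VV T u e (ph d)) - ∑ e, VV T u e (ph (ph d)))
  refine hs'.trans ?_
  rcases Int.units_eq_one_or (Equiv.Perm.sign x.2) with h | h
  · obtain ⟨a1, a2, a3, a4, a5⟩ := ph_val ((x.1, ⟨x.2, h⟩) : Dt N)
    rw [j1_sel x.1 (x.2 2) (x.2 0) ((x.1, ⟨x.2, h⟩) : Dt N) rfl rfl rfl,
      j1_sel x.1 (x.2 3) (x.2 0) (ph ((x.1, ⟨x.2, h⟩) : Dt N)) a1 a4 a2]
    refine (j1_phi T z u hu _).trans ?_
    rw [j1_lk (u x.1 (x.2 0)) (u x.1 (x.2 2)) (u x.1 (x.2 3))]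
    ring
  · have hsg : Equiv.Perm.sign (x.2 * (Equiv.swap 2 3 : Equiv.Perm (Fin 4))) = 1 := by
      rw [Equiv.Perm.sign_mul, h, Equiv.Perm.sign_swap (by decide)]
      decide
    obtain ⟨a1, a2, a3, a4, a5⟩ := ph_val ((x.1, ⟨x.2 * Equiv.swap 2 3, hsg⟩) : Dt N)
    have e0 : (x.2 * (Equiv.swap 2 3 : Equiv.Perm (Fin 4))) 0 = x.2 0 := by
      rw [Equiv.Perm.mul_apply, Equiv.swap_apply_of_ne_of_ne (by decide) (by decide)]
    have e2 : (x.2 * (Equiv.swap 2 3 : Equiv.Perm (Fin 4))) 2 = x.2 3 := by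
      rw [Equiv.Perm.mul_apply, Equiv.swap_apply_left]
    have e3 : (x.2 * (Equiv.swap 2 3 : Equiv.Perm (Fin 4))) 3 = x.2 2 := by
      rw [Equiv.Perm.mul_apply, Equiv.swap_apply_right]
    have hp := j1_phi T z u hu ((x.1, ⟨x.2 * Equiv.swap 2 3, hsg⟩) : Dt N)
    rw [j1_sel x.1 (x.2 2) (x.2 0) (ph ((x.1, ⟨x.2 * Equiv.swap 2 3, hsg⟩) : Dt N)) a1
        (a4.trans e3) (a2.trans e0),
      j1_sel x.1 (x.2 3) (x.2 0) ((x.1, ⟨x.2 * Equiv.swap 2 3, hsg⟩) : Dt N) rfl e2 e0]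
    have hp2 : Lk (u x.1 ((x.2 * (Equiv.swap 2 3 : Equiv.Perm (Fin 4))) 0)) (u x.1 ((x.2 * (Equiv.swap 2 3 : Equiv.Perm (Fin 4))) 3))
        (u x.1 ((x.2 * (Equiv.swap 2 3 : Equiv.Perm (Fin 4))) 2)) =
        Lk (u x.1 (x.2 0)) (u x.1 (x.2 2)) (u x.1 (x.2 3)) := by
      rw [e0, e2, e3]
    have hp3 := hp.trans (congrArg (fun t => 3 * (t / 2)) hp2)
    linear_combination (-1 : ℂ) * hp3

/-- J1: the intersection number of `γ` and `∑ V_e`. -/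
theorem J_eq (T : Tri N) (z : Fin N → ℂ) (u : Fin N → Fin 4 → Fin 2 → ℂ) (hu : IsDec T z u)
    (γ : Curve T) :
    ∑ d : Dt N, hc γ d * ((∑ e, VV T u e (ph d)) - ∑ e, VV T u e (ph (ph d))) =
      -3 * trl u γ := by
  have h1 : ∀ d : Dt N, hc γ d * ((∑ e, VV T u e (ph d)) - ∑ e, VV T u e (ph (ph d))) =
      ∑ k ∈ Finset.range γ.m,
        ((if (γ.x k).1 = d.1 ∧ (γ.x k).2 2 = d.2.1 2 ∧ (γ.x k).2 0 = d.2.1 0 then (1 : ℂ) else 0) -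
        (if (γ.x k).1 = d.1 ∧ (γ.x k).2 3 = d.2.1 2 ∧ (γ.x k).2 0 = d.2.1 0 then (1 : ℂ)
          else 0)) * ((∑ e, VV T u e (ph d)) - ∑ e, VV T u e (ph (ph d))) := by
    intro d
    rw [hc, Finset.sum_mul]
  rw [Finset.sum_congr rfl fun d _ => h1 d, Finset.sum_comm, trl, Finset.mul_sum]
  exact Finset.sum_congr rfl fun k _ => j1_flag T z u hu (γ.x k)


end Pool.Agent.OL36
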