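import Pool.Agent.LibOL36.TDefs
import Pool.Agent.LibOL36.Defs2

/-! Definitions for part 2 (existence of the torsion). -/

set_option autoImplicit false

open Matrix

namespace Pool.Agent.OL36

variable {N : ℕ}

/-- The factor by which the gluing map changes the nilpotents of the standard frames. -/
noncomputable def wt (T : Tri N) (z : Fin N → ℂ) (d : Dt N) : ℂ :=
  Lk (pt (z (T.al d).1) ((T.al d).2.1 0)) (pt (z (T.al d).1) ((T.al d).2.1 3))
    (pt (z (T.al d).1) ((T.al d).2.1 1)) /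
  Lk (pt (z d.1) (d.2.1 0)) (pt (z d.1) (d.2.1 1)) (pt (z d.1) (d.2.1 3))

/-- The darts through which a curve leaves the link triangles. -/
def IsExit {T : Tri N} (γ : Curve T) (D : ℕ → Dt N) : Prop :=
  ∀ k < γ.m, (D k).1 = (γ.x k).1 ∧ (D k).2.1 0 = (γ.x k).2 0 ∧ (D k).2.1 2 = (γ.x k).2 2

/-- The side vector of a dart. -/
noncomputable def ell (u : Fin N → Fin 4 → Fin 2 → ℂ) (d : Dt N) : ℂ :=
  Lk (u d.1 (d.2.1 0)) (u d.1 (d.2.1 1)) (u d.1 (d.2.1 3))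

/-- Infinitesimal logarithmic shapes: `θ t j` for the edges of type `t` of `j`. -/
def Sum0 (θ : Fin 3 → Fin N → ℂ) : Prop := ∀ j, θ 0 j + θ 1 j + θ 2 j = 0

/-- The infinitesimal edge equations. -/
def EE0 (T : Tri N) (θ : Fin 3 → Fin N → ℂ) : Prop :=
  ∀ e, ∑ j, ∑ t, (T.G t e j : ℂ) * θ t j = 0

/-- The corner cochain: `cc θ (ph d) - cc θ d` is `θ` at the corner between `d` and `ph d`. -/
noncomputable def cc (θ : Fin 3 → Fin N → ℂ) (d : Dt N) : ℂ :=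
  (θ (typ (d.2.1 0) (d.2.1 3)) d.1 - θ (typ (d.2.1 0) (d.2.1 1)) d.1) / 3

/-- The symplectic form. -/
noncomputable def BB (θ η : Fin 3 → Fin N → ℂ) : ℂ := ∑ j, (θ 0 j * η 1 j - θ 1 j * η 0 j)

/-- `θ` is a combination of the edge vectors with coefficients `s / 2`. -/
def IsComb (T : Tri N) (θ : Fin 3 → Fin N → ℂ) (s : Fin N → ℂ) : Prop :=
  ∀ d : Dt N, 2 * θ (typ (d.2.1 0) (d.2.1 1)) d.1 =
    s (T.edge d.1 (d.2.1 0) (d.2.1 2)) + s (T.edge d.1 (d.2.1 1) (d.2.1 3)) -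
    s (T.edge d.1 (d.2.1 1) (d.2.1 2)) - s (T.edge d.1 (d.2.1 0) (d.2.1 3))

end Pool.Agent.OL36
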