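import Pool.Agent.LibOL36.S0
import Pool.Agent.LibOL36.TDefs2

/-! # Row KA: corner cochains and curves

Plan. `typ` is symmetric and for a permutation `π` the types `typ (π 0) (π 1)`, `typ (π 0) (π 2)`, `typ (π 0) (π 3)` are distinct (`decide`). `cc_ph`: `ph d = (a, i, q, p)`, so `3 (cc (ph d) - cc d) = (θ(a,p) - θ(a,i)) - (θ(a,q) - θ(a,p)) =
2 θ(a,p) - θ(a,i) - θ(a,q) = 3 θ(a,p)` by `Sum0`. `cc_curve`: `∑ d, hc γ d * cc θ d = ∑_k (cc (exit dart of x_k) - cc (entry dart of x_k))` (unique dart with given `j`, value at `0` and at `2`: `dt_ext02`, `exists_dt02`); flag `x_k = (a,b,c,d)`: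
if even, the exit dart is `D = (a,b,c,d)` and the entry dart is `(a,c,d,b) = ph D`: difference `-θ(a,b)`; if odd, the entry dart is `D' = (a,b,d,c)` and the exit dart is `ph D' = (a,d,c,b)`: difference `+θ(a,b)`. So it is
`-sign * θ (typ a b) j`, sum over `k` = `-∑ j, ∑ t, row t j * θ t j` (expand `row`, `Finset.sum_comm`). -/

set_option autoImplicit false

open Matrix

namespace Pool.Agent.OL36

variable {N : ℕ}

private theorem ka_typ : ∀ π : Equiv.Perm (Fin 4),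
    (typ (π 0) (π 1) = 0 ∧ typ (π 0) (π 2) = 1 ∧ typ (π 0) (π 3) = 2) ∨
    (typ (π 0) (π 1) = 0 ∧ typ (π 0) (π 2) = 2 ∧ typ (π 0) (π 3) = 1) ∨
    (typ (π 0) (π 1) = 1 ∧ typ (π 0) (π 2) = 0 ∧ typ (π 0) (π 3) = 2) ∨
    (typ (π 0) (π 1) = 1 ∧ typ (π 0) (π 2) = 2 ∧ typ (π 0) (π 3) = 0) ∨
    (typ (π 0) (π 1) = 2 ∧ typ (π 0) (π 2) = 0 ∧ typ (π 0) (π 3) = 1) ∨
    (typ (π 0) (π 1) = 2 ∧ typ (π 0) (π 2) = 1 ∧ typ (π 0) (π 3) = 0) := by
  decide

private theorem ka_sum (θ : Fin 3 → Fin N → ℂ) (hθ : Sum0 θ) (π : Equiv.Perm (Fin 4))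
    (j : Fin N) :
    θ (typ (π 0) (π 1)) j + θ (typ (π 0) (π 2)) j + θ (typ (π 0) (π 3)) j = 0 := by
  have h0 := hθ j
  rcases ka_typ π with
    ⟨h1, h2, h3⟩ | ⟨h1, h2, h3⟩ | ⟨h1, h2, h3⟩ | ⟨h1, h2, h3⟩ | ⟨h1, h2, h3⟩ | ⟨h1, h2, h3⟩ <;>
    rw [h1, h2, h3] <;> linear_combination h0

theorem cc_ph (θ : Fin 3 → Fin N → ℂ) (hθ : Sum0 θ) (d : Dt N) :
    cc θ (ph d) - cc θ d = θ (typ (d.2.1 0) (d.2.1 1)) d.1 := by
  obtain ⟨h0, h1, h2, h3, h4⟩ := ph_val d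
  have hs := ka_sum θ hθ d.2.1 d.1
  unfold cc
  rw [h1, h2, h4, h0]
  linear_combination (-1 / 3 : ℂ) * hs

private theorem ka_one (c : Dt N → ℂ) (D : Dt N) (j : Fin N) (a i : Fin 4) (h1 : D.1 = j)
    (h2 : D.2.1 0 = a) (h3 : D.2.1 2 = i) :
    ∑ d : Dt N, (if j = d.1 ∧ i = d.2.1 2 ∧ a = d.2.1 0 then (1 : ℂ) else 0) * c d = c D := by
  rw [Finset.sum_eq_single D]
  · rw [if_pos ⟨h1.symm, h3.symm, h2.symm⟩, one_mul]
  · intro d _ hd
    rw [if_neg, zero_mul]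
    rintro ⟨e1, e2, e3⟩
    exact hd (dt_ext02 d D (by rw [h1, e1]) (by rw [h2, e3]) (by rw [h3, e2]))
  · intro h
    exact absurd (Finset.mem_univ D) h

private theorem ka_key (θ : Fin 3 → Fin N → ℂ) (hθ : Sum0 θ) (s : Flag N) :
    ∑ d : Dt N, (((if s.1 = d.1 ∧ s.2 2 = d.2.1 2 ∧ s.2 0 = d.2.1 0 then (1 : ℂ) else 0) -
      (if s.1 = d.1 ∧ s.2 3 = d.2.1 2 ∧ s.2 0 = d.2.1 0 then (1 : ℂ) else 0)) * cc θ d) =
      -((((Equiv.Perm.sign s.2 : ℤˣ) : ℤ) : ℂ) * θ (typ (s.2 0) (s.2 1)) s.1) := by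
  simp only [sub_mul]
  rw [Finset.sum_sub_distrib]
  rcases Int.units_eq_one_or (Equiv.Perm.sign s.2) with h | h
  · let D : Dt N := (s.1, ⟨s.2, h⟩)
    obtain ⟨p0, p1, p2, p3, p4⟩ := ph_val D
    rw [ka_one (cc θ) D s.1 (s.2 0) (s.2 2) rfl rfl rfl,
      ka_one (cc θ) (ph D) s.1 (s.2 0) (s.2 3) p0 p1 p3, h]
    have h5 := cc_ph θ hθ D
    change cc θ (ph D) - cc θ D = θ (typ (s.2 0) (s.2 1)) s.1 at h5
    rw [← h5]
    push_cast
    ring
  · have hsg : Equiv.Perm.sign (s.2 * Equiv.swap 2 3) = 1 := by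
      rw [Equiv.Perm.sign_mul, h, Equiv.Perm.sign_swap (by decide)]
      decide
    let D : Dt N := (s.1, ⟨s.2 * Equiv.swap 2 3, hsg⟩)
    have q0 : D.2.1 0 = s.2 0 := by
      change s.2 (Equiv.swap 2 3 0) = s.2 0
      rw [show (Equiv.swap 2 3 0 : Fin 4) = 0 from by decide]
    have q1 : D.2.1 1 = s.2 1 := by
      change s.2 (Equiv.swap 2 3 1) = s.2 1
      rw [show (Equiv.swap 2 3 1 : Fin 4) = 1 from by decide]
    have q2 : D.2.1 2 = s.2 3 := by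
      change s.2 (Equiv.swap 2 3 2) = s.2 3
      rw [show (Equiv.swap 2 3 2 : Fin 4) = 3 from by decide]
    have q3 : D.2.1 3 = s.2 2 := by
      change s.2 (Equiv.swap 2 3 3) = s.2 2
      rw [show (Equiv.swap 2 3 3 : Fin 4) = 2 from by decide]
    obtain ⟨p0, p1, p2, p3, p4⟩ := ph_val D
    rw [ka_one (cc θ) (ph D) s.1 (s.2 0) (s.2 2) p0 (p1.trans q0) (p3.trans q3),
      ka_one (cc θ) D s.1 (s.2 0) (s.2 3) rfl q0 q2, h]
    have h5 := cc_ph θ hθ D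
    rw [q0, q1] at h5
    change cc θ (ph D) - cc θ D = θ (typ (s.2 0) (s.2 1)) s.1 at h5
    rw [h5]
    push_cast
    ring

theorem cc_curve (T : Tri N) (θ : Fin 3 → Fin N → ℂ) (hθ : Sum0 θ) (γ : Curve T) :
    ∑ d : Dt N, hc γ d * cc θ d = -∑ j, ∑ t, (γ.row t j : ℂ) * θ t j := by
  have h1 : ∑ d : Dt N, hc γ d * cc θ d = ∑ k ∈ Finset.range γ.m,
      -((((Equiv.Perm.sign (γ.x k).2 : ℤˣ) : ℤ) : ℂ) *
        θ (typ ((γ.x k).2 0) ((γ.x k).2 1)) (γ.x k).1) := by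
    unfold hc
    simp only [Finset.sum_mul]
    rw [Finset.sum_comm]
    apply Finset.sum_congr rfl
    intro k _
    exact ka_key θ hθ (γ.x k)
  have h2 : ∑ j, ∑ t, (γ.row t j : ℂ) * θ t j = ∑ k ∈ Finset.range γ.m,
      ((((Equiv.Perm.sign (γ.x k).2 : ℤˣ) : ℤ) : ℂ) *
        θ (typ ((γ.x k).2 0) ((γ.x k).2 1)) (γ.x k).1) := by
    unfold Curve.row
    push_cast
    simp only [Finset.sum_mul]
    have h3 : ∀ j : Fin N, ∑ t : Fin 3, ∑ k ∈ Finset.range γ.m,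
        (if (γ.x k).1 = j ∧ typ ((γ.x k).2 0) ((γ.x k).2 1) = t
          then (((Equiv.Perm.sign (γ.x k).2 : ℤˣ) : ℤ) : ℂ) else 0) * θ t j =
        ∑ k ∈ Finset.range γ.m, if (γ.x k).1 = j then
          (((Equiv.Perm.sign (γ.x k).2 : ℤˣ) : ℤ) : ℂ) *
            θ (typ ((γ.x k).2 0) ((γ.x k).2 1)) j else 0 := by
      intro j
      rw [Finset.sum_comm]
      apply Finset.sum_congr rfl
      intro k _
      by_cases hj : (γ.x k).1 = j
      · rw [if_pos hj, Finset.sum_eq_single (typ ((γ.x k).2 0) ((γ.x k).2 1))]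
        · rw [if_pos ⟨hj, rfl⟩]
        · intro t _ ht
          rw [if_neg (fun h => ht h.2.symm), zero_mul]
        · intro h
          exact absurd (Finset.mem_univ _) h
      · rw [if_neg hj]
        apply Finset.sum_eq_zero
        intro t _
        rw [if_neg (fun h => hj h.1), zero_mul]
    have h4 := Finset.sum_congr rfl (fun j (_ : j ∈ (Finset.univ : Finset (Fin N))) => h3 j)
    refine Eq.trans ?_ (h4.trans ?_)
    · apply Finset.sum_congr rfl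
      intro j _
      apply Finset.sum_congr rfl
      intro t _
      apply Finset.sum_congr rfl
      intro k _
      rfl
    · rw [Finset.sum_comm]
      apply Finset.sum_congr rfl
      intro k _
      rw [Finset.sum_ite_eq]
      rw [if_pos (Finset.mem_univ _)]
  rw [h1, h2, Finset.sum_neg_distrib]

end Pool.Agent.OL36
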