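import Pool.Agent.LibOL36.S0
import Pool.Agent.LibOL36.E2
import Pool.Agent.LibOL36.V4
import Pool.Agent.LibOL36.KA
import Pool.Agent.LibOL36.TDefs2

/-! # Row KB: corner cochains at the vertices of the link

Plan. The bijection `R d := ph (ph (al d))` of the darts preserves `vm d := vmE d.1 (d 0) (d 1)` (its entries: `(σ a, σ p, σ q.., )`: `ph (ph (al d)) = (σ a, σ p, ...)`: `al_val`, `ph_val`, then `vmE_iff` with one `OE` step through the face `i = d 2`; see
`s1_R_val` in `S1.lean`), and `al d = ph (R d)`. So `∑_{vm d = p} cc (al d) = ∑_{vm d = p} cc (ph d)`, and the sum is `∑_{vm d = p} (cc d - cc (ph d)) = -∑_{vm d = p} θ (typ (d 0) (d 1)) d.1` (`cc_ph`). The darts `d` are in bijection with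
`(j, a, b)`, `a ≠ b` (`exists_dt01`, `dt_ext01`); for each `j` and each pair `a < b` with `edge j a b = e` exactly one of the two orientations has class `p = (e, β)` (`vmE_swap`), both have the same type; if
`edge j a b ≠ e` none. So the sum is `∑ j, ∑_{a < b, edge j a b = e} θ (typ a b) j = ∑ j, ∑ t, G t e j * θ t j` (`G_sum` of V4 with `p t := θ t j`; the sum over the 12 even permutations as an explicit sum: `v4_sum_even` in `V4.lean`). -/

set_option autoImplicit false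

open Matrix

namespace Pool.Agent.OL36

variable {N : ℕ}

private theorem kb_R_val (T : Tri N) (d : Dt N) :
    (ph (ph (T.al d))).1 = T.nbr d.1 (d.2.1 2) ∧
    (ph (ph (T.al d))).2.1 0 = T.glue d.1 (d.2.1 2) (d.2.1 0) ∧
    (ph (ph (T.al d))).2.1 1 = T.glue d.1 (d.2.1 2) (d.2.1 1) := by
  obtain ⟨a0, a1, a2, a3, a4⟩ := al_val T d
  obtain ⟨p0, p1, p2, p3, p4⟩ := ph_val (T.al d)
  obtain ⟨q0, q1, q2, q3, q4⟩ := ph_val (ph (T.al d))
  refine ⟨?_, ?_, ?_⟩
  · rw [q0, p0, a0]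
  · rw [q1, p1, a1]
  · rw [q2, p3, a4]

private theorem kb_vm (T : Tri N) (E : Fin N → Fin N × Fin 4 × Fin 4) (hE : IsEdges T E)
    (d : Dt N) :
    vmE T E (ph (ph (T.al d))).1 ((ph (ph (T.al d))).2.1 0) ((ph (ph (T.al d))).2.1 1) =
      vmE T E d.1 (d.2.1 0) (d.2.1 1) := by
  symm
  rw [vmE_iff T E hE _ _ _ _ _ _ (dt_ne d 0 1 (by decide)) (dt_ne _ 0 1 (by decide))]
  obtain ⟨h0, h1, h2⟩ := kb_R_val T d
  rw [h0, h1, h2]
  exact Relation.EqvGen.rel _ _ ⟨d.2.1 2, dt_ne d 2 0 (by decide), dt_ne d 2 1 (by decide), rfl⟩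

/-- the bijection around the edges -/
private def kbR (T : Tri N) : Dt N ≃ Dt N where
  toFun d := ph (ph (T.al d))
  invFun d := T.al (ph d)
  left_inv d := by
    change T.al (ph (ph (ph (T.al d)))) = d
    rw [ph_ph_ph, al_al]
  right_inv d := by
    change ph (ph (T.al (T.al (ph d)))) = d
    rw [al_al, ph_ph_ph]

private theorem kb_sum_even (W : Fin 4 → Fin 4 → Fin 4 → Fin 4 → ℂ) :
    ∑ π : {π : Equiv.Perm (Fin 4) // Equiv.Perm.sign π = 1},
      W (π.1 0) (π.1 1) (π.1 2) (π.1 3) =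
    W 0 1 2 3 + W 0 2 3 1 + W 0 3 1 2 + W 1 0 3 2 + W 1 2 0 3 + W 1 3 2 0 +
    W 2 0 1 3 + W 2 1 3 0 + W 2 3 0 1 + W 3 0 2 1 + W 3 1 0 2 + W 3 2 1 0 := by
  have hS : (Finset.univ.image (fun π : {π : Equiv.Perm (Fin 4) // Equiv.Perm.sign π = 1} =>
      (π.1 0, π.1 1, π.1 2, π.1 3))) =
      ({(0, 1, 2, 3), (0, 2, 3, 1), (0, 3, 1, 2), (1, 0, 3, 2), (1, 2, 0, 3), (1, 3, 2, 0),
        (2, 0, 1, 3), (2, 1, 3, 0), (2, 3, 0, 1), (3, 0, 2, 1), (3, 1, 0, 2), (3, 2, 1, 0)} :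
        Finset (Fin 4 × Fin 4 × Fin 4 × Fin 4)) := by
    decide +kernel
  have hinj : Function.Injective (fun π : {π : Equiv.Perm (Fin 4) // Equiv.Perm.sign π = 1} =>
      (π.1 0, π.1 1, π.1 2, π.1 3)) := by
    intro π π' h
    simp only [Prod.mk.injEq] at h
    obtain ⟨h0, h1, h2, h3⟩ := h
    apply Subtype.ext
    apply Equiv.ext
    intro i
    fin_cases i
    · exact h0
    · exact h1
    · exact h2
    · exact h3
  have h1 : ∑ π : {π : Equiv.Perm (Fin 4) // Equiv.Perm.sign π = 1},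
      W (π.1 0) (π.1 1) (π.1 2) (π.1 3) =
      ∑ x ∈ Finset.univ.image (fun π : {π : Equiv.Perm (Fin 4) // Equiv.Perm.sign π = 1} =>
      (π.1 0, π.1 1, π.1 2, π.1 3)), W x.1 x.2.1 x.2.2.1 x.2.2.2 := by
    rw [Finset.sum_image (fun a _ b _ h => hinj h)]
  rw [h1, hS]
  rw [Finset.sum_insert (by decide), Finset.sum_insert (by decide), Finset.sum_insert (by decide),
    Finset.sum_insert (by decide), Finset.sum_insert (by decide), Finset.sum_insert (by decide),
    Finset.sum_insert (by decide), Finset.sum_insert (by decide), Finset.sum_insert (by decide),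
    Finset.sum_insert (by decide), Finset.sum_insert (by decide), Finset.sum_singleton]
  ring

private theorem kb_pair (T : Tri N) (E : Fin N → Fin N × Fin 4 × Fin 4) (hE : IsEdges T E)
    (j : Fin N) (a b : Fin 4) (hab : a ≠ b) (p : Fin N × Bool) (c : ℂ) :
    (if vmE T E j a b = p then c else 0) + (if vmE T E j b a = p then c else 0) =
      c * (if T.edge j a b = p.1 then 1 else 0) := by
  rw [vmE_swap T E hE j a b hab]
  have h1 : vmE T E j a b = (T.edge j a b, (vmE T E j a b).2) := rfl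
  obtain ⟨e, β⟩ := p
  have h2 : (vmE T E j a b = (e, β)) ↔ (T.edge j a b = e ∧ (vmE T E j a b).2 = β) := by
    constructor
    · intro h
      exact ⟨congrArg Prod.fst h, congrArg Prod.snd h⟩
    · rintro ⟨h3, h4⟩
      rw [h1, h3, h4]
  have h3 : ((T.edge j a b, !(vmE T E j a b).2) = (e, β)) ↔
      (T.edge j a b = e ∧ (!(vmE T E j a b).2) = β) := Prod.mk_inj
  by_cases he : T.edge j a b = e
  · cases hv : (vmE T E j a b).2 <;> cases β <;> simp [h2, he, hv]
  · have h4 : ¬ (vmE T E j a b = (e, β)) := fun h => he (h2.mp h).1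
    have h5 : ¬ ((T.edge j a b, !(vmE T E j a b).2) = (e, β)) := fun h => he (h3.mp h).1
    rw [if_neg h4, if_neg h5, if_neg he]
    ring

private theorem kb_typ : typ 1 0 = typ 0 1 ∧ typ 2 0 = typ 0 2 ∧ typ 3 0 = typ 0 3 ∧
    typ 2 1 = typ 1 2 ∧ typ 3 1 = typ 1 3 ∧ typ 3 2 = typ 2 3 ∧
    typ 0 1 = 0 ∧ typ 0 2 = 2 ∧ typ 0 3 = 1 ∧ typ 1 2 = 1 ∧ typ 1 3 = 2 ∧ typ 2 3 = 0 := by
  decide

private theorem kb_tet (T : Tri N) (E : Fin N → Fin N × Fin 4 × Fin 4) (hE : IsEdges T E)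
    (j : Fin N) (q : Fin 3 → ℂ) (p : Fin N × Bool) :
    ∑ π : {π : Equiv.Perm (Fin 4) // Equiv.Perm.sign π = 1},
      (if vmE T E j (π.1 0) (π.1 1) = p then q (typ (π.1 0) (π.1 1)) else 0) =
      ∑ t, (T.G t p.1 j : ℂ) * q t := by
  rw [G_sum]
  refine (kb_sum_even (fun a b _ _ => if vmE T E j a b = p then q (typ a b) else 0)).trans ?_
  obtain ⟨t10, t20, t30, t21, t31, t32, s01, s02, s03, s12, s13, s23⟩ := kb_typ
  rw [t10, t20, t30, t21, t31, t32, s01, s02, s03, s12, s13, s23]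
  linear_combination kb_pair T E hE j 0 1 (by decide) p (q 0) +
    kb_pair T E hE j 0 2 (by decide) p (q 2) + kb_pair T E hE j 0 3 (by decide) p (q 1) +
    kb_pair T E hE j 1 2 (by decide) p (q 1) + kb_pair T E hE j 1 3 (by decide) p (q 2) +
    kb_pair T E hE j 2 3 (by decide) p (q 0)

theorem cc_vertex (T : Tri N) (E : Fin N → Fin N × Fin 4 × Fin 4) (hE : IsEdges T E)
    (θ : Fin 3 → Fin N → ℂ) (hθ : Sum0 θ) (p : Fin N × Bool) :
    ∑ d : Dt N, (if vmE T E d.1 (d.2.1 0) (d.2.1 1) = p then cc θ d - cc θ (T.al d) else 0) =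
      -∑ j, ∑ t, (T.G t p.1 j : ℂ) * θ t j := by
  have h1 : ∑ d : Dt N, (if vmE T E d.1 (d.2.1 0) (d.2.1 1) = p then cc θ (T.al d) else 0) =
      ∑ d : Dt N, (if vmE T E d.1 (d.2.1 0) (d.2.1 1) = p then cc θ (ph d) else 0) := by
    refine Eq.trans ?_ (Equiv.sum_comp (kbR T) (fun d : Dt N =>
      if vmE T E d.1 (d.2.1 0) (d.2.1 1) = p then cc θ (ph d) else 0))
    refine Finset.sum_congr rfl ?_
    intro d _
    change _ = if vmE T E (ph (ph (T.al d))).1 ((ph (ph (T.al d))).2.1 0)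
      ((ph (ph (T.al d))).2.1 1) = p then cc θ (ph (ph (ph (T.al d)))) else 0
    rw [kb_vm T E hE d, ph_ph_ph]
  have h2 : ∑ d : Dt N, (if vmE T E d.1 (d.2.1 0) (d.2.1 1) = p then cc θ d - cc θ (T.al d)
      else 0) =
      ∑ d : Dt N, (if vmE T E d.1 (d.2.1 0) (d.2.1 1) = p then cc θ d else 0) -
      ∑ d : Dt N, (if vmE T E d.1 (d.2.1 0) (d.2.1 1) = p then cc θ (T.al d) else 0) := by
    rw [← Finset.sum_sub_distrib]
    refine Finset.sum_congr rfl ?_
    intro d _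
    split_ifs
    · rfl
    · ring
  rw [h2, h1, ← Finset.sum_sub_distrib, ← Finset.sum_neg_distrib, Fintype.sum_prod_type]
  refine Finset.sum_congr rfl ?_
  intro j _
  rw [← kb_tet T E hE j (fun t => θ t j) p, ← Finset.sum_neg_distrib]
  refine Finset.sum_congr rfl ?_
  intro π _
  have h3 := cc_ph θ hθ (j, π)
  dsimp only at h3 ⊢
  split_ifs
  · linear_combination -h3
  · ring

end Pool.Agent.OL36
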