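import Pool.Agent.LibOL36.TJ

/-! # Row KC: duality on the surface

Plan. `pair_dl`: `vm (φ (φ d)) = vm (α d)` (`vm_R` at `α d`, `αα`), so `∑ y d dl f d = ∑ y d f (vm d) - ∑ y d f (vm (α d)) = 2 ∑ y d f (vm d) = 2 ∑ p, f p * ∑_{vm d = p} y d = 0` (`Equiv.sum_comp` for `α`).
`exact_of_pair`: let `A := {c : Δ → ℂ | Anti c}` (submodule), `D := dd : A → (Q → ℂ)` linear, `ψ : A → ℂ`, `ψ c = ∑ y d c d`; `ker D ≤ ker ψ` (`cyc_iff`), so `ψ = χ ∘ D` for a linear `χ : (Q → ℂ) → ℂ`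
(`LinearMap.range_dualMap_eq_dualAnnihilator_ker`, or `LinearMap.exists_extend` on the range), `χ v = ∑ τ, h τ * v τ`; so `∑ y d c d = ∑ d, h (qm d) c d` for all anti `c`; take `c := 1_d - 1_{α d}` (`α_ne`):
`y d - y (α d) = h (qm d) - h (qm (α d))`, i.e. `2 y d = ...`; use `h / 2`. -/

set_option autoImplicit false

open Matrix

namespace Pool.Agent.OL36

variable {Δ Q P : Type}

private def kcα (Sf : Surf Δ Q P) : Δ ≃ Δ where
  toFun := Sf.α
  invFun := Sf.α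
  left_inv := Sf.αα
  right_inv := Sf.αα

private theorem kc_vm (Sf : Surf Δ Q P) (d : Δ) : Sf.vm (Sf.φ (Sf.φ d)) = Sf.vm (Sf.α d) := by
  rw [← Sf.vm_R (Sf.α d), Sf.αα]

private theorem kc_sum (Sf : Surf Δ Q P) [Fintype Δ] (f : Δ → ℂ) :
    ∑ d, f (Sf.α d) = ∑ d, f d := Equiv.sum_comp (kcα Sf) f

theorem Surf.pair_dl (Sf : Surf Δ Q P) [Fintype Δ] [Fintype P] [DecidableEq P] (y : Δ → ℂ)
    (hy : Sf.Anti y) (hv : ∀ p, ∑ d, (if Sf.vm d = p then y d else 0) = 0) (f : P → ℂ) :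
    ∑ d, y d * Sf.dl f d = 0 := by
  have e1 : ∑ d, y d * Sf.dl f d =
      ∑ d, y d * f (Sf.vm d) - ∑ d, y d * f (Sf.vm (Sf.α d)) := by
    rw [← Finset.sum_sub_distrib]
    refine Finset.sum_congr rfl fun d _ => ?_
    unfold Surf.dl
    rw [kc_vm]
    ring
  have e2 : ∑ d, y d * f (Sf.vm (Sf.α d)) = -∑ d, y d * f (Sf.vm d) := by
    rw [← kc_sum Sf fun d => y d * f (Sf.vm (Sf.α d)), ← Finset.sum_neg_distrib]
    refine Finset.sum_congr rfl fun d _ => ?_
    simp only [Sf.αα, hy d]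
    ring
  have e3 : ∑ d, y d * f (Sf.vm d) = ∑ p, f p * ∑ d, (if Sf.vm d = p then y d else 0) := by
    simp only [Finset.mul_sum]
    rw [Finset.sum_comm]
    refine Finset.sum_congr rfl fun d _ => ?_
    rw [Finset.sum_eq_single (Sf.vm d)]
    · rw [if_pos rfl]; ring
    · intro p _ hp
      rw [if_neg (Ne.symm hp), mul_zero]
    · intro h
      exact absurd (Finset.mem_univ _) h
  have e4 : ∑ d, y d * f (Sf.vm d) = 0 := by
    rw [e3]
    exact Finset.sum_eq_zero fun p _ => by rw [hv p, mul_zero]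
  rw [e1, e2, e4]
  simp

/-- The antisymmetrisation. -/
private noncomputable def kcA (Sf : Surf Δ Q P) : (Δ → ℂ) →ₗ[ℂ] (Δ → ℂ) where
  toFun c := fun e => c e - c (Sf.α e)
  map_add' a b := by
    funext e
    simp only [Pi.add_apply]
    ring
  map_smul' r a := by
    funext e
    simp only [Pi.smul_apply, smul_eq_mul, RingHom.id_apply]
    ring

private noncomputable def kcD (Sf : Surf Δ Q P) [Fintype Δ] [DecidableEq Q] :
    (Δ → ℂ) →ₗ[ℂ] (Q → ℂ) where
  toFun c := fun τ => Sf.dd c τ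
  map_add' a b := by
    funext τ
    simp only [Pi.add_apply]
    unfold Surf.dd
    rw [← Finset.sum_add_distrib]
    refine Finset.sum_congr rfl fun d _ => ?_
    by_cases h : Sf.qm d = τ
    · simp [h]
    · simp [h]
  map_smul' r a := by
    funext τ
    simp only [Pi.smul_apply, smul_eq_mul, RingHom.id_apply]
    unfold Surf.dd
    rw [Finset.mul_sum]
    refine Finset.sum_congr rfl fun d _ => ?_
    by_cases h : Sf.qm d = τ
    · simp [h]
    · simp [h]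

private noncomputable def kcψ [Fintype Δ] (y : Δ → ℂ) : (Δ → ℂ) →ₗ[ℂ] ℂ where
  toFun c := ∑ d, y d * c d
  map_add' a b := by
    simp only [Pi.add_apply]
    rw [← Finset.sum_add_distrib]
    refine Finset.sum_congr rfl fun d _ => ?_
    ring
  map_smul' r a := by
    simp only [Pi.smul_apply, smul_eq_mul, RingHom.id_apply]
    rw [Finset.mul_sum]
    refine Finset.sum_congr rfl fun d _ => ?_
    ring

private theorem kcA_anti (Sf : Surf Δ Q P) (c : Δ → ℂ) : Sf.Anti (kcA Sf c) := by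
  intro d
  show c (Sf.α d) - c (Sf.α (Sf.α d)) = -(c d - c (Sf.α d))
  rw [Sf.αα]
  ring

private theorem kcA_single (Sf : Surf Δ Q P) [DecidableEq Δ] (d : Δ) :
    kcA Sf (Pi.single d 1) = Pi.single d 1 - Pi.single (Sf.α d) 1 := by
  funext e
  show (Pi.single d (1 : ℂ) : Δ → ℂ) e - (Pi.single d (1 : ℂ) : Δ → ℂ) (Sf.α e) = _
  rw [Pi.sub_apply]
  congr 1
  rw [Pi.single_apply, Pi.single_apply]
  refine if_congr ?_ rfl rfl
  constructor
  · intro h
    rw [← h, Sf.αα]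
  · intro h
    rw [h, Sf.αα]

private theorem kcD_single (Sf : Surf Δ Q P) [Fintype Δ] [DecidableEq Δ] [DecidableEq Q] (d : Δ) :
    kcD Sf (Pi.single d 1) = Pi.single (Sf.qm d) 1 := by
  funext τ
  show Sf.dd (Pi.single d (1 : ℂ) : Δ → ℂ) τ = _
  unfold Surf.dd
  rw [Finset.sum_eq_single d]
  · rw [Pi.single_eq_same, Pi.single_apply]
    exact if_congr eq_comm rfl rfl
  · intro e _ he
    rw [Pi.single_eq_of_ne he]
    simp
  · intro h
    exact absurd (Finset.mem_univ _) h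

private theorem kcψ_single [Fintype Δ] [DecidableEq Δ] (y : Δ → ℂ) (d : Δ) :
    kcψ y (Pi.single d 1) = y d := by
  show ∑ e, y e * (Pi.single d (1 : ℂ) : Δ → ℂ) e = y d
  rw [Finset.sum_eq_single d]
  · rw [Pi.single_eq_same, mul_one]
  · intro e _ he
    rw [Pi.single_eq_of_ne he, mul_zero]
  · intro h
    exact absurd (Finset.mem_univ _) h

theorem Surf.exact_of_pair (Sf : Surf Δ Q P) [Fintype Δ] [DecidableEq Δ] [Fintype Q]
    [DecidableEq Q] (y : Δ → ℂ) (hy : Sf.Anti y) (h : ∀ c : Δ → ℂ, Sf.Cyc c → ∑ d, y d * c d = 0) :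
    ∃ h : Q → ℂ, ∀ d, y d = h (Sf.qm d) - h (Sf.qm (Sf.α d)) := by
  have hker : (kcψ y ∘ₗ kcA Sf) ∈
      (LinearMap.ker (kcD Sf ∘ₗ kcA Sf)).dualAnnihilator := by
    rw [Submodule.mem_dualAnnihilator]
    intro c hc
    rw [LinearMap.mem_ker] at hc
    refine h (kcA Sf c) ?_
    rw [Surf.cyc_iff]
    exact ⟨kcA_anti Sf c, fun τ => congrFun hc τ⟩
  rw [← LinearMap.range_dualMap_eq_dualAnnihilator_ker] at hker
  obtain ⟨χ, hχ⟩ := hker
  refine ⟨fun τ => χ (Pi.single τ 1) / 2, fun d => ?_⟩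
  have e1 : (kcψ y ∘ₗ kcA Sf) (Pi.single d 1) = 2 * y d := by
    rw [LinearMap.comp_apply, kcA_single, map_sub, kcψ_single, kcψ_single, hy d]
    ring
  have e2 : (kcψ y ∘ₗ kcA Sf) (Pi.single d 1) =
      χ (Pi.single (Sf.qm d) 1) - χ (Pi.single (Sf.qm (Sf.α d)) 1) := by
    rw [← hχ]
    show χ ((kcD Sf ∘ₗ kcA Sf) (Pi.single d 1)) = _
    rw [LinearMap.comp_apply, kcA_single, map_sub, kcD_single, kcD_single, map_sub]
  rw [e1] at e2
  show y d = χ (Pi.single (Sf.qm d) 1) / 2 - χ (Pi.single (Sf.qm (Sf.α d)) 1) / 2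
  linear_combination e2 / 2

end Pool.Agent.OL36
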