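import Pool.Agent.LibOL36.S0
import Pool.Agent.LibOL36.E2
import Pool.Agent.LibOL36.KA
import Pool.Agent.LibOL36.TDefs2

/-! # Row KD: reconstruction of the coefficients of the edges

Plan. `C d := cc θ d - h (d.1, d.2.1 0)`: `C (al d) = C d` (`hy`), `C (ph d) - C d = θ (typ (d 0) (d 1)) d.1` (`cc_ph`, `ph` keeps the corner). For `d = (a, b, i, q)` even put `S d := C d + C d'` where `d' := (b, q, i, a)` (even: a 3-cycle from `d`: the dart at the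
vertex `b` in the same face `i`, whose next side...): in words `S` is the sum of the values of `C` at the two ends `a`, `b` of the edge in the face opposite to `i`. (1) it does not depend on the face: for the face `q`: the darts `ph d = (a, i, q, b)` at `a` and `(b, a, q, i)` at `b`, and
`ph (b, a, q, i) = (b, q, i, a) = d'`: so `C (ph d) - C d = θ(a,b)`, `C d' - C (b,a,q,i) = θ(b,a) = θ(a,b)`: the two sums agree. (2) gluing: `al` of the darts (`C ∘ al = C`). So `S` depends only on the edge class of `(j, a, b)` (`T.edge_eq`, `EqvGen` induction: symmetric in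
`a, b`, invariant under one gluing step): get `s : Fin N → ℂ` with `S = s (edge j a b)`. (3) in the face opposite to `i` with vertices `a, b, q`: `C_a + C_b = s(ab)`, etc., so `2 C_a = s(ab) + s(aq) - s(bq)`, `C_a = C d`. In the face opposite to `q` (vertices `a, b, i`):
`2 C (ph d) = s(ab) + s(ai) - s(bi)`. Difference: `2 θ(a,b) = s(ai) + s(bq) - s(bi) - s(aq)`, which is `IsComb` (`d.2.1 0 = a`, `1 = b`, `2 = i`, `3 = q`). It is convenient to define `CC j i a := C` of the dart with `d.1 = j, d 0 = a, d 2 = i`. -/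

set_option autoImplicit false

open Matrix

namespace Pool.Agent.OL36

variable {N : ℕ}

private theorem kd_sign_tw (d : Dt N) :
    Equiv.Perm.sign (d.2.1 * (Equiv.swap 0 1 * Equiv.swap 1 3)) = 1 := by
  rw [Equiv.Perm.sign_mul, Equiv.Perm.sign_mul, d.2.2, Equiv.Perm.sign_swap (by decide),
    Equiv.Perm.sign_swap (by decide)]
  decide

private theorem kd_sign_rv (d : Dt N) :
    Equiv.Perm.sign (d.2.1 * (Equiv.swap 0 1 * Equiv.swap 2 3)) = 1 := by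
  rw [Equiv.Perm.sign_mul, Equiv.Perm.sign_mul, d.2.2, Equiv.Perm.sign_swap (by decide),
    Equiv.Perm.sign_swap (by decide)]
  decide

/-- `(a, b, i, q) ↦ (b, q, i, a)`: the next corner in the same face -/
private def kdTw (d : Dt N) : Dt N :=
  (d.1, ⟨d.2.1 * (Equiv.swap 0 1 * Equiv.swap 1 3), kd_sign_tw d⟩)

/-- `(a, b, i, q) ↦ (b, a, q, i)` -/
private def kdRv (d : Dt N) : Dt N :=
  (d.1, ⟨d.2.1 * (Equiv.swap 0 1 * Equiv.swap 2 3), kd_sign_rv d⟩)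

private theorem kd_swaps :
    ((Equiv.swap 0 1 * Equiv.swap 1 3 : Equiv.Perm (Fin 4)) 0 = 1 ∧
    (Equiv.swap 0 1 * Equiv.swap 1 3 : Equiv.Perm (Fin 4)) 1 = 3 ∧
    (Equiv.swap 0 1 * Equiv.swap 1 3 : Equiv.Perm (Fin 4)) 2 = 2 ∧
    (Equiv.swap 0 1 * Equiv.swap 1 3 : Equiv.Perm (Fin 4)) 3 = 0) ∧
    ((Equiv.swap 0 1 * Equiv.swap 2 3 : Equiv.Perm (Fin 4)) 0 = 1 ∧
    (Equiv.swap 0 1 * Equiv.swap 2 3 : Equiv.Perm (Fin 4)) 1 = 0 ∧
    (Equiv.swap 0 1 * Equiv.swap 2 3 : Equiv.Perm (Fin 4)) 2 = 3 ∧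
    (Equiv.swap 0 1 * Equiv.swap 2 3 : Equiv.Perm (Fin 4)) 3 = 2) := by
  decide

private theorem kd_tw_val (d : Dt N) :
    (kdTw d).1 = d.1 ∧ (kdTw d).2.1 0 = d.2.1 1 ∧ (kdTw d).2.1 1 = d.2.1 3 ∧
    (kdTw d).2.1 2 = d.2.1 2 ∧ (kdTw d).2.1 3 = d.2.1 0 := by
  obtain ⟨⟨h0, h1, h2, h3⟩, -⟩ := kd_swaps
  refine ⟨rfl, ?_, ?_, ?_, ?_⟩
  · exact congrArg d.2.1 h0
  · exact congrArg d.2.1 h1
  · exact congrArg d.2.1 h2
  · exact congrArg d.2.1 h3

private theorem kd_rv_val (d : Dt N) :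
    (kdRv d).1 = d.1 ∧ (kdRv d).2.1 0 = d.2.1 1 ∧ (kdRv d).2.1 1 = d.2.1 0 ∧
    (kdRv d).2.1 2 = d.2.1 3 ∧ (kdRv d).2.1 3 = d.2.1 2 := by
  obtain ⟨-, h0, h1, h2, h3⟩ := kd_swaps
  refine ⟨rfl, ?_, ?_, ?_, ?_⟩
  · exact congrArg d.2.1 h0
  · exact congrArg d.2.1 h1
  · exact congrArg d.2.1 h2
  · exact congrArg d.2.1 h3

private theorem kd_tw_rv (d : Dt N) : kdTw (kdRv d) = ph d := by
  obtain ⟨r0, r1, r2, r3, r4⟩ := kd_rv_val d
  obtain ⟨t0, t1, t2, t3, t4⟩ := kd_tw_val (kdRv d)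
  obtain ⟨p0, p1, p2, p3, p4⟩ := ph_val d
  apply dt_ext01
  · rw [t0, r0, p0]
  · rw [t1, r2, p1]
  · rw [t2, r4, p2]

private theorem kd_ph_rv (d : Dt N) : ph (kdRv d) = kdTw d := by
  obtain ⟨r0, r1, r2, r3, r4⟩ := kd_rv_val d
  obtain ⟨t0, t1, t2, t3, t4⟩ := kd_tw_val d
  obtain ⟨p0, p1, p2, p3, p4⟩ := ph_val (kdRv d)
  apply dt_ext01
  · rw [t0, p0, r0]
  · rw [t1, p1, r1]
  · rw [t2, p2, r3]

private theorem kd_tw3 (d : Dt N) : kdTw (kdTw (kdTw d)) = d := by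
  obtain ⟨t0, t1, t2, t3, t4⟩ := kd_tw_val d
  obtain ⟨u0, u1, u2, u3, u4⟩ := kd_tw_val (kdTw d)
  obtain ⟨v0, v1, v2, v3, v4⟩ := kd_tw_val (kdTw (kdTw d))
  apply dt_ext01
  · rw [v0, u0, t0]
  · rw [v1, u2, t4]
  · rw [v2, u4, t1]

private theorem kd_al_tw_val (T : Tri N) (d : Dt N) :
    (T.al (kdTw d)).1 = T.nbr d.1 (d.2.1 2) ∧
    (T.al (kdTw d)).2.1 0 = T.glue d.1 (d.2.1 2) (d.2.1 1) ∧
    (T.al (kdTw d)).2.1 1 = T.glue d.1 (d.2.1 2) (d.2.1 0) ∧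
    (T.al (kdTw d)).2.1 3 = T.glue d.1 (d.2.1 2) (d.2.1 3) := by
  obtain ⟨t0, t1, t2, t3, t4⟩ := kd_tw_val d
  obtain ⟨a0, a1, a2, a3, a4⟩ := al_val T (kdTw d)
  refine ⟨?_, ?_, ?_, ?_⟩
  · rw [a0, t3, t0]
  · rw [a1, t3, t0, t1]
  · rw [a2, t3, t0, t4]
  · rw [a4, t3, t0, t2]

private theorem kd_tw_al (T : Tri N) (d : Dt N) : kdTw (T.al (kdTw d)) = T.al d := by
  obtain ⟨b0, b1, b2, b3⟩ := kd_al_tw_val T d
  obtain ⟨u0, u1, u2, u3, u4⟩ := kd_tw_val (T.al (kdTw d))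
  obtain ⟨a0, a1, a2, a3, a4⟩ := al_val T d
  apply dt_ext01
  · rw [u0, b0, a0]
  · rw [u1, b2, a1]
  · rw [u2, b3, a2]

private theorem kd_typ (a b : Fin 4) : typ a b = typ b a := by
  unfold typ
  rw [Nat.add_comm]

private theorem kd_cases (d : Dt N) (i : Fin 4) (h0 : i ≠ d.2.1 0) (h1 : i ≠ d.2.1 1) :
    i = d.2.1 2 ∨ i = d.2.1 3 := by
  obtain ⟨k, hk⟩ := d.2.1.surjective i
  fin_cases k
  · exact absurd hk.symm h0
  · exact absurd hk.symm h1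
  · exact Or.inl hk.symm
  · exact Or.inr hk.symm

/-- the sum at the two ends of an edge -/
private def kdS (C : Dt N → ℂ) (d : Dt N) : ℂ := C d + C (kdTw d)

open Classical in
/-- the sum as a function of oriented edges -/
private noncomputable def kdF (C : Dt N → ℂ) (s : Fin N × Fin 4 × Fin 4) : ℂ :=
  if h : s.2.1 ≠ s.2.2 then kdS C (exists_dt01 s.1 s.2.1 s.2.2 h).choose else 0

private theorem kd_F (C : Dt N → ℂ) (d : Dt N) :
    kdF C (d.1, d.2.1 0, d.2.1 1) = kdS C d := by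
  have h : d.2.1 0 ≠ d.2.1 1 := dt_ne d 0 1 (by decide)
  unfold kdF
  rw [dif_pos h]
  have h1 := (exists_dt01 d.1 (d.2.1 0) (d.2.1 1) h).choose_spec
  exact congrArg (kdS C) (dt_ext01 _ _ h1.1 h1.2.1 h1.2.2)

private theorem kd_F' (C : Dt N → ℂ) (d : Dt N) (s : Fin N × Fin 4 × Fin 4)
    (h0 : d.1 = s.1) (h1 : d.2.1 0 = s.2.1) (h2 : d.2.1 1 = s.2.2) :
    kdF C s = kdS C d := by
  rw [← kd_F C d]
  congr 1
  exact Prod.ext h0.symm (Prod.ext h1.symm h2.symm)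

private theorem kd_step (T : Tri N) (C : Dt N → ℂ) (hal : ∀ d, C (T.al d) = C d)
    (hrv : ∀ d, kdS C (kdRv d) = kdS C d) (s s' : Fin N × Fin 4 × Fin 4)
    (h : s' = (s.1, s.2.2, s.2.1) ∨ ∃ i, i ≠ s.2.1 ∧ i ≠ s.2.2 ∧
          s' = (T.nbr s.1 i, T.glue s.1 i s.2.1, T.glue s.1 i s.2.2)) :
    kdF C s = kdF C s' := by
  by_cases hs : s.2.1 ≠ s.2.2
  · obtain ⟨d, e0, e1, e2⟩ := exists_dt01 s.1 s.2.1 s.2.2 hs
    rw [kd_F' C d s e0 e1 e2]
    have hST : ∀ x : Dt N, kdS C (T.al (kdTw x)) = kdS C x := by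
      intro x
      unfold kdS
      rw [kd_tw_al, hal, hal, add_comm]
    rcases h with h | ⟨i, hi1, hi2, h⟩
    · obtain ⟨r0, r1, r2, r3, r4⟩ := kd_rv_val d
      rw [h, kd_F' C (kdRv d) (s.1, s.2.2, s.2.1) (r0.trans e0) (r1.trans e2) (r2.trans e1), hrv]
    · rw [← e1] at hi1
      rw [← e2] at hi2
      rcases kd_cases d i hi1 hi2 with hi | hi
      · obtain ⟨b0, b1, b2, b3⟩ := kd_al_tw_val T d
        obtain ⟨r0, r1, r2, r3, r4⟩ := kd_rv_val (T.al (kdTw d))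
        rw [h, kd_F' C (kdRv (T.al (kdTw d))) _
          (by rw [r0, b0, e0, hi]) (by rw [r1, b2, e0, e1, hi]) (by rw [r2, b1, e0, e2, hi]),
          hrv, hST]
      · obtain ⟨b0, b1, b2, b3⟩ := kd_al_tw_val T (kdRv d)
        obtain ⟨r0, r1, r2, r3, r4⟩ := kd_rv_val d
        rw [h, kd_F' C (T.al (kdTw (kdRv d))) _
          (by rw [b0, r3, r0, e0, hi]) (by rw [b1, r3, r2, r0, e0, e1, hi])
          (by rw [b2, r3, r1, r0, e0, e2, hi]), hST, hrv]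
  · have hs2 : s.2.1 = s.2.2 := not_not.mp hs
    have hs' : ¬ (s'.2.1 ≠ s'.2.2) := by
      rw [not_not]
      rcases h with h | ⟨i, hi1, hi2, h⟩
      · rw [h]
        exact hs2.symm
      · rw [h]
        exact congrArg (T.glue s.1 i) hs2
    unfold kdF
    rw [dif_neg hs, dif_neg hs']

theorem rec_s (T : Tri N) (θ : Fin 3 → Fin N → ℂ) (hθ : Sum0 θ) (h : Fin N × Fin 4 → ℂ)
    (hy : ∀ d : Dt N, cc θ d - cc θ (T.al d) =
      h (d.1, d.2.1 0) - h ((T.al d).1, (T.al d).2.1 0)) :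
    ∃ s : Fin N → ℂ, IsComb T θ s := by
  classical
  set C : Dt N → ℂ := fun d => cc θ d - h (d.1, d.2.1 0) with hC
  have hal : ∀ d, C (T.al d) = C d := by
    intro d
    have h1 := hy d
    simp only [hC]
    linear_combination -h1
  have hph : ∀ d, C (ph d) = C d + θ (typ (d.2.1 0) (d.2.1 1)) d.1 := by
    intro d
    have h1 := cc_ph θ hθ d
    obtain ⟨p0, p1, p2, p3, p4⟩ := ph_val d
    simp only [hC]
    rw [p0, p1]
    linear_combination h1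
  have hrv : ∀ d, kdS C (kdRv d) = kdS C d := by
    intro d
    have h1 := hph d
    have h2 := hph (kdRv d)
    obtain ⟨r0, r1, r2, r3, r4⟩ := kd_rv_val d
    rw [kd_ph_rv, r0, r1, r2, kd_typ] at h2
    unfold kdS
    rw [kd_tw_rv]
    linear_combination h1 - h2
  have hF : ∀ s s' : Fin N × Fin 4 × Fin 4,
      Relation.EqvGen (fun s s' : Fin N × Fin 4 × Fin 4 =>
        s' = (s.1, s.2.2, s.2.1) ∨ ∃ i, i ≠ s.2.1 ∧ i ≠ s.2.2 ∧
          s' = (T.nbr s.1 i, T.glue s.1 i s.2.1, T.glue s.1 i s.2.2)) s s' →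
      kdF C s = kdF C s' := by
    intro s s' hs
    induction hs with
    | rel x y hxy => exact kd_step T C hal hrv x y hxy
    | refl x => rfl
    | symm x y _ ih => exact ih.symm
    | trans x y z _ _ ih1 ih2 => exact ih1.trans ih2
  choose J A B hAB hJ using T.edge_surj
  refine ⟨fun e => kdF C (J e, A e, B e), ?_⟩
  have hS : ∀ d : Dt N, kdS C d = kdF C (J (T.edge d.1 (d.2.1 0) (d.2.1 1)),
      A (T.edge d.1 (d.2.1 0) (d.2.1 1)), B (T.edge d.1 (d.2.1 0) (d.2.1 1))) := by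
    intro d
    rw [← kd_F C d]
    apply hF
    exact (T.edge_eq _ _ _ _ _ _ (dt_ne d 0 1 (by decide)) (hAB _)).mp (hJ _).symm
  have h2C : ∀ d : Dt N, 2 * C d = kdS C d + kdS C (kdTw (kdTw d)) - kdS C (kdTw d) := by
    intro d
    unfold kdS
    rw [kd_tw3]
    ring
  intro d
  have k1 := h2C d
  have k2 := h2C (ph d)
  have k3 := hph d
  obtain ⟨p0, p1, p2, p3, p4⟩ := ph_val d
  obtain ⟨t0, t1, t2, t3, t4⟩ := kd_tw_val d
  obtain ⟨u0, u1, u2, u3, u4⟩ := kd_tw_val (kdTw d)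
  obtain ⟨v0, v1, v2, v3, v4⟩ := kd_tw_val (ph d)
  obtain ⟨w0, w1, w2, w3, w4⟩ := kd_tw_val (kdTw (ph d))
  rw [hS d, hS (kdTw (kdTw d)), hS (kdTw d), u0, u1, u2, t0, t1, t2, t4] at k1
  rw [hS (ph d), hS (kdTw (kdTw (ph d))), hS (kdTw (ph d)), w0, w1, w2, v0, v1, v2, v4,
    p0, p1, p2, p4] at k2
  have e1 := edge_comm T d.1 (d.2.1 0) (d.2.1 3) (dt_ne d 0 3 (by decide))
  have e2 := edge_comm T d.1 (d.2.1 1) (d.2.1 2) (dt_ne d 1 2 (by decide))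
  have e3 := edge_comm T d.1 (d.2.1 0) (d.2.1 1) (dt_ne d 0 1 (by decide))
  rw [e1] at k1
  rw [e2, e3] at k2
  linear_combination k2 - k1 - 2 * k3

end Pool.Agent.OL36
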