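import Pool.Agent.LibOL36.V4
import Pool.Agent.LibOL36.E2
import Pool.Agent.LibOL36.TDefs2

/-! # Row KE: isotropy

Plan. `IsComb` at the darts `(0,1,2,3)`, `(0,3,1,2)` of `j`: with `S ab := s (edge j a b)` (symmetric: `edge_comm`), `p0 = S01 + S23`, `p1 = S03 + S12`, `p2 = S02 + S13`: `2 θ 0 j = p2 - p1`, `2 θ 1 j = p0 - p2`. So `2 (θ 0 η 1 - θ 1 η 0) = (p2 - p1) η 1 - (p0 - p2) η 0 =
-(p0 η 0 + p1 η 1 + p2 η 2)` (`Sum0 η`). Sum over `j`: `∑_j (p0 η 0 + ...) = ∑ e, s e * ∑ j ∑ t G t e j η t j = 0` (`G_sum` of V4; `S01 = ∑ e, s e * (if edge j 0 1 = e then 1 else 0)`, `Finset.sum_comm`). -/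

set_option autoImplicit false

open Matrix

namespace Pool.Agent.OL36

variable {N : ℕ}

private theorem ke_sel (s : Fin N → ℂ) (x : Fin N) :
    ∑ e, s e * (if x = e then (1 : ℂ) else 0) = s x := by
  rw [Finset.sum_eq_single x]
  · rw [if_pos rfl, mul_one]
  · intro e _ he
    rw [if_neg (Ne.symm he), mul_zero]
  · intro h
    exact absurd (Finset.mem_univ x) h

private theorem ke_row (T : Tri N) (η : Fin 3 → Fin N → ℂ) (s : Fin N → ℂ) (j : Fin N) :
    ∑ e, s e * ∑ t, (T.G t e j : ℂ) * η t j =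
      η 0 j * (s (T.edge j 0 1) + s (T.edge j 2 3)) + η 1 j * (s (T.edge j 0 3) +
        s (T.edge j 1 2)) + η 2 j * (s (T.edge j 0 2) + s (T.edge j 1 3)) := by
  have h : ∀ e, s e * ∑ t, (T.G t e j : ℂ) * η t j =
      η 0 j * (s e * (if T.edge j 0 1 = e then (1 : ℂ) else 0)) +
      η 0 j * (s e * (if T.edge j 2 3 = e then (1 : ℂ) else 0)) +
      η 1 j * (s e * (if T.edge j 0 3 = e then (1 : ℂ) else 0)) +
      η 1 j * (s e * (if T.edge j 1 2 = e then (1 : ℂ) else 0)) +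
      η 2 j * (s e * (if T.edge j 0 2 = e then (1 : ℂ) else 0)) +
      η 2 j * (s e * (if T.edge j 1 3 = e then (1 : ℂ) else 0)) := by
    intro e
    have := G_sum T e j (fun t => η t j)
    rw [this]
    ring
  rw [Finset.sum_congr rfl fun e _ => h e]
  simp only [Finset.sum_add_distrib, ← Finset.mul_sum, ke_sel]
  ring

theorem BB_comb (T : Tri N) (θ η : Fin 3 → Fin N → ℂ) (s : Fin N → ℂ) (hs : IsComb T θ s)
    (hη : Sum0 η) (hG : EE0 T η) : BB θ η = 0 := by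
  have h2 : ∀ j, 2 * (θ 0 j * η 1 j - θ 1 j * η 0 j) =
      -(∑ e, s e * ∑ t, (T.G t e j : ℂ) * η t j) := by
    intro j
    rw [ke_row]
    have d1 := hs ((j, ⟨1, Equiv.Perm.sign_one⟩) : Dt N)
    obtain ⟨a1, a2, a3, a4, a5⟩ := ph_val ((j, ⟨1, Equiv.Perm.sign_one⟩) : Dt N)
    obtain ⟨b1, b2, b3, b4, b5⟩ := ph_val (ph ((j, ⟨1, Equiv.Perm.sign_one⟩) : Dt N))
    have d2 := hs (ph (ph ((j, ⟨1, Equiv.Perm.sign_one⟩) : Dt N)))
    rw [b1, b2, b3, b4, b5, a1, a2, a3, a4, a5] at d2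
    have e0 : ∀ x : Fin 4, (1 : Equiv.Perm (Fin 4)) x = x := fun x => rfl
    have t01 : typ 0 1 = 0 := by decide
    have t03 : typ 0 3 = 1 := by decide
    simp only [e0] at d1 d2
    rw [t01] at d1
    rw [t03] at d2
    have c1 : T.edge j 3 2 = T.edge j 2 3 := edge_comm T j 2 3 (by decide)
    have c2 : T.edge j 3 1 = T.edge j 1 3 := edge_comm T j 1 3 (by decide)
    rw [c1, c2] at d2
    have h0 := hη j
    linear_combination (η 1 j) * d1 - (η 0 j) * d2 +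
      (s (T.edge j 0 2) + s (T.edge j 1 3)) * h0
  have h3 : 2 * BB θ η = 0 := by
    rw [BB, Finset.mul_sum, Finset.sum_congr rfl fun j _ => h2 j, Finset.sum_neg_distrib,
      Finset.sum_comm]
    have h4 : ∀ e, ∑ j, s e * ∑ t, (T.G t e j : ℂ) * η t j = 0 := by
      intro e
      rw [← Finset.mul_sum, hG e, mul_zero]
    rw [Finset.sum_congr rfl fun e _ => h4 e, Finset.sum_const_zero, neg_zero]
  rcases mul_eq_zero.mp h3 with h | h
  · norm_num at h
  · exact h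

end Pool.Agent.OL36
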