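import Pool.Agent.LibOL36.TDefs2

/-! # Row KF: definiteness

Plan. `zeta_sum`: `1/z + 1/(1-z) + 1/(z(z-1)) = 0`. `BB` of the two families is `∑ j, |x j|^2 (ζ0 conj ζ1 - ζ1 conj ζ0) = ∑ |x j|^2 * 2 I * im (ζ0 conj ζ1)`, `ζ0 conj ζ1 = conj z (1 - z) / (|z|^2 |1-z|^2)`, imaginary part `-im z/(|z|^2 |1-z|^2) < 0`. A
sum of non-positive real multiples of `2 I` which vanishes has all terms zero (`Finset.sum_eq_zero_iff_of_nonneg`). -/

set_option autoImplicit false

open Matrix

namespace Pool.Agent.OL36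

variable {N : ℕ}

theorem zeta_sum (z : ℂ) (h0 : z ≠ 0) (h1 : z ≠ 1) : zeta 0 z + zeta 1 z + zeta 2 z = 0 := by
  have h2 : (1 : ℂ) - z ≠ 0 := sub_ne_zero.mpr (Ne.symm h1)
  have h3 : z - 1 ≠ 0 := sub_ne_zero.mpr h1
  have e0 : zeta 0 z = 1 / z := rfl
  have e1 : zeta 1 z = 1 / (1 - z) := rfl
  have e2 : zeta 2 z = 1 / (z * (z - 1)) := rfl
  rw [e0, e1, e2]
  field_simp
  ring

private theorem kf_term (x z : ℂ) (him : 0 < z.im) :
    ((x * z⁻¹) * (starRingEnd ℂ) (x * (1 - z)⁻¹) -
      (x * (1 - z)⁻¹) * (starRingEnd ℂ) (x * z⁻¹)).im =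
      -(2 * Complex.normSq x * (z.im / (Complex.normSq z * Complex.normSq (1 - z)))) := by
  have a1 : Complex.normSq z ≠ 0 := by
    intro h0
    have h1 := Complex.normSq_eq_zero.mp h0
    rw [h1] at him
    simp at him
  have a2 : Complex.normSq (1 - z) ≠ 0 := by
    intro h0
    have h1 : z = 1 := (sub_eq_zero.mp (Complex.normSq_eq_zero.mp h0)).symm
    rw [h1] at him
    simp at him
  simp only [map_mul, Complex.sub_im, Complex.mul_im, Complex.mul_re, Complex.conj_re,
    Complex.conj_im, Complex.inv_re, Complex.inv_im, map_inv₀, Complex.sub_re, Complex.one_re,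
    Complex.one_im]
  simp only [Complex.normSq_conj]
  rw [Complex.normSq_apply x]
  field_simp
  ring

theorem BB_def (z : Fin N → ℂ) (him : ∀ j, 0 < (z j).im) (x : Fin N → ℂ)
    (h : BB (fun t j => x j * zeta t (z j)) (fun t j => (starRingEnd ℂ) (x j * zeta t (z j))) = 0) :
    x = 0 := by
  have key : ∀ j, ((x j * zeta 0 (z j)) * (starRingEnd ℂ) (x j * zeta 1 (z j)) -
      (x j * zeta 1 (z j)) * (starRingEnd ℂ) (x j * zeta 0 (z j))).im =
      -(2 * Complex.normSq (x j) * ((z j).im / (Complex.normSq (z j) *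
        Complex.normSq (1 - z j)))) := by
    intro j
    have e0 : zeta 0 (z j) = (z j)⁻¹ := one_div _
    have e1 : zeta 1 (z j) = (1 - z j)⁻¹ := one_div _
    rw [e0, e1]
    exact kf_term (x j) (z j) (him j)
  have h1 : ∑ j, (2 * Complex.normSq (x j) * ((z j).im / (Complex.normSq (z j) *
        Complex.normSq (1 - z j)))) = 0 := by
    have h2 := congrArg Complex.im h
    rw [BB, Complex.im_sum] at h2
    rw [Finset.sum_congr rfl fun j _ => key j, Finset.sum_neg_distrib] at h2
    simpa using h2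
  have hpos : ∀ j, 0 < (z j).im / (Complex.normSq (z j) * Complex.normSq (1 - z j)) := by
    intro j
    have a1 : z j ≠ 0 := by
      intro h0
      have := him j
      rw [h0] at this
      simp at this
    have a2 : 1 - z j ≠ 0 := by
      intro h0
      have h1 : z j = 1 := (sub_eq_zero.mp h0).symm
      have := him j
      rw [h1] at this
      simp at this
    exact div_pos (him j) (mul_pos (Complex.normSq_pos.mpr a1) (Complex.normSq_pos.mpr a2))
  have h3 := (Finset.sum_eq_zero_iff_of_nonneg (fun j _ => mul_nonneg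
    (mul_nonneg (by norm_num) (Complex.normSq_nonneg (x j))) (hpos j).le)).mp h1
  funext j
  have h4 := h3 j (Finset.mem_univ j)
  have h5 : Complex.normSq (x j) = 0 := by
    rcases mul_eq_zero.mp h4 with h | h
    · rcases mul_eq_zero.mp h with h | h
      · norm_num at h
      · exact h
    · exact absurd h (hpos j).ne'
  exact Complex.normSq_eq_zero.mp h5

end Pool.Agent.OL36
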