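import Pool.Agent.LibOL36.TDefs

/-! # Row M1: the matrix with replaced row

Plan. `ext e j`; `Matrix.sum_apply`, `Matrix.mul_diagonal`, `Matrix.map_apply`, `Matrix.updateRow_apply`; by cases `e = e₀`. -/

set_option autoImplicit false

open Matrix

namespace Pool.Agent.OL36

variable {N : ℕ}

/-- M1. -/
theorem hatG_eq (T : Tri N) (z : Fin N → ℂ) (γ : Curve T) (e₀ : Fin N) :
    hatG T z γ e₀ = (Gz T z).updateRow e₀ (Cz z γ) := by
  ext e j
  unfold hatG
  rw [Matrix.sum_apply]
  simp only [Matrix.mul_diagonal, Matrix.map_apply]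
  by_cases h : e = e₀
  · subst h
    simp only [Matrix.updateRow_self]
    rfl
  · simp only [Matrix.updateRow_ne h]
    rfl


end Pool.Agent.OL36
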