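import Pool.Agent.LibOL36.S0
import Pool.Agent.LibOL36.V4

/-! # Row T1: the translation length

Plan. `∑ τ, rr z u j τ = -(∑ x, ρ_x) / (2 κ_j)` (only `τ = (j, x)` counts), `ρ_x = 1/∏_{b ≠ x} om x b`. For an arc
`x_k = (j, (a, b, c, d))` (any sign) its contribution to `∑_j Cz z γ j * ..` is
`sign π * zeta (typ a b) (z j) * (-(∑ ρ)/(2κ))` and `sign π * zeta (typ a b) (z j) = κ * om a b * om c d` (lemma: for all `π`,
from `zeta_eq`; 24 permutations: `decide`-like case split, or: both sides are invariant under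
`(b,a,d,c)`, change sign under `swap c d`, ..; simplest: `fin_cases` on the permutation through
`∀ π : Equiv.Perm (Fin 4), ..` is heavy, better: reduce to the values `π 0, π 1, π 2, π 3` and `sign`). And
`om a b * om c d * ∑ ρ = Lk a c d - Lk b c d + Lk c a b - Lk d a b` (field_simp, ring). So the contribution is
`-1/2 (Lk a c d - Lk b c d + Lk c a b - Lk d a b)`, while `-trl` has `-1/2 Lk a c d`. The rest telescopes:
put `Φ(a; x, y) := Lk y a x + Lk x a y` (symmetric in `x, y`). `-Lk b c d + Lk c a b - Lk d a b = Φ(a; b, c) - Φ(a; b, d)`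
(uses `Lk b c d = Lk b c a + Lk b a d`). `Step`: the next arc has `a' = σ a`, `d' = σ c`, `{b', c'} = {σ b, σ d}`, so
`Φ(a'; b', c') = Φ(a; b, d)` by `hu.mat` (vertices `a, b, d ≠ c`). Cyclic sum: `∑_{k<m} (Φ_k - Φ_(k+1)) = 0` with `x m = x 0`.
`Cz`: `γ.row t j` is a sum over `k` of `if x_k.1 = j ∧ typ = t then sign else 0` (cast to `ℂ`): exchange sums
(`Finset.sum_comm`, `Int.cast_sum`). -/

set_option autoImplicit false

open Matrix

namespace Pool.Agent.OL36

variable {N : ℕ}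

private def permList : List (Fin 4 × Fin 4 × Fin 4 × Fin 4 × ℤˣ) :=
  [(0, 1, 2, 3, 1), (0, 1, 3, 2, -1), (0, 2, 1, 3, -1), (0, 2, 3, 1, 1), (0, 3, 1, 2, 1), (0, 3, 2, 1, -1), (1, 0, 2, 3, -1), (1, 0, 3, 2, 1), (1, 2, 0, 3, 1), (1, 2, 3, 0, -1), (1, 3, 0, 2, -1), (1, 3, 2, 0, 1), (2, 0, 1, 3, 1), (2, 0, 3, 1, -1), (2, 1, 0, 3, -1), (2, 1, 3, 0, 1), (2, 3, 0, 1, 1), (2, 3, 1, 0, -1), (3, 0, 1, 2, -1), (3, 0, 2, 1, 1), (3, 1, 0, 2, 1), (3, 1, 2, 0, -1), (3, 2, 0, 1, -1), (3, 2, 1, 0, 1)]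

set_option maxRecDepth 100000 in
private theorem perm_mem : ∀ π : Equiv.Perm (Fin 4),
    (π 0, π 1, π 2, π 3, Equiv.Perm.sign π) ∈ permList := by
  decide +kernel

private theorem sign_zeta (T : Tri N) (z : Fin N → ℂ) (hz : ∀ j, z j ≠ 0 ∧ z j ≠ 1)
    (u : Fin N → Fin 4 → Fin 2 → ℂ) (hu : IsDec T z u) (j : Fin N) (π : Equiv.Perm (Fin 4)) :
    (((Equiv.Perm.sign π : ℤˣ) : ℤ) : ℂ) * zeta (typ (π 0) (π 1)) (z j) =
      kap z u j * (om (u j (π 0)) (u j (π 1)) * om (u j (π 2)) (u j (π 3))) := by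
  obtain ⟨h0, h1, h2⟩ := zeta_eq T z hz u hu j
  have key : ∀ q : Fin 4 × Fin 4 × Fin 4 × Fin 4 × ℤˣ, q ∈ permList →
      (((q.2.2.2.2 : ℤˣ) : ℤ) : ℂ) * zeta (typ q.1 q.2.1) (z j) =
        kap z u j * (om (u j q.1) (u j q.2.1) * om (u j q.2.2.1) (u j q.2.2.2.1)) := by
    intro q hq
    simp only [permList, List.mem_cons, List.not_mem_nil, or_false] at hq
    rcases hq with rfl | rfl | rfl | rfl | rfl | rfl | rfl | rfl | rfl | rfl | rfl | rfl | rfl | rfl | rfl | rfl | rfl | rfl | rfl | rfl | rfl | rfl | rfl | rfl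
    all_goals
      simp only [typ, Fin.isValue]
      norm_num
      try simp only [h0, h1, h2]
      try (unfold om; ring)
  exact key _ (perm_mem π)

private theorem sum_rho (u : Fin 4 → Fin 2 → ℂ) (π : Equiv.Perm (Fin 4)) :
    ∑ x, 1 / (∏ b, if b = x then 1 else om (u x) (u b)) =
      1 / (om (u (π 0)) (u (π 1)) * om (u (π 0)) (u (π 2)) * om (u (π 0)) (u (π 3))) +
      1 / (om (u (π 1)) (u (π 0)) * om (u (π 1)) (u (π 2)) * om (u (π 1)) (u (π 3))) +
      1 / (om (u (π 2)) (u (π 0)) * om (u (π 2)) (u (π 1)) * om (u (π 2)) (u (π 3))) +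
      1 / (om (u (π 3)) (u (π 0)) * om (u (π 3)) (u (π 1)) * om (u (π 3)) (u (π 2))) := by
  have h1 : ∀ x, (∏ b, if b = π x then 1 else om (u (π x)) (u b)) =
      ∏ b, if b = x then 1 else om (u (π x)) (u (π b)) := by
    intro x
    rw [← Equiv.prod_comp π]
    refine Finset.prod_congr rfl fun b _ => ?_
    simp only [π.injective.eq_iff]
  rw [← Equiv.sum_comp π]
  simp only [h1, Fin.sum_univ_four, Fin.prod_univ_four]
  simp

private theorem flag_alg (a b c d : Fin 2 → ℂ) (h1 : om a b ≠ 0) (h2 : om a c ≠ 0)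
    (h3 : om a d ≠ 0) (h4 : om b c ≠ 0) (h5 : om b d ≠ 0) (h6 : om c d ≠ 0) :
    om a b * om c d *
      (1 / (om a b * om a c * om a d) + 1 / (om b a * om b c * om b d) +
        1 / (om c a * om c b * om c d) + 1 / (om d a * om d b * om d c)) =
      Lk a c d + ((Lk c a b + Lk b a c) - (Lk d a b + Lk b a d)) := by
  have hp := plucker a b c d
  have e1 : om b a = -om a b := om_comm a b
  have e2 : om c a = -om a c := om_comm a c
  have e3 : om d a = -om a d := om_comm a d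
  have e4 : om c b = -om b c := om_comm b c
  have e5 : om d b = -om b d := om_comm b d
  have e6 : om d c = -om c d := om_comm c d
  unfold Lk
  rw [e5] at hp
  rw [e1, e2, e3, e4, e5, e6]
  have hL : om a d * om b c = om a c * om b d - om a b * om c d := by linear_combination hp
  generalize om a b = x1 at *
  generalize om a c = x2 at *
  generalize om a d = x3 at *
  generalize om b c = x4 at *
  generalize om b d = x5 at *
  generalize om c d = x6 at *
  field_simp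
  linear_combination (-(x2 * x3)) * hp

private noncomputable def Ph (u : Fin N → Fin 4 → Fin 2 → ℂ) (s : Flag N) : ℂ :=
  Lk (u s.1 (s.2 2)) (u s.1 (s.2 0)) (u s.1 (s.2 1)) +
    Lk (u s.1 (s.2 1)) (u s.1 (s.2 0)) (u s.1 (s.2 2))

private noncomputable def Ps (u : Fin N → Fin 4 → Fin 2 → ℂ) (s : Flag N) : ℂ :=
  Lk (u s.1 (s.2 3)) (u s.1 (s.2 0)) (u s.1 (s.2 1)) +
    Lk (u s.1 (s.2 1)) (u s.1 (s.2 0)) (u s.1 (s.2 3))

private theorem step_Ph (T : Tri N) (z : Fin N → ℂ) (u : Fin N → Fin 4 → Fin 2 → ℂ)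
    (hu : IsDec T z u) (s s' : Flag N) (h : Step T s s') : Ph u s' = Ps u s := by
  obtain ⟨j, π⟩ := s
  obtain ⟨j', π'⟩ := s'
  obtain ⟨h1, h2, h3⟩ := h
  simp only at h1 h2 h3
  subst h1
  have hne : ∀ x y : Fin 4, x ≠ y → π x ≠ π y := fun x y hxy h' => hxy (π.injective h')
  have hy : ∀ w, ∃ y, π' w = T.glue j (π 2) (π y) := fun w =>
    ⟨π.symm ((T.glue j (π 2)).symm (π' w)), by simp⟩
  obtain ⟨y1, hy1⟩ := hy 1
  obtain ⟨y2, hy2⟩ := hy 2
  have k1 : y1 ≠ 0 := by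
    rintro rfl
    exact absurd (π'.injective (hy1.trans h2.symm)) (by decide)
  have k2 : y1 ≠ 2 := by
    rintro rfl
    exact absurd (π'.injective (hy1.trans h3.symm)) (by decide)
  have k3 : y2 ≠ 0 := by
    rintro rfl
    exact absurd (π'.injective (hy2.trans h2.symm)) (by decide)
  have k4 : y2 ≠ 2 := by
    rintro rfl
    exact absurd (π'.injective (hy2.trans h3.symm)) (by decide)
  have k5 : y1 ≠ y2 := by
    rintro rfl
    exact absurd (π'.injective (hy1.trans hy2.symm)) (by decide)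
  have hcase : (y1 = 1 ∧ y2 = 3) ∨ (y1 = 3 ∧ y2 = 1) := by
    revert k1 k2 k3 k4 k5
    clear hy1 hy2
    revert y1 y2
    decide
  have m1 := hu.mat j (π 2) (π 3) (π 0) (π 1) (hne _ _ (by decide)) (hne _ _ (by decide))
    (hne _ _ (by decide)) (hne _ _ (by decide)) (hne _ _ (by decide)) (hne _ _ (by decide))
  have m2 := hu.mat j (π 2) (π 1) (π 0) (π 3) (hne _ _ (by decide)) (hne _ _ (by decide))
    (hne _ _ (by decide)) (hne _ _ (by decide)) (hne _ _ (by decide)) (hne _ _ (by decide))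
  unfold Ph Ps
  simp only
  rcases hcase with ⟨rfl, rfl⟩ | ⟨rfl, rfl⟩
  · rw [hy1, hy2, h2, m1, m2]
  · rw [hy1, hy2, h2, m1, m2, add_comm]

/-- T1: the translation length. -/
theorem trans_eq (T : Tri N) (z : Fin N → ℂ) (hz : ∀ j, z j ≠ 0 ∧ z j ≠ 1)
    (u : Fin N → Fin 4 → Fin 2 → ℂ) (hu : IsDec T z u) (γ : Curve T) :
    ∑ j, Cz z γ j * ∑ τ, rr z u j τ = -trl u γ := by
  have hne : ∀ (π : Equiv.Perm (Fin 4)) (x y : Fin 4), x ≠ y → π x ≠ π y :=
    fun π x y hxy h' => hxy (π.injective h')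
  have hS : ∀ j, ∑ τ, rr z u j τ =
      -(∑ x, 1 / (∏ b, if b = x then 1 else om (u j x) (u j b))) / (2 * kap z u j) := by
    intro j
    rw [Fintype.sum_prod_type, Finset.sum_eq_single j]
    · simp only [rr, if_true]
      rw [← Finset.sum_div, Finset.sum_neg_distrib]
    · intro i _ hi
      simp [rr, hi]
    · intro h
      exact absurd (Finset.mem_univ j) h
  have hterm : ∀ s : Flag N,
      (((Equiv.Perm.sign s.2 : ℤˣ) : ℤ) : ℂ) * zeta (typ (s.2 0) (s.2 1)) (z s.1) *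
        (-(∑ x, 1 / (∏ b, if b = x then 1 else om (u s.1 x) (u s.1 b))) / (2 * kap z u s.1)) =
      -(Lk (u s.1 (s.2 0)) (u s.1 (s.2 2)) (u s.1 (s.2 3)) / 2) -
        (Ph u s - Ps u s) / 2 := by
    intro s
    have hk := kap_ne T z hz u hu s.1
    rw [sign_zeta T z hz u hu, sum_rho (u s.1) s.2]
    have h := flag_alg (u s.1 (s.2 0)) (u s.1 (s.2 1)) (u s.1 (s.2 2)) (u s.1 (s.2 3))
      (hu.ne _ _ _ (hne _ _ _ (by decide))) (hu.ne _ _ _ (hne _ _ _ (by decide)))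
      (hu.ne _ _ _ (hne _ _ _ (by decide))) (hu.ne _ _ _ (hne _ _ _ (by decide)))
      (hu.ne _ _ _ (hne _ _ _ (by decide))) (hu.ne _ _ _ (hne _ _ _ (by decide)))
    unfold Ph Ps
    have h' : ∀ X R κ : ℂ, κ ≠ 0 → κ * X * (-R / (2 * κ)) = -(X * R) / 2 := by
      intro X R κ hκ
      field_simp
    rw [h' _ _ _ hk, h]
    ring
  have hL : ∑ j, Cz z γ j * ∑ τ, rr z u j τ = ∑ k ∈ Finset.range γ.m,
      (((Equiv.Perm.sign (γ.x k).2 : ℤˣ) : ℤ) : ℂ) *
        zeta (typ ((γ.x k).2 0) ((γ.x k).2 1)) (z (γ.x k).1) *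
        (-(∑ x, 1 / (∏ b, if b = x then 1 else om (u (γ.x k).1 x) (u (γ.x k).1 b))) /
          (2 * kap z u (γ.x k).1)) := by
    simp only [hS]
    unfold Cz Curve.row
    simp only [Int.cast_sum, Finset.sum_mul]
    have hsw : ∀ j : Fin N, ∀ f : Fin 3 → ℕ → ℂ, ∑ t, ∑ k ∈ Finset.range γ.m, f t k =
        ∑ k ∈ Finset.range γ.m, ∑ t, f t k := fun _ f => Finset.sum_comm
    rw [show (∑ j, ∑ t, ∑ k ∈ Finset.range γ.m, _ : ℂ) = _ from
      Finset.sum_congr rfl fun j _ => hsw j _]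
    rw [Finset.sum_comm]
    refine Finset.sum_congr rfl fun k _ => ?_
    rw [Finset.sum_eq_single (γ.x k).1, Finset.sum_eq_single (typ ((γ.x k).2 0) ((γ.x k).2 1))]
    · simp
    · intro t _ ht
      simp [Ne.symm ht]
    · intro h
      exact absurd (Finset.mem_univ _) h
    · intro j _ hj
      simp [Ne.symm hj]
    · intro h
      exact absurd (Finset.mem_univ _) h
  rw [hL]
  simp only [hterm]
  have htel : ∑ k ∈ Finset.range γ.m, (Ph u (γ.x k) - Ps u (γ.x k)) = 0 := by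
    have h1 : ∀ k ∈ Finset.range γ.m, Ph u (γ.x k) - Ps u (γ.x k) =
        Ph u (γ.x k) - Ph u (γ.x (k + 1)) := by
      intro k hk
      rw [step_Ph T z u hu _ _ (γ.step k (Finset.mem_range.1 hk))]
    rw [Finset.sum_congr rfl h1, Finset.sum_range_sub', γ.closed, sub_self]
  unfold trl
  rw [Finset.sum_sub_distrib, Finset.sum_neg_distrib, ← Finset.sum_div, ← Finset.sum_div, htel]
  rw [Finset.sum_div]
  ring


end Pool.Agent.OL36
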