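import Pool.Agent.LibOL36.TB
import Pool.Agent.LibOL36.TU
import Pool.Agent.LibOL36.TK

/-! # Row XS: the complex cohomology of the torus

Plan. `x0, y0` from `basisZ`, `unimod`. Complex span: as in the proof of `Surf.tor` (`TT.lean`; its private lemmas `tt_anti_ext`, `tt_dd_sum`, `tt_comb`, `tt_dd_cast`, `tt_cyc_cast`, `tt_J_cast` can be copied): with representatives `s` of
the pairs `{d, α d}` (here you have to produce them: a transversal of the involution `α` without fixed points, `S := {d // d < α d}` for a linear order), `K` unimodular (`unim`), every `Anti` `y : Δ → ℂ` is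
`∑_{p ≠ p0} y_p dl 1_p + a x0 + b y0 + ∑_{τ ≠ τ0} y_τ σ_τ`; if `y` is a cocycle apply `dd`: `y_τ = dd y τ = 0`. (Alternatively: dimension count over `ℂ`, or: complex cocycles = span of integer cocycles.) -/

set_option autoImplicit false

open Matrix

namespace Pool.Agent.OL36

variable {Δ Q P : Type}

private theorem xs_s (Sf : Surf Δ Q P) [Fintype Δ] :
    ∃ s : Δ → Prop, ∀ d, s (Sf.α d) ↔ ¬ s d := by
  classical
  let e := Fintype.equivFin Δ
  refine ⟨fun d => e d < e (Sf.α d), fun d => ?_⟩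
  have h1 : e (Sf.α d) ≠ e d := fun h => Sf.α_ne d (e.injective h)
  show e (Sf.α d) < e (Sf.α (Sf.α d)) ↔ ¬ (e d < e (Sf.α d))
  rw [Sf.αα, not_lt]
  exact ⟨fun h => h.le, fun h => lt_of_le_of_ne h h1⟩

private theorem xs_bij (Sf : Surf Δ Q P) (s : Δ → Prop) (hs : ∀ d, s (Sf.α d) ↔ ¬ s d) :
    Function.Bijective (Sum.elim (fun i : {d // s d} => i.1) (fun i : {d // s d} => Sf.α i.1)) := by
  constructor
  · rintro (d | d) (d' | d') h
    · exact congrArg Sum.inl (Subtype.ext h)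
    · exfalso
      have h1 : d.1 = Sf.α d'.1 := h
      exact (hs d'.1).1 (h1 ▸ d.2) d'.2
    · exfalso
      have h1 : Sf.α d.1 = d'.1 := h
      exact (hs d.1).1 (h1.symm ▸ d'.2) d.2
    · have h1 : Sf.α d.1 = Sf.α d'.1 := h
      have h2 := congrArg Sf.α h1
      rw [Sf.αα, Sf.αα] at h2
      exact congrArg Sum.inr (Subtype.ext h2)
  · intro d
    by_cases h : s d
    · exact ⟨Sum.inl ⟨d, h⟩, rfl⟩
    · exact ⟨Sum.inr ⟨Sf.α d, (hs d).2 h⟩, Sf.αα d⟩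

private theorem xs_anti_ext (Sf : Surf Δ Q P) {S : Type} (s : S → Δ)
    (hs : Function.Bijective (Sum.elim s (fun i => Sf.α (s i)))) (y y' : Δ → ℂ)
    (hy : Sf.Anti y) (hy' : Sf.Anti y') (h : ∀ i, y (s i) = y' (s i)) (d : Δ) : y d = y' d := by
  obtain ⟨i | i, hi⟩ := hs.2 d
  · simp only [Sum.elim_inl] at hi
    rw [← hi, h i]
  · simp only [Sum.elim_inr] at hi
    rw [← hi, hy (s i), hy' (s i), h i]

private theorem xs_dd_sum (Sf : Surf Δ Q P) [Fintype Δ] [DecidableEq Q] {I : Type} [Fintype I]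
    (c : I → ℂ) (B : I → Δ → ℂ) (τ : Q) :
    Sf.dd (fun d => ∑ r, c r * B r d) τ = ∑ r, c r * Sf.dd (B r) τ := by
  simp only [Surf.dd, Finset.mul_sum]
  rw [Finset.sum_comm]
  refine Finset.sum_congr rfl fun d _ => ?_
  split_ifs <;> simp

private theorem xs_comb (Sf : Surf Δ Q P) {S I : Type} [Fintype S] [DecidableEq S] [Fintype I]
    [DecidableEq I] (s : S → Δ)
    (hs : Function.Bijective (Sum.elim s (fun i => Sf.α (s i)))) (B : I → Δ → ℂ)
    (hB : ∀ r, Sf.Anti (B r)) (e : I ≃ S)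
    (hK : dsq (fun (r : I) (i : S) => B r (s i)) = 1) (y : Δ → ℂ) (hy : Sf.Anti y) :
    ∃ c : I → ℂ, ∀ d, y d = ∑ r, c r * B r d := by
  have hdet : (Matrix.submatrix (fun (r : I) (i : S) => B r (s i)) id e).det ^ 2 = 1 := by
    rw [← dsq_eq e]; exact hK
  set K' : Matrix I I ℂ := Matrix.submatrix (fun (r : I) (i : S) => B r (s i)) id e with hK'
  have hne : IsUnit K'.det := by
    rw [isUnit_iff_ne_zero]
    intro h0
    rw [h0] at hdet
    norm_num at hdet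
  refine ⟨(fun j => y (s (e j))) ᵥ* K'⁻¹, ?_⟩
  set c := (fun j => y (s (e j))) ᵥ* K'⁻¹ with hc
  have h1 : c ᵥ* K' = fun j => y (s (e j)) := by
    rw [hc, vecMul_vecMul, nonsing_inv_mul _ hne, vecMul_one]
  refine xs_anti_ext Sf s hs y _ hy ?_ ?_
  · intro d
    rw [← Finset.sum_neg_distrib]
    exact Finset.sum_congr rfl fun r _ => by rw [hB r d]; ring
  · intro i
    have h2 := congrFun h1 (e.symm i)
    simp only [vecMul, dotProduct, hK', submatrix_apply, id, Equiv.apply_symm_apply] at h2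
    exact h2.symm

private theorem xs_dd_cast (Sf : Surf Δ Q P) [Fintype Δ] [DecidableEq Q] (y : Δ → ℤ) (τ : Q) :
    Sf.dd (fun d => (y d : ℂ)) τ = ((Sf.dd y τ : ℤ) : ℂ) := by
  simp only [Surf.dd]
  push_cast
  rfl

private theorem xs_cyc_cast (Sf : Surf Δ Q P) (y : Δ → ℤ) (h : Sf.Cyc y) :
    Sf.Cyc (fun d => (y d : ℂ)) := by
  refine ⟨fun d => ?_, fun d => ?_⟩
  · show ((y (Sf.α d) : ℤ) : ℂ) = -((y d : ℤ) : ℂ)
    rw [h.1 d]
    push_cast
    rfl
  · show ((y d : ℤ) : ℂ) + ((y (Sf.φ d) : ℤ) : ℂ) + ((y (Sf.φ (Sf.φ d)) : ℤ) : ℂ) = 0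
    have := h.2 d
    exact_mod_cast this

private def xs_eQ [DecidableEq Q] (τ0 : Q) : Unit ⊕ {τ : Q // τ ≠ τ0} ≃ Q where
  toFun := Sum.elim (fun _ => τ0) (fun τ => τ.1)
  invFun τ := if h : τ = τ0 then Sum.inl () else Sum.inr ⟨τ, h⟩
  left_inv := by
    rintro (u | τ)
    · simp
    · simp [τ.2]
  right_inv := by
    intro τ
    by_cases h : τ = τ0
    · simp [h]
    · simp [h]

private theorem xs_sum_ne [Fintype P] [DecidableEq P] (p0 : P) (g f : P → ℂ)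
    (hf : ∀ p, p ≠ p0 → f p = g p) (hf0 : f p0 = 0) (q : P) :
    ∑ p : {p : P // p ≠ p0}, g p.1 * (if q = p.1 then (1 : ℂ) else 0) = f q := by
  by_cases h : q = p0
  · rw [h, hf0]
    refine Finset.sum_eq_zero fun p _ => ?_
    rw [if_neg (fun h => p.2 h.symm), mul_zero]
  · rw [Finset.sum_eq_single (⟨q, h⟩ : {p : P // p ≠ p0})]
    · rw [if_pos rfl, mul_one, hf q h]
    · intro p _ hp
      rw [if_neg (fun h => hp (Subtype.ext h.symm)), mul_zero]
    · intro h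
      exact absurd (Finset.mem_univ _) h

theorem Surf.spanC (Sf : Surf Δ Q P) [Nonempty Δ] [Fintype Δ] [DecidableEq Δ] [Fintype Q]
    [DecidableEq Q] [Fintype P] [DecidableEq P]
    (hchi : 2 * Fintype.card P + 2 * Fintype.card Q = Fintype.card Δ) :
    ∃ x0 y0 : Δ → ℤ, Sf.Cyc x0 ∧ Sf.Cyc y0 ∧ (Sf.J x0 y0 = 6 ∨ Sf.J x0 y0 = -6) ∧
      (∀ y : Δ → ℤ, Sf.Cyc y → ∃ (a b : ℤ) (f : P → ℤ),
        ∀ d, y d = a * x0 d + b * y0 d + Sf.dl f d) ∧
      (∀ y : Δ → ℂ, Sf.Cyc y → ∃ (a b : ℂ) (f : P → ℂ),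
        ∀ d, y d = a * x0 d + b * y0 d + Sf.dl f d) := by
  classical
  obtain ⟨x0, y0, hx, hy, hspan, hind⟩ := Sf.basisZ hchi
  have huni := Sf.unimod x0 y0 hx hy hspan hind
  refine ⟨x0, y0, hx, hy, huni, hspan, fun y hyc => ?_⟩
  obtain ⟨dd0⟩ := ‹Nonempty Δ›
  let p0 : P := Sf.vm dd0
  let τ0 : Q := Sf.qm dd0
  obtain ⟨sp, hsp⟩ := xs_s Sf
  let S := {d : Δ // sp d}
  let s : S → Δ := fun i => i.1
  have hs : Function.Bijective (Sum.elim s (fun i => Sf.α (s i))) := xs_bij Sf sp hsp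
  have : Nonempty Δ := ⟨dd0⟩
  choose σ0 hσ0 hσd0 using fun τ : {τ : Q // τ ≠ τ0} => Sf.sigma τ.1 τ0
  have hK := Sf.unim hchi x0 y0 hx hy hspan s hs p0 τ0 σ0 hσ0 hσd0
  have cQ : 1 + Fintype.card {τ : Q // τ ≠ τ0} = Fintype.card Q := by
    have := Fintype.card_congr (xs_eQ τ0)
    simpa using this
  have cP : 1 + Fintype.card {p : P // p ≠ p0} = Fintype.card P := by
    have := Fintype.card_congr (xs_eQ p0)
    simpa using this
  have cS : Fintype.card S + Fintype.card S = Fintype.card Δ := by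
    have := Fintype.card_congr (Equiv.ofBijective _ hs)
    simpa using this
  have eS : {p : P // p ≠ p0} ⊕ (Fin 2 ⊕ {τ : Q // τ ≠ τ0}) ≃ S :=
    Fintype.equivOfCardEq (by simp only [Fintype.card_sum, Fintype.card_fin]; omega)
  set B : ({p : P // p ≠ p0} ⊕ (Fin 2 ⊕ {τ : Q // τ ≠ τ0})) → Δ → ℂ := fun r d =>
    ((Sum.elim (fun p => Sf.dl (fun p' => if p' = p.1 then (1 : ℤ) else 0) d)
        (Sum.elim (fun k => (![x0 d, y0 d] : Fin 2 → ℤ) k) (fun τ => σ0 τ d)) r : ℤ) : ℂ) with hBdef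
  have hK1 : dsq (fun (r : {p : P // p ≠ p0} ⊕ (Fin 2 ⊕ {τ : Q // τ ≠ τ0})) (i : S) =>
      B r (s i)) = 1 := hK
  have hBp : ∀ p : {p : P // p ≠ p0}, B (Sum.inl p) =
      Sf.dl (fun p' => if p' = p.1 then (1 : ℂ) else 0) := by
    intro p
    funext d
    simp only [hBdef, Sum.elim_inl, Surf.dl]
    push_cast
    rfl
  have hB0 : B (Sum.inr (Sum.inl 0)) = fun d => (x0 d : ℂ) := by
    funext d; simp [hBdef]
  have hB1 : B (Sum.inr (Sum.inl 1)) = fun d => (y0 d : ℂ) := by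
    funext d; simp [hBdef]
  have hBs : ∀ τ, B (Sum.inr (Sum.inr τ)) = fun d => (σ0 τ d : ℂ) := by
    intro τ; funext d; simp [hBdef]
  have hXc : Sf.Cyc (fun d => (x0 d : ℂ)) := xs_cyc_cast Sf x0 hx
  have hYc : Sf.Cyc (fun d => (y0 d : ℂ)) := xs_cyc_cast Sf y0 hy
  have hBcyc : ∀ r, (∀ τ, r ≠ Sum.inr (Sum.inr τ)) → Sf.Cyc (B r) := by
    rintro (p | k | τ) hr
    · rw [hBp p]; exact Sf.dl_cyc _
    · fin_cases k
      · exact hB0 ▸ hXc
      · exact hB1 ▸ hYc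
    · exact absurd rfl (hr τ)
  have hBanti : ∀ r, Sf.Anti (B r) := by
    rintro (p | k | τ)
    · exact (hBcyc _ (by intro τ; simp)).1
    · exact (hBcyc _ (by intro τ; simp)).1
    · rw [hBs τ]
      intro d
      show ((σ0 τ (Sf.α d) : ℤ) : ℂ) = -((σ0 τ d : ℤ) : ℂ)
      rw [hσ0 τ d]
      push_cast
      rfl
  have hBdd0 : ∀ r, (∀ τ, r ≠ Sum.inr (Sum.inr τ)) → ∀ τ', Sf.dd (B r) τ' = 0 := fun r hr =>
    ((Sf.cyc_iff _).1 (hBcyc r hr)).2
  have hBdds : ∀ τ τ' : {τ : Q // τ ≠ τ0}, Sf.dd (B (Sum.inr (Sum.inr τ))) τ'.1 =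
      if τ' = τ then 1 else 0 := by
    intro τ τ'
    rw [hBs τ, xs_dd_cast, hσd0 τ τ'.1]
    simp only [τ'.2, if_false, sub_zero, Subtype.ext_iff]
    push_cast
    rfl
  obtain ⟨c, hc⟩ := xs_comb Sf s hs B hBanti eS hK1 y hyc.1
  have hcτ : ∀ τ : {τ : Q // τ ≠ τ0}, c (Sum.inr (Sum.inr τ)) = 0 := by
    intro τ
    have h0 : Sf.dd y τ.1 = 0 := ((Sf.cyc_iff _).1 hyc).2 _
    have h1 : y = fun d => ∑ r, c r * B r d := funext hc
    rw [h1, xs_dd_sum, Fintype.sum_sum_type, Fintype.sum_sum_type] at h0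
    have z1 : ∀ p : {p : P // p ≠ p0}, Sf.dd (B (Sum.inl p)) τ.1 = 0 := fun p =>
      hBdd0 _ (by intro τ; simp) _
    have z2 : ∀ k : Fin 2, Sf.dd (B (Sum.inr (Sum.inl k))) τ.1 = 0 := fun k =>
      hBdd0 _ (by intro τ; simp) _
    simp only [z1, z2, hBdds, mul_zero, Finset.sum_const_zero, zero_add, mul_ite, mul_one] at h0
    rw [Finset.sum_ite_eq] at h0
    simpa using h0
  let f : P → ℂ := fun p => if h : p ≠ p0 then c (Sum.inl ⟨p, h⟩) else 0
  refine ⟨c (Sum.inr (Sum.inl 0)), c (Sum.inr (Sum.inl 1)), f, fun d => ?_⟩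
  rw [hc d, Fintype.sum_sum_type, Fintype.sum_sum_type, Fin.sum_univ_two, hB0, hB1]
  have h1 : ∑ τ, c (Sum.inr (Sum.inr τ)) * B (Sum.inr (Sum.inr τ)) d = 0 :=
    Finset.sum_eq_zero fun τ _ => by rw [hcτ τ, zero_mul]
  have h2 : ∑ p, c (Sum.inl p) * B (Sum.inl p) d = Sf.dl f d := by
    have e : ∀ q : P, ∑ p : {p : P // p ≠ p0}, c (Sum.inl p) * (if q = p.1 then (1 : ℂ) else 0) =
        f q := by
      intro q
      have e1 := xs_sum_ne p0 f f (fun _ _ => rfl) (by simp [f]) q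
      rw [← e1]
      refine Finset.sum_congr rfl fun p _ => ?_
      have : f p.1 = c (Sum.inl p) := by simp [f, p.2]
      rw [this]
    rw [Surf.dl, ← e (Sf.vm d), ← e (Sf.vm (Sf.φ (Sf.φ d))), ← Finset.sum_sub_distrib]
    refine Finset.sum_congr rfl fun p _ => ?_
    rw [hBp p]
    show _ * (_ - _) = _
    ring
  rw [h1, h2]
  ring

end Pool.Agent.OL36
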