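import Pool.Agent.LibOL36.KB
import Pool.Agent.LibOL36.KC
import Pool.Agent.LibOL36.KD
import Pool.Agent.LibOL36.KE
import Pool.Agent.LibOL36.KF
import Pool.Agent.LibOL36.XS
import Pool.Agent.LibOL36.T1
import Pool.Agent.LibOL36.M1
import Pool.Agent.LibOL36.Fin
import Pool.Agent.LibOL36.TDefs2

/-! # The matrix of the 1-loop invariant is invertible for geometric triangulations -/

set_option autoImplicit false

open Matrix

namespace Pool.Agent.OL36

variable {N : ℕ}

/-- Isotropy. -/
theorem BB_zero (T : Tri N) (E : Fin N → Fin N × Fin 4 × Fin 4) (hE : IsEdges T E)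
    (Sf : Surf (Dt N) (Fin N × Fin 4) (Fin N × Bool)) (hα : Sf.α = T.al)
    (hq : Sf.qm = fun d => (d.1, d.2.1 0))
    (hv : Sf.vm = fun d => vmE T E d.1 (d.2.1 0) (d.2.1 1))
    (x0 y0 : Dt N → ℤ) (hx0 : Sf.Cyc x0) (hy0 : Sf.Cyc y0)
    (hspan : ∀ y : Dt N → ℂ, Sf.Cyc y → ∃ (a b : ℂ) (f : Fin N × Bool → ℂ),
        ∀ d, y d = a * x0 d + b * y0 d + Sf.dl f d)
    (θ η : Fin 3 → Fin N → ℂ) (hθ : Sum0 θ) (hGθ : EE0 T θ) (hη : Sum0 η) (hGη : EE0 T η)
    (hx : ∑ d, (x0 d : ℂ) * cc θ d = 0) (hy : ∑ d, (y0 d : ℂ) * cc θ d = 0) : BB θ η = 0 := by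
  classical
  set y : Dt N → ℂ := fun d => cc θ d - cc θ (T.al d) with hyd
  have hanti : Sf.Anti y := by
    intro d
    rw [hα, hyd]
    simp only [al_al]
    ring
  have hpair : ∀ c : Dt N → ℤ, Sf.Cyc c → ∑ d, (c d : ℂ) * cc θ d = 0 →
      ∑ d, y d * (c d : ℂ) = 0 := by
    intro c hc h0
    have h1 : ∑ d, cc θ (T.al d) * (c d : ℂ) = ∑ d, cc θ d * (c (T.al d) : ℂ) := by
      have := (Equiv.sum_comp (⟨T.al, T.al, al_al T, al_al T⟩ : Equiv (Dt N) (Dt N))
        (fun d => cc θ d * (c (T.al d) : ℂ)))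
      rw [← this]
      refine Finset.sum_congr rfl (fun d _ => ?_)
      show cc θ (T.al d) * (c d : ℂ) = cc θ (T.al d) * (c (T.al (T.al d)) : ℂ)
      rw [al_al]
    have h2 : ∀ d, c (T.al d) = -c d := by
      intro d; have := hc.1 d; rwa [hα] at this
    have h3 : ∑ d, y d * (c d : ℂ) = 2 * ∑ d, (c d : ℂ) * cc θ d := by
      simp only [hyd, sub_mul, Finset.sum_sub_distrib]
      rw [h1, Finset.mul_sum, ← Finset.sum_sub_distrib]
      refine Finset.sum_congr rfl (fun d _ => ?_)
      rw [h2 d]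
      push_cast
      ring
    rw [h3, h0, mul_zero]
  have hvert : ∀ p, ∑ d, (if Sf.vm d = p then y d else 0) = 0 := by
    intro p
    rw [hv]
    have := cc_vertex T E hE θ hθ p
    rw [hGθ p.1, neg_zero] at this
    exact this
  have hall : ∀ c : Dt N → ℂ, Sf.Cyc c → ∑ d, y d * c d = 0 := by
    intro c hc
    obtain ⟨a, b, f, hf⟩ := hspan c hc
    have h1 := hpair x0 hx0 hx
    have h2 := hpair y0 hy0 hy
    have h3 := Sf.pair_dl y hanti hvert f
    have : ∑ d, y d * c d = a * ∑ d, y d * (x0 d : ℂ) + b * ∑ d, y d * (y0 d : ℂ) +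
        ∑ d, y d * Sf.dl f d := by
      rw [Finset.mul_sum, Finset.mul_sum, ← Finset.sum_add_distrib, ← Finset.sum_add_distrib]
      refine Finset.sum_congr rfl (fun d _ => ?_)
      rw [hf d]
      ring
    rw [this, h1, h2, h3]
    ring
  obtain ⟨h, hh⟩ := Sf.exact_of_pair y hanti hall
  obtain ⟨s, hs⟩ := rec_s T θ hθ h (by
    intro d
    have := hh d
    rw [hq, hα] at this
    exact this)
  exact BB_comb T θ η s hs hη hGη

theorem Gz_col (T : Tri N) (z : Fin N → ℂ) (hz : ∀ j, z j ≠ 0 ∧ z j ≠ 1) (j : Fin N) :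
    ∑ e, Gz T z e j = 0 := by
  classical
  have h : ∀ e, Gz T z e j =
      zeta 0 (z j) * ((if T.edge j 0 1 = e then 1 else 0) + (if T.edge j 2 3 = e then 1 else 0)) +
      zeta 1 (z j) * ((if T.edge j 0 3 = e then 1 else 0) + (if T.edge j 1 2 = e then 1 else 0)) +
      zeta 2 (z j) * ((if T.edge j 0 2 = e then 1 else 0) + (if T.edge j 1 3 = e then 1 else 0)) := by
    intro e
    exact G_sum T e j (fun t => zeta t (z j))
  simp only [h, Finset.sum_add_distrib, ← Finset.mul_sum]
  simp
  linear_combination (2 : ℂ) * zeta_sum (z j) (hz j).1 (hz j).2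

/-- The determinant does not vanish. -/
theorem det_ne (T : Tri N) (z : Fin N → ℂ) (him : ∀ j, 0 < (z j).im)
    (u : Fin N → Fin 4 → Fin 2 → ℂ) (hu : IsDec T z u) (E : Fin N → Fin N × Fin 4 × Fin 4)
    (hE : IsEdges T E) (γ : Curve T) (e₀ : Fin N) (h : trl u γ ≠ 0) :
    (hatG T z γ e₀).det ≠ 0 := by
  classical
  have hz : ∀ j, z j ≠ 0 ∧ z j ≠ 1 := by
    intro j
    constructor
    · intro h0; have := him j; rw [h0] at this; simp at this
    · intro h0; have := him j; rw [h0] at this; simp at this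
  obtain ⟨Sf, hα, hφ, hq, hv⟩ := exists_surf T E hE
  have hne : Nonempty (Dt N) := ⟨(e₀, ⟨1, by simp⟩)⟩
  have hcardD : 2 * Fintype.card (Fin N × Bool) + 2 * Fintype.card (Fin N × Fin 4) =
      Fintype.card (Dt N) := by
    have h12 : Fintype.card {π : Equiv.Perm (Fin 4) // Equiv.Perm.sign π = 1} = 12 := by decide
    rw [Fintype.card_prod, Fintype.card_prod, Fintype.card_prod, h12]
    simp
    ring
  obtain ⟨x0, y0, hx0, hy0, -, -, hspan⟩ := Sf.spanC hcardD
  set θ : (Fin N → ℂ) → Fin 3 → Fin N → ℂ := fun x t j => x j * zeta t (z j) with hθ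
  have hsum : ∀ x, Sum0 (θ x) := by
    intro x j
    simp only [hθ]
    linear_combination x j * zeta_sum (z j) (hz j).1 (hz j).2
  have hEE : ∀ x : Fin N → ℂ, (∀ e, ∑ j, Gz T z e j * x j = 0) → EE0 T (θ x) := by
    intro x hx e
    rw [← hx e]
    refine Finset.sum_congr rfl (fun j _ => ?_)
    simp only [Gz, hθ, Finset.sum_mul]
    exact Finset.sum_congr rfl (fun t _ => by ring)
  set δ : (Dt N → ℤ) → (Fin N → ℂ) → ℂ := fun c x => ∑ d, (c d : ℂ) * cc (θ x) d with hδ
  have hccl : ∀ (a b : ℂ) (x y : Fin N → ℂ) d,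
      cc (θ (fun j => a * x j + b * y j)) d = a * cc (θ x) d + b * cc (θ y) d := by
    intro a b x y d
    simp only [cc, hθ]
    ring
  have hlin : ∀ (c : Dt N → ℤ) (a b : ℂ) (x y : Fin N → ℂ),
      δ c (fun j => a * x j + b * y j) = a * δ c x + b * δ c y := by
    intro c a b x y
    simp only [hδ, hccl]
    rw [Finset.mul_sum, Finset.mul_sum, ← Finset.sum_add_distrib]
    exact Finset.sum_congr rfl (fun d _ => by ring)
  -- real peripheral values
  have hreal : ∀ x : Fin N → ℂ, (∀ e, ∑ j, Gz T z e j * x j = 0) →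
      (starRingEnd ℂ) (δ x0 x) = δ x0 x → (starRingEnd ℂ) (δ y0 x) = δ y0 x → x = 0 := by
    intro x hx h1 h2
    set η : Fin 3 → Fin N → ℂ := fun t j => (starRingEnd ℂ) (x j * zeta t (z j)) with hη
    have hη0 : Sum0 η := by
      intro j
      have := hsum x j
      simp only [hθ] at this
      simp only [hη]
      rw [← map_add, ← map_add, this, map_zero]
    have hηE : EE0 T η := by
      intro e
      have := hEE x hx e
      have h3 := congrArg (starRingEnd ℂ) this
      rw [map_sum, map_zero] at h3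
      rw [← h3]
      refine Finset.sum_congr rfl (fun j _ => ?_)
      rw [map_sum]
      refine Finset.sum_congr rfl (fun t _ => ?_)
      rw [map_mul]
      simp [hη, hθ]
    have hccη : ∀ d, cc η d = (starRingEnd ℂ) (cc (θ x) d) := by
      intro d
      simp only [cc, hη, hθ, map_div₀, map_sub]
      rw [show (starRingEnd ℂ) 3 = 3 from map_ofNat _ 3]
    set ξ : Fin 3 → Fin N → ℂ := fun t j => θ x t j - η t j with hξ
    have hccξ : ∀ d, cc ξ d = cc (θ x) d - (starRingEnd ℂ) (cc (θ x) d) := by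
      intro d
      rw [← hccη d]
      simp only [cc, hξ]
      ring
    have hξ0 : Sum0 ξ := by
      intro j
      have a1 := hsum x j
      have a2 := hη0 j
      simp only [hξ]
      linear_combination a1 - a2
    have hξE : EE0 T ξ := by
      intro e
      have a1 := hEE x hx e
      have a2 := hηE e
      have : ∑ j, ∑ t, (T.G t e j : ℂ) * ξ t j =
          ∑ j, ∑ t, (T.G t e j : ℂ) * θ x t j - ∑ j, ∑ t, (T.G t e j : ℂ) * η t j := by
        rw [← Finset.sum_sub_distrib]
        refine Finset.sum_congr rfl (fun j _ => ?_)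
        rw [← Finset.sum_sub_distrib]
        exact Finset.sum_congr rfl (fun t _ => by simp only [hξ]; ring)
      rw [this, a1, a2, sub_zero]
    have hpair : ∀ c : Dt N → ℤ, (starRingEnd ℂ) (δ c x) = δ c x →
        ∑ d, (c d : ℂ) * cc ξ d = 0 := by
      intro c hc
      have h4 : (starRingEnd ℂ) (δ c x) = ∑ d, (c d : ℂ) * (starRingEnd ℂ) (cc (θ x) d) := by
        simp only [hδ]
        rw [map_sum]
        refine Finset.sum_congr rfl (fun d _ => ?_)
        rw [map_mul]
        simp
      simp only [hccξ, mul_sub, Finset.sum_sub_distrib]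
      rw [← h4, hc]
      simp [hδ]
    have hB := BB_zero T E hE Sf hα hq hv x0 y0 hx0 hy0 hspan ξ η hξ0 hξE hη0 hηE
      (hpair x0 h1) (hpair y0 h2)
    apply BB_def z him x
    have : BB (θ x) η = BB ξ η := by
      simp only [BB]
      refine Finset.sum_congr rfl (fun j _ => ?_)
      simp only [hξ]
      ring
    have h5 : BB (fun t j => x j * zeta t (z j))
        (fun t j => (starRingEnd ℂ) (x j * zeta t (z j))) = BB (θ x) η := rfl
    rw [h5, this, hB]
  -- the dilation vector
  set a : Fin N → ℂ := fun j => ∑ τ, rr z u j τ with ha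
  have haG : ∀ e, ∑ j, Gz T z e j * a j = 0 := by
    intro e
    have h1 : ∑ τ : Fin N × Fin 4, ∑ d : Dt N, (if (d.1, d.2.1 0) = τ then VV T u e d else 0) = 0 := by
      rw [sum_fib (fun d : Dt N => (d.1, d.2.1 0)) (VV T u e)]
      exact anti_sum Sf _ (by rw [hα]; exact VV_al T z u hu e)
    rw [← h1]
    simp only [dd_VV T z hz u hu e, ha, Finset.mul_sum]
    exact Finset.sum_comm
  have haC : ∑ j, Cz z γ j * a j = -trl u γ := trans_eq T z hz u hu γ
  intro hdet
  obtain ⟨x, hx0', hx⟩ := Matrix.exists_mulVec_eq_zero_iff.mpr hdet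
  rw [hatG_eq] at hx
  have hxC : ∑ j, Cz z γ j * x j = 0 := by
    have := congrFun hx e₀
    simpa [Matrix.mulVec, dotProduct, Matrix.updateRow_self] using this
  have hxG1 : ∀ e, e ≠ e₀ → ∑ j, Gz T z e j * x j = 0 := by
    intro e he
    have := congrFun hx e
    simpa [Matrix.mulVec, dotProduct, Matrix.updateRow_ne he] using this
  have hxG : ∀ e, ∑ j, Gz T z e j * x j = 0 := by
    intro e
    by_cases he : e = e₀
    · subst he
      have h1 : ∑ e', ∑ j, Gz T z e' j * x j = 0 := by
        rw [Finset.sum_comm]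
        refine Finset.sum_eq_zero (fun j _ => ?_)
        rw [← Finset.sum_mul, Gz_col T z hz j, zero_mul]
      rw [← Finset.add_sum_erase _ _ (Finset.mem_univ e)] at h1
      have h2 : ∑ e' ∈ Finset.univ.erase e, ∑ j, Gz T z e' j * x j = 0 :=
        Finset.sum_eq_zero (fun e' he' => hxG1 e' (Finset.ne_of_mem_erase he'))
      rw [h2, add_zero] at h1
      exact h1
    · exact hxG1 e he
  have hcomb : ∀ α β : ℂ, ∀ e, ∑ j, Gz T z e j * (α * x j + β * a j) = 0 := by
    intro α β e
    have : ∑ j, Gz T z e j * (α * x j + β * a j) =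
        α * ∑ j, Gz T z e j * x j + β * ∑ j, Gz T z e j * a j := by
      rw [Finset.mul_sum, Finset.mul_sum, ← Finset.sum_add_distrib]
      exact Finset.sum_congr rfl (fun j _ => by ring)
    rw [this, hxG e, haG e]
    ring
  have hcombC : ∀ α β : ℂ, ∑ j, Cz z γ j * (α * x j + β * a j) = -β * trl u γ := by
    intro α β
    have : ∑ j, Cz z γ j * (α * x j + β * a j) =
        α * ∑ j, Cz z γ j * x j + β * ∑ j, Cz z γ j * a j := by
      rw [Finset.mul_sum, Finset.mul_sum, ← Finset.sum_add_distrib]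
      exact Finset.sum_congr rfl (fun j _ => by ring)
    rw [this, hxC, haC]
    ring
  set D := δ x0 x * δ y0 a - δ y0 x * δ x0 a with hD
  by_cases hD0 : D = 0
  · -- dependent
    have key : ∀ c : Dt N → ℤ, (c = x0 ∨ c = y0) → δ c x = 0 := by
      intro c hc
      have hv1 : (fun j => δ c a * x j + (-δ c x) * a j) = 0 := by
        refine hreal _ (hcomb _ _) ?_ ?_
        · rw [hlin]
          have : δ c a * δ x0 x + -δ c x * δ x0 a = 0 := by
            rcases hc with rfl | rfl
            · ring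
            · linear_combination hD0
          rw [this, map_zero]
        · rw [hlin]
          have : δ c a * δ y0 x + -δ c x * δ y0 a = 0 := by
            rcases hc with rfl | rfl
            · linear_combination -hD0
            · ring
          rw [this, map_zero]
      have h1 := hcombC (δ c a) (-δ c x)
      have h2 : ∑ j, Cz z γ j * (δ c a * x j + -δ c x * a j) = 0 := by
        refine Finset.sum_eq_zero (fun j _ => ?_)
        have := congrFun hv1 j
        simp only [Pi.zero_apply] at this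
        rw [this, mul_zero]
      rw [h2] at h1
      have h3 : δ c x * trl u γ = 0 := by linear_combination -h1
      exact (mul_eq_zero.mp h3).resolve_right h
    refine hx0' (hreal x hxG ?_ ?_)
    · rw [key x0 (Or.inl rfl), map_zero]
    · rw [key y0 (Or.inr rfl), map_zero]
  · -- independent
    have e1 : δ x0 (fun j => (δ y0 a / D) * x j + (-(δ y0 x / D)) * a j) = 1 := by
      rw [hlin]
      field_simp
      rw [hD]
      ring
    have e2 : δ y0 (fun j => (δ y0 a / D) * x j + (-(δ y0 x / D)) * a j) = 0 := by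
      rw [hlin]
      field_simp
      ring
    have h0 := hreal _ (hcomb (δ y0 a / D) (-(δ y0 x / D))) (by rw [e1, map_one])
      (by rw [e2, map_zero])
    rw [h0] at e1
    simp [hδ, hθ, cc] at e1

end Pool.Agent.OL36
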