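import Pool.Agent.LibOL36.Defs

/-! Local algebra in one tetrahedron. -/

set_option autoImplicit false

open Matrix

namespace Pool.Agent.OL36

/-- The symplectic form. -/
def om (x y : Fin 2 → ℂ) : ℂ := x 0 * y 1 - x 1 * y 0

/-- The side of the link triangle at `a` between the edges `ab` and `ac`. -/
noncomputable def Lk (a b c : Fin 2 → ℂ) : ℂ := om b c / (om a b * om a c)

/-- The infinitesimal dilation with axis `ab`. -/
noncomputable def Hm (a b : Fin 2 → ℂ) : M2 :=
  (-(1 / (2 * om a b))) • (nil (a + b) - nil a - nil b)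

/-- The coefficients of the linear relation between four nilpotents. -/
noncomputable def rh (a b c d : Fin 2 → ℂ) : ℂ := 1 / (om a b * om a c * om a d)

theorem om_comm (x y : Fin 2 → ℂ) : om y x = -om x y := by unfold om; ring

theorem om_ne_comm {x y : Fin 2 → ℂ} (h : om x y ≠ 0) : om y x ≠ 0 := by
  rw [om_comm]; exact neg_ne_zero.mpr h

theorem M2_ext {A B : M2} (h : ∀ i j, A i j = B i j) : A = B := by ext i j; exact h i j

theorem hm_face (u v w : Fin 2 → ℂ) (h1 : om u v ≠ 0) (h2 : om v w ≠ 0) (h3 : om u w ≠ 0) :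
    Hm u v = (Lk w u v / 2) • nil w - (Lk u v w / 2) • nil u - (Lk v w u / 2) • nil v := by
  have h2' : om w v ≠ 0 := om_ne_comm h2
  have h3' : om w u ≠ 0 := om_ne_comm h3
  have h1' : om v u ≠ 0 := om_ne_comm h1
  apply M2_ext
  intro i j
  fin_cases i <;> fin_cases j <;>
    simp [Hm, nil, Lk] <;> field_simp <;> unfold om at * <;> ring

theorem hm_comm (u v : Fin 2 → ℂ) : Hm v u = -Hm u v := by
  apply M2_ext
  intro i j
  rw [Hm, Hm, om_comm u v, add_comm v u]
  simp only [Matrix.smul_apply, Matrix.neg_apply, Matrix.sub_apply, smul_eq_mul, mul_neg, neg_neg,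
    div_neg, one_div]
  ring

theorem rel4 (a b c d : Fin 2 → ℂ) (h1 : om a b ≠ 0) (h2 : om a c ≠ 0) (h3 : om a d ≠ 0)
    (h4 : om b c ≠ 0) (h5 : om b d ≠ 0) (h6 : om c d ≠ 0) :
    rh a b c d • nil a + rh b c d a • nil b + rh c d a b • nil c + rh d a b c • nil d = 0 := by
  have h1' := om_ne_comm h1
  have h2' := om_ne_comm h2
  have h3' := om_ne_comm h3
  have h4' := om_ne_comm h4
  have h5' := om_ne_comm h5
  have h6' := om_ne_comm h6
  apply M2_ext
  intro i j
  fin_cases i <;> fin_cases j <;>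
    simp [nil, rh] <;> field_simp <;> unfold om at * <;> ring

theorem det_face (u v w : Fin 2 → ℂ) :
    Matrix.det (![co (nil u), co (nil v), co (nil w)] : Matrix (Fin 3) (Fin 3) ℂ) =
      om u v * om v w * om w u := by
  rw [Matrix.det_fin_three]
  simp [co, nil, om]
  ring

theorem det_edge (a b : Fin 2 → ℂ) (h : om a b ≠ 0) :
    Matrix.det (![co (nil a), co (-nil b), co (Hm a b)] : Matrix (Fin 3) (Fin 3) ℂ) =
      om a b ^ 2 / 2 := by
  rw [Matrix.det_fin_three]
  simp [co, nil, Hm]
  field_simp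
  unfold om
  ring

/-- Plücker. -/
theorem plucker (a b c d : Fin 2 → ℂ) :
    om a b * om c d + om a c * om d b + om a d * om b c = 0 := by unfold om; ring

end Pool.Agent.OL36
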