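import Pool.Agent.LibOL36.Fin

/-! The main identity. -/

set_option autoImplicit false

open Matrix

namespace Pool.Agent.OL36

variable {N : ℕ}

/-- The identity between the determinants, without any non-vanishing assumption. -/
theorem main_key (T : Tri N) (z : Fin N → ℂ) (hz : ∀ j, z j ≠ 0 ∧ z j ≠ 1) (γ : Curve T)
    (e₀ : Fin N) (f : Fin 3 → Fin N → ℤ) (hf : T.Flat f)
    (g : Fin N → Fin 4 → M2) (P : Fin N → Fin 4 → M2) (F : Fin N ⊕ Fin N → Fin N × Fin 4)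
    (E : Fin N → Fin N × Fin 4 × Fin 4)
    (k₀ : Fin N × Fin 3) (w : Fin N × Fin 3 → Fin N → Fin 4 → Fin 4 → M2)
    (b : Fin N × Fin 3 → Fin N → Fin 4 → M2)
    (hg : IsHol T z g) (hP : IsPar T z g P) (hF : IsFaces T F) (hE : IsEdges T E)
    (hw : ∀ r, IsChain2 T g (w r)) (hb : ∀ r, IsChain1 T g (b r)) (hk₀ : w k₀ = torusCycle P)
    (A₀ A₁ A₂ : ℂ)
    (hA₀ : A₀ = Matrix.det (fun r c : Fin N × Fin 3 => co (bd1 (b r) c.1) c.2))
    (hA₁ : A₁ = Matrix.det (fun r c : (Fin N × Fin 3) ⊕ (Fin N × Fin 3) =>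
        co (Sum.elim (fun r => if r = k₀ then curveCycle γ P else bd2 (w r)) b r
          (F (Sum.map Prod.fst Prod.fst c)).1 (F (Sum.map Prod.fst Prod.fst c)).2)
          (Sum.elim Prod.snd Prod.snd c)))
    (hA₂ : A₂ = Matrix.det (fun r c : Fin N × Fin 3 =>
        co (w r (E c.1).1 (E c.1).2.1 (E c.1).2.2) c.2)) :
    A₁ ^ 2 * (4 * (∏ j, ∏ t, zeta t (z j) ^ (f t j)) ^ 2) =
      (hatG T z γ e₀).det ^ 2 * (A₀ ^ 2 * A₂ ^ 2) := by
  classical
  obtain ⟨u, hu, hPu⟩ := exists_dec T z hz g P hg hP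
  have hgn : ∀ j i a, a ≠ i →
      nil (u (T.nbr j i) (T.glue j i a)) = g j i * nil (u j a) * (g j i)⁻¹ := by
    intro j i a ha
    rw [← hPu, ← hPu]
    exact hP.2 j i a ha
  obtain ⟨Sf, hα, hφ, hq, hv⟩ := exists_surf T E hE
  obtain ⟨s, hs, hsb⟩ := exists_sd T F hF
  choose yb hyb1 hyb2 using fun r => coord1 T z g u hu hgn (b r) (hb r)
  choose f2 y2 h2 using fun r => coord2 T z g u hu hgn E hE (w r) (hw r)
  set fW : Fin N × Fin 3 → Fin N × Bool → ℂ := fun r => if r = k₀ then (fun _ => 1) else f2 r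
    with hfW
  set yW : Fin N × Fin 3 → Fin N → ℂ := fun r => if r = k₀ then (fun _ => 0) else y2 r with hyW
  have hW : ∀ r j a b, a ≠ b → w r j a b = ev2 T E u (fW r) (yW r) j a b := by
    intro r j a b hab
    by_cases hr : r = k₀
    · subst hr
      rw [hk₀]
      simp [torusCycle, ev2, hfW, hyW, hPu]
    · simp only [hfW, hyW, if_neg hr]
      exact h2 r j a b hab
  set W : Matrix (Fin N × Fin 3) (Fin N × Fin 3) ℂ := fun r c =>
    (![fW r (c.1, true), fW r (c.1, false), yW r c.1] : Fin 3 → ℂ) c.2 with hWdef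
  -- `A₂`
  have e2 : A₂ = W.det * ∏ e, (om (u (E e).1 (E e).2.1) (u (E e).1 (E e).2.2) ^ 2 / 2) := by
    rw [hA₂, hWdef, ← A2_eq T z u hu E hE fW yW]
    congr 1
    ext r c
    rw [hW r _ _ _ (hE c.1).1]
  -- `A₀`
  have e0 : A₀ ^ 2 = dsq (fun (x : Fin N ⊕ (Fin N × Fin 3)) (τ : Fin N × Fin 4) =>
        Sum.elim (rr z u)
          (fun r τ => ∑ d : Dt N, if (d.1, d.2.1 0) = τ then yb r d else 0) x τ) *
      ∏ j, (2 * kap z u j * six u j) ^ 2 := by
    rw [← A0_eq T z hz u hu yb, hA₀]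
    congr 2
    ext r c
    rw [hyb2 r]
  -- `A₁`
  set Yr : (Fin N × Fin 3) ⊕ (Fin N × Fin 3) → Dt N → ℂ :=
    Sum.elim (fun r => if r = k₀ then hc γ else
      (fun d => (fW r (vmE T E d.1 (d.2.1 0) (d.2.1 1)) -
        fW r (vmE T E d.1 (d.2.1 0) (d.2.1 3))) + ∑ e, yW r e * VV T u e d)) yb with hYr
  have e1 : A₁ ^ 2 = (Matrix.det (fun r c : (Fin N × Fin 3) ⊕ (Fin N × Fin 3) => Yr r (s c))) ^ 2 *
        ∏ k, tp u (F k) ^ 2 := by
    rw [← A1_eq u F s hs Yr, hA₁]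
    congr 2
    ext r c
    rcases r with r | r
    · simp only [Sum.elim_inl, hYr]
      by_cases hr : r = k₀
      · simp only [if_pos hr]
        have : P = fun j a => nil (u j a) := by funext j a; exact hPu j a
        rw [this, curve_ev T γ u]
      · simp only [if_neg hr]
        rw [bd2_ev T z u hu E hE (fW r) (yW r) (w r) (hW r)]
    · simp only [Sum.elim_inr, hYr]
      rw [hyb2 r]
  -- the matrix `D'`
  set D : Matrix ((Fin N × Fin 3) ⊕ (Fin N × Fin 3)) ((Fin N × Fin 3) ⊕ (Fin N × Fin 3)) ℂ :=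
    (fun r c : (Fin N × Fin 3) ⊕ (Fin N × Fin 3) =>
      Sum.elim (fun p : Fin N × Fin 3 =>
        (![Sf.dl (fun p' => if p' = (p.1, true) then (1 : ℂ) else 0) (s c),
           Sf.dl (fun p' => if p' = (p.1, false) then (1 : ℂ) else 0) (s c),
           VV T u p.1 (s c)] : Fin 3 → ℂ) p.2 + if p = (e₀, 0) then hc γ (s c) else 0)
        (fun r => yb r (s c)) r) with hD
  have hcore := det_core T z hz u hu E γ e₀ Sf hα hφ hq hv s hsb yb hyb1
  rw [← hD] at hcore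
  set B : Matrix ((Fin N × Fin 3) ⊕ (Fin N × Fin 3)) ((Fin N × Fin 3) ⊕ (Fin N × Fin 3)) ℂ :=
    Matrix.fromBlocks W 0 0 1 with hB
  have hBdet : B.det = W.det := by rw [hB, Matrix.det_fromBlocks_zero₁₂, Matrix.det_one, mul_one]
  have hBD : (B * D).det = Matrix.det
      (fun r c : (Fin N × Fin 3) ⊕ (Fin N × Fin 3) => Yr r (s c)) := by
    refine Matrix.det_eq_of_forall_row_eq_smul_add_const
      (Sum.elim (fun r => if r = k₀ then 0 else fW r (e₀, true)) (fun _ => 0)) (Sum.inl k₀)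
      (by simp) ?_
    intro i j
    rw [Matrix.mul_apply, Fintype.sum_sum_type]
    rcases i with i | i
    · simp only [hB, Matrix.fromBlocks_apply₁₁, Matrix.fromBlocks_apply₁₂, Matrix.zero_apply,
        zero_mul, Finset.sum_const_zero, add_zero, Sum.elim_inl]
      have hexp : ∑ x, W i x * D (Sum.inl x) j =
          (fW i (vmE T E (s j).1 ((s j).2.1 0) ((s j).2.1 1)) -
          fW i (vmE T E (s j).1 ((s j).2.1 0) ((s j).2.1 3))) + ∑ e, yW i e * VV T u e (s j) +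
          fW i (e₀, true) * hc γ (s j) := by
        simp only [hD, Sum.elim_inl, mul_add, Finset.sum_add_distrib]
        have h1 : ∑ x, W i x * (if x = (e₀, 0) then hc γ (s j) else 0) =
            fW i (e₀, true) * hc γ (s j) := by
          simp [hWdef]
        rw [h1]
        congr 1
        rw [Fintype.sum_prod_type]
        simp only [Fin.sum_univ_three, hWdef, Matrix.cons_val_zero, Matrix.cons_val_one,
          Matrix.cons_val_two, Matrix.head_cons, Matrix.tail_cons, Matrix.cons_val]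
        rw [Finset.sum_add_distrib]
        congr 1
        have hdl : ∀ (h : Fin N × Bool → ℂ) (d : Dt N), Sf.dl h d =
            h (vmE T E d.1 (d.2.1 0) (d.2.1 1)) - h (vmE T E d.1 (d.2.1 0) (d.2.1 3)) := by
          intro h d
          rw [Surf.dl, hv, hφ]
          rfl
        simp only [hdl]
        have key : ∀ v : Fin N × Bool, ∑ x, (fW i (x, true) * (if v = (x, true) then (1:ℂ) else 0) +
            fW i (x, false) * (if v = (x, false) then (1:ℂ) else 0)) = fW i v := by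
          rintro ⟨e, β⟩
          cases β <;> simp
        rw [← key (vmE T E (s j).1 ((s j).2.1 0) ((s j).2.1 1)),
          ← key (vmE T E (s j).1 ((s j).2.1 0) ((s j).2.1 3)), ← Finset.sum_sub_distrib]
        refine Finset.sum_congr rfl (fun x _ => ?_)
        ring
      rw [hexp]
      by_cases hi : i = k₀
      · subst hi
        simp [hYr, hfW, hyW]
      · simp only [hYr, Sum.elim_inl, if_neg hi, if_true]
    · simp only [hB, Matrix.fromBlocks_apply₂₁, Matrix.fromBlocks_apply₂₂, Matrix.zero_apply,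
        zero_mul, Finset.sum_const_zero, zero_add, Sum.elim_inr]
      simp [Matrix.one_apply, hD, hYr]
  rw [Matrix.det_mul, hBdet] at hBD
  have hZ := prod_zeta T z hz u hu E hE f hf
  have hF5 := prod_tp T z u hu F hF
  rw [← hBD, mul_pow, hF5] at e1
  -- final computation
  set Zf := ∏ j, ∏ t, zeta t (z j) ^ (f t j) with hZf
  set X := dsq (fun (x : Fin N ⊕ (Fin N × Fin 3)) (τ : Fin N × Fin 4) =>
        Sum.elim (rr z u)
          (fun r τ => ∑ d : Dt N, if (d.1, d.2.1 0) = τ then yb r d else 0) x τ) with hX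
  have hpr : ∏ j, (2 * kap z u j * six u j) ^ 2 =
      (4 : ℂ) ^ N * (∏ j, kap z u j) ^ 2 * ∏ j, six u j ^ 2 := by
    rw [← Finset.prod_pow]
    have : ∀ j, (2 * kap z u j * six u j) ^ 2 = 4 * (kap z u j ^ 2 * six u j ^ 2) := by
      intro j; ring
    simp only [this]
    rw [Finset.prod_mul_distrib, Finset.prod_mul_distrib, Finset.prod_const, Finset.card_univ,
      Fintype.card_fin]
    ring
  have hpr2 : (∏ e, (om (u (E e).1 (E e).2.1) (u (E e).1 (E e).2.2) ^ 2 / 2)) ^ 2 * (4 : ℂ) ^ N =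
      (∏ e, om (u (E e).1 (E e).2.1) (u (E e).1 (E e).2.2) ^ 2) ^ 2 := by
    rw [Finset.prod_div_distrib, Finset.prod_const, Finset.card_univ, Fintype.card_fin, div_pow]
    have : ((2 : ℂ) ^ N) ^ 2 = 4 ^ N := by rw [← pow_mul, mul_comm, pow_mul]; norm_num
    rw [this]
    field_simp
  have e2' : A₂ ^ 2 * (4 : ℂ) ^ N = W.det ^ 2 *
      (∏ e, om (u (E e).1 (E e).2.1) (u (E e).1 (E e).2.2) ^ 2) ^ 2 := by
    rw [e2, mul_pow, mul_assoc, hpr2]
  rw [hpr] at e0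
  have h4 : ((4 : ℂ) ^ N) ≠ 0 := pow_ne_zero _ (by norm_num)
  have : A₁ ^ 2 * (4 * Zf ^ 2) * (4 : ℂ) ^ N =
      (hatG T z γ e₀).det ^ 2 * (A₀ ^ 2 * A₂ ^ 2) * (4 : ℂ) ^ N := by
    calc A₁ ^ 2 * (4 * Zf ^ 2) * (4 : ℂ) ^ N
        = W.det ^ 2 * (D.det ^ 2 * 4) * (∏ j, six u j ^ 2) * Zf ^ 2 * (4 : ℂ) ^ N := by
          rw [e1]; ring
      _ = (hatG T z γ e₀).det ^ 2 * (X * ((4 : ℂ) ^ N * (∏ j, kap z u j) ^ 2 *
            ∏ j, six u j ^ 2)) * (W.det ^ 2 *
            (∏ e, om (u (E e).1 (E e).2.1) (u (E e).1 (E e).2.2) ^ 2) ^ 2) := by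
          rw [hcore, hZ]; ring
      _ = (hatG T z γ e₀).det ^ 2 * (A₀ ^ 2 * A₂ ^ 2) * (4 : ℂ) ^ N := by
          rw [← e0, ← e2']; ring
  exact mul_right_cancel₀ h4 this

theorem main_sq (T : Tri N) (z : Fin N → ℂ) (hz : ∀ j, z j ≠ 0 ∧ z j ≠ 1) (γ : Curve T)
    (e₀ : Fin N) (f : Fin 3 → Fin N → ℤ) (hf : T.Flat f) (t : ℂ) (ht : IsATor T z γ t) :
    (t * (2 * ∏ j, ∏ t, zeta t (z j) ^ (f t j))) ^ 2 = (hatG T z γ e₀).det ^ 2 := by
  classical
  obtain ⟨g, P, F, E, k₀, w, b, hg, hP, hF, hE, hw, hb, hk₀, A₀, A₁, A₂, hA₀, hA₁, hA₂, n₀, n₁, n₂,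
    ht⟩ := ht
  have key := main_key T z hz γ e₀ f hf g P F E k₀ w b hg hP hF hE hw hb hk₀ A₀ A₁ A₂ hA₀ hA₁ hA₂
  rw [ht]
  field_simp
  linear_combination key

/-- The 1-loop identity. -/
theorem main_id (T : Tri N) (z : Fin N → ℂ) (hz : ∀ j, z j ≠ 0 ∧ z j ≠ 1) (γ : Curve T)
    (e₀ : Fin N) (f : Fin 3 → Fin N → ℤ) (hf : T.Flat f) (t : ℂ) (ht : IsATor T z γ t) :
    t * (2 * ∏ j, ∏ t, zeta t (z j) ^ (f t j)) = (hatG T z γ e₀).det ∨
    t * (2 * ∏ j, ∏ t, zeta t (z j) ^ (f t j)) = -(hatG T z γ e₀).det :=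
  sq_eq_sq_iff_eq_or_eq_neg.mp (main_sq T z hz γ e₀ f hf t ht)

end Pool.Agent.OL36
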