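import Pool.Agent.LibOL36.S0

/-! # Row P5: the product over the faces

Plan. Oriented triple product of a side: for an even flag `d = (j, (a, p, i, q))`:
`τ(d) := om a p * om p q * om q a` (vertices of the face `i`), invariant under the rotation
`(a,p,i,q) ↦ (p,q,i,a)`, so a function `t (j, i)`; `t (j, i) ^ 2 = tp u (j, i) ^ 2` (`fin_cases i`).
(1) `t (opposite side) = -t (j, i)`: `Lk a p q * Lk p q a * Lk q a p = -1 / t` (field_simp), the three `Lk` are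
preserved by the gluing (`hu.mat`), the cyclic order is reversed (`al`: `(σa, σq, σi, σp)`), and
`Lk a q p = -Lk a p q`. (2) `∏_{i : Fin 4} t (j, i) = six u j ^ 2` (explicit: `t (j,0) = om 1 2 * om 2 3 * om 3 1`,
`t (j,1) = om 2 0 * om 0 3 * om 3 2`, `t (j,2) = om 0 1 * om 1 3 * om 3 0`, `t (j,3) = om 1 0 * om 0 2 * om 2 1`; `om_comm`, `ring`).
Suggestion: DEFINE `t (j, i)` by these four formulas, and prove (1) by showing for every even flag
`t (j, π 2) = om (π 0) (π 1) * om (π 1) (π 3) * om (π 3) (π 0)` (12 even permutations). (3) The product of `t` over all sides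
is `∏_j six ^ 2` and also `∏_k t (F k) * t (opp (F k)) = ∏_k (-(t (F k))^2) = (-1)^(2N) ∏_k t (F k)^2`, by the bijection
`(Fin N ⊕ Fin N) × Bool ≃ sides` from `hF` (`∃!` and `ne_self`). -/

set_option autoImplicit false

open Matrix

namespace Pool.Agent.OL36

variable {N : ℕ}

private def p5trp (v : Fin 4 → Fin 2 → ℂ) (a b c : Fin 4) : ℂ :=
  om (v a) (v b) * om (v b) (v c) * om (v c) (v a)

private def p5A : Fin 4 → Fin 4 := ![1, 2, 0, 1]
private def p5B : Fin 4 → Fin 4 := ![2, 0, 1, 0]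
private def p5C : Fin 4 → Fin 4 := ![3, 3, 3, 2]

private def p5t (u : Fin N → Fin 4 → Fin 2 → ℂ) (s : Fin N × Fin 4) : ℂ :=
  p5trp (u s.1) (p5A s.2) (p5B s.2) (p5C s.2)

private theorem p5_perm : ∀ π : Equiv.Perm (Fin 4), Equiv.Perm.sign π = 1 →
    (π 0 = p5A (π 2) ∧ π 1 = p5B (π 2) ∧ π 3 = p5C (π 2)) ∨
    (π 0 = p5B (π 2) ∧ π 1 = p5C (π 2) ∧ π 3 = p5A (π 2)) ∨
    (π 0 = p5C (π 2) ∧ π 1 = p5A (π 2) ∧ π 3 = p5B (π 2)) := by
  decide

private theorem p5_flag (u : Fin N → Fin 4 → Fin 2 → ℂ) (d : Dt N) :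
    p5t u (d.1, d.2.1 2) = p5trp (u d.1) (d.2.1 0) (d.2.1 1) (d.2.1 3) := by
  rcases p5_perm d.2.1 d.2.2 with ⟨h0, h1, h3⟩ | ⟨h0, h1, h3⟩ | ⟨h0, h1, h3⟩
  · rw [h0, h1, h3]; rfl
  · rw [h0, h1, h3]
    unfold p5t p5trp
    ring
  · rw [h0, h1, h3]
    unfold p5t p5trp
    ring

private theorem p5_lk {x y w : Fin 2 → ℂ} (h1 : om x y ≠ 0) (h2 : om y w ≠ 0) (h3 : om w x ≠ 0) :
    Lk x y w * Lk y w x * Lk w x y = -1 / (om x y * om y w * om w x) := by
  unfold Lk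
  rw [om_comm w x, om_comm x y, om_comm y w]
  field_simp

private theorem p5_al (T : Tri N) (z : Fin N → ℂ) (u : Fin N → Fin 4 → Fin 2 → ℂ)
    (hu : IsDec T z u) (d : Dt N) :
    p5t u (T.nbr d.1 (d.2.1 2), T.glue d.1 (d.2.1 2) (d.2.1 2)) = -p5t u (d.1, d.2.1 2) := by
  obtain ⟨e1, e0, e3, e2, e4⟩ := al_val T d
  have key := p5_flag u (T.al d)
  rw [e1, e0, e3, e2, e4] at key
  rw [key, p5_flag u d]
  have n01 := dt_ne d 0 1 (by decide)
  have n02 := dt_ne d 0 2 (by decide)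
  have n03 := dt_ne d 0 3 (by decide)
  have n12 := dt_ne d 1 2 (by decide)
  have n13 := dt_ne d 1 3 (by decide)
  have n32 := dt_ne d 3 2 (by decide)
  have m1 := hu.mat d.1 (d.2.1 2) (d.2.1 0) (d.2.1 1) (d.2.1 3) n02 n12 n32 n01 n03 n13
  have m2 := hu.mat d.1 (d.2.1 2) (d.2.1 1) (d.2.1 3) (d.2.1 0) n12 n32 n02 n13 n01.symm n03.symm
  have m3 := hu.mat d.1 (d.2.1 2) (d.2.1 3) (d.2.1 0) (d.2.1 1) n32 n02 n12 n03.symm n13.symm n01
  have a1 := hu.ne d.1 _ _ n01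
  have a2 := hu.ne d.1 _ _ n13
  have a3 := hu.ne d.1 _ _ n03.symm
  have inj := (T.glue d.1 (d.2.1 2)).injective
  have b1 := hu.ne (T.nbr d.1 (d.2.1 2)) _ _ (inj.ne n01)
  have b2 := hu.ne (T.nbr d.1 (d.2.1 2)) _ _ (inj.ne n13)
  have b3 := hu.ne (T.nbr d.1 (d.2.1 2)) _ _ (inj.ne n03.symm)
  have k1 := p5_lk a1 a2 a3
  have k2 := p5_lk b1 b2 b3
  rw [m1, m2, m3, k1] at k2
  unfold p5trp
  rw [om_comm (u (T.nbr d.1 (d.2.1 2)) ((T.glue d.1 (d.2.1 2)) (d.2.1 3)))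
      (u (T.nbr d.1 (d.2.1 2)) ((T.glue d.1 (d.2.1 2)) (d.2.1 0))),
    om_comm (u (T.nbr d.1 (d.2.1 2)) ((T.glue d.1 (d.2.1 2)) (d.2.1 1)))
      (u (T.nbr d.1 (d.2.1 2)) ((T.glue d.1 (d.2.1 2)) (d.2.1 3))),
    om_comm (u (T.nbr d.1 (d.2.1 2)) ((T.glue d.1 (d.2.1 2)) (d.2.1 0)))
      (u (T.nbr d.1 (d.2.1 2)) ((T.glue d.1 (d.2.1 2)) (d.2.1 1)))]
  rw [div_eq_div_iff (mul_ne_zero (mul_ne_zero a1 a2) a3) (mul_ne_zero (mul_ne_zero b1 b2) b3)]
    at k2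
  linear_combination k2

private theorem p5_six (u : Fin N → Fin 4 → Fin 2 → ℂ) (j : Fin N) :
    ∏ i, p5t u (j, i) = six u j ^ 2 := by
  rw [Fin.prod_univ_four]
  have h0 : p5t u (j, 0) = om (u j 1) (u j 2) * om (u j 2) (u j 3) * om (u j 3) (u j 1) := rfl
  have h1 : p5t u (j, 1) = om (u j 2) (u j 0) * om (u j 0) (u j 3) * om (u j 3) (u j 2) := rfl
  have h2 : p5t u (j, 2) = om (u j 0) (u j 1) * om (u j 1) (u j 3) * om (u j 3) (u j 0) := rfl
  have h3 : p5t u (j, 3) = om (u j 1) (u j 0) * om (u j 0) (u j 2) * om (u j 2) (u j 1) := rfl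
  rw [h0, h1, h2, h3, om_comm (u j 1) (u j 3), om_comm (u j 0) (u j 2), om_comm (u j 2) (u j 3),
    om_comm (u j 0) (u j 3), om_comm (u j 0) (u j 1), om_comm (u j 1) (u j 2)]
  unfold six
  ring

private theorem p5_sq (u : Fin N → Fin 4 → Fin 2 → ℂ) (s : Fin N × Fin 4) :
    p5t u s ^ 2 = tp u s ^ 2 := by
  obtain ⟨j, i⟩ := s
  fin_cases i
  · rfl
  · have h1 : p5t u (j, 1) = om (u j 2) (u j 0) * om (u j 0) (u j 3) * om (u j 3) (u j 2) := rfl
    have h2 : tp u (j, 1) = om (u j 0) (u j 2) * om (u j 2) (u j 3) * om (u j 3) (u j 0) := rfl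
    change p5t u (j, 1) ^ 2 = tp u (j, 1) ^ 2
    rw [h1, h2, om_comm (u j 0) (u j 2), om_comm (u j 2) (u j 3), om_comm (u j 0) (u j 3)]
    ring
  · have h1 : p5t u (j, 2) = om (u j 0) (u j 1) * om (u j 1) (u j 3) * om (u j 3) (u j 0) := rfl
    have h2 : tp u (j, 2) = om (u j 0) (u j 1) * om (u j 1) (u j 3) * om (u j 3) (u j 0) := rfl
    change p5t u (j, 2) ^ 2 = tp u (j, 2) ^ 2
    rw [h1, h2]
  · have h1 : p5t u (j, 3) = om (u j 1) (u j 0) * om (u j 0) (u j 2) * om (u j 2) (u j 1) := rfl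
    have h2 : tp u (j, 3) = om (u j 0) (u j 1) * om (u j 1) (u j 2) * om (u j 2) (u j 0) := rfl
    change p5t u (j, 3) ^ 2 = tp u (j, 3) ^ 2
    rw [h1, h2, om_comm (u j 0) (u j 1), om_comm (u j 1) (u j 2), om_comm (u j 0) (u j 2)]
    ring

private theorem p5_ex (j : Fin N) (i : Fin 4) : ∃ d : Dt N, d.1 = j ∧ d.2.1 2 = i := by
  have h : ∀ i : Fin 4, ∃ a : Fin 4, a ≠ i := by decide
  obtain ⟨a, ha⟩ := h i
  obtain ⟨d, h1, _, h3⟩ := exists_dt02 j a i ha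
  exact ⟨d, h1, h3⟩

/-- P5: product over the faces. -/
theorem prod_tp (T : Tri N) (z : Fin N → ℂ) (u : Fin N → Fin 4 → Fin 2 → ℂ) (hu : IsDec T z u)
    (F : Fin N ⊕ Fin N → Fin N × Fin 4) (hF : IsFaces T F) :
    ∏ k, tp u (F k) ^ 2 = ∏ j, six u j ^ 2 := by
  have hopp : ∀ s : Fin N × Fin 4, p5t u (T.nbr s.1 s.2, T.glue s.1 s.2 s.2) = -p5t u s := by
    intro s
    obtain ⟨d, h1, h2⟩ := p5_ex s.1 s.2
    have := p5_al T z u hu d
    rw [h1, h2] at this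
    exact this
  let G : (Fin N ⊕ Fin N) × Bool → Fin N × Fin 4 := fun x =>
    if x.2 then F x.1 else (T.nbr (F x.1).1 (F x.1).2, T.glue (F x.1).1 (F x.1).2 (F x.1).2)
  have hGor : ∀ x, G x = F x.1 ∨
      G x = (T.nbr (F x.1).1 (F x.1).2, T.glue (F x.1).1 (F x.1).2 (F x.1).2) := by
    rintro ⟨k, b⟩
    cases b
    · right; rfl
    · left; rfl
  have hG : Function.Bijective G := by
    constructor
    · intro x y hxy
      have h1 : x.1 = y.1 := (hF (G x)).unique (hGor x) (by rw [hxy]; exact hGor y)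
      obtain ⟨k, b⟩ := x
      obtain ⟨k', b'⟩ := y
      change k = k' at h1
      subst h1
      have hne := T.ne_self (F k).1 (F k).2
      cases b <;> cases b'
      · rfl
      · exact absurd (show (T.nbr (F k).1 (F k).2, T.glue (F k).1 (F k).2 (F k).2) =
          ((F k).1, (F k).2) from hxy) hne
      · exact absurd (show (T.nbr (F k).1 (F k).2, T.glue (F k).1 (F k).2 (F k).2) =
          ((F k).1, (F k).2) from hxy.symm) hne
      · rfl
    · intro s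
      obtain ⟨k, hk, _⟩ := hF s
      rcases hk with hk | hk
      · exact ⟨(k, true), hk.symm⟩
      · exact ⟨(k, false), hk.symm⟩
  have h1 : ∏ s, p5t u s = ∏ j, six u j ^ 2 := by
    rw [Fintype.prod_prod_type]
    exact Finset.prod_congr rfl fun j _ => p5_six u j
  have h2 : ∏ s, p5t u s = ∏ k, tp u (F k) ^ 2 := by
    rw [← Function.Bijective.prod_comp hG (fun s => p5t u s), Fintype.prod_prod_type]
    have h3 : ∀ k, ∏ b : Bool, p5t u (G (k, b)) = -1 * tp u (F k) ^ 2 := by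
      intro k
      rw [Fintype.prod_bool]
      change p5t u (F k) *
        p5t u (T.nbr (F k).1 (F k).2, T.glue (F k).1 (F k).2 (F k).2) = _
      rw [hopp, ← p5_sq]
      ring
    rw [Finset.prod_congr rfl fun k _ => h3 k, Finset.prod_mul_distrib, Finset.prod_const,
      Finset.card_univ, Fintype.card_sum, Fintype.card_fin,
      Even.neg_one_pow ⟨N, rfl⟩, one_mul]
  rw [← h2, h1]

end Pool.Agent.OL36
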