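import Pool.Agent.LibOL36.V4

/-! # Row P6: the flattening

Plan. `λ j a b := om (u a) (u b) ^ 2` is invariant under the gluings: `λ = -1 / (Lk a b c * Lk b c a)`-like: for the third vertex
`c` of a common face `Lk a b c * Lk b c a = 1 / om a b ^ 2` (up to sign: compute), preserved by `hu.mat`; so `λ j a b`
depends only on the class: `λ j a b = Λ (edge j a b)` with `Λ e := om (u (E e)) .. ^ 2` (induction over the chain in
`T.edge_eq`, or `edge_OE` of row E2). `zeta t (z j) ^ 2 = κ_j ^ 2 * (product of the two λ of type t)` (`zeta_eq` of row V4; types: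
0: 01, 23; 1: 03, 12; 2: 02, 13). Then
`(∏_j ∏_t zeta^f)^2 = ∏_j ∏_t (zeta^2)^(f t j) = ∏_j κ_j^(2 ∑_t f t j) * ∏_j ∏_t ∏_{pairs of type t} Λ(edge)^(f t j)`, with
`∑_t f t j = 1` and, grouping by `e`: `∏_e Λ e ^ (∑_t ∑_j G t e j * f t j) = ∏_e Λ e ^ 2` (`hf.1`). All with `zpow`
(`zpow_natCast`, `zpow_add₀`, `Finset.prod_zpow`, `Finset.prod_comm`; everything is non-zero: `hu.ne`, `kap_ne`).
The grouping: for every function `h : ℤ`-exponent: `∏_{a<b} Λ(edge j a b)^(f (typ a b) j) = ∏_e ∏_t Λ e ^ (G t e j * f t j)`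
(as in `G_sum`; for instance prove `∏_{p ∈ pairs of type t} Λ (edge j p) = ∏_e Λ e ^ (G t e j)` by
`Finset.prod_comp`-like fibrewise product and `Finset.card_filter`). -/

set_option autoImplicit false

open Matrix

namespace Pool.Agent.OL36

variable {N : ℕ}

private theorem p6_zpow_sum {ι : Type} (s : Finset ι) (a : ℂ) (ha : a ≠ 0) (f : ι → ℤ) :
    a ^ (∑ i ∈ s, f i) = ∏ i ∈ s, a ^ (f i) := by
  classical
  induction s using Finset.induction_on with
  | empty => simp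
  | insert x s hx ih => rw [Finset.sum_insert hx, Finset.prod_insert hx, zpow_add₀ ha, ih]

private theorem p6_third : ∀ a b i : Fin 4, a ≠ b → i ≠ a → i ≠ b →
    ∃ c, c ≠ i ∧ a ≠ c ∧ b ≠ c := by
  decide

private theorem p6_LL {x y w : Fin 2 → ℂ} (h1 : om x y ≠ 0) (h2 : om y w ≠ 0)
    (h3 : om x w ≠ 0) : Lk x y w * Lk y w x = 1 / om x y ^ 2 := by
  unfold Lk
  rw [om_comm x w, om_comm x y]
  field_simp

private theorem p6_step (T : Tri N) (z : Fin N → ℂ) (u : Fin N → Fin 4 → Fin 2 → ℂ)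
    (hu : IsDec T z u) (j : Fin N) (i a b : Fin 4) (hia : i ≠ a) (hib : i ≠ b) :
    om (u (T.nbr j i) (T.glue j i a)) (u (T.nbr j i) (T.glue j i b)) ^ 2 =
      om (u j a) (u j b) ^ 2 := by
  by_cases hab : a = b
  · subst hab
    have h0 : ∀ x : Fin 2 → ℂ, om x x = 0 := by
      intro x
      unfold om
      ring
    rw [h0, h0]
  · obtain ⟨c, hci, hac, hbc⟩ := p6_third a b i hab hia hib
    have hne : ∀ x y : Fin 4, x ≠ y →
        om (u (T.nbr j i) (T.glue j i x)) (u (T.nbr j i) (T.glue j i y)) ≠ 0 := by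
      intro x y hxy
      exact hu.ne _ _ _ (fun h => hxy ((T.glue j i).injective h))
    have e1 := hu.mat j i a b c hia.symm hib.symm hci hab hac hbc
    have e2 := hu.mat j i b c a hib.symm hci hia.symm hbc (Ne.symm hab) (Ne.symm hac)
    have f1 := p6_LL (hne a b hab) (hne b c hbc) (hne a c hac)
    have f2 := p6_LL (hu.ne j a b hab) (hu.ne j b c hbc) (hu.ne j a c hac)
    rw [e1, e2, f2] at f1
    have g1 := pow_ne_zero 2 (hne a b hab)
    have g2 := pow_ne_zero 2 (hu.ne j a b hab)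
    rw [div_eq_div_iff g2 g1, one_mul, one_mul] at f1
    exact f1

private theorem p6_OE (T : Tri N) (z : Fin N → ℂ) (u : Fin N → Fin 4 → Fin 2 → ℂ)
    (hu : IsDec T z u) (s s' : Fin N × Fin 4 × Fin 4) (h : T.OE s s') :
    om (u s.1 s.2.1) (u s.1 s.2.2) ^ 2 = om (u s'.1 s'.2.1) (u s'.1 s'.2.2) ^ 2 := by
  induction h with
  | rel x y hxy =>
    obtain ⟨i, h1, h2, rfl⟩ := hxy
    exact (p6_step T z u hu x.1 i x.2.1 x.2.2 h1 h2).symm
  | refl x => rfl
  | symm x y _ ih => exact ih.symm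
  | trans x y w _ _ ih1 ih2 => exact ih1.trans ih2

private theorem p6_lam (T : Tri N) (z : Fin N → ℂ) (u : Fin N → Fin 4 → Fin 2 → ℂ)
    (hu : IsDec T z u) (E : Fin N → Fin N × Fin 4 × Fin 4) (hE : IsEdges T E) (j : Fin N)
    (a b : Fin 4) (hab : a ≠ b) :
    om (u (E (T.edge j a b)).1 (E (T.edge j a b)).2.1)
      (u (E (T.edge j a b)).1 (E (T.edge j a b)).2.2) ^ 2 = om (u j a) (u j b) ^ 2 := by
  have h := hE (T.edge j a b)
  generalize E (T.edge j a b) = x at h ⊢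
  obtain ⟨x1, x2, x3⟩ := x
  have h4 : T.edge x1 x2 x3 = T.edge j a b := h.2
  have h5 : x2 ≠ x3 := h.1
  rcases edge_OE T x1 x2 x3 j a b h5 hab h4 with h1 | h1
  · exact p6_OE T z u hu (x1, x2, x3) (j, a, b) h1
  · have h2 : om (u x1 x2) (u x1 x3) ^ 2 = om (u j b) (u j a) ^ 2 :=
      p6_OE T z u hu (x1, x2, x3) (j, b, a) h1
    change om (u x1 x2) (u x1 x3) ^ 2 = _
    rw [h2, om_comm (u j a) (u j b)]
    ring

private theorem p6_G (T : Tri N) (L : Fin N → ℂ) (t : Fin 3) (j : Fin N) :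
    ∏ e, L e ^ (T.G t e j) =
      ∏ p ∈ Finset.univ.filter (fun p : Fin 4 × Fin 4 => p.1 < p.2 ∧ typ p.1 p.2 = t),
        L (T.edge j p.1 p.2) := by
  classical
  rw [← Finset.prod_fiberwise (Finset.univ.filter
    (fun p : Fin 4 × Fin 4 => p.1 < p.2 ∧ typ p.1 p.2 = t)) (fun p => T.edge j p.1 p.2)]
  apply Finset.prod_congr rfl
  intro e _
  have h1 : ∏ p ∈ (Finset.univ.filter
      (fun p : Fin 4 × Fin 4 => p.1 < p.2 ∧ typ p.1 p.2 = t)).filter
        (fun p => T.edge j p.1 p.2 = e), L (T.edge j p.1 p.2) =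
      ∏ p ∈ (Finset.univ.filter
      (fun p : Fin 4 × Fin 4 => p.1 < p.2 ∧ typ p.1 p.2 = t)).filter
        (fun p => T.edge j p.1 p.2 = e), L e := by
    apply Finset.prod_congr rfl
    intro p hp
    rw [(Finset.mem_filter.mp hp).2]
  rw [h1, Finset.prod_const, Finset.filter_filter]
  unfold Tri.G
  rw [zpow_natCast]
  congr 2
  apply Finset.filter_congr
  intro p _
  tauto

private theorem p6_pairs : ∀ t : Fin 3, (Finset.univ.filter
    (fun p : Fin 4 × Fin 4 => p.1 < p.2 ∧ typ p.1 p.2 = t)) =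
      ![{(0, 1), (2, 3)}, {(0, 3), (1, 2)}, {(0, 2), (1, 3)}] t := by
  decide

private theorem p6_zeta (T : Tri N) (z : Fin N → ℂ) (hz : ∀ j, z j ≠ 0 ∧ z j ≠ 1)
    (u : Fin N → Fin 4 → Fin 2 → ℂ) (hu : IsDec T z u) (E : Fin N → Fin N × Fin 4 × Fin 4)
    (hE : IsEdges T E) (t : Fin 3) (j : Fin N) :
    zeta t (z j) ^ 2 = kap z u j ^ 2 *
      ∏ e, (om (u (E e).1 (E e).2.1) (u (E e).1 (E e).2.2) ^ 2) ^ (T.G t e j) := by
  rw [p6_G T (fun e => om (u (E e).1 (E e).2.1) (u (E e).1 (E e).2.2) ^ 2) t j, p6_pairs]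
  obtain ⟨h0, h1, h2⟩ := zeta_eq T z hz u hu j
  fin_cases t
  · change zeta 0 (z j) ^ 2 = _ * ∏ p ∈ ({(0, 1), (2, 3)} : Finset (Fin 4 × Fin 4)), _
    rw [Finset.prod_pair (by decide), h0]
    simp only
    rw [p6_lam T z u hu E hE j 0 1 (by decide), p6_lam T z u hu E hE j 2 3 (by decide)]
    ring
  · change zeta 1 (z j) ^ 2 = _ * ∏ p ∈ ({(0, 3), (1, 2)} : Finset (Fin 4 × Fin 4)), _
    rw [Finset.prod_pair (by decide), h1]
    simp only
    rw [p6_lam T z u hu E hE j 0 3 (by decide), p6_lam T z u hu E hE j 1 2 (by decide)]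
    ring
  · change zeta 2 (z j) ^ 2 = _ * ∏ p ∈ ({(0, 2), (1, 3)} : Finset (Fin 4 × Fin 4)), _
    rw [Finset.prod_pair (by decide), h2]
    simp only
    rw [p6_lam T z u hu E hE j 0 2 (by decide), p6_lam T z u hu E hE j 1 3 (by decide),
      om_comm (u j 1) (u j 3)]
    ring

/-- P6: the flattening. -/
theorem prod_zeta (T : Tri N) (z : Fin N → ℂ) (hz : ∀ j, z j ≠ 0 ∧ z j ≠ 1)
    (u : Fin N → Fin 4 → Fin 2 → ℂ) (hu : IsDec T z u) (E : Fin N → Fin N × Fin 4 × Fin 4)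
    (hE : IsEdges T E) (f : Fin 3 → Fin N → ℤ) (hf : T.Flat f) :
    (∏ j, ∏ t, zeta t (z j) ^ (f t j)) ^ 2 =
      (∏ j, kap z u j) ^ 2 *
        (∏ e, om (u (E e).1 (E e).2.1) (u (E e).1 (E e).2.2) ^ 2) ^ 2 := by
  have hL : ∀ e, om (u (E e).1 (E e).2.1) (u (E e).1 (E e).2.2) ^ 2 ≠ 0 := fun e =>
    pow_ne_zero 2 (hu.ne _ _ _ (hE e).1)
  have hk : ∀ j, kap z u j ^ 2 ≠ 0 := fun j => pow_ne_zero 2 (kap_ne T z hz u hu j)
  have h1 : (∏ j, ∏ t, zeta t (z j) ^ (f t j)) ^ 2 =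
      ∏ j, ∏ t, (kap z u j ^ 2 *
      ∏ e, (om (u (E e).1 (E e).2.1) (u (E e).1 (E e).2.2) ^ 2) ^ (T.G t e j)) ^ (f t j) := by
    rw [← Finset.prod_pow]
    apply Finset.prod_congr rfl
    intro j _
    rw [← Finset.prod_pow]
    apply Finset.prod_congr rfl
    intro t _
    rw [← p6_zeta T z hz u hu E hE t j]
    rw [← zpow_natCast, ← zpow_natCast, ← _root_.zpow_mul, ← _root_.zpow_mul, mul_comm]
  have h2 : (∏ j, kap z u j) ^ 2 = ∏ j, ∏ t, (kap z u j ^ 2) ^ (f t j) := by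
    rw [← Finset.prod_pow]
    apply Finset.prod_congr rfl
    intro j _
    rw [← p6_zpow_sum _ _ (hk j), hf.2 j, zpow_one]
  have h3 : (∏ e, om (u (E e).1 (E e).2.1) (u (E e).1 (E e).2.2) ^ 2) ^ 2 =
      ∏ j, ∏ t, (∏ e, (om (u (E e).1 (E e).2.1) (u (E e).1 (E e).2.2) ^ 2) ^ (T.G t e j)) ^
        (f t j) := by
    have h4 : ∀ j t, (∏ e, (om (u (E e).1 (E e).2.1) (u (E e).1 (E e).2.2) ^ 2) ^
        (T.G t e j)) ^ (f t j) = ∏ e, (om (u (E e).1 (E e).2.1) (u (E e).1 (E e).2.2) ^ 2) ^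
        (T.G t e j * f t j) := by
      intro j t
      rw [← Finset.prod_zpow]
      apply Finset.prod_congr rfl
      intro e _
      rw [_root_.zpow_mul]
    simp only [h4]
    rw [← Finset.prod_pow]
    have h5 : ∀ e, (om (u (E e).1 (E e).2.1) (u (E e).1 (E e).2.2) ^ 2) ^ 2 =
        ∏ j, ∏ t, (om (u (E e).1 (E e).2.1) (u (E e).1 (E e).2.2) ^ 2) ^
        (T.G t e j * f t j) := by
      intro e
      rw [Finset.prod_comm]
      have h6 := hf.1 e
      have h7 : (om (u (E e).1 (E e).2.1) (u (E e).1 (E e).2.2) ^ 2) ^ 2 =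
        (om (u (E e).1 (E e).2.1) (u (E e).1 (E e).2.2) ^ 2) ^
          (∑ t, ∑ j, T.G t e j * f t j) := by
        rw [h6]
        exact (zpow_ofNat _ _).symm
      rw [h7, p6_zpow_sum _ _ (hL e)]
      apply Finset.prod_congr rfl
      intro t _
      rw [p6_zpow_sum _ _ (hL e)]
    rw [Finset.prod_congr rfl (fun e _ => h5 e)]
    rw [Finset.prod_comm]
    apply Finset.prod_congr rfl
    intro j _
    rw [Finset.prod_comm]
  rw [h1, h2, h3, ← Finset.prod_mul_distrib]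
  apply Finset.prod_congr rfl
  intro j _
  rw [← Finset.prod_mul_distrib]
  apply Finset.prod_congr rfl
  intro t _
  rw [mul_zpow]

end Pool.Agent.OL36
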