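import Pool.Agent.LibOL36.S0
import Pool.Agent.LibOL36.E2
import Pool.Agent.LibOL36.Surf

/-! # Row S1: the link surface

Plan. Use `S0` and `E2`. `R d := ph (ph (al d))`: values (with `i = π 2`, `σ = glue j i`): first component
`nbr j i`, vertices `0 ↦ σ (π 0)`, `1 ↦ σ (π 1)`, `2 ↦ σ (π 3)`, `3 ↦ σ (π 2)` (from `al_val`, `ph_val` twice).
`vm_R`: one gluing step across `i = π 2` (`≠ π 0, π 1`), `vmE_iff`. `vm_inj`: from `vmE_iff` get `T.OE (j,a,b) (j',a',b')`; show by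
induction over this `EqvGen`: for all even flags `d, d'` over `s, s'` (unique by `dt_ext01`): `EqvGen (y = R x) d d'`.
Step: across `i ∉ {a, b}`: `i = π 2`: `d' = R d` (`dt_ext01`); `i = π 3`: then `d = R d'`: the flag `d'` over
`(nbr j i, σ a, σ b)` has `d'.2.1 2 = σ i` (its vertices are `σ a, σ b, σ i, σ (π 2)` in this order: parity; quickest:
`d' := ph (al (ph d))`-like explicit flag and `al_al`; or check with `dt_ext01` that the flag
`al (ph d)` followed by the right number of `ph` works). For transitivity one needs a flag over the middle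
triple: `exists_dt01` (with `a ≠ b` along the chain: `OE_ne`).
`vm_surj`: `(e, true)` from the even flag over `E e`, `(e, false)` from the one over the reverse (`vmE_E`,
`exists_dt01`). `qm_surj`: `exists_dt02`. `conn`: from `T.link_conn` for the corners: induction over that
`EqvGen`: all flags over one corner are connected by `ph` (`dt_qm_inj`), a step across `i ≠ a`: the flag `d`
with `d.2.1 0 = a`, `d.2.1 2 = i` (`exists_dt02`) and `al d` is over `(nbr j i, σ a)`. -/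

set_option autoImplicit false

open Matrix

namespace Pool.Agent.OL36

variable {N : ℕ}

private theorem s1_R_val (T : Tri N) (d : Dt N) :
    (ph (ph (T.al d))).1 = T.nbr d.1 (d.2.1 2) ∧
    (ph (ph (T.al d))).2.1 0 = T.glue d.1 (d.2.1 2) (d.2.1 0) ∧
    (ph (ph (T.al d))).2.1 1 = T.glue d.1 (d.2.1 2) (d.2.1 1) := by
  obtain ⟨a0, a1, a2, a3, a4⟩ := al_val T d
  obtain ⟨p0, p1, p2, p3, p4⟩ := ph_val (T.al d)
  obtain ⟨q0, q1, q2, q3, q4⟩ := ph_val (ph (T.al d))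
  refine ⟨?_, ?_, ?_⟩
  · rw [q0, p0, a0]
  · rw [q1, p1, a1]
  · rw [q2, p3, a4]

private theorem s1_alph_val (T : Tri N) (d : Dt N) :
    (T.al (ph d)).1 = T.nbr d.1 (d.2.1 3) ∧
    (T.al (ph d)).2.1 0 = T.glue d.1 (d.2.1 3) (d.2.1 0) ∧
    (T.al (ph d)).2.1 1 = T.glue d.1 (d.2.1 3) (d.2.1 1) := by
  obtain ⟨p0, p1, p2, p3, p4⟩ := ph_val d
  obtain ⟨a0, a1, a2, a3, a4⟩ := al_val T (ph d)
  refine ⟨?_, ?_, ?_⟩
  · rw [a0, p0, p3]
  · rw [a1, p0, p1, p3]
  · rw [a2, p0, p3, p4]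

private theorem s1_cases (d : Dt N) (i : Fin 4) (h0 : i ≠ d.2.1 0) (h1 : i ≠ d.2.1 1) :
    i = d.2.1 2 ∨ i = d.2.1 3 := by
  obtain ⟨k, hk⟩ := d.2.1.surjective i
  fin_cases k
  · exact absurd hk.symm h0
  · exact absurd hk.symm h1
  · exact Or.inl hk.symm
  · exact Or.inr hk.symm

private def s1_over (d : Dt N) (s : Fin N × Fin 4 × Fin 4) : Prop :=
  d.1 = s.1 ∧ d.2.1 0 = s.2.1 ∧ d.2.1 1 = s.2.2

private theorem s1_inj (T : Tri N) (s s' : Fin N × Fin 4 × Fin 4) (h : T.OE s s') :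
    ∀ d d' : Dt N, s1_over d s → s1_over d' s' →
      Relation.EqvGen (fun x y => y = ph (ph (T.al x))) d d' := by
  unfold Tri.OE at h
  induction h with
  | rel x y hxy =>
    intro d d' hd hd'
    obtain ⟨i, hi1, hi2, hy⟩ := hxy
    obtain ⟨e0, e1, e2⟩ := hd
    obtain ⟨f0, f1, f2⟩ := hd'
    rw [hy] at f0 f1 f2
    dsimp only at f0 f1 f2
    rw [← e1] at hi1
    rw [← e2] at hi2
    rcases s1_cases d i hi1 hi2 with hi | hi
    · have hR : d' = ph (ph (T.al d)) := by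
        obtain ⟨r0, r1, r2⟩ := s1_R_val T d
        apply dt_ext01
        · rw [r0, f0, e0, hi]
        · rw [r1, f1, e0, e1, hi]
        · rw [r2, f2, e0, e2, hi]
      exact Relation.EqvGen.rel _ _ hR
    · have hR : d' = T.al (ph d) := by
        obtain ⟨r0, r1, r2⟩ := s1_alph_val T d
        apply dt_ext01
        · rw [r0, f0, e0, hi]
        · rw [r1, f1, e0, e1, hi]
        · rw [r2, f2, e0, e2, hi]
      apply Relation.EqvGen.symm
      apply Relation.EqvGen.rel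
      rw [hR, al_al, ph_ph_ph]
  | refl x =>
    intro d d' hd hd'
    obtain ⟨e0, e1, e2⟩ := hd
    obtain ⟨f0, f1, f2⟩ := hd'
    have : d = d' := dt_ext01 d d' (by rw [e0, f0]) (by rw [e1, f1]) (by rw [e2, f2])
    rw [this]
    exact Relation.EqvGen.refl _
  | symm x y hxy ih =>
    intro d d' hd hd'
    exact Relation.EqvGen.symm _ _ (ih d' d hd' hd)
  | trans x y z hxy hyz ih1 ih2 =>
    intro d d' hd hd'
    have hne : x.2.1 ≠ x.2.2 := by
      rw [← hd.2.1, ← hd.2.2]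
      exact dt_ne d 0 1 (by decide)
    have hne' : y.2.1 ≠ y.2.2 := by
      intro h
      exact hne ((OE_ne T x.1 x.2.1 x.2.2 y.1 y.2.1 y.2.2 hxy).mpr h)
    obtain ⟨e, e0, e1, e2⟩ := exists_dt01 y.1 y.2.1 y.2.2 hne'
    exact Relation.EqvGen.trans _ _ _ (ih1 d e hd ⟨e0, e1, e2⟩) (ih2 e d' ⟨e0, e1, e2⟩ hd')

private theorem s1_connA (T : Tri N) (d d' : Dt N) (h : (d.1, d.2.1 0) = (d'.1, d'.2.1 0)) :
    Relation.EqvGen (fun x y => y = T.al x ∨ y = ph x) d d' := by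
  rcases dt_qm_inj d d' h with h1 | h1 | h1
  · rw [h1]; exact Relation.EqvGen.refl _
  · exact Relation.EqvGen.rel _ _ (Or.inr h1)
  · exact Relation.EqvGen.trans _ _ _ (Relation.EqvGen.rel d (ph d) (Or.inr rfl))
      (Relation.EqvGen.rel _ _ (Or.inr h1))

private theorem s1_conn (T : Tri N) (s s' : Fin N × Fin 4)
    (h : Relation.EqvGen (fun s s' : Fin N × Fin 4 =>
      ∃ i, i ≠ s.2 ∧ s' = (T.nbr s.1 i, T.glue s.1 i s.2)) s s') :
    ∀ d d' : Dt N, (d.1, d.2.1 0) = s → (d'.1, d'.2.1 0) = s' →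
      Relation.EqvGen (fun x y => y = T.al x ∨ y = ph x) d d' := by
  induction h with
  | rel x y hxy =>
    intro d d' hd hd'
    obtain ⟨i, hi, hy⟩ := hxy
    obtain ⟨e, e0, e1, e2⟩ := exists_dt02 x.1 x.2 i (Ne.symm hi)
    have h1 : (d.1, d.2.1 0) = (e.1, e.2.1 0) := by rw [hd, e0, e1]
    obtain ⟨a0, a1, _, _, _⟩ := al_val T e
    have h2 : ((T.al e).1, (T.al e).2.1 0) = (d'.1, d'.2.1 0) := by
      rw [hd', hy, a0, a1, e0, e1, e2]
    exact Relation.EqvGen.trans _ _ _ (s1_connA T d e h1)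
      (Relation.EqvGen.trans _ _ _ (Relation.EqvGen.rel e (T.al e) (Or.inl rfl))
        (s1_connA T _ _ h2))
  | refl x =>
    intro d d' hd hd'
    exact s1_connA T d d' (by rw [hd, hd'])
  | symm x y hxy ih =>
    intro d d' hd hd'
    exact Relation.EqvGen.symm _ _ (ih d' d hd' hd)
  | trans x y z hxy hyz ih1 ih2 =>
    intro d d' hd hd'
    obtain ⟨i, hi⟩ : ∃ i : Fin 4, y.2 ≠ i := by
      by_cases h : y.2 = 0
      · exact ⟨1, by rw [h]; decide⟩
      · exact ⟨0, h⟩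
    obtain ⟨e, e0, e1, e2⟩ := exists_dt02 y.1 y.2 i hi
    have he : (e.1, e.2.1 0) = y := by rw [e0, e1]
    exact Relation.EqvGen.trans _ _ _ (ih1 d e hd he) (ih2 e d' he hd')

/-- S1: the link surface. -/
theorem exists_surf (T : Tri N) (E : Fin N → Fin N × Fin 4 × Fin 4) (hE : IsEdges T E) :
    ∃ Sf : Surf (Dt N) (Fin N × Fin 4) (Fin N × Bool), Sf.α = T.al ∧ Sf.φ = ph ∧
      Sf.qm = (fun d => (d.1, d.2.1 0)) ∧
      Sf.vm = fun d => vmE T E d.1 (d.2.1 0) (d.2.1 1) := by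
  refine ⟨
    { α := T.al
      φ := ph
      qm := fun d => (d.1, d.2.1 0)
      vm := fun d => vmE T E d.1 (d.2.1 0) (d.2.1 1)
      αα := al_al T
      α_ne := al_ne T
      φφφ := ph_ph_ph
      φ_ne := ph_ne
      qm_φ := ?_
      qm_inj := fun d d' h => dt_qm_inj d d' h
      qm_surj := ?_
      vm_R := ?_
      vm_inj := ?_
      vm_surj := ?_
      conn := ?_ }, rfl, rfl, rfl, rfl⟩
  · intro d
    obtain ⟨p0, p1, _, _, _⟩ := ph_val d
    show ((ph d).1, (ph d).2.1 0) = (d.1, d.2.1 0)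
    rw [p0, p1]
  · intro s
    obtain ⟨i, hi⟩ : ∃ i : Fin 4, s.2 ≠ i := by
      by_cases h : s.2 = 0
      · exact ⟨1, by rw [h]; decide⟩
      · exact ⟨0, h⟩
    obtain ⟨e, e0, e1, _⟩ := exists_dt02 s.1 s.2 i hi
    refine ⟨e, ?_⟩
    show (e.1, e.2.1 0) = s
    rw [e0, e1]
  · intro d
    obtain ⟨r0, r1, r2⟩ := s1_R_val T d
    show vmE T E (ph (ph (T.al d))).1 ((ph (ph (T.al d))).2.1 0) ((ph (ph (T.al d))).2.1 1) =
      vmE T E d.1 (d.2.1 0) (d.2.1 1)
    rw [vmE_iff T E hE _ _ _ _ _ _ (dt_ne _ 0 1 (by decide)) (dt_ne _ 0 1 (by decide))]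
    apply Relation.EqvGen.symm
    apply Relation.EqvGen.rel
    refine ⟨d.2.1 2, dt_ne d 2 0 (by decide), dt_ne d 2 1 (by decide), ?_⟩
    rw [r0, r1, r2]
  · intro d d' h
    have h1 := (vmE_iff T E hE _ _ _ _ _ _ (dt_ne d 0 1 (by decide))
      (dt_ne d' 0 1 (by decide))).mp h
    exact s1_inj T _ _ h1 d d' ⟨rfl, rfl, rfl⟩ ⟨rfl, rfl, rfl⟩
  · rintro ⟨e, t⟩
    obtain ⟨h1, h2⟩ := vmE_E T E hE e
    have hne := (hE e).1
    cases t with
    | true =>
      obtain ⟨d, d0, d1, d2⟩ := exists_dt01 (E e).1 (E e).2.1 (E e).2.2 hne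
      refine ⟨d, ?_⟩
      show vmE T E d.1 (d.2.1 0) (d.2.1 1) = (e, true)
      rw [d0, d1, d2, h1]
    | false =>
      obtain ⟨d, d0, d1, d2⟩ := exists_dt01 (E e).1 (E e).2.2 (E e).2.1 (Ne.symm hne)
      refine ⟨d, ?_⟩
      show vmE T E d.1 (d.2.1 0) (d.2.1 1) = (e, false)
      rw [d0, d1, d2, h2]
  · intro d d'
    exact s1_conn T _ _ (T.link_conn d.1 (d.2.1 0) d'.1 (d'.2.1 0)) d d' rfl rfl

end Pool.Agent.OL36
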