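import Pool.Agent.LibOL36.S0

/-! # Row S3: representatives of the darts

Plan. `s c` := the even flag `d` with `d.1 = (F k).1`, `d.2.1 2 = (F k).2`, `d.2.1 0 = (F k).2.succAbove t`,
`k = Sum.map fst fst c`, `t = Sum.elim snd snd c` (`exists_dt02`, `Fin.succAbove_ne`, `choose`).
Injectivity of `Sum.elim s (al ∘ s)`: the side `(d.1, d.2.1 2)` of `s c` is `F k`, that of `al (s c)` is the opposite
side of `F k`; by `hF` (`∃!`) the index `k` is determined by the side; `F k ≠` its opposite (`ne_self`); `t` is determined by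
`d.2.1 0` (`Fin.succAbove_right_injective`; for `al` use `al_al`); `c` is determined by `(k, t)`.
Surjectivity: a dart `d`; the side `(d.1, d.2.1 2)` is `F k` or the opposite of `F k`. First case: `d.2.1 0 ≠ d.2.1 2 = (F k).2`, so
`d.2.1 0 = succAbove t` (`Fin.exists_succAbove_eq`), `dt_ext02`. Second case: apply the first case to `al d`
(its side is the opposite of the opposite: `nbr_nbr`, `glue_glue`), then `al_al`. -/

set_option autoImplicit false

open Matrix

namespace Pool.Agent.OL36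

variable {N : ℕ}

/-- The opposite side of a face. -/
private def opp (T : Tri N) (x : Fin N × Fin 4) : Fin N × Fin 4 :=
  (T.nbr x.1 x.2, T.glue x.1 x.2 x.2)

private theorem opp_opp (T : Tri N) (x : Fin N × Fin 4) : opp T (opp T x) = x := by
  obtain ⟨j, i⟩ := x
  unfold opp
  refine Prod.ext ?_ ?_
  · exact T.nbr_nbr j i
  · show T.glue (T.nbr j i) (T.glue j i i) (T.glue j i i) = i
    rw [T.glue_glue]
    simp

private theorem opp_ne (T : Tri N) (x : Fin N × Fin 4) : opp T x ≠ x := by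
  obtain ⟨j, i⟩ := x
  exact T.ne_self j i

private theorem side_al (T : Tri N) (d : Dt N) :
    ((T.al d).1, (T.al d).2.1 2) = opp T (d.1, d.2.1 2) := by
  obtain ⟨h1, -, -, h4, -⟩ := al_val T d
  rw [h1, h4]
  rfl

private theorem c_ext (c c' : (Fin N × Fin 3) ⊕ (Fin N × Fin 3))
    (h1 : Sum.map Prod.fst Prod.fst c = (Sum.map Prod.fst Prod.fst c' : Fin N ⊕ Fin N))
    (h2 : Sum.elim Prod.snd Prod.snd c = (Sum.elim Prod.snd Prod.snd c' : Fin 3)) : c = c' := by
  rcases c with ⟨a, b⟩ | ⟨a, b⟩ <;> rcases c' with ⟨a', b'⟩ | ⟨a', b'⟩ <;> simp_all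

/-- S3: representatives of the darts. -/
theorem exists_sd (T : Tri N) (F : Fin N ⊕ Fin N → Fin N × Fin 4) (hF : IsFaces T F) :
    ∃ s : (Fin N × Fin 3) ⊕ (Fin N × Fin 3) → Dt N, IsSd F s ∧
      Function.Bijective (Sum.elim s (fun c => T.al (s c))) := by
  classical
  have hex : ∀ c : (Fin N × Fin 3) ⊕ (Fin N × Fin 3), ∃ d : Dt N,
      d.1 = (F (Sum.map Prod.fst Prod.fst c)).1 ∧
      d.2.1 0 = (F (Sum.map Prod.fst Prod.fst c)).2.succAbove (Sum.elim Prod.snd Prod.snd c) ∧
      d.2.1 2 = (F (Sum.map Prod.fst Prod.fst c)).2 := by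
    intro c
    exact exists_dt02 _ _ _ (Fin.succAbove_ne _ _)
  choose s hs using hex
  have hside : ∀ c, ((s c).1, (s c).2.1 2) = F (Sum.map Prod.fst Prod.fst c) := by
    intro c
    exact Prod.ext (hs c).1 (hs c).2.2
  have huniq : ∀ (x : Fin N × Fin 4) (k k' : Fin N ⊕ Fin N), (x = F k ∨ x = opp T (F k)) →
      (x = F k' ∨ x = opp T (F k')) → k = k' := by
    intro x k k' h h'
    obtain ⟨k0, -, hk0⟩ := hF x
    rw [hk0 k h, hk0 k' h']
  have hinj : ∀ c c', s c = s c' → c = c' := by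
    intro c c' h
    have h1 : F (Sum.map Prod.fst Prod.fst c) = F (Sum.map Prod.fst Prod.fst c') := by
      rw [← hside c, ← hside c', h]
    have h2 := huniq _ _ _ (Or.inl rfl) (Or.inl h1)
    refine c_ext c c' h2 ?_
    have h3 := (hs c).2.1
    rw [h, (hs c').2.1, h1] at h3
    exact (Fin.succAbove_right_injective h3).symm
  have hmix : ∀ c c', s c ≠ T.al (s c') := by
    intro c c' h
    have h1 : F (Sum.map Prod.fst Prod.fst c) = opp T (F (Sum.map Prod.fst Prod.fst c')) := by
      rw [← hside c, ← hside c', ← side_al, h]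
    have h2 := huniq _ _ _ (Or.inl rfl) (Or.inr h1)
    rw [h2] at h1
    exact opp_ne T _ h1.symm
  have hsurj : ∀ (d : Dt N) (k : Fin N ⊕ Fin N), (d.1, d.2.1 2) = F k → ∃ c, s c = d := by
    intro d k hk
    have h1 : d.1 = (F k).1 := congrArg Prod.fst hk
    have h2 : d.2.1 2 = (F k).2 := congrArg Prod.snd hk
    have h3 : d.2.1 0 ≠ (F k).2 := by
      rw [← h2]
      exact dt_ne d 0 2 (by decide)
    obtain ⟨t, ht⟩ := Fin.exists_succAbove_eq h3
    have hk' : Sum.map Prod.fst Prod.fst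
        (Sum.map (fun n => (n, t)) (fun n => (n, t)) k :
          (Fin N × Fin 3) ⊕ (Fin N × Fin 3)) = k := by
      rcases k with n | n <;> rfl
    have ht' : Sum.elim Prod.snd Prod.snd
        (Sum.map (fun n => (n, t)) (fun n => (n, t)) k :
          (Fin N × Fin 3) ⊕ (Fin N × Fin 3)) = t := by
      rcases k with n | n <;> rfl
    refine ⟨Sum.map (fun n => (n, t)) (fun n => (n, t)) k, ?_⟩
    obtain ⟨e1, e2, e3⟩ := hs (Sum.map (fun n => (n, t)) (fun n => (n, t)) k)
    rw [hk'] at e1 e2 e3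
    rw [ht', ht] at e2
    exact dt_ext02 _ _ (e1.trans h1.symm) e2 (e3.trans h2.symm)
  refine ⟨s, fun c => ⟨(hs c).1, (hs c).2.2, (hs c).2.1⟩, ?_, ?_⟩
  · rintro (c | c) (c' | c') h
    · exact congrArg Sum.inl (hinj _ _ h)
    · exact absurd h (hmix _ _)
    · exact absurd h.symm (hmix _ _)
    · simp only [Sum.elim_inr] at h
      have h1 := congrArg T.al h
      rw [al_al, al_al] at h1
      exact congrArg Sum.inr (hinj _ _ h1)
  · intro d
    obtain ⟨k, hk, -⟩ := hF (d.1, d.2.1 2)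
    rcases hk with hk | hk
    · obtain ⟨c, hc⟩ := hsurj d k hk
      exact ⟨Sum.inl c, hc⟩
    · have h1 : ((T.al d).1, (T.al d).2.1 2) = F k := by
        rw [side_al, hk]
        exact opp_opp T (F k)
      obtain ⟨c, hc⟩ := hsurj _ k h1
      refine ⟨Sum.inr c, ?_⟩
      simp only [Sum.elim_inr]
      rw [hc, al_al]


end Pool.Agent.OL36
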