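import Pool.Agent.LibOL36.D1
import Pool.Agent.LibOL36.S1
import Pool.Agent.LibOL36.S3
import Pool.Agent.LibOL36.C1
import Pool.Agent.LibOL36.C2
import Pool.Agent.LibOL36.B2
import Pool.Agent.LibOL36.B1
import Pool.Agent.LibOL36.H1
import Pool.Agent.LibOL36.V1
import Pool.Agent.LibOL36.V4
import Pool.Agent.LibOL36.T1
import Pool.Agent.LibOL36.J1
import Pool.Agent.LibOL36.P5
import Pool.Agent.LibOL36.P6
import Pool.Agent.LibOL36.F1
import Pool.Agent.LibOL36.F2
import Pool.Agent.LibOL36.F3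
import Pool.Agent.LibOL36.M1
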