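import Pool.Agent.LibOL36.TDefs

/-! # Row S0: the maps al and ph

Plan. `al_al`: `al d = (nbr j i, σ * π * swap 1 3)` with `i = π 2`; its third vertex is `σ i`; `nbr_nbr` and
`glue_glue` (careful with dependent types: prove equality of pairs with `Prod.ext`, `Subtype.ext`; the value of
`glue (nbr j i) (σ i) = σ⁻¹`), `swap 1 3 * swap 1 3 = 1`. `al_ne`: first component and third vertex:
`(nbr j i, σ i) ≠ (j, i)` (`ne_self`). `ph_ph_ph`: `(swap 1 2 * swap 2 3) ^ 3 = 1` by `decide`. `ph_ne`: evaluate at `1`.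
Values: `(ph d).2.1 0 = d.2.1 0`, `(ph d).2.1 1 = d.2.1 2`, `(ph d).2.1 2 = d.2.1 3`, `(ph d).2.1 3 = d.2.1 1`;
`(al d).2.1 0 = σ (d 0)`, `1 ↦ σ (d 3)`, `2 ↦ σ (d 2)`, `3 ↦ σ (d 1)`: all by `simp`/`decide` on `swap`.
`dt_ext`: an even permutation of `Fin 4` is determined by its values at `0` and `2` (or by `0` and `1`): `decide` after
generalizing (`Fintype` of permutations; or `revert; decide`).
`qm_inj`: same `j`, same value at `0`: the three even permutations (`decide`). -/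

set_option autoImplicit false

open Matrix

namespace Pool.Agent.OL36

variable {N : ℕ}

private theorem s0_one02 : ∀ ρ : Equiv.Perm (Fin 4), Equiv.Perm.sign ρ = 1 → ρ 0 = 0 → ρ 2 = 2 →
    ρ = 1 := by
  decide

private theorem s0_one01 : ∀ ρ : Equiv.Perm (Fin 4), Equiv.Perm.sign ρ = 1 → ρ 0 = 0 → ρ 1 = 1 →
    ρ = 1 := by
  decide

private theorem s0_three : ∀ ρ : Equiv.Perm (Fin 4), Equiv.Perm.sign ρ = 1 → ρ 0 = 0 →
    ρ = 1 ∨ ρ = Equiv.swap 1 2 * Equiv.swap 2 3 ∨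
      ρ = (Equiv.swap 1 2 * Equiv.swap 2 3) * (Equiv.swap 1 2 * Equiv.swap 2 3) := by
  decide

private theorem s0_ex02 : ∀ a i : Fin 4, a ≠ i →
    ∃ ρ : Equiv.Perm (Fin 4), Equiv.Perm.sign ρ = 1 ∧ ρ 0 = a ∧ ρ 2 = i := by
  decide

private theorem s0_ex01 : ∀ a i : Fin 4, a ≠ i →
    ∃ ρ : Equiv.Perm (Fin 4), Equiv.Perm.sign ρ = 1 ∧ ρ 0 = a ∧ ρ 1 = i := by
  decide

private theorem s0_inv_apply (π : Equiv.Perm (Fin 4)) (x : Fin 4) : π⁻¹ (π x) = x :=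
  π.symm_apply_apply x

private theorem s0_sign_inv_mul (π π' : Equiv.Perm (Fin 4)) (h : Equiv.Perm.sign π = 1)
    (h' : Equiv.Perm.sign π' = 1) : Equiv.Perm.sign (π⁻¹ * π') = 1 := by
  rw [Equiv.Perm.sign_mul, Equiv.Perm.sign_inv, h, h', mul_one]

theorem al_val (T : Tri N) (d : Dt N) :
    (T.al d).1 = T.nbr d.1 (d.2.1 2) ∧
    (T.al d).2.1 0 = T.glue d.1 (d.2.1 2) (d.2.1 0) ∧
    (T.al d).2.1 1 = T.glue d.1 (d.2.1 2) (d.2.1 3) ∧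
    (T.al d).2.1 2 = T.glue d.1 (d.2.1 2) (d.2.1 2) ∧
    (T.al d).2.1 3 = T.glue d.1 (d.2.1 2) (d.2.1 1) := by
  refine ⟨rfl, ?_, ?_, ?_, ?_⟩
  · change T.glue d.1 (d.2.1 2) (d.2.1 (Equiv.swap 1 3 0)) = _
    rw [show (Equiv.swap 1 3 0 : Fin 4) = 0 from by decide]
  · change T.glue d.1 (d.2.1 2) (d.2.1 (Equiv.swap 1 3 1)) = _
    rw [show (Equiv.swap 1 3 1 : Fin 4) = 3 from by decide]
  · change T.glue d.1 (d.2.1 2) (d.2.1 (Equiv.swap 1 3 2)) = _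
    rw [show (Equiv.swap 1 3 2 : Fin 4) = 2 from by decide]
  · change T.glue d.1 (d.2.1 2) (d.2.1 (Equiv.swap 1 3 3)) = _
    rw [show (Equiv.swap 1 3 3 : Fin 4) = 1 from by decide]

theorem ph_val (d : Dt N) :
    (ph d).1 = d.1 ∧ (ph d).2.1 0 = d.2.1 0 ∧ (ph d).2.1 1 = d.2.1 2 ∧
    (ph d).2.1 2 = d.2.1 3 ∧ (ph d).2.1 3 = d.2.1 1 := by
  refine ⟨rfl, ?_, ?_, ?_, ?_⟩
  · change d.2.1 ((Equiv.swap 1 2 * Equiv.swap 2 3 : Equiv.Perm (Fin 4)) 0) = _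
    rw [show ((Equiv.swap 1 2 * Equiv.swap 2 3 : Equiv.Perm (Fin 4)) 0) = 0 from by decide]
  · change d.2.1 ((Equiv.swap 1 2 * Equiv.swap 2 3 : Equiv.Perm (Fin 4)) 1) = _
    rw [show ((Equiv.swap 1 2 * Equiv.swap 2 3 : Equiv.Perm (Fin 4)) 1) = 2 from by decide]
  · change d.2.1 ((Equiv.swap 1 2 * Equiv.swap 2 3 : Equiv.Perm (Fin 4)) 2) = _
    rw [show ((Equiv.swap 1 2 * Equiv.swap 2 3 : Equiv.Perm (Fin 4)) 2) = 3 from by decide]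
  · change d.2.1 ((Equiv.swap 1 2 * Equiv.swap 2 3 : Equiv.Perm (Fin 4)) 3) = _
    rw [show ((Equiv.swap 1 2 * Equiv.swap 2 3 : Equiv.Perm (Fin 4)) 3) = 1 from by decide]

theorem al_al (T : Tri N) (d : Dt N) : T.al (T.al d) = d := by
  have h2 : (T.al d).2.1 2 = T.glue d.1 (d.2.1 2) (d.2.1 2) := (al_val T d).2.2.2.1
  refine Prod.ext ?_ (Subtype.ext ?_)
  · change T.nbr (T.al d).1 ((T.al d).2.1 2) = d.1
    rw [h2]
    exact T.nbr_nbr d.1 (d.2.1 2)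
  · change T.glue (T.al d).1 ((T.al d).2.1 2) * (T.al d).2.1 * Equiv.swap 1 3 = d.2.1
    rw [h2]
    change T.glue (T.nbr d.1 (d.2.1 2)) (T.glue d.1 (d.2.1 2) (d.2.1 2)) *
      (T.glue d.1 (d.2.1 2) * d.2.1 * Equiv.swap 1 3) * Equiv.swap 1 3 = d.2.1
    rw [T.glue_glue, mul_assoc, mul_assoc, Equiv.swap_mul_self, mul_one, inv_mul_cancel_left]

theorem al_ne (T : Tri N) (d : Dt N) : T.al d ≠ d := by
  intro h
  have h1 : (T.al d).1 = d.1 := by rw [h]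
  have h2 : (T.al d).2.1 2 = d.2.1 2 := by rw [h]
  rw [(al_val T d).2.2.2.1] at h2
  exact T.ne_self d.1 (d.2.1 2) (Prod.ext h1 h2)

theorem ph_ph_ph (d : Dt N) : ph (ph (ph d)) = d := by
  refine Prod.ext rfl (Subtype.ext ?_)
  change d.2.1 * (Equiv.swap 1 2 * Equiv.swap 2 3) * (Equiv.swap 1 2 * Equiv.swap 2 3) *
    (Equiv.swap 1 2 * Equiv.swap 2 3) = d.2.1
  rw [mul_assoc, mul_assoc, show ((Equiv.swap 1 2 * Equiv.swap 2 3 : Equiv.Perm (Fin 4)) *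
    ((Equiv.swap 1 2 * Equiv.swap 2 3) * (Equiv.swap 1 2 * Equiv.swap 2 3))) = 1 from by decide,
    mul_one]

theorem ph_ne (d : Dt N) : ph d ≠ d := by
  intro h
  have h1 : (ph d).2.1 1 = d.2.1 1 := by rw [h]
  rw [(ph_val d).2.2.1] at h1
  exact absurd (d.2.1.injective h1) (by decide)

/-- An even flag is determined by two of its vertices. -/
theorem dt_ext02 (d d' : Dt N) (h1 : d.1 = d'.1) (h2 : d.2.1 0 = d'.2.1 0)
    (h3 : d.2.1 2 = d'.2.1 2) : d = d' := by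
  refine Prod.ext h1 (Subtype.ext ?_)
  have := s0_one02 (d.2.1⁻¹ * d'.2.1) (s0_sign_inv_mul _ _ d.2.2 d'.2.2)
    (by rw [Equiv.Perm.mul_apply, ← h2, s0_inv_apply])
    (by rw [Equiv.Perm.mul_apply, ← h3, s0_inv_apply])
  exact (inv_mul_eq_one.mp this)

theorem dt_ext01 (d d' : Dt N) (h1 : d.1 = d'.1) (h2 : d.2.1 0 = d'.2.1 0)
    (h3 : d.2.1 1 = d'.2.1 1) : d = d' := by
  refine Prod.ext h1 (Subtype.ext ?_)
  have := s0_one01 (d.2.1⁻¹ * d'.2.1) (s0_sign_inv_mul _ _ d.2.2 d'.2.2)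
    (by rw [Equiv.Perm.mul_apply, ← h2, s0_inv_apply])
    (by rw [Equiv.Perm.mul_apply, ← h3, s0_inv_apply])
  exact (inv_mul_eq_one.mp this)

theorem exists_dt02 (j : Fin N) (a i : Fin 4) (h : a ≠ i) :
    ∃ d : Dt N, d.1 = j ∧ d.2.1 0 = a ∧ d.2.1 2 = i := by
  obtain ⟨ρ, hs, h0, h2⟩ := s0_ex02 a i h
  exact ⟨(j, ⟨ρ, hs⟩), rfl, h0, h2⟩

theorem exists_dt01 (j : Fin N) (a b : Fin 4) (h : a ≠ b) :
    ∃ d : Dt N, d.1 = j ∧ d.2.1 0 = a ∧ d.2.1 1 = b := by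
  obtain ⟨ρ, hs, h0, h2⟩ := s0_ex01 a b h
  exact ⟨(j, ⟨ρ, hs⟩), rfl, h0, h2⟩

theorem dt_qm_inj (d d' : Dt N) (h : (d.1, d.2.1 0) = (d'.1, d'.2.1 0)) :
    d' = d ∨ d' = ph d ∨ d' = ph (ph d) := by
  obtain ⟨h1, h2⟩ := Prod.mk.inj h
  have h3 := s0_three (d.2.1⁻¹ * d'.2.1) (s0_sign_inv_mul _ _ d.2.2 d'.2.2)
    (by rw [Equiv.Perm.mul_apply, ← h2, s0_inv_apply])
  rcases h3 with h3 | h3 | h3
  · left
    exact Prod.ext h1.symm (Subtype.ext (inv_mul_eq_one.mp h3).symm)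
  · right; left
    exact Prod.ext h1.symm (Subtype.ext (inv_mul_eq_iff_eq_mul.mp h3))
  · right; right
    refine Prod.ext h1.symm (Subtype.ext ?_)
    rw [inv_mul_eq_iff_eq_mul.mp h3]
    exact (mul_assoc _ _ _).symm

theorem dt_ne (d : Dt N) (x y : Fin 4) (h : x ≠ y) : d.2.1 x ≠ d.2.1 y := by
  exact fun h' => h (d.2.1.injective h')

end Pool.Agent.OL36
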