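import Mathlib

/-! Squares of determinants of matrices whose rows and columns are indexed by different types. -/

set_option autoImplicit false

open Matrix

namespace Pool.Agent.OL36

section
variable {m n m' n' : Type} [Fintype m] [DecidableEq m] [Fintype n] [DecidableEq n]
  [Fintype m'] [DecidableEq m'] [Fintype n'] [DecidableEq n']

/-- The square of the determinant of a square matrix with arbitrary index types. -/
noncomputable def dsq (M : Matrix m n ℂ) : ℂ := (M * Mᵀ).det

theorem dsq_eq (e : m ≃ n) (M : Matrix m n ℂ) : dsq M = (M.submatrix id e).det ^ 2 := by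
  have h : M * Mᵀ = (M.submatrix id e) * (M.submatrix id e)ᵀ := by
    ext i j
    simp only [mul_apply, transpose_apply, submatrix_apply, id]
    exact (Equiv.sum_comp e (fun x => M i x * M j x)).symm
  rw [dsq, h, det_mul, det_transpose, sq]

theorem dsq_square (M : Matrix m m ℂ) : dsq M = M.det ^ 2 := by
  rw [dsq, det_mul, det_transpose, sq]

theorem dsq_mul_left (A : Matrix m m ℂ) (M : Matrix m n ℂ) : dsq (A * M) = A.det ^ 2 * dsq M := by
  rw [dsq, dsq, transpose_mul, Matrix.mul_assoc, ← Matrix.mul_assoc M, det_mul, det_mul,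
    det_transpose]
  ring

theorem dsq_mul (e : m ≃ n) (M : Matrix m n ℂ) (B : Matrix n n' ℂ) (e' : n ≃ n') :
    dsq (M * B) = dsq M * dsq B := by
  have h : (M * B).submatrix id (e.trans e') =
      (M.submatrix id e) * ((B.submatrix id e').submatrix e e) := by
    ext i j
    simp only [mul_apply, submatrix_apply, id, Equiv.trans_apply]
    exact (Equiv.sum_comp e (fun x => M i x * B x (e' (e j)))).symm
  rw [dsq_eq (e.trans e'), h, det_mul, det_submatrix_equiv_self, dsq_eq e, dsq_eq e', mul_pow]

theorem dsq_reindex (a : m' ≃ m) (b : n' ≃ n) (M : Matrix m n ℂ) :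
    dsq (M.submatrix a b) = dsq M := by
  have h : (M.submatrix a b) * (M.submatrix a b)ᵀ = (M * Mᵀ).submatrix a a := by
    ext i j
    simp only [mul_apply, transpose_apply, submatrix_apply]
    exact Equiv.sum_comp b (fun x => M (a i) x * M (a j) x)
  rw [dsq, h, det_submatrix_equiv_self, dsq]

theorem dsq_fromBlocks (e : m ≃ n) (e' : m' ≃ n') (A : Matrix m n ℂ) (C : Matrix m' n ℂ)
    (D : Matrix m' n' ℂ) :
    dsq (fromBlocks A 0 C D) = dsq A * dsq D := by
  have h : (fromBlocks A 0 C D).submatrix id (Equiv.sumCongr e e') =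
      fromBlocks (A.submatrix id e) 0 (C.submatrix id e) (D.submatrix id e') := by
    ext i j
    rcases i with i | i <;> rcases j with j | j <;> simp
  rw [dsq_eq (Equiv.sumCongr e e'), h, det_fromBlocks_zero₁₂, dsq_eq e, dsq_eq e', mul_pow]

end

end Pool.Agent.OL36
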