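import Pool.Agent.LibOL36.TS
import Pool.Agent.LibOL36.TJ

/-! # Row TB: integral cohomology of the torus

Plan. `C := {y : Δ → ℤ | Anti y}`, `Z := {Cyc y}`, `B := range (dl : (P → ℤ) → Z)`, all submodules (finitely
generated free over `ℤ`). Ranks: `rank C = card Δ / 2` (pairs `{d, α d}`; `α` has no fixed points), `dd : C → (Q → ℤ)` has kernel
`Z` (`cyc_iff`) and image `{c | ∑ c = 0}` (`sum_dd` and `sigma`), rank `card Q - 1`; `ker dl` = constants (if `dl f = 0` then `f (vm d) =
f (vm (φ² d))`, so `f ∘ vm` is constant under `φ` and (by `vm_R`) under `α`: `vm (α d) = vm (φ² d)`; `conn`, `vm_surj`), so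
`rank B = card P - 1`. Hence `rank (Z/B) = card Δ/2 - (card Q - 1) - (card P - 1) = 2` by `hchi`. `Z/B` is torsion free: if
`n • y = dl f`, `n ≠ 0`, then `f ∘ vm` is constant mod `n` (as above), so `f = c + n f'` and `y = dl f'` (divide by `n`). So `Z/B` is
free of rank 2 (`Module.free_of_finite_type_torsion_free'`, `Module.finBasis`, `Submodule.finrank_quotient_add_finrank`,
`LinearMap.finrank_range_add_finrank_ker`), take lifts `x0, y0` of a basis. (If you prefer: work over `ℚ` for the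
dimension, or use Smith normal form.) `card P ≥ 1`, `card Q ≥ 1`: if `Δ` is empty then `qm_surj` makes `Q` empty, etc.; then `hchi` holds
trivially but the statement is still needed: for empty `Δ` both `Cyc` are trivial and the last clause fails, so we
assume `Nonempty Δ`. -/

set_option autoImplicit false

open Matrix

namespace Pool.Agent.OL36

variable {Δ Q P : Type}

/-- Antisymmetric functions. -/
private def tbC (Sf : Surf Δ Q P) : Submodule ℤ (Δ → ℤ) where
  carrier := {y | Sf.Anti y}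
  add_mem' := by
    intro a b ha hb d
    have h1 := ha d
    have h2 := hb d
    simp only [Pi.add_apply, h1, h2]
    ring
  zero_mem' := by
    intro d
    simp
  smul_mem' := by
    intro c x hx d
    have h1 := hx d
    simp only [Pi.smul_apply, smul_eq_mul, h1]
    ring

private theorem tb_mem_C (Sf : Surf Δ Q P) (y : Δ → ℤ) : y ∈ tbC Sf ↔ Sf.Anti y := Iff.rfl

private theorem tb_rn {R M N : Type} [CommRing R] [IsDomain R] [AddCommGroup M] [Module R M]
    [AddCommGroup N] [Module R N] [Module.Finite R M] (f : M →ₗ[R] N) :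
    Module.finrank R (LinearMap.range f) + Module.finrank R (LinearMap.ker f)
      = Module.finrank R M := by
  rw [← f.quotKerEquivRange.finrank_eq]
  exact Submodule.finrank_quotient_add_finrank (LinearMap.ker f)

/-- Restriction to a set of representatives. -/
private theorem tb_rankC (Sf : Surf Δ Q P) [Fintype Δ] [DecidableEq Δ] :
    2 * Module.finrank ℤ (tbC Sf) = Fintype.card Δ := by
  classical
  let e : Δ ≃ Fin (Fintype.card Δ) := Fintype.equivFin Δ
  let p : Δ → Prop := fun d => e d < e (Sf.α d)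
  have hp : ∀ d, ¬ p d ↔ p (Sf.α d) := by
    intro d
    simp only [p, Sf.αα]
    constructor
    · intro h
      refine lt_of_le_of_ne (not_lt.mp h) ?_
      intro h2
      exact Sf.α_ne d (e.injective h2)
    · intro h
      exact not_lt.mpr h.le
  have heq : Nonempty (tbC Sf ≃ₗ[ℤ] ({d // p d} → ℤ)) := by
    refine ⟨LinearEquiv.ofBijective
      ({ toFun := fun y d => y.1 d.1
         map_add' := fun a b => rfl
         map_smul' := fun a b => rfl } : tbC Sf →ₗ[ℤ] ({d // p d} → ℤ)) ⟨?_, ?_⟩⟩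
    · intro a b hab
      apply Subtype.ext
      funext d
      by_cases h : p d
      · exact congrFun hab ⟨d, h⟩
      · have h2 := (hp d).mp h
        have h3 : a.1 (Sf.α d) = b.1 (Sf.α d) := congrFun hab ⟨Sf.α d, h2⟩
        have h4 := a.2 d
        have h5 := b.2 d
        have h6 : a.1 (Sf.α d) = -a.1 d := h4
        have h7 : b.1 (Sf.α d) = -b.1 d := h5
        linarith
    · intro g
      refine ⟨⟨fun d => if h : p d then g ⟨d, h⟩ else
        (if h' : p (Sf.α d) then -g ⟨Sf.α d, h'⟩ else 0), ?_⟩, ?_⟩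
      · intro d
        by_cases h : p d
        · have h2 : ¬ p (Sf.α d) := by
            intro h2
            exact (hp d).mpr h2 h
          have h3 : p (Sf.α (Sf.α d)) := by rw [Sf.αα]; exact h
          simp only [h, h2, dif_pos, dif_neg, not_false_eq_true, h3]
          simp only [Sf.αα]
        · have h2 := (hp d).mp h
          simp only [h, h2, dif_pos, dif_neg, not_false_eq_true, neg_neg]
      · funext d
        have h := d.2
        simp only [LinearMap.coe_mk, AddHom.coe_mk, h, dif_pos]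
  obtain ⟨E⟩ := heq
  rw [E.finrank_eq, Module.finrank_fintype_fun_eq_card]
  have h1 : Fintype.card {d // p d} = Fintype.card {d // ¬ p d} := by
    refine Fintype.card_congr ⟨fun d => ⟨Sf.α d.1, ?_⟩, fun d => ⟨Sf.α d.1, (hp d.1).mp d.2⟩,
      ?_, ?_⟩
    · rw [hp, Sf.αα]
      exact d.2
    · intro d
      exact Subtype.ext (Sf.αα d.1)
    · intro d
      exact Subtype.ext (Sf.αα d.1)
  have h2 := Fintype.card_subtype_compl p
  have h3 : Fintype.card {d // p d} ≤ Fintype.card Δ := Fintype.card_subtype_le p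
  omega

/-- The coboundary on antisymmetric functions. -/
private def tbdd (Sf : Surf Δ Q P) [Fintype Δ] [DecidableEq Q] : tbC Sf →ₗ[ℤ] (Q → ℤ) where
  toFun := fun y => Sf.dd y.1
  map_add' := by
    intro a b
    funext τ
    simp only [Surf.dd, Pi.add_apply, Submodule.coe_add]
    rw [← Finset.sum_add_distrib]
    refine Finset.sum_congr rfl fun d _ => ?_
    split_ifs <;> simp
  map_smul' := by
    intro c a
    funext τ
    simp only [Surf.dd, Pi.smul_apply, smul_eq_mul, RingHom.id_apply, Submodule.coe_smul]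
    rw [Finset.mul_sum]
    refine Finset.sum_congr rfl fun d _ => ?_
    split_ifs <;> simp

private def tbSum (Q : Type) [Fintype Q] : (Q → ℤ) →ₗ[ℤ] ℤ where
  toFun := fun c => ∑ τ, c τ
  map_add' := by
    intro a b
    simp [Finset.sum_add_distrib]
  map_smul' := by
    intro c a
    simp [Finset.mul_sum]

private theorem tb_ranksum (Q : Type) [Fintype Q] [Nonempty Q] [DecidableEq Q] :
    Module.finrank ℤ (LinearMap.ker (tbSum Q)) + 1 = Fintype.card Q := by
  have h1 := tb_rn (tbSum Q)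
  have h2 : LinearMap.range (tbSum Q) = ⊤ := by
    rw [LinearMap.range_eq_top]
    intro z
    obtain ⟨q⟩ := ‹Nonempty Q›
    refine ⟨fun q' => if q' = q then z else 0, ?_⟩
    simp [tbSum]
  rw [h2, finrank_top, Module.finrank_self, Module.finrank_fintype_fun_eq_card] at h1
  omega

private theorem tb_range_dd (Sf : Surf Δ Q P) [Fintype Δ] [DecidableEq Δ] [Fintype Q]
    [DecidableEq Q] [Nonempty Q] :
    LinearMap.range (tbdd Sf) = LinearMap.ker (tbSum Q) := by
  apply le_antisymm
  · rintro _ ⟨y, rfl⟩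
    rw [LinearMap.mem_ker]
    have hinj : Function.Injective (fun r : ℤ => (2 : ℤ) * r) := by
      intro a b hab
      have : (2 : ℤ) * a = 2 * b := hab
      omega
    exact Sf.sum_dd y.1 y.2 (Or.inr hinj)
  · intro c hc
    rw [LinearMap.mem_ker] at hc
    have hc' : ∑ τ, c τ = 0 := hc
    obtain ⟨τ0⟩ := ‹Nonempty Q›
    have hs : ∀ τ, ∃ y : tbC Sf, tbdd Sf y =
        fun τ' => (if τ' = τ then 1 else 0) - (if τ' = τ0 then 1 else 0) := by
      intro τ
      obtain ⟨σ, h1, h2⟩ := Sf.sigma τ τ0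
      exact ⟨⟨σ, h1⟩, funext h2⟩
    choose s hs using hs
    refine ⟨∑ τ, c τ • s τ, ?_⟩
    rw [map_sum]
    simp only [map_smul, hs]
    funext τ'
    simp only [Finset.sum_apply, Pi.smul_apply, smul_eq_mul, mul_sub, Finset.sum_sub_distrib,
      mul_ite, mul_one, mul_zero, Finset.sum_ite_eq, Finset.mem_univ, if_true]
    by_cases h : τ' = τ0
    · simp [h, hc']
    · simp [h]

private theorem tb_rank_kerdd (Sf : Surf Δ Q P) [Fintype Δ] [DecidableEq Δ] [Fintype Q]
    [DecidableEq Q] [Nonempty Q] :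
    2 * Module.finrank ℤ (LinearMap.ker (tbdd Sf)) + 2 * Fintype.card Q
      = Fintype.card Δ + 2 := by
  have h1 := tb_rn (tbdd Sf)
  have h2 := tb_rankC Sf
  rw [tb_range_dd Sf] at h1
  have h3 := tb_ranksum Q
  omega

/-- `f ∘ vm` is constant along `α`, `φ`. -/
private theorem tb_const (Sf : Surf Δ Q P) {S : Type} (g : P → S)
    (hg : ∀ d, g (Sf.vm d) = g (Sf.vm (Sf.φ (Sf.φ d)))) (p p' : P) : g p = g p' := by
  obtain ⟨d, rfl⟩ := Sf.vm_surj p
  obtain ⟨d', rfl⟩ := Sf.vm_surj p'
  have hα : ∀ d, Sf.vm (Sf.α d) = Sf.vm (Sf.φ (Sf.φ d)) := by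
    intro d
    have := Sf.vm_R (Sf.α d)
    rw [Sf.αα] at this
    exact this.symm
  have hφ : ∀ d, g (Sf.vm (Sf.φ d)) = g (Sf.vm d) := by
    intro d
    have := hg (Sf.φ d)
    rw [Sf.φφφ] at this
    exact this
  have hc := Sf.conn d d'
  induction hc with
  | rel x y h =>
    rcases h with h | h
    · rw [h, hα]
      exact hg x
    · rw [h, hφ]
  | refl x => rfl
  | symm x y _ ih => exact ih.symm
  | trans x y z _ _ ih1 ih2 => exact ih1.trans ih2

/-- The coboundary to the cocycles. -/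
private def tbdl (Sf : Surf Δ Q P) [Fintype Δ] [DecidableEq Q] :
    (P → ℤ) →ₗ[ℤ] LinearMap.ker (tbdd Sf) where
  toFun := fun f => ⟨⟨Sf.dl f, (Sf.dl_cyc f).1⟩, by
    rw [LinearMap.mem_ker]
    funext τ
    exact ((Sf.cyc_iff (Sf.dl f)).mp (Sf.dl_cyc f)).2 τ⟩
  map_add' := by
    intro a b
    apply Subtype.ext
    apply Subtype.ext
    funext d
    simp only [Surf.dl, Pi.add_apply, Submodule.coe_add]
    ring
  map_smul' := by
    intro c a
    apply Subtype.ext
    apply Subtype.ext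
    funext d
    simp only [Surf.dl, Pi.smul_apply, smul_eq_mul, RingHom.id_apply, Submodule.coe_smul]
    ring

private theorem tb_rank_kerdl (Sf : Surf Δ Q P) [Fintype Δ] [DecidableEq Q] [Fintype P]
    [Nonempty P] : Module.finrank ℤ (LinearMap.ker (tbdl Sf)) = 1 := by
  obtain ⟨p0⟩ := ‹Nonempty P›
  have heq : Nonempty (LinearMap.ker (tbdl Sf) ≃ₗ[ℤ] ℤ) := by
    refine ⟨LinearEquiv.ofBijective
      ({ toFun := fun f => f.1 p0
         map_add' := fun a b => rfl
         map_smul' := fun a b => rfl } : LinearMap.ker (tbdl Sf) →ₗ[ℤ] ℤ) ⟨?_, ?_⟩⟩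
    · have key : ∀ f : LinearMap.ker (tbdl Sf), ∀ p, f.1 p = f.1 p0 := by
        intro f p
        refine tb_const Sf f.1 ?_ p p0
        intro d
        have h1 : tbdl Sf f.1 = 0 := f.2
        have h2 : Sf.dl f.1 d = 0 := congrFun (congrArg (fun z => (z.1.1 : Δ → ℤ)) h1) d
        unfold Surf.dl at h2
        linarith
      intro a b hab
      apply Subtype.ext
      funext p
      rw [key a p, key b p]
      exact hab
    · intro z
      refine ⟨⟨fun _ => z, ?_⟩, rfl⟩
      rw [LinearMap.mem_ker]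
      apply Subtype.ext
      apply Subtype.ext
      funext d
      show Sf.dl (fun _ => z) d = 0
      simp [Surf.dl]
  obtain ⟨E⟩ := heq
  rw [E.finrank_eq, Module.finrank_self]

private theorem tb_rank_quot (Sf : Surf Δ Q P) [Fintype Δ] [DecidableEq Δ] [Fintype Q]
    [DecidableEq Q] [Fintype P] [Nonempty Q] [Nonempty P]
    (hchi : 2 * Fintype.card P + 2 * Fintype.card Q = Fintype.card Δ) :
    Module.finrank ℤ (LinearMap.ker (tbdd Sf) ⧸ LinearMap.range (tbdl Sf)) = 2 := by
  have h1 := Submodule.finrank_quotient_add_finrank (LinearMap.range (tbdl Sf))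
  have h2 := tb_rn (tbdl Sf)
  rw [tb_rank_kerdl Sf, Module.finrank_fintype_fun_eq_card] at h2
  have h3 := tb_rank_kerdd Sf
  omega

private theorem tb_tf (Sf : Surf Δ Q P) [Fintype Δ] [DecidableEq Q] [Nonempty P]
    (n : ℤ) (hn : n ≠ 0) (y : Δ → ℤ) (f : P → ℤ) (h : ∀ d, n * y d = Sf.dl f d) :
    ∃ f' : P → ℤ, ∀ d, y d = Sf.dl f' d := by
  obtain ⟨p0⟩ := ‹Nonempty P›
  have hc : ∀ p, ((f p : ℤ) : ZMod n.natAbs) = (f p0 : ZMod n.natAbs) := by
    intro p
    refine tb_const Sf (fun p => ((f p : ℤ) : ZMod n.natAbs)) ?_ p p0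
    intro d
    have h1 := h d
    unfold Surf.dl at h1
    have h2 : ((f (Sf.vm d) - f (Sf.vm (Sf.φ (Sf.φ d))) : ℤ) : ZMod n.natAbs) = 0 := by
      rw [← h1, ZMod.intCast_zmod_eq_zero_iff_dvd]
      exact Dvd.dvd.mul_right (Int.natAbs_dvd.mpr dvd_rfl) _
    push_cast at h2
    exact sub_eq_zero.mp h2
  have hd : ∀ p, n ∣ f p - f p0 := by
    intro p
    have h1 := hc p
    have h2 : ((f p - f p0 : ℤ) : ZMod n.natAbs) = 0 := by
      push_cast
      rw [h1, sub_self]
    rw [ZMod.intCast_zmod_eq_zero_iff_dvd] at h2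
    exact Int.natAbs_dvd.mp h2
  choose f' hf' using hd
  refine ⟨f', fun d => ?_⟩
  have h1 := h d
  unfold Surf.dl at h1 ⊢
  have h2 := hf' (Sf.vm d)
  have h3 := hf' (Sf.vm (Sf.φ (Sf.φ d)))
  have h4 : n * y d = n * (f' (Sf.vm d) - f' (Sf.vm (Sf.φ (Sf.φ d)))) := by
    rw [h1, mul_sub, ← h2, ← h3]
    ring
  exact mul_left_cancel₀ hn h4

theorem Surf.basisZ (Sf : Surf Δ Q P) [Nonempty Δ] [Fintype Δ] [DecidableEq Δ] [Fintype Q]
    [DecidableEq Q] [Fintype P] [DecidableEq P]
    (hchi : 2 * Fintype.card P + 2 * Fintype.card Q = Fintype.card Δ) :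
    ∃ x0 y0 : Δ → ℤ, Sf.Cyc x0 ∧ Sf.Cyc y0 ∧
      (∀ y : Δ → ℤ, Sf.Cyc y → ∃ (a b : ℤ) (f : P → ℤ),
        ∀ d, y d = a * x0 d + b * y0 d + Sf.dl f d) ∧
      (∀ (a b : ℤ) (f : P → ℤ), (∀ d, a * x0 d + b * y0 d + Sf.dl f d = 0) → a = 0 ∧ b = 0) := by
  classical
  have hQ : Nonempty Q := ‹Nonempty Δ›.map Sf.qm
  have hP : Nonempty P := ‹Nonempty Δ›.map Sf.vm
  have hrank := tb_rank_quot Sf hchi
  have htf : Module.IsTorsionFree ℤ (LinearMap.ker (tbdd Sf) ⧸ LinearMap.range (tbdl Sf)) := by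
    rw [Module.isTorsionFree_iff_smul_eq_zero]
    intro n z hz
    by_cases hn : n = 0
    · exact Or.inl hn
    refine Or.inr ?_
    obtain ⟨Y, rfl⟩ := Submodule.mkQ_surjective _ z
    rw [← map_smul, Submodule.mkQ_apply, Submodule.Quotient.mk_eq_zero] at hz
    obtain ⟨f, hf⟩ := hz
    obtain ⟨f', hf'⟩ := tb_tf Sf n hn Y.1.1 f (fun d =>
      (congrFun (congrArg (fun z => (z.1.1 : Δ → ℤ)) hf) d).symm)
    rw [Submodule.mkQ_apply, Submodule.Quotient.mk_eq_zero]
    refine ⟨f', ?_⟩
    apply Subtype.ext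
    apply Subtype.ext
    funext d
    exact (hf' d).symm
  have hfree : Module.Free ℤ (LinearMap.ker (tbdd Sf) ⧸ LinearMap.range (tbdl Sf)) := by
    exact Module.free_of_finite_type_torsion_free'
  let bs := Module.finBasisOfFinrankEq ℤ
    (LinearMap.ker (tbdd Sf) ⧸ LinearMap.range (tbdl Sf)) hrank
  obtain ⟨X, hX⟩ := Submodule.mkQ_surjective _ (bs 0)
  obtain ⟨Y, hY⟩ := Submodule.mkQ_surjective _ (bs 1)
  have hcyc : ∀ Z : LinearMap.ker (tbdd Sf), Sf.Cyc Z.1.1 := by
    intro Z
    rw [Sf.cyc_iff]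
    refine ⟨Z.1.2, fun τ => ?_⟩
    have : tbdd Sf Z.1 = 0 := Z.2
    exact congrFun this τ
  refine ⟨X.1.1, Y.1.1, hcyc X, hcyc Y, ?_, ?_⟩
  · intro y hy
    have hy' := (Sf.cyc_iff y).mp hy
    let Yy : LinearMap.ker (tbdd Sf) := ⟨⟨y, hy'.1⟩, by
      rw [LinearMap.mem_ker]; funext τ; exact hy'.2 τ⟩
    have hr := bs.sum_repr (Submodule.mkQ _ Yy)
    rw [Fin.sum_univ_two, ← hX, ← hY, ← map_smul, ← map_smul, ← map_add] at hr
    have hr2 : (LinearMap.range (tbdl Sf)).mkQ
      (Yy - ((bs.repr (Submodule.mkQ _ Yy)) 0 • X + (bs.repr (Submodule.mkQ _ Yy)) 1 • Y)) = 0 := by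
      rw [map_sub, hr, sub_self]
    rw [Submodule.mkQ_apply, Submodule.Quotient.mk_eq_zero] at hr2
    obtain ⟨f, hf⟩ := hr2
    refine ⟨(bs.repr (Submodule.mkQ _ Yy)) 0, (bs.repr (Submodule.mkQ _ Yy)) 1, f, fun d => ?_⟩
    have h1 : Sf.dl f d = y d - ((bs.repr (Submodule.mkQ _ Yy)) 0 * X.1.1 d
        + (bs.repr (Submodule.mkQ _ Yy)) 1 * Y.1.1 d) :=
      congrFun (congrArg (fun z => (z.1.1 : Δ → ℤ)) hf) d
    rw [h1]
    ring
  · intro a b f h
    have h0 : a • X + b • Y + tbdl Sf f = 0 := by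
      apply Subtype.ext
      apply Subtype.ext
      funext d
      exact h d
    have h1 : a • bs 0 + b • bs 1 = 0 := by
      have h2 := congrArg (LinearMap.range (tbdl Sf)).mkQ h0
      rw [map_add, map_add, map_smul, map_smul, hX, hY, LinearMap.map_zero] at h2
      have h3 : (LinearMap.range (tbdl Sf)).mkQ (tbdl Sf f) = 0 := by
        rw [Submodule.mkQ_apply, Submodule.Quotient.mk_eq_zero]
        exact ⟨f, rfl⟩
      rw [h3, add_zero] at h2
      exact h2
    have hli := bs.linearIndependent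
    rw [Fintype.linearIndependent_iff] at hli
    have h4 := hli ![a, b] (by
      rw [Fin.sum_univ_two]
      simpa using h1)
    exact ⟨by simpa using h4 0, by simpa using h4 1⟩

end Pool.Agent.OL36
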