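import Pool.Agent.LibOL36.Loc
import Pool.Agent.LibOL36.Surf

/-! Definitions for the proof: even flags, oriented edges, decorations, coordinates of chains. -/

set_option autoImplicit false

open Matrix

namespace Pool.Agent.OL36

variable {N : ℕ}

/-- Even flags `(j, (a, p, i, q))`: the darts of the link of the ideal vertex: the side of the link
triangle `(j, a)` in the face opposite to `i`, with head `ap` and tail `aq`. -/
abbrev Dt (N : ℕ) := Fin N × {π : Equiv.Perm (Fin 4) // Equiv.Perm.sign π = 1}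

theorem sign_al (T : Tri N) (d : Dt N) :
    Equiv.Perm.sign (T.glue d.1 (d.2.1 2) * d.2.1 * Equiv.swap 1 3) = 1 := by
  rw [Equiv.Perm.sign_mul, Equiv.Perm.sign_mul, T.odd, d.2.2,
    Equiv.Perm.sign_swap (by decide)]
  decide

/-- The same side of the link seen from the other link triangle. -/
def Tri.al (T : Tri N) (d : Dt N) : Dt N :=
  (T.nbr d.1 (d.2.1 2), ⟨T.glue d.1 (d.2.1 2) * d.2.1 * Equiv.swap 1 3, sign_al T d⟩)

theorem sign_ph (d : Dt N) :
    Equiv.Perm.sign (d.2.1 * (Equiv.swap 1 2 * Equiv.swap 2 3)) = 1 := by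
  rw [Equiv.Perm.sign_mul, Equiv.Perm.sign_mul, d.2.2, Equiv.Perm.sign_swap (by decide),
    Equiv.Perm.sign_swap (by decide)]
  decide

/-- The next side of the link triangle: `(a, b, c, d) ↦ (a, c, d, b)`. -/
def ph (d : Dt N) : Dt N := (d.1, ⟨d.2.1 * (Equiv.swap 1 2 * Equiv.swap 2 3), sign_ph d⟩)

/-- Oriented edges identified by the gluings. -/
def Tri.OE (T : Tri N) : Fin N × Fin 4 × Fin 4 → Fin N × Fin 4 × Fin 4 → Prop :=
  Relation.EqvGen (fun s s' => ∃ i, i ≠ s.2.1 ∧ i ≠ s.2.2 ∧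
    s' = (T.nbr s.1 i, T.glue s.1 i s.2.1, T.glue s.1 i s.2.2))

open Classical in
/-- The class of the oriented edge `ab` of `j`: the number of the edge and `true` if the orientation
is that of `E`. -/
noncomputable def vmE (T : Tri N) (E : Fin N → Fin N × Fin 4 × Fin 4) (j : Fin N) (a b : Fin 4) :
    Fin N × Bool :=
  (T.edge j a b, decide (T.OE (E (T.edge j a b)) (j, a, b)))

/-- Equivariant decoration by vectors of `ℂ²` (up to sign). -/
structure IsDec (T : Tri N) (z : Fin N → ℂ) (u : Fin N → Fin 4 → Fin 2 → ℂ) : Prop where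
  ne : ∀ j a b, a ≠ b → om (u j a) (u j b) ≠ 0
  mat : ∀ j i a b c, a ≠ i → b ≠ i → c ≠ i → a ≠ b → a ≠ c → b ≠ c →
    Lk (u (T.nbr j i) (T.glue j i a)) (u (T.nbr j i) (T.glue j i b))
      (u (T.nbr j i) (T.glue j i c)) = Lk (u j a) (u j b) (u j c)
  cr : ∀ j, z j * (om (u j 0) (u j 2) * om (u j 3) (u j 1)) =
    -(om (u j 0) (u j 3) * om (u j 1) (u j 2))

/-- The 1-chain with coordinates `y`: coefficient `y (j, (a, p, i, q))` of `P j a` at the side
`(j, i)`. -/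
noncomputable def ev1 (u : Fin N → Fin 4 → Fin 2 → ℂ) (y : Dt N → ℂ) (j : Fin N) (i : Fin 4) : M2 :=
  ∑ d : Dt N, if d.1 = j ∧ d.2.1 2 = i then y d • nil (u j (d.2.1 0)) else 0

/-- The 2-chain with coordinates `f` (on oriented edges) and `y` (on edges). -/
noncomputable def ev2 (T : Tri N) (E : Fin N → Fin N × Fin 4 × Fin 4)
    (u : Fin N → Fin 4 → Fin 2 → ℂ) (f : Fin N × Bool → ℂ) (y : Fin N → ℂ)
    (j : Fin N) (a b : Fin 4) : M2 :=
  f (vmE T E j a b) • nil (u j a) - f (vmE T E j b a) • nil (u j b) +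
    y (T.edge j a b) • Hm (u j a) (u j b)

/-- The boundary of the 2-chain `e ⊗ H_e` in coordinates. -/
noncomputable def VV (T : Tri N) (u : Fin N → Fin 4 → Fin 2 → ℂ) (e : Fin N) (d : Dt N) : ℂ :=
  Lk (u d.1 (d.2.1 0)) (u d.1 (d.2.1 1)) (u d.1 (d.2.1 3)) / 2 *
    ((if T.edge d.1 (d.2.1 1) (d.2.1 3) = e then 1 else 0) -
     (if T.edge d.1 (d.2.1 3) (d.2.1 0) = e then 1 else 0) -
     (if T.edge d.1 (d.2.1 0) (d.2.1 1) = e then 1 else 0))

/-- The coordinates of the cycle `γ ⊗ P`. -/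
noncomputable def hc {T : Tri N} (γ : Curve T) (d : Dt N) : ℂ :=
  ∑ k ∈ Finset.range γ.m,
    ((if (γ.x k).1 = d.1 ∧ (γ.x k).2 2 = d.2.1 2 ∧ (γ.x k).2 0 = d.2.1 0 then (1 : ℂ) else 0) -
     (if (γ.x k).1 = d.1 ∧ (γ.x k).2 3 = d.2.1 2 ∧ (γ.x k).2 0 = d.2.1 0 then (1 : ℂ) else 0))

/-- The translation length of the holonomy of `γ`. -/
noncomputable def trl {T : Tri N} (u : Fin N → Fin 4 → Fin 2 → ℂ) (γ : Curve T) : ℂ :=
  ∑ k ∈ Finset.range γ.m,
    Lk (u (γ.x k).1 ((γ.x k).2 0)) (u (γ.x k).1 ((γ.x k).2 2)) (u (γ.x k).1 ((γ.x k).2 3)) / 2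

/-- `κ_j`: `ζ_t = κ_j p_t`. -/
noncomputable def kap (z : Fin N → ℂ) (u : Fin N → Fin 4 → Fin 2 → ℂ) (j : Fin N) : ℂ :=
  zeta 0 (z j) / (om (u j 0) (u j 1) * om (u j 2) (u j 3))

/-- The product of the six `om`. -/
noncomputable def six (u : Fin N → Fin 4 → Fin 2 → ℂ) (j : Fin N) : ℂ :=
  om (u j 0) (u j 1) * om (u j 0) (u j 2) * om (u j 0) (u j 3) *
    (om (u j 1) (u j 2) * om (u j 1) (u j 3) * om (u j 2) (u j 3))

/-- The relation vector of the tetrahedron `j`, with the sign and normalisation of the text. -/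
noncomputable def rr (z : Fin N → ℂ) (u : Fin N → Fin 4 → Fin 2 → ℂ) (j : Fin N)
    (τ : Fin N × Fin 4) : ℂ :=
  if τ.1 = j then -(1 / (∏ b, if b = τ.2 then 1 else om (u j τ.2) (u j b))) / (2 * kap z u j)
  else 0

/-- The Neumann-Zagier matrix. -/
noncomputable def Gz (T : Tri N) (z : Fin N → ℂ) : Matrix (Fin N) (Fin N) ℂ :=
  fun e j => ∑ t, (T.G t e j : ℂ) * zeta t (z j)

/-- The row of the curve. -/
noncomputable def Cz {T : Tri N} (z : Fin N → ℂ) (γ : Curve T) (j : Fin N) : ℂ :=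
  ∑ t, (γ.row t j : ℂ) * zeta t (z j)

/-- The triple product of a face. -/
noncomputable def tp (u : Fin N → Fin 4 → Fin 2 → ℂ) (s : Fin N × Fin 4) : ℂ :=
  om (u s.1 (s.2.succAbove 0)) (u s.1 (s.2.succAbove 1)) *
    om (u s.1 (s.2.succAbove 1)) (u s.1 (s.2.succAbove 2)) *
    om (u s.1 (s.2.succAbove 2)) (u s.1 (s.2.succAbove 0))

/-- A system of representatives for the darts compatible with `F`. -/
def IsSd (F : Fin N ⊕ Fin N → Fin N × Fin 4) (s : (Fin N × Fin 3) ⊕ (Fin N × Fin 3) → Dt N) :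
    Prop :=
  ∀ c, (s c).1 = (F (Sum.map Prod.fst Prod.fst c)).1 ∧
    (s c).2.1 2 = (F (Sum.map Prod.fst Prod.fst c)).2 ∧
    (s c).2.1 0 = (F (Sum.map Prod.fst Prod.fst c)).2.succAbove (Sum.elim Prod.snd Prod.snd c)

end Pool.Agent.OL36
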