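import Pool.Agent.LibOL36.Surf

/-! # Row TS: elementary cochains with prescribed coboundary

Plan. `∃ σ, Anti σ ∧ dd σ = 1_{qm d} - 1_{qm d'}` for all darts `d, d'`: induction over `Sf.conn d d'` (`EqvGen`): refl: `0`;
symm: `-σ`; trans: sum; step `y = φ x`: `qm` equal, `σ = 0`; step `y = α x`: `σ := (1 at x, -1 at α x, 0 else)` (`α x ≠ x`), `dd σ =
1_{qm x} - 1_{qm (α x)}`. Then `qm` is surjective. -/

set_option autoImplicit false

open Matrix

namespace Pool.Agent.OL36

variable {Δ Q P : Type}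

private theorem step_alpha (Sf : Surf Δ Q P) [Fintype Δ] [DecidableEq Δ] [DecidableEq Q] (x : Δ) :
    ∃ σ : Δ → ℤ, Sf.Anti σ ∧
      ∀ τ', Sf.dd σ τ' = (if τ' = Sf.qm x then 1 else 0) -
        (if τ' = Sf.qm (Sf.α x) then 1 else 0) := by
  refine ⟨fun z => (if z = x then 1 else 0) - (if z = Sf.α x then 1 else 0), ?_, ?_⟩
  · intro z
    have h1 : (Sf.α z = x) ↔ (z = Sf.α x) := by
      constructor
      · intro h
        rw [← h, Sf.αα]
      · intro h
        rw [h, Sf.αα]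
    have h2 : (Sf.α z = Sf.α x) ↔ (z = x) := by
      constructor
      · intro h
        have h3 := congrArg Sf.α h
        rwa [Sf.αα, Sf.αα] at h3
      · intro h
        rw [h]
    simp only [h1, h2]
    ring
  · intro τ'
    have key : ∀ w : Δ, (∑ d, if Sf.qm d = τ' then (if d = w then (1 : ℤ) else 0) else 0) =
        if τ' = Sf.qm w then 1 else 0 := by
      intro w
      rw [Finset.sum_eq_single w]
      · simp only [if_true]
        by_cases h : Sf.qm w = τ'
        · rw [if_pos h, if_pos h.symm]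
        · rw [if_neg h, if_neg (fun h' => h h'.symm)]
      · intro b _ hb
        simp [hb]
      · intro h
        exact absurd (Finset.mem_univ w) h
    unfold Surf.dd
    rw [← key x, ← key (Sf.α x), ← Finset.sum_sub_distrib]
    refine Finset.sum_congr rfl fun d _ => ?_
    by_cases h : Sf.qm d = τ'
    · rw [if_pos h, if_pos h, if_pos h]
    · rw [if_neg h, if_neg h, if_neg h, sub_zero]

private theorem sigma_aux (Sf : Surf Δ Q P) [Fintype Δ] [DecidableEq Δ] [DecidableEq Q]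
    (d d' : Δ) (h : Relation.EqvGen (fun x y => y = Sf.α x ∨ y = Sf.φ x) d d') :
    ∃ σ : Δ → ℤ, Sf.Anti σ ∧
      ∀ τ', Sf.dd σ τ' = (if τ' = Sf.qm d then 1 else 0) -
        (if τ' = Sf.qm d' then 1 else 0) := by
  have hzero : ∀ x y : Δ, Sf.qm x = Sf.qm y → ∃ σ : Δ → ℤ, Sf.Anti σ ∧
      ∀ τ', Sf.dd σ τ' = (if τ' = Sf.qm x then 1 else 0) -
        (if τ' = Sf.qm y then 1 else 0) := by
    intro x y hxy
    refine ⟨fun _ => 0, fun z => by simp, fun τ' => ?_⟩
    rw [hxy, sub_self]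
    simp [Surf.dd]
  induction h with
  | rel x y hxy =>
    rcases hxy with rfl | rfl
    · exact step_alpha Sf x
    · exact hzero x _ (Sf.qm_φ x).symm
  | refl x => exact hzero x x rfl
  | symm x y _ ih =>
    obtain ⟨σ, h1, h2⟩ := ih
    refine ⟨fun z => -σ z, fun z => ?_, fun τ' => ?_⟩
    · show -σ (Sf.α z) = - -σ z
      rw [h1 z]
    · have h3 : Sf.dd (fun z => -σ z) τ' = -Sf.dd σ τ' := by
        unfold Surf.dd
        rw [← Finset.sum_neg_distrib]
        refine Finset.sum_congr rfl fun d _ => ?_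
        split_ifs <;> simp
      rw [h3, h2 τ']
      ring
  | trans x y z _ _ ih1 ih2 =>
    obtain ⟨σ, h1, h2⟩ := ih1
    obtain ⟨ρ, h3, h4⟩ := ih2
    refine ⟨fun w => σ w + ρ w, fun w => ?_, fun τ' => ?_⟩
    · show σ (Sf.α w) + ρ (Sf.α w) = -(σ w + ρ w)
      rw [h1 w, h3 w]
      ring
    · have h5 : Sf.dd (fun w => σ w + ρ w) τ' = Sf.dd σ τ' + Sf.dd ρ τ' := by
        unfold Surf.dd
        rw [← Finset.sum_add_distrib]
        refine Finset.sum_congr rfl fun d _ => ?_
        split_ifs <;> simp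
      rw [h5, h2 τ', h4 τ']
      ring

theorem Surf.sigma (Sf : Surf Δ Q P) [Fintype Δ] [DecidableEq Δ] [DecidableEq Q] (τ τ0 : Q) :
    ∃ σ : Δ → ℤ, Sf.Anti σ ∧
      ∀ τ', Sf.dd σ τ' = (if τ' = τ then 1 else 0) - (if τ' = τ0 then 1 else 0) := by
  obtain ⟨d, rfl⟩ := Sf.qm_surj τ
  obtain ⟨d', rfl⟩ := Sf.qm_surj τ0
  exact sigma_aux Sf d d' (Sf.conn d d')

end Pool.Agent.OL36
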