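import Pool.Agent.LibOL36.S0
import Pool.Agent.LibOL36.V1
import Pool.Agent.LibOL36.TDefs2

/-! # Row XA: the area form

Plan. `ell_ph`: `d = (a, p, i, q)`: `ell d = om p q/(om a p om a q)`, `ell (ph d) = om i p/(om a i om a p)` (`ph_val`), so the ratio is `om i p om a q/(om a i om p q)`, to be compared with `shape (typ a p) (z j)` via `hu.cr j` and Plücker
for the 12 even permutations (`permList` technique of `T1.lean` or `V4.lean` `v4_...`); for `(1,0,3,2)`: `om 3 0 om 1 2/(om 1 3 om 0 2) = -z`. `shape_im`: `1/(1-z)`: `im = im z/|1-z|^2`; `1 - 1/z`: `im = im z/|z|^2`.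
`area_ne`: reindex `∑ ell d conj (ell (ph (ph d))) = ∑ ell (ph d) conj (ell d)` (`ph` is a bijection), so the sum is `∑ (ell d conj (ell (ph d)) - ell (ph d) conj (ell d)) = 2 I ∑ |ell d|^2 im (shape ..)`, every term
positive, `Dt N` non-empty (`e₀`), `ell d ≠ 0` (`hu.ne`). -/

set_option autoImplicit false

open Matrix

namespace Pool.Agent.OL36

variable {N : ℕ}

private def xaList : List (Fin 4 × Fin 4 × Fin 4 × Fin 4) :=
  [(0, 1, 2, 3), (0, 2, 3, 1), (0, 3, 1, 2), (1, 0, 3, 2), (1, 2, 0, 3), (1, 3, 2, 0),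
   (2, 0, 1, 3), (2, 1, 3, 0), (2, 3, 0, 1), (3, 0, 2, 1), (3, 1, 0, 2), (3, 2, 1, 0)]

set_option maxRecDepth 100000 in
private theorem xa_mem : ∀ π : Equiv.Perm (Fin 4), Equiv.Perm.sign π = 1 →
    (π 0, π 1, π 2, π 3) ∈ xaList := by
  decide +kernel

private theorem xa_key (z : ℂ) (hz0 : z ≠ 0) (hz1 : z ≠ 1) (v : Fin 4 → Fin 2 → ℂ)
    (hcr : z * (om (v 0) (v 2) * om (v 3) (v 1)) = -(om (v 0) (v 3) * om (v 1) (v 2)))
    (q : Fin 4 × Fin 4 × Fin 4 × Fin 4) (hq : q ∈ xaList) :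
    om (v q.2.2.1) (v q.2.1) * om (v q.1) (v q.2.2.2) =
      -shape (typ q.1 q.2.1) z * (om (v q.2.1) (v q.2.2.2) * om (v q.1) (v q.2.2.1)) := by
  have hp := plucker (v 0) (v 1) (v 2) (v 3)
  have hz1' : (1 : ℂ) - z ≠ 0 := sub_ne_zero.mpr (Ne.symm hz1)
  have e1 : om (v 1) (v 0) = -om (v 0) (v 1) := om_comm _ _
  have e2 : om (v 2) (v 0) = -om (v 0) (v 2) := om_comm _ _
  have e3 : om (v 3) (v 0) = -om (v 0) (v 3) := om_comm _ _
  have e4 : om (v 2) (v 1) = -om (v 1) (v 2) := om_comm _ _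
  have e5 : om (v 3) (v 1) = -om (v 1) (v 3) := om_comm _ _
  have e6 : om (v 3) (v 2) = -om (v 2) (v 3) := om_comm _ _
  rw [e5] at hcr hp
  have s0 : ∀ w : ℂ, shape 0 w = w := fun w => rfl
  have s1 : ∀ w : ℂ, shape 1 w = 1 / (1 - w) := fun w => rfl
  have s2 : ∀ w : ℂ, shape 2 w = 1 - 1 / w := fun w => rfl
  -- z Y = W, X = (1 - z) Y
  have hW : om (v 0) (v 3) * om (v 1) (v 2) = z * (om (v 0) (v 2) * om (v 1) (v 3)) := by
    linear_combination hcr
  have hX : om (v 0) (v 1) * om (v 2) (v 3) = (1 - z) * (om (v 0) (v 2) * om (v 1) (v 3)) := by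
    linear_combination hp - hW
  have hXW : om (v 0) (v 1) * om (v 2) (v 3) =
      -((1 - 1 / z) * (om (v 0) (v 3) * om (v 1) (v 2))) := by
    rw [hX, hW]
    field_simp
    ring
  simp only [xaList, List.mem_cons, List.not_mem_nil, or_false] at hq
  rcases hq with rfl | rfl | rfl | rfl | rfl | rfl | rfl | rfl | rfl | rfl | rfl | rfl
  all_goals
    simp only [typ, Fin.isValue]
    norm_num
    simp only [e1, e2, e3, e4, e5, e6, s0, s1, s2]
  all_goals
    first
      | linear_combination hW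
      | linear_combination -hW
      | (field_simp; linear_combination hX)
      | (field_simp; linear_combination -hX)
      | linear_combination hXW
      | linear_combination -hXW

theorem ell_ph (T : Tri N) (z : Fin N → ℂ) (hz : ∀ j, z j ≠ 0 ∧ z j ≠ 1)
    (u : Fin N → Fin 4 → Fin 2 → ℂ) (hu : IsDec T z u) (d : Dt N) :
    ell u (ph d) = -shape (typ (d.2.1 0) (d.2.1 1)) (z d.1) * ell u d := by
  obtain ⟨p1, p2, p3, _, p5⟩ := ph_val d
  have h := xa_key (z d.1) (hz d.1).1 (hz d.1).2 (u d.1) (hu.cr d.1) _ (xa_mem d.2.1 d.2.2)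
  simp only at h
  have n1 : om (u d.1 (d.2.1 0)) (u d.1 (d.2.1 1)) ≠ 0 :=
    hu.ne _ _ _ (dt_ne d 0 1 (by decide))
  have n2 : om (u d.1 (d.2.1 0)) (u d.1 (d.2.1 2)) ≠ 0 :=
    hu.ne _ _ _ (dt_ne d 0 2 (by decide))
  have n3 : om (u d.1 (d.2.1 0)) (u d.1 (d.2.1 3)) ≠ 0 :=
    hu.ne _ _ _ (dt_ne d 0 3 (by decide))
  unfold ell
  rw [p1, p2, p3, p5]
  unfold Lk
  generalize shape (typ (d.2.1 0) (d.2.1 1)) (z d.1) = s at *
  rw [div_eq_iff (mul_ne_zero n2 n1)]
  field_simp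
  linear_combination h

theorem shape_im (t : Fin 3) (z : ℂ) (h : 0 < z.im) : 0 < (shape t z).im := by
  have hz0 : z ≠ 0 := by
    rintro rfl
    simp at h
  have hz1 : (1 : ℂ) - z ≠ 0 := by
    intro h'
    have h2 : z = 1 := (sub_eq_zero.mp h').symm
    rw [h2] at h
    simp at h
  fin_cases t
  · exact h
  · change 0 < (1 / (1 - z)).im
    rw [one_div, Complex.inv_im]
    have h1 : 0 < Complex.normSq (1 - z) := Complex.normSq_pos.mpr hz1
    have h2 : -(1 - z).im = z.im := by simp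
    rw [h2]
    positivity
  · change 0 < (1 - 1 / z).im
    rw [Complex.sub_im, one_div, Complex.inv_im, Complex.one_im]
    have h1 : 0 < Complex.normSq z := Complex.normSq_pos.mpr hz0
    have h2 : (0 : ℝ) - -z.im / Complex.normSq z = z.im / Complex.normSq z := by ring
    rw [h2]
    positivity

private theorem xa_ph_bij : Function.Bijective (ph : Dt N → Dt N) := by
  constructor
  · intro a b h
    rw [← ph_ph_ph a, h, ph_ph_ph]
  · intro a
    exact ⟨ph (ph a), ph_ph_ph a⟩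

theorem area_ne (T : Tri N) (z : Fin N → ℂ) (him : ∀ j, 0 < (z j).im)
    (u : Fin N → Fin 4 → Fin 2 → ℂ) (hu : IsDec T z u) (e₀ : Fin N) :
    ∑ d : Dt N, ell u d * ((starRingEnd ℂ) (ell u (ph d)) -
      (starRingEnd ℂ) (ell u (ph (ph d)))) ≠ 0 := by
  have hz : ∀ j, z j ≠ 0 ∧ z j ≠ 1 := by
    intro j
    constructor
    · intro h
      have := him j
      rw [h] at this
      simp at this
    · intro h
      have := him j
      rw [h] at this
      simp at this
  have hre : ∑ d : Dt N, ell u d * (starRingEnd ℂ) (ell u (ph (ph d))) =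
      ∑ d : Dt N, ell u (ph d) * (starRingEnd ℂ) (ell u d) := by
    rw [← Function.Bijective.sum_comp xa_ph_bij
      (fun d => ell u d * (starRingEnd ℂ) (ell u (ph (ph d))))]
    refine Finset.sum_congr rfl fun d _ => ?_
    rw [ph_ph_ph]
  have hsum : ∑ d : Dt N, ell u d * ((starRingEnd ℂ) (ell u (ph d)) -
      (starRingEnd ℂ) (ell u (ph (ph d)))) =
      2 * Complex.I * ((∑ d : Dt N, Complex.normSq (ell u d) *
        (shape (typ (d.2.1 0) (d.2.1 1)) (z d.1)).im : ℝ) : ℂ) := by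
    simp only [mul_sub, Finset.sum_sub_distrib]
    rw [hre, ← Finset.sum_sub_distrib, Complex.ofReal_sum, Finset.mul_sum]
    refine Finset.sum_congr rfl fun d _ => ?_
    rw [ell_ph T z hz u hu d]
    generalize shape (typ (d.2.1 0) (d.2.1 1)) (z d.1) = s
    generalize ell u d = l
    have h1 : l * (starRingEnd ℂ) l = ((Complex.normSq l : ℝ) : ℂ) := Complex.mul_conj l
    have h2 : s - (starRingEnd ℂ) s = 2 * Complex.I * ((s.im : ℝ) : ℂ) := by
      rw [Complex.sub_conj]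
      push_cast
      ring
    rw [map_mul, map_neg]
    push_cast
    calc l * (-(starRingEnd ℂ) s * (starRingEnd ℂ) l) - -s * l * (starRingEnd ℂ) l
        = (l * (starRingEnd ℂ) l) * (s - (starRingEnd ℂ) s) := by ring
      _ = 2 * Complex.I * (((Complex.normSq l : ℝ) : ℂ) * ((s.im : ℝ) : ℂ)) := by
        rw [h1, h2]; ring
  rw [hsum]
  have hpos : 0 < ∑ d : Dt N, Complex.normSq (ell u d) *
        (shape (typ (d.2.1 0) (d.2.1 1)) (z d.1)).im := by
    refine Finset.sum_pos (fun d _ => ?_) ⟨(e₀, ⟨1, by simp⟩), Finset.mem_univ _⟩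
    have hl : ell u d ≠ 0 := by
      unfold ell Lk
      refine div_ne_zero (hu.ne _ _ _ (dt_ne d 1 3 (by decide)))
        (mul_ne_zero (hu.ne _ _ _ (dt_ne d 0 1 (by decide)))
          (hu.ne _ _ _ (dt_ne d 0 3 (by decide))))
    exact mul_pos (Complex.normSq_pos.mpr hl) (shape_im _ _ (him d.1))
  have h2 : ((∑ d : Dt N, Complex.normSq (ell u d) *
        (shape (typ (d.2.1 0) (d.2.1 1)) (z d.1)).im : ℝ) : ℂ) ≠ 0 :=
    Complex.ofReal_ne_zero.mpr hpos.ne'
  exact mul_ne_zero (mul_ne_zero two_ne_zero Complex.I_ne_zero) h2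

end Pool.Agent.OL36
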