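import Pool.Agent.LibOL36.S0
import Pool.Agent.LibOL36.E2
import Pool.Agent.LibOL36.TDefs2

/-! # Row XE: chains from coordinates

Plan. `chain1_ev`: trace: `nil` is traceless. Gluing: `ev1 u y (nbr j i) (σ i) = ∑_{D over (nbr j i), D 2 = σ i} y D nil (u (D 0))`; the bijection `d ↦ al d` maps the darts with `d.1 = j`, `d.2.1 2 = i` onto
them (`al_val`, `al_al`, `nbr_nbr`, `glue_glue`), `y (al d) = -y d`, `nil (u (nbr) (σ a)) = g nil (u j a) g⁻¹` (`hg`, `a ≠ i`), and `g * (∑ ..) * g⁻¹` is linear.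
`chain2_ev`: trace: `nil`, `Hm` traceless. `X b a = -X a b`: `edge_comm`, `hm_comm`. Gluing: `vmE` of `(nbr j i, σ a, σ b)` and `(j, a, b)` agree (`vmE_iff`: `OE` by `EqvGen.rel`), same `edge` (first component),
`nil` by `hg`, and `Hm (u' (σ a)) (u' (σ b)) = g Hm (u a) (u b) g⁻¹` by `hm_face` with the third vertex `w` of the face and `hu.mat` (`Lk` match). `chain2_torus`: `hP.2`. -/

set_option autoImplicit false

open Matrix

namespace Pool.Agent.OL36

variable {N : ℕ}


private theorem xe_nil_trace (v : Fin 2 → ℂ) : (nil v).trace = 0 := by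
  rw [Matrix.trace_fin_two]
  simp [nil]

private theorem xe_Hm_trace (a b : Fin 2 → ℂ) : (Hm a b).trace = 0 := by
  rw [Hm, Matrix.trace_smul, Matrix.trace_sub, Matrix.trace_sub, xe_nil_trace, xe_nil_trace,
    xe_nil_trace]
  simp

private theorem xe_third : ∀ i a b : Fin 4, i ≠ a → i ≠ b → a ≠ b →
    ∃ c, c ≠ i ∧ c ≠ a ∧ c ≠ b := by decide

private theorem xe_opp (T : Tri N) (s : Fin N × Fin 4) :
    (T.nbr (T.nbr s.1 s.2) (T.glue s.1 s.2 s.2),
      T.glue (T.nbr s.1 s.2) (T.glue s.1 s.2 s.2) (T.glue s.1 s.2 s.2)) = s := by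
  obtain ⟨j, i⟩ := s
  refine Prod.ext (T.nbr_nbr j i) ?_
  change T.glue (T.nbr j i) (T.glue j i i) (T.glue j i i) = i
  rw [T.glue_glue]
  simp

private theorem xe_opp_inj (T : Tri N) (j : Fin N) (i : Fin 4) (j' : Fin N) (i' : Fin 4)
    (h1 : T.nbr j i = T.nbr j' i') (h2 : T.glue j i i = T.glue j' i' i') : j = j' ∧ i = i' := by
  have e1 := xe_opp T (j, i)
  have e2 := xe_opp T (j', i')
  simp only at e1 e2
  rw [h1, h2, e2] at e1
  exact ⟨(congrArg Prod.fst e1).symm, (congrArg Prod.snd e1).symm⟩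

theorem chain1_ev (T : Tri N) (g : Fin N → Fin 4 → M2) (u : Fin N → Fin 4 → Fin 2 → ℂ)
    (hg : ∀ j i a, a ≠ i →
      nil (u (T.nbr j i) (T.glue j i a)) = g j i * nil (u j a) * (g j i)⁻¹)
    (y : Dt N → ℂ) (hy : ∀ d, y (T.al d) = -y d) : IsChain1 T g (ev1 u y) := by
  intro j i
  constructor
  · rw [ev1, Matrix.trace_sum]
    refine Finset.sum_eq_zero fun d _ => ?_
    split_ifs
    · rw [Matrix.trace_smul, xe_nil_trace, smul_zero]
    · exact Matrix.trace_zero _ _
  · have hbij : Function.Bijective T.al :=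
      (show Function.Involutive T.al from al_al T).bijective
    have hL : ev1 u y (T.nbr j i) (T.glue j i i) = ∑ d : Dt N,
        if d.1 = j ∧ d.2.1 2 = i then
          y (T.al d) • nil (u (T.nbr j i) (T.glue j i (d.2.1 0))) else 0 := by
      rw [ev1, ← Function.Bijective.sum_comp hbij]
      refine Finset.sum_congr rfl fun d _ => ?_
      obtain ⟨v1, v0, v3, v2, v4⟩ := al_val T d
      by_cases hd : d.1 = j ∧ d.2.1 2 = i
      · rw [if_pos hd, if_pos]
        · rw [v0, hd.1, hd.2]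
        · rw [v1, v2, hd.1, hd.2]
          exact ⟨rfl, rfl⟩
      · rw [if_neg hd, if_neg]
        rintro ⟨e1, e2⟩
        rw [v1] at e1
        rw [v2] at e2
        exact hd (xe_opp_inj T _ _ _ _ e1 e2)
    rw [hL, ev1, Matrix.mul_sum, Matrix.sum_mul, ← Finset.sum_neg_distrib]
    refine Finset.sum_congr rfl fun d _ => ?_
    by_cases hd : d.1 = j ∧ d.2.1 2 = i
    · have hne : d.2.1 0 ≠ i := by
        rw [← hd.2]
        exact dt_ne d 0 2 (by decide)
      rw [if_pos hd, if_pos hd, hy, hg j i _ hne, mul_smul_comm, smul_mul_assoc, neg_smul]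
    · rw [if_neg hd, if_neg hd, mul_zero, zero_mul, neg_zero]

theorem chain2_ev (T : Tri N) (z : Fin N → ℂ) (g : Fin N → Fin 4 → M2)
    (u : Fin N → Fin 4 → Fin 2 → ℂ) (hu : IsDec T z u)
    (hg : ∀ j i a, a ≠ i →
      nil (u (T.nbr j i) (T.glue j i a)) = g j i * nil (u j a) * (g j i)⁻¹)
    (E : Fin N → Fin N × Fin 4 × Fin 4) (hE : IsEdges T E) (f : Fin N × Bool → ℂ)
    (y : Fin N → ℂ) : IsChain2 T g (fun j a b => ev2 T E u f y j a b) := by
  refine ⟨fun j a b hab => ⟨?_, ?_⟩, fun j i a b hab hai hbi => ?_⟩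
  · change (ev2 T E u f y j a b).trace = 0
    rw [ev2, Matrix.trace_add, Matrix.trace_sub, Matrix.trace_smul, Matrix.trace_smul,
      Matrix.trace_smul, xe_nil_trace, xe_nil_trace, xe_Hm_trace]
    simp
  · change ev2 T E u f y j b a = -ev2 T E u f y j a b
    rw [ev2, ev2, edge_comm T j a b hab, hm_comm (u j a) (u j b)]
    module
  · change ev2 T E u f y (T.nbr j i) (T.glue j i a) (T.glue j i b) =
      g j i * ev2 T E u f y j a b * (g j i)⁻¹
    have hab' : T.glue j i a ≠ T.glue j i b := fun h => hab ((T.glue j i).injective h)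
    obtain ⟨c, hci, hca, hcb⟩ := xe_third i a b hai.symm hbi.symm hab
    have hac' : T.glue j i a ≠ T.glue j i c := fun h => hca.symm ((T.glue j i).injective h)
    have hbc' : T.glue j i b ≠ T.glue j i c := fun h => hcb.symm ((T.glue j i).injective h)
    have hH : g j i * Hm (u j a) (u j b) * (g j i)⁻¹ =
        Hm (u (T.nbr j i) (T.glue j i a)) (u (T.nbr j i) (T.glue j i b)) := by
      rw [hm_face (u j a) (u j b) (u j c) (hu.ne j a b hab) (hu.ne j b c hcb.symm)
          (hu.ne j a c hca.symm),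
        hm_face (u (T.nbr j i) (T.glue j i a)) (u (T.nbr j i) (T.glue j i b))
          (u (T.nbr j i) (T.glue j i c)) (hu.ne _ _ _ hab') (hu.ne _ _ _ hbc') (hu.ne _ _ _ hac'),
        hu.mat j i c a b hci hai hbi hca hcb hab,
        hu.mat j i a b c hai hbi hci hab hca.symm hcb.symm,
        hu.mat j i b c a hbi hci hai hcb.symm hab.symm hca, hg j i a hai, hg j i b hbi,
        hg j i c hci]
      simp only [mul_sub, sub_mul, mul_smul_comm, smul_mul_assoc]
    have hOE : T.OE (T.nbr j i, T.glue j i a, T.glue j i b) (j, a, b) :=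
      Relation.EqvGen.symm _ _ (Relation.EqvGen.rel _ _ ⟨i, hai.symm, hbi.symm, rfl⟩)
    have hOE' : T.OE (T.nbr j i, T.glue j i b, T.glue j i a) (j, b, a) :=
      Relation.EqvGen.symm _ _ (Relation.EqvGen.rel _ _ ⟨i, hbi.symm, hai.symm, rfl⟩)
    have h1 := (vmE_iff T E hE _ _ _ _ _ _ hab' hab).2 hOE
    have h2 := (vmE_iff T E hE _ _ _ _ _ _ hab'.symm hab.symm).2 hOE'
    have h3 : T.edge (T.nbr j i) (T.glue j i a) (T.glue j i b) = T.edge j a b :=
      congrArg Prod.fst h1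
    rw [ev2, ev2, h1, h2, h3, ← hH, hg j i a hai, hg j i b hbi]
    simp only [mul_add, add_mul, mul_sub, sub_mul, mul_smul_comm, smul_mul_assoc]

theorem chain2_torus (T : Tri N) (z : Fin N → ℂ) (g P : Fin N → Fin 4 → M2)
    (hP : IsPar T z g P) : IsChain2 T g (torusCycle P) := by
  obtain ⟨h1, h2⟩ := hP
  have htr : ∀ j a, (P j a).trace = 0 := by
    intro j a
    obtain ⟨s, -, hs⟩ := h1 j a
    rw [hs, Matrix.trace_smul, xe_nil_trace, smul_zero]
  refine ⟨fun j a b hab => ⟨?_, ?_⟩, fun j i a b hab hai hbi => ?_⟩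
  · rw [torusCycle, Matrix.trace_sub, htr, htr, sub_zero]
  · rw [torusCycle, torusCycle, neg_sub]
  · rw [torusCycle, torusCycle, h2 j i a hai, h2 j i b hbi, mul_sub, sub_mul]

end Pool.Agent.OL36
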