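import Pool.Agent.LibOL36.T1
import Pool.Agent.LibOL36.V4
import Pool.Agent.LibOL36.F3
import Pool.Agent.LibOL36.TS
import Pool.Agent.LibOL36.S1
import Pool.Agent.LibOL36.XE
import Pool.Agent.LibOL36.TDefs2

/-! # Row XB: the family `b` when the translation length is non-zero

Plan. By `trans_eq` (T1) there is `j0` with `∑ τ, rr z u j0 τ ≠ 0` (else `trl u γ = 0`). Put `τ0 := (j0, 0)`. For `r = (j, t)` take `y r := σ` (`Surf.sigma`, TS, cast to `ℂ`, for the surface of `exists_surf`, S1) with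
`dd σ = 1_{(j, t.succ)} - 1_{τ0}` (`t.succ ∈ {1, 2, 3}`). Then `dsq (...) ≠ 0`: reindex rows by a bijection `Fin N ⊕ (Fin N × Fin 3) ≃ Fin N × Fin 4` (`f3phi` in `F3.lean`, private: copy), `dsq_eq`; by
`Matrix.exists_mulVec_eq_zero_iff` enough: if `x : Fin N × Fin 4 → ℂ` is orthogonal to all rows then `x = 0`: rows `(j, t)`: `x (j, t.succ) = x τ0`; row `j0`: all four `x (j0, ·)` equal `x τ0`
(also `(j0, 0) = τ0`), so `(∑ τ, rr j0 τ) x τ0 = 0`, `x τ0 = 0`; row `j`: `x (j, t.succ) = 0`, so `rr j (j, 0) * x (j, 0) = 0` and `rr z u j (j, 0) ≠ 0` (`hu.ne`, `kap_ne`). `rr z u j τ = 0` for `τ.1 ≠ j`.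
The final statement follows from `A0_eq` (F3) with `kap_ne`, `six ≠ 0` and `chain1_ev` (XE). -/

set_option autoImplicit false

open Matrix

namespace Pool.Agent.OL36

variable {N : ℕ}

private def xbphi : Fin N ⊕ (Fin N × Fin 3) → Fin N × Fin 4 :=
  Sum.elim (fun j => (j, 3)) (fun p => (p.1, p.2.castSucc))

private theorem xbphi_bij : Function.Bijective (xbphi (N := N)) := by
  constructor
  · rintro (a | ⟨a, t⟩) (b | ⟨b, t'⟩) h
    · simp only [xbphi, Sum.elim_inl, Prod.mk.injEq, and_true] at h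
      rw [h]
    · exfalso
      simp only [xbphi, Sum.elim_inl, Sum.elim_inr, Prod.mk.injEq] at h
      have h2 := congrArg Fin.val h.2
      have h3 : t'.val < 3 := t'.2
      simp at h2
      omega
    · exfalso
      simp only [xbphi, Sum.elim_inl, Sum.elim_inr, Prod.mk.injEq] at h
      have h2 := congrArg Fin.val h.2
      have h3 : t.val < 3 := t.2
      simp at h2
      omega
    · simp only [xbphi, Sum.elim_inr, Prod.mk.injEq] at h
      obtain ⟨h1, h2⟩ := h
      have h3 : t = t' := Fin.castSucc_injective _ h2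
      rw [h1, h3]
  · rintro ⟨j, a⟩
    by_cases h : a = 3
    · exact ⟨Sum.inl j, by simp [xbphi, h]⟩
    · have h' : a.val < 3 := by
        have := a.2
        have h2 : a.val ≠ 3 := fun h2 => h (Fin.ext h2)
        omega
      exact ⟨Sum.inr (j, ⟨a.val, h'⟩), by
        simp only [xbphi, Sum.elim_inr, Prod.mk.injEq, true_and]
        exact Fin.ext rfl⟩

private theorem rr_ne (T : Tri N) (z : Fin N → ℂ) (hz : ∀ j, z j ≠ 0 ∧ z j ≠ 1)
    (u : Fin N → Fin 4 → Fin 2 → ℂ) (hu : IsDec T z u) (j : Fin N) (a : Fin 4) :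
    rr z u j (j, a) ≠ 0 := by
  rw [rr, if_pos rfl]
  refine div_ne_zero (neg_ne_zero.mpr (one_div_ne_zero ?_))
    (mul_ne_zero two_ne_zero (kap_ne T z hz u hu j))
  refine Finset.prod_ne_zero_iff.mpr fun b _ => ?_
  by_cases h : b = a
  · show (if b = a then (1 : ℂ) else om (u j a) (u j b)) ≠ 0
    rw [if_pos h]
    exact one_ne_zero
  · show (if b = a then (1 : ℂ) else om (u j a) (u j b)) ≠ 0
    rw [if_neg h]
    exact hu.ne j a b (fun h' => h h'.symm)

theorem exists_y (T : Tri N) (z : Fin N → ℂ) (hz : ∀ j, z j ≠ 0 ∧ z j ≠ 1)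
    (u : Fin N → Fin 4 → Fin 2 → ℂ) (hu : IsDec T z u) (γ : Curve T) (h : trl u γ ≠ 0) :
    ∃ y : Fin N × Fin 3 → Dt N → ℂ, (∀ r d, y r (T.al d) = -y r d) ∧
      dsq (fun (x : Fin N ⊕ (Fin N × Fin 3)) (τ : Fin N × Fin 4) =>
        Sum.elim (rr z u)
          (fun r τ => ∑ d : Dt N, if (d.1, d.2.1 0) = τ then y r d else 0) x τ) ≠ 0 := by
  classical
  -- the edges
  have hE0 : ∀ e, ∃ s : Fin N × Fin 4 × Fin 4, s.2.1 ≠ s.2.2 ∧ T.edge s.1 s.2.1 s.2.2 = e := by
    intro e
    obtain ⟨j, a, b, hab, he⟩ := T.edge_surj e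
    exact ⟨(j, a, b), hab, he⟩
  choose E hE using hE0
  have hEE : IsEdges T E := hE
  obtain ⟨Sf, hα, -, hqm, -⟩ := exists_surf T E hEE
  -- the tetrahedron `j0`
  obtain ⟨j0, hj0⟩ : ∃ j0, ∑ τ, rr z u j0 τ ≠ 0 := by
    by_contra hcon
    push Not at hcon
    have h1 := trans_eq T z hz u hu γ
    rw [Finset.sum_eq_zero (fun j _ => by rw [hcon j, mul_zero])] at h1
    exact h (neg_eq_zero.mp h1.symm)
  have hσ := fun r : Fin N × Fin 3 => Sf.sigma (r.1, r.2.succ) (j0, 0)
  choose σ hσ1 hσ2 using hσ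
  refine ⟨fun r d => ((σ r d : ℤ) : ℂ), ?_, ?_⟩
  · intro r d
    have h1 := hσ1 r d
    rw [hα] at h1
    show ((σ r (T.al d) : ℤ) : ℂ) = -((σ r d : ℤ) : ℂ)
    rw [h1]
    push_cast
    rfl
  · have hrow : ∀ (r : Fin N × Fin 3) (τ : Fin N × Fin 4),
        (∑ d : Dt N, if (d.1, d.2.1 0) = τ then ((σ r d : ℤ) : ℂ) else 0) =
        (if τ = (r.1, r.2.succ) then 1 else 0) - (if τ = (j0, 0) then 1 else 0) := by
      intro r τ
      have h1 := hσ2 r τ
      unfold Surf.dd at h1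
      rw [hqm] at h1
      have h2 := congrArg (fun n : ℤ => (n : ℂ)) h1
      push_cast at h2
      exact h2
    set M : Matrix (Fin N ⊕ (Fin N × Fin 3)) (Fin N × Fin 4) ℂ :=
      (fun (x : Fin N ⊕ (Fin N × Fin 3)) (τ : Fin N × Fin 4) =>
        Sum.elim (rr z u)
          (fun r τ => ∑ d : Dt N, if (d.1, d.2.1 0) = τ then ((σ r d : ℤ) : ℂ) else 0) x τ)
      with hM
    let e : (Fin N ⊕ (Fin N × Fin 3)) ≃ (Fin N × Fin 4) := Equiv.ofBijective xbphi xbphi_bij
    rw [dsq_eq e]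
    refine pow_ne_zero 2 fun hdet => ?_
    obtain ⟨v, hv0, hv⟩ := Matrix.exists_mulVec_eq_zero_iff.mpr hdet
    have hx : ∀ i, ∑ τ, M i τ * v (e.symm τ) = 0 := by
      intro i
      have h1 := congrFun hv i
      rw [Matrix.mulVec, dotProduct] at h1
      rw [← Equiv.sum_comp e (fun τ => M i τ * v (e.symm τ))]
      simp only [Equiv.symm_apply_apply]
      simpa using h1
    have h1 : ∀ (j : Fin N) (t : Fin 3), v (e.symm (j, t.succ)) = v (e.symm (j0, 0)) := by
      intro j t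
      have h2 := hx (Sum.inr (j, t))
      have h3 : ∀ τ, M (Sum.inr (j, t)) τ * v (e.symm τ) =
          (if τ = (j, t.succ) then v (e.symm τ) else 0) -
            (if τ = (j0, 0) then v (e.symm τ) else 0) := by
        intro τ
        have h4 : M (Sum.inr (j, t)) τ =
            (if τ = (j, t.succ) then 1 else 0) - (if τ = (j0, 0) then 1 else 0) :=
          hrow (j, t) τ
        rw [h4, sub_mul, ite_mul, ite_mul, one_mul, zero_mul]
      rw [Finset.sum_congr rfl (fun τ _ => h3 τ), Finset.sum_sub_distrib,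
        Finset.sum_ite_eq' Finset.univ, Finset.sum_ite_eq' Finset.univ,
        if_pos (Finset.mem_univ _), if_pos (Finset.mem_univ _)] at h2
      exact sub_eq_zero.mp h2
    have h2 : ∀ j a, v (e.symm (j, a)) = v (e.symm (j0, 0)) ∨ a = 0 := by
      intro j a
      by_cases ha : a = 0
      · exact Or.inr ha
      · obtain ⟨t, rfl⟩ := Fin.exists_succ_eq.mpr ha
        exact Or.inl (h1 j t)
    have h3 : v (e.symm (j0, 0)) = 0 := by
      have h4 := hx (Sum.inl j0)
      have h5 : ∀ τ, M (Sum.inl j0) τ * v (e.symm τ) = rr z u j0 τ * v (e.symm (j0, 0)) := by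
        rintro ⟨j, a⟩
        show rr z u j0 (j, a) * v (e.symm (j, a)) = rr z u j0 (j, a) * v (e.symm (j0, 0))
        by_cases hj : j = j0
        · subst hj
          rcases h2 j a with h6 | h6
          · rw [h6]
          · rw [h6]
        · rw [rr, if_neg hj, zero_mul, zero_mul]
      rw [Finset.sum_congr rfl (fun τ _ => h5 τ), ← Finset.sum_mul] at h4
      exact (mul_eq_zero.mp h4).resolve_left hj0
    have h4 : ∀ j, v (e.symm (j, 0)) = 0 := by
      intro j
      have h5 := hx (Sum.inl j)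
      have h6 : ∑ τ, M (Sum.inl j) τ * v (e.symm τ) = rr z u j (j, 0) * v (e.symm (j, 0)) := by
        refine Finset.sum_eq_single (j, 0) ?_ (fun h => absurd (Finset.mem_univ _) h)
        rintro ⟨j', a⟩ _ hne
        show rr z u j (j', a) * v (e.symm (j', a)) = 0
        by_cases hj : j' = j
        · subst hj
          have ha : a ≠ 0 := fun h => hne (by rw [h])
          rw [(h2 j' a).resolve_right ha, h3, mul_zero]
        · rw [rr, if_neg hj, zero_mul]
      rw [h6] at h5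
      exact (mul_eq_zero.mp h5).resolve_left (rr_ne T z hz u hu j 0)
    apply hv0
    ext k
    have h5 : k = e.symm (e k) := (Equiv.symm_apply_apply e k).symm
    rw [h5]
    obtain ⟨j, a⟩ := e k
    show v (e.symm (j, a)) = 0
    rcases h2 j a with h6 | h6
    · rw [h6, h3]
    · rw [h6, h4]

theorem exists_b_trl (T : Tri N) (z : Fin N → ℂ) (hz : ∀ j, z j ≠ 0 ∧ z j ≠ 1)
    (g : Fin N → Fin 4 → M2) (u : Fin N → Fin 4 → Fin 2 → ℂ) (hu : IsDec T z u)
    (hg : ∀ j i a, a ≠ i →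
      nil (u (T.nbr j i) (T.glue j i a)) = g j i * nil (u j a) * (g j i)⁻¹)
    (γ : Curve T) (h : trl u γ ≠ 0) :
    ∃ b : Fin N × Fin 3 → Fin N → Fin 4 → M2, (∀ r, IsChain1 T g (b r)) ∧
      Matrix.det (fun r c : Fin N × Fin 3 => co (bd1 (b r) c.1) c.2) ≠ 0 := by
  obtain ⟨y, hy, hd⟩ := exists_y T z hz u hu γ h
  refine ⟨fun r => ev1 u (y r), fun r => chain1_ev T g u hg (y r) (hy r), ?_⟩
  intro h0
  have h1 := A0_eq T z hz u hu y
  rw [h0] at h1
  have h2 : (∏ j, (2 * kap z u j * six u j) ^ 2) ≠ 0 := by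
    refine Finset.prod_ne_zero_iff.mpr fun j _ => pow_ne_zero 2 ?_
    refine mul_ne_zero (mul_ne_zero two_ne_zero (kap_ne T z hz u hu j)) ?_
    have hn := hu.ne j
    exact mul_ne_zero (mul_ne_zero (mul_ne_zero (hn 0 1 (by decide)) (hn 0 2 (by decide)))
      (hn 0 3 (by decide))) (mul_ne_zero (mul_ne_zero (hn 1 2 (by decide)) (hn 1 3 (by decide)))
      (hn 2 3 (by decide)))
  have h3 := mul_ne_zero hd h2
  apply h3
  rw [← h1]
  simp

end Pool.Agent.OL36
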