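import Pool.Agent.LibOL36.S0
import Pool.Agent.LibOL36.TDefs2

/-! # Row XW: the weights

Plan. `nil_hol`: with `g u_a = c_a u'_a` (`hg`), `i = d.2.1 2`, the three vertices `d.2.1 0, 1, 3` of the face: `g nil(v) g⁻¹ = (1 / det g) nil (g v)`
(`nil_mulVec` in `D1.lean`, private: copy), so the factor is `c_a ^ 2 / det g`; `om (g x) (g y) = det g * om x y` gives
`Lk' (a; p, q) * c_a^-2 = (det g)^-1 Lk (a; p, q)` (`Lk_smul`, `Lk_mulVec` of `D1.lean`, private: copy), i.e. the factor is `wt`. Entries of `al d`: `al_val` (S0): `al d 0 = σ (d 0)`,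
`al d 3 = σ (d 1)`, `al d 1 = σ (d 3)`. `wt_ne`: `Lk ≠ 0` (`om (pt z a) (pt z b) ≠ 0`). `wt_al`: `al (al d) = d`, `Lk a c b = - Lk a b c` twice.
`wt_curve`: for a flag `x = (j, (a, b, c, d))` put `A x := Lk (pt a) (pt b) (pt c)` (entry side) and `B x := Lk (pt a) (pt b) (pt d)` (exit side).
(1) `A x / B x = - (-1)...`: precisely `A x = shape (typ a b) (z j) ^ (sign π) * B x` (`fin_cases` over the 24 permutations, see `perm_mem`/`permList` in `T1.lean`, or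
`decide`-free: generalize; check on `(0,1,2,3)`: `A = om 1 2/(om 0 1 om 0 2)`, `B = om 1 3/(om 0 1 om 0 3)`, `A / B = om 1 2 om 0 3/(om 0 2 om 1 3) = (1)(-z)/((-1)(1)) = z`: sign `+`, type `0`).
(2) `wt (D k) = ε_k A x_{k+1} / B x_k` with `ε_k = 1` if the sign of the flag does not change from `x_k` to `x_{k+1}` and `-1` if it
changes (`Step`: `x_{k+1} = (σ a, σ b, σ d, σ c)` (same sign as `x_k` as `σ` is odd and the transposition too) or `(σ a, σ d, σ b, σ c)` (opposite sign); `wt` is symmetric under exchanging the two end points simultaneously).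
(3) `∏ ε_k = ∏ sign x_k * sign x_{k+1} = 1` (closed: `∏_{k<m} s_k s_{k+1} = (∏ s_k)^2`, `Finset.prod_range_succ'`), `∏ A x_{k+1} = ∏ A x_k`; so `∏ wt = ∏ A x_k / B x_k =
∏_k shape (typ) (z j_k) ^ sign = ∏ j, ∏ t, shape t (z j) ^ row t j = 1` (`zpow_sum`-like: `Finset.prod_zpow`/`zpow` of a sum: induction on `m`, or
`Finset.prod_comm` after `row` expanded with `Finset.prod_range`). -/

set_option autoImplicit false

open Matrix

namespace Pool.Agent.OL36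

variable {N : ℕ}

private theorem xw_nil_smul (c : ℂ) (v : Fin 2 → ℂ) : nil (c • v) = c ^ 2 • nil v := by
  apply M2_ext
  intro i j
  fin_cases i <;> fin_cases j <;> simp [nil] <;> ring

private theorem xw_om_smul (c d : ℂ) (v w : Fin 2 → ℂ) :
    om (c • v) (d • w) = c * d * om v w := by
  simp only [om, Pi.smul_apply, smul_eq_mul]
  ring

private theorem xw_om_mulVec (g : M2) (v w : Fin 2 → ℂ) :
    om (g *ᵥ v) (g *ᵥ w) = g.det * om v w := by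
  rw [Matrix.det_fin_two]
  simp only [om, Matrix.mulVec, dotProduct, Fin.sum_univ_two]
  ring

private theorem xw_nil_mulVec_mul (g : M2) (v : Fin 2 → ℂ) :
    nil (g *ᵥ v) * g = g.det • (g * nil v) := by
  apply M2_ext
  intro i j
  rw [Matrix.det_fin_two]
  fin_cases i <;> fin_cases j <;>
    simp [nil, Matrix.mulVec, dotProduct, Matrix.mul_apply, Fin.sum_univ_two] <;> ring

private theorem xw_nil_mulVec (g : M2) (hg : g.det ≠ 0) (v : Fin 2 → ℂ) :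
    nil (g *ᵥ v) = g.det • (g * nil v * g⁻¹) := by
  have hu : IsUnit g.det := isUnit_iff_ne_zero.mpr hg
  have h := xw_nil_mulVec_mul g v
  calc nil (g *ᵥ v) = nil (g *ᵥ v) * g * g⁻¹ := by
        rw [Matrix.mul_assoc, Matrix.mul_nonsing_inv g hu, Matrix.mul_one]
    _ = g.det • (g * nil v * g⁻¹) := by rw [h, Matrix.smul_mul]

private theorem xw_om_pt (z : ℂ) (h0 : z ≠ 0) (h1 : z ≠ 1) (a b : Fin 4) (hab : a ≠ b) :
    om (pt z a) (pt z b) ≠ 0 := by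
  have h2 : 1 - z ≠ 0 := sub_ne_zero.mpr (Ne.symm h1)
  have h3 : z - 1 ≠ 0 := sub_ne_zero.mpr h1
  fin_cases a <;> fin_cases b <;> simp [om, pt, h0, h2, h3] at hab ⊢

private theorem xw_Lk_smul (s t r : ℂ) (hs : s ≠ 0) (ht : t ≠ 0) (hr : r ≠ 0)
    (a b c : Fin 2 → ℂ) : Lk (s • a) (t • b) (r • c) = Lk a b c / s ^ 2 := by
  unfold Lk
  rw [xw_om_smul, xw_om_smul, xw_om_smul]
  by_cases h1 : om a b = 0
  · simp [h1]
  by_cases h2 : om a c = 0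
  · simp [h2]
  field_simp

private theorem xw_Lk_mulVec (g : M2) (hg : g.det ≠ 0) (a b c : Fin 2 → ℂ) :
    Lk (g *ᵥ a) (g *ᵥ b) (g *ᵥ c) = Lk a b c / g.det := by
  unfold Lk
  rw [xw_om_mulVec, xw_om_mulVec, xw_om_mulVec]
  by_cases h1 : om a b = 0
  · simp [h1]
  by_cases h2 : om a c = 0
  · simp [h2]
  field_simp

private theorem xw_Lk_ne (z : ℂ) (h0 : z ≠ 0) (h1 : z ≠ 1) (a b c : Fin 4) (hab : a ≠ b)
    (hac : a ≠ c) (hbc : b ≠ c) : Lk (pt z a) (pt z b) (pt z c) ≠ 0 := by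
  unfold Lk
  exact div_ne_zero (xw_om_pt z h0 h1 b c hbc)
    (mul_ne_zero (xw_om_pt z h0 h1 a b hab) (xw_om_pt z h0 h1 a c hac))

private theorem xw_Lk_swap (a b c : Fin 2 → ℂ) : Lk a c b = -Lk a b c := by
  unfold Lk
  rw [om_comm b c, mul_comm (om a c) (om a b), neg_div]

theorem nil_hol (T : Tri N) (z : Fin N → ℂ) (hz : ∀ j, z j ≠ 0 ∧ z j ≠ 1)
    (g : Fin N → Fin 4 → M2) (hg : IsHol T z g) (d : Dt N) :
    g d.1 (d.2.1 2) * nil (pt (z d.1) (d.2.1 0)) * (g d.1 (d.2.1 2))⁻¹ =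
      wt T z d • nil (pt (z (T.al d).1) ((T.al d).2.1 0)) := by
  obtain ⟨e1, e2, e3, e4, e5⟩ := al_val T d
  have hL := xw_Lk_ne (z d.1) (hz d.1).1 (hz d.1).2 (d.2.1 0) (d.2.1 1) (d.2.1 3)
    (dt_ne d 0 1 (by decide)) (dt_ne d 0 3 (by decide)) (dt_ne d 1 3 (by decide))
  unfold wt
  rw [e2, e3, e5, e1]
  obtain ⟨hdet, hgi⟩ := hg d.1 (d.2.1 2)
  obtain ⟨c0, hc0, h0⟩ := hgi (d.2.1 0) (dt_ne d 0 2 (by decide))
  obtain ⟨c1, hc1, h1⟩ := hgi (d.2.1 1) (dt_ne d 1 2 (by decide))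
  obtain ⟨c3, hc3, h3⟩ := hgi (d.2.1 3) (dt_ne d 3 2 (by decide))
  generalize g d.1 (d.2.1 2) = G at *
  have hLk : Lk (pt (z (T.nbr d.1 (d.2.1 2))) (T.glue d.1 (d.2.1 2) (d.2.1 0)))
      (pt (z (T.nbr d.1 (d.2.1 2))) (T.glue d.1 (d.2.1 2) (d.2.1 1)))
      (pt (z (T.nbr d.1 (d.2.1 2))) (T.glue d.1 (d.2.1 2) (d.2.1 3))) / c0 ^ 2 =
      Lk (pt (z d.1) (d.2.1 0)) (pt (z d.1) (d.2.1 1)) (pt (z d.1) (d.2.1 3)) / G.det := by
    rw [← xw_Lk_smul c0 c1 c3 hc0 hc1 hc3, ← h0, ← h1, ← h3, xw_Lk_mulVec G hdet]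
  have hw : Lk (pt (z (T.nbr d.1 (d.2.1 2))) (T.glue d.1 (d.2.1 2) (d.2.1 0)))
      (pt (z (T.nbr d.1 (d.2.1 2))) (T.glue d.1 (d.2.1 2) (d.2.1 1)))
      (pt (z (T.nbr d.1 (d.2.1 2))) (T.glue d.1 (d.2.1 2) (d.2.1 3))) /
      Lk (pt (z d.1) (d.2.1 0)) (pt (z d.1) (d.2.1 1)) (pt (z d.1) (d.2.1 3)) =
      c0 ^ 2 / G.det := by
    rw [div_eq_div_iff (pow_ne_zero 2 hc0) hdet] at hLk
    rw [div_eq_div_iff hL hdet, hLk]
    ring
  rw [hw]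
  have hn := xw_nil_mulVec G hdet (pt (z d.1) (d.2.1 0))
  rw [h0, xw_nil_smul] at hn
  have h4 : G * nil (pt (z d.1) (d.2.1 0)) * G⁻¹ = (G.det)⁻¹ • (c0 ^ 2 •
      nil (pt (z (T.nbr d.1 (d.2.1 2))) (T.glue d.1 (d.2.1 2) (d.2.1 0)))) := by
    rw [hn, smul_smul, inv_mul_cancel₀ hdet, one_smul]
  rw [h4, smul_smul, div_eq_mul_inv, mul_comm (c0 ^ 2)]

theorem wt_ne (T : Tri N) (z : Fin N → ℂ) (hz : ∀ j, z j ≠ 0 ∧ z j ≠ 1) (d : Dt N) :
    wt T z d ≠ 0 := by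
  unfold wt
  refine div_ne_zero ?_ ?_
  · exact xw_Lk_ne _ (hz _).1 (hz _).2 _ _ _ (dt_ne _ 0 3 (by decide))
      (dt_ne _ 0 1 (by decide)) (dt_ne _ 3 1 (by decide))
  · exact xw_Lk_ne _ (hz _).1 (hz _).2 _ _ _ (dt_ne _ 0 1 (by decide))
      (dt_ne _ 0 3 (by decide)) (dt_ne _ 1 3 (by decide))

theorem wt_al (T : Tri N) (z : Fin N → ℂ) (hz : ∀ j, z j ≠ 0 ∧ z j ≠ 1) (d : Dt N) :
    wt T z (T.al d) * wt T z d = 1 := by
  have h1 := xw_Lk_ne (z d.1) (hz d.1).1 (hz d.1).2 (d.2.1 0) (d.2.1 1) (d.2.1 3)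
    (dt_ne d 0 1 (by decide)) (dt_ne d 0 3 (by decide)) (dt_ne d 1 3 (by decide))
  have h2 := xw_Lk_ne (z (T.al d).1) (hz (T.al d).1).1 (hz (T.al d).1).2 ((T.al d).2.1 0)
    ((T.al d).2.1 1) ((T.al d).2.1 3)
    (dt_ne (T.al d) 0 1 (by decide)) (dt_ne (T.al d) 0 3 (by decide))
    (dt_ne (T.al d) 1 3 (by decide))
  unfold wt
  rw [al_al, xw_Lk_swap (pt (z d.1) (d.2.1 0)) (pt (z d.1) (d.2.1 1)) (pt (z d.1) (d.2.1 3)),
    xw_Lk_swap (pt (z (T.al d).1) ((T.al d).2.1 0)) (pt (z (T.al d).1) ((T.al d).2.1 1))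
      (pt (z (T.al d).1) ((T.al d).2.1 3))]
  field_simp

end Pool.Agent.OL36
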