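import Pool.Agent.LibOL36.S0
import Pool.Agent.LibOL36.XW
import Pool.Agent.LibOL36.TDefs2

/-! # Row XC: the product of the weights along a closed curve

Plan. For a flag `x = (j, (a, b, c, d))` put `A x := Lk (pt a) (pt b) (pt c)` (entry side) and `B x := Lk (pt a) (pt b) (pt d)` (exit side), `pt = pt (z j)`.
(1) `A x = shape (typ a b) (z j) ^ (sign π) * B x` (over the 24 permutations, see `perm_mem`/`permList` in `T1.lean` (private, copy)); check on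
`(0,1,2,3)`: `A = om 1 2/(om 0 1 om 0 2)`, `B = om 1 3/(om 0 1 om 0 3)`, `A / B = om 1 2 om 0 3/(om 0 2 om 1 3) = (1)(-z)/((-1)(1)) = z`: sign `+`, type `0`.
(2) `wt (D k) = ε_k A x_{k+1} / B x_k` with `ε_k = 1` if the sign of the flag does not change from `x_k` to `x_{k+1}` and `-1` if it
changes (`Step`: `x_{k+1} = (σ a, σ b, σ d, σ c)` (same sign as `x_k` as `σ` is odd and so is the transposition) or `(σ a, σ d, σ b, σ c)` (opposite sign); `D k` is `x_k` or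
`(a, d, c, b)`; `wt` does not change if `1` and `3` are exchanged on both sides since `Lk a c b = - Lk a b c`).
(3) `∏ ε_k = ∏ sign x_k * sign x_{k+1} = 1` (closed: `∏_{k<m} s_k s_{k+1} = (∏ s_k)^2`, `Finset.prod_range_succ'`), `∏ A x_{k+1} = ∏ A x_k`; so `∏ wt = ∏ A x_k / B x_k =
∏_k shape (typ) (z j_k) ^ sign = ∏ j, ∏ t, shape t (z j) ^ row t j = 1` (`hC`; expand `row`, `zpow` of a sum of a `range`: `Finset.prod_zpow`-like lemma by
induction on `m` with `zpow_add₀`, `shape ≠ 0`, then `Finset.prod_comm`). -/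

set_option autoImplicit false

open Matrix

namespace Pool.Agent.OL36

variable {N : ℕ}


private def xcList : List (Fin 4 × Fin 4 × Fin 4 × Fin 4 × ℤˣ) :=
  [(0, 1, 2, 3, 1), (0, 1, 3, 2, -1), (0, 2, 1, 3, -1), (0, 2, 3, 1, 1), (0, 3, 1, 2, 1), (0, 3, 2, 1, -1), (1, 0, 2, 3, -1), (1, 0, 3, 2, 1), (1, 2, 0, 3, 1), (1, 2, 3, 0, -1), (1, 3, 0, 2, -1), (1, 3, 2, 0, 1), (2, 0, 1, 3, 1), (2, 0, 3, 1, -1), (2, 1, 0, 3, -1), (2, 1, 3, 0, 1), (2, 3, 0, 1, 1), (2, 3, 1, 0, -1), (3, 0, 1, 2, -1), (3, 0, 2, 1, 1), (3, 1, 0, 2, 1), (3, 1, 2, 0, -1), (3, 2, 0, 1, -1), (3, 2, 1, 0, 1)]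

set_option maxRecDepth 100000 in
private theorem xc_mem : ∀ π : Equiv.Perm (Fin 4),
    (π 0, π 1, π 2, π 3, Equiv.Perm.sign π) ∈ xcList := by
  decide +kernel

private theorem xc_om (w : ℂ) : om (pt w 0) (pt w 1) = -1 ∧ om (pt w 0) (pt w 2) = -1 ∧
    om (pt w 0) (pt w 3) = -w ∧ om (pt w 1) (pt w 2) = 1 ∧ om (pt w 1) (pt w 3) = 1 ∧
    om (pt w 2) (pt w 3) = 1 - w ∧ om (pt w 1) (pt w 0) = 1 ∧ om (pt w 2) (pt w 0) = 1 ∧
    om (pt w 3) (pt w 0) = w ∧ om (pt w 2) (pt w 1) = -1 ∧ om (pt w 3) (pt w 1) = -1 ∧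
    om (pt w 3) (pt w 2) = w - 1 := by
  simp [om, pt]

set_option maxHeartbeats 2000000 in
private theorem xc_AB (w : ℂ) (h0 : w ≠ 0) (h1 : w ≠ 1) (π : Equiv.Perm (Fin 4)) :
    Lk (pt w (π 0)) (pt w (π 1)) (pt w (π 2)) =
      shape (typ (π 0) (π 1)) w ^ ((Equiv.Perm.sign π : ℤˣ) : ℤ) *
        Lk (pt w (π 0)) (pt w (π 1)) (pt w (π 3)) := by
  obtain ⟨o1, o2, o3, o4, o5, o6, o7, o8, o9, o10, o11, o12⟩ := xc_om w
  have h2 : 1 - w ≠ 0 := sub_ne_zero.2 h1.symm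
  have h3 : w - 1 ≠ 0 := sub_ne_zero.2 h1
  have t0 : shape 0 w = w := rfl
  have t1 : shape 1 w = 1 / (1 - w) := rfl
  have t2 : shape 2 w = (w - 1) / w := by
    change 1 - 1 / w = _
    field_simp
  have key : ∀ q : Fin 4 × Fin 4 × Fin 4 × Fin 4 × ℤˣ, q ∈ xcList →
      Lk (pt w q.1) (pt w q.2.1) (pt w q.2.2.1) =
      shape (typ q.1 q.2.1) w ^ ((q.2.2.2.2 : ℤˣ) : ℤ) *
        Lk (pt w q.1) (pt w q.2.1) (pt w q.2.2.2.1) := by
    intro q hq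
    simp only [xcList, List.mem_cons, List.not_mem_nil, or_false] at hq
    rcases hq with rfl | rfl | rfl | rfl | rfl | rfl | rfl | rfl | rfl | rfl | rfl | rfl | rfl | rfl | rfl | rfl | rfl | rfl | rfl | rfl | rfl | rfl | rfl | rfl
    all_goals
      simp only [typ, Fin.isValue, Lk, o1, o2, o3, o4, o5, o6, o7, o8, o9, o10, o11, o12]
      norm_num
      try simp only [t0, t1, t2]
      try field_simp
      try ring
  exact key _ (xc_mem π)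

private theorem xc_ne (w : ℂ) (h0 : w ≠ 0) (h1 : w ≠ 1) :
    ∀ a b : Fin 4, a ≠ b → om (pt w a) (pt w b) ≠ 0 := by
  obtain ⟨o1, o2, o3, o4, o5, o6, o7, o8, o9, o10, o11, o12⟩ := xc_om w
  have h2 : 1 - w ≠ 0 := sub_ne_zero.2 h1.symm
  have h3 : w - 1 ≠ 0 := sub_ne_zero.2 h1
  intro a b hab
  fin_cases a <;> fin_cases b <;> simp_all

private theorem xc_Lk_swap (a b c : Fin 2 → ℂ) : Lk a c b = -Lk a b c := by
  unfold Lk
  rw [om_comm b c, mul_comm (om a c) (om a b), neg_div]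

private theorem xc_rho : ∀ ρ : Equiv.Perm (Fin 4), ρ 0 = 0 → ρ 3 = 2 →
    (ρ 1 = 1 ∧ ρ 2 = 3 ∧ Equiv.Perm.sign ρ = -1) ∨
    (ρ 1 = 3 ∧ ρ 2 = 1 ∧ Equiv.Perm.sign ρ = 1) := by
  decide

private theorem xc_tau : ∀ ρ : Equiv.Perm (Fin 4), ρ 0 = 0 → ρ 2 = 2 →
    (ρ 1 = 1 ∧ ρ 3 = 3) ∨ (ρ 1 = 3 ∧ ρ 3 = 1) := by
  decide

/-- the sign of a flag -/
private noncomputable def xcs (x : Flag N) : ℂ := (((Equiv.Perm.sign x.2 : ℤˣ) : ℤ) : ℂ)

private theorem xcs_sq (x : Flag N) : xcs x * xcs x = 1 := by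
  unfold xcs
  rcases Int.units_eq_one_or (Equiv.Perm.sign x.2) with h | h <;> rw [h] <;> simp

private noncomputable def xcA (z : Fin N → ℂ) (x : Flag N) : ℂ :=
  Lk (pt (z x.1) (x.2 0)) (pt (z x.1) (x.2 1)) (pt (z x.1) (x.2 2))

private noncomputable def xcB (z : Fin N → ℂ) (x : Flag N) : ℂ :=
  Lk (pt (z x.1) (x.2 0)) (pt (z x.1) (x.2 1)) (pt (z x.1) (x.2 3))

private theorem xcB_ne (z : Fin N → ℂ) (hz : ∀ j, z j ≠ 0 ∧ z j ≠ 1) (x : Flag N) :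
    xcB z x ≠ 0 := by
  have h := xc_ne (z x.1) (hz x.1).1 (hz x.1).2
  unfold xcB Lk
  exact div_ne_zero (h _ _ (x.2.injective.ne (by decide)))
    (mul_ne_zero (h _ _ (x.2.injective.ne (by decide))) (h _ _ (x.2.injective.ne (by decide))))

private theorem xc_step (T : Tri N) (z : Fin N → ℂ)
    (x x' : Flag N) (hs : Step T x x') (d : Dt N) (h1 : d.1 = x.1) (h2 : d.2.1 0 = x.2 0)
    (h3 : d.2.1 2 = x.2 2) :
    wt T z d = xcs x * xcs x' * xcA z x' / xcB z x := by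
  obtain ⟨s1, s2, s3⟩ := hs
  obtain ⟨v1, v0, v3, v2, v4⟩ := al_val T d
  have hW : wt T z d = Lk (pt (z (T.nbr x.1 (x.2 2))) (T.glue x.1 (x.2 2) (x.2 0)))
      (pt (z (T.nbr x.1 (x.2 2))) (T.glue x.1 (x.2 2) (x.2 1)))
      (pt (z (T.nbr x.1 (x.2 2))) (T.glue x.1 (x.2 2) (x.2 3))) / xcB z x := by
    rw [wt, v1, v0, v3, v4, h1, h2, h3, xcB]
    rcases xc_tau (x.2⁻¹ * d.2.1) (by simp [h2]) (by simp [h3]) with ⟨e1, e3⟩ | ⟨e1, e3⟩
    · rw [Equiv.Perm.mul_apply, Equiv.Perm.inv_eq_iff_eq] at e1 e3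
      rw [e1, e3]
    · rw [Equiv.Perm.mul_apply, Equiv.Perm.inv_eq_iff_eq] at e1 e3
      rw [e1, e3, xc_Lk_swap _ _ (pt (z (T.nbr x.1 (x.2 2))) (T.glue x.1 (x.2 2) (x.2 3))),
        xc_Lk_swap _ _ (pt (z x.1) (x.2 3)), neg_div_neg_eq]
  rw [hW]
  congr 1
  have hsg : ∀ ρ : Equiv.Perm (Fin 4), ρ = (T.glue x.1 (x.2 2) * x.2)⁻¹ * x'.2 →
      Equiv.Perm.sign x'.2 = -Equiv.Perm.sign x.2 * Equiv.Perm.sign ρ := by
    intro ρ hρ
    have : x'.2 = T.glue x.1 (x.2 2) * x.2 * ρ := by rw [hρ, mul_inv_cancel_left]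
    rw [this, Equiv.Perm.sign_mul, Equiv.Perm.sign_mul, T.odd, neg_one_mul]
  have hsq := xcs_sq x
  rw [xcA, s1, s2]
  rcases xc_rho ((T.glue x.1 (x.2 2) * x.2)⁻¹ * x'.2)
      (by rw [Equiv.Perm.mul_apply, Equiv.Perm.inv_eq_iff_eq, s2, Equiv.Perm.mul_apply])
      (by rw [Equiv.Perm.mul_apply, Equiv.Perm.inv_eq_iff_eq, s3, Equiv.Perm.mul_apply])
    with ⟨e1, e2, e3⟩ | ⟨e1, e2, e3⟩
  · rw [Equiv.Perm.mul_apply, Equiv.Perm.inv_eq_iff_eq, Equiv.Perm.mul_apply] at e1 e2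
    have h4 : xcs x' = xcs x := by
      unfold xcs
      rw [hsg _ rfl, e3]
      simp
    rw [h4, hsq, one_mul, e1, e2]
  · rw [Equiv.Perm.mul_apply, Equiv.Perm.inv_eq_iff_eq, Equiv.Perm.mul_apply] at e1 e2
    have h4 : xcs x' = -xcs x := by
      unfold xcs
      rw [hsg _ rfl, e3]
      simp
    rw [h4, mul_neg, hsq, e1, e2,
      xc_Lk_swap _ (pt (z (T.nbr x.1 (x.2 2))) (T.glue x.1 (x.2 2) (x.2 1)))]
    ring

private theorem xc_shift (φ : ℕ → ℂ) (m : ℕ) (h : φ m = φ 0) :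
    ∏ k ∈ Finset.range m, φ (k + 1) = ∏ k ∈ Finset.range m, φ k := by
  cases m with
  | zero => rfl
  | succ n => rw [Finset.prod_range_succ, h, Finset.prod_range_succ' φ n]

private theorem xc_zpow (a : ℂ) (ha : a ≠ 0) (e : ℕ → ℤ) (m : ℕ) :
    a ^ (∑ k ∈ Finset.range m, e k) = ∏ k ∈ Finset.range m, a ^ e k := by
  induction m with
  | zero => simp
  | succ n ih => rw [Finset.sum_range_succ, Finset.prod_range_succ, zpow_add₀ ha, ih]

private theorem xc_shape_ne (w : ℂ) (h0 : w ≠ 0) (h1 : w ≠ 1) (t : Fin 3) : shape t w ≠ 0 := by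
  have h2 : 1 - w ≠ 0 := sub_ne_zero.2 h1.symm
  have t2 : shape 2 w = (w - 1) / w := by
    change 1 - 1 / w = _
    field_simp
  fin_cases t
  · exact h0
  · exact div_ne_zero one_ne_zero h2
  · change shape 2 w ≠ 0
    rw [t2]
    exact div_ne_zero (sub_ne_zero.2 h1) h0

theorem wt_curve (T : Tri N) (z : Fin N → ℂ) (hz : ∀ j, z j ≠ 0 ∧ z j ≠ 1) (hC : T.Complete z)
    (γ : Curve T) (D : ℕ → Dt N) (hD : IsExit γ D) :
    ∏ k ∈ Finset.range γ.m, wt T z (D k) = 1 := by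
  have hstep : ∀ k ∈ Finset.range γ.m, wt T z (D k) =
      xcs (γ.x k) * xcs (γ.x (k + 1)) * xcA z (γ.x (k + 1)) / xcB z (γ.x k) := by
    intro k hk
    have hk' := Finset.mem_range.1 hk
    obtain ⟨h1, h2, h3⟩ := hD k hk'
    exact xc_step T z _ _ (γ.step k hk') (D k) h1 h2 h3
  have hcl : γ.x γ.m = γ.x 0 := γ.closed
  have hAB : ∀ x : Flag N, xcA z x / xcB z x =
      shape (typ (x.2 0) (x.2 1)) (z x.1) ^ ((Equiv.Perm.sign x.2 : ℤˣ) : ℤ) := by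
    intro x
    rw [div_eq_iff (xcB_ne z hz x)]
    exact xc_AB (z x.1) (hz x.1).1 (hz x.1).2 x.2
  rw [Finset.prod_congr rfl hstep, Finset.prod_div_distrib, Finset.prod_mul_distrib,
    Finset.prod_mul_distrib, xc_shift (fun k => xcs (γ.x k)) γ.m (by rw [hcl]),
    xc_shift (fun k => xcA z (γ.x k)) γ.m (by rw [hcl]), ← Finset.prod_mul_distrib,
    Finset.prod_congr rfl (fun k _ => xcs_sq (γ.x k)), Finset.prod_const_one, one_mul,
    ← Finset.prod_div_distrib, Finset.prod_congr rfl (fun k _ => hAB (γ.x k))]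
  rw [← hC γ]
  have hrow : ∀ j t, shape t (z j) ^ (γ.row t j) = ∏ k ∈ Finset.range γ.m,
      shape t (z j) ^ (if (γ.x k).1 = j ∧ typ ((γ.x k).2 0) ((γ.x k).2 1) = t
        then ((Equiv.Perm.sign (γ.x k).2 : ℤˣ) : ℤ) else 0) := by
    intro j t
    exact xc_zpow _ (xc_shape_ne (z j) (hz j).1 (hz j).2 t) _ _
  simp only [hrow]
  rw [Finset.prod_congr rfl fun j _ => Finset.prod_comm, Finset.prod_comm]
  refine Finset.prod_congr rfl fun k _ => ?_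
  rw [Finset.prod_eq_single (γ.x k).1 (fun j _ hj => Finset.prod_eq_one fun t _ => by
      rw [if_neg fun h => hj h.1.symm, zpow_zero]) (fun h => absurd (Finset.mem_univ _) h),
    Finset.prod_eq_single (typ ((γ.x k).2 0) ((γ.x k).2 1)) (fun t _ ht => by
      rw [if_neg fun h => ht h.2.symm, zpow_zero]) (fun h => absurd (Finset.mem_univ _) h),
    if_pos ⟨rfl, rfl⟩]

end Pool.Agent.OL36
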