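import Pool.Agent.LibOL36.S0
import Pool.Agent.LibOL36.TDefs2

/-! # Row XF: lists of faces and edges

Plan. `exists_edges`: `T.edge_surj`, `choose`. `exists_faces`: `ι (j, i) := (nbr j i, glue j i i)` is an involution of `Fin N × Fin 4` (`nbr_nbr`, `glue_glue`, see `P5.lean`) without fixed points (`ne_self`).
General lemma: `ι : X → X` involution without fixed points on a finite type with `card X = card K + card K`... (`K = Fin N ⊕ Fin N`, `2 * card K = card X`) has `F : K → X` with `∀ s, ∃! k, s = F k ∨ s = ι (F k)`: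
e.g. choose a linear order on `X` (`Fin N × Fin 4` has `Prod.Lex` order, or `Fintype.equivFin`), `A := {s | s < ι s}`, `X = A ∪ ι A` disjoint, so `2 card A = 4 N`, `A ≃ Fin N ⊕ Fin N`
(`Fintype.equivOfCardEq`). -/

set_option autoImplicit false

open Matrix

namespace Pool.Agent.OL36

variable {N : ℕ}


private theorem xf_inv {X K : Type} [Fintype X] [Fintype K] (ι : X → X) (h1 : ∀ s, ι (ι s) = s)
    (h2 : ∀ s, ι s ≠ s) (hc : Fintype.card X = 2 * Fintype.card K) :
    ∃ F : K → X, ∀ s, ∃! k, s = F k ∨ s = ι (F k) := by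
  classical
  let e : X ≃ Fin (Fintype.card X) := Fintype.equivFin X
  let A : Finset X := Finset.univ.filter fun s => e s < e (ι s)
  have hA : ∀ s, s ∈ A ↔ e s < e (ι s) := fun s => by simp [A]
  have hinj : Function.Injective ι := fun s t h => by rw [← h1 s, h, h1]
  have hcompl : Aᶜ = A.image ι := by
    ext s
    rw [Finset.mem_compl, Finset.mem_image, hA]
    constructor
    · intro h
      refine ⟨ι s, ?_, h1 s⟩
      rw [hA, h1]
      exact lt_of_le_of_ne (not_lt.1 h) fun h' => h2 s (e.injective h')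
    · rintro ⟨t, ht, rfl⟩
      rw [hA] at ht
      rw [h1]
      exact not_lt.2 ht.le
  have hcard : A.card = Fintype.card K := by
    have h3 := Finset.card_add_card_compl A
    rw [hcompl, Finset.card_image_of_injective _ hinj, hc] at h3
    omega
  have hcard' : Fintype.card K = Fintype.card A := by
    rw [Fintype.card_coe, hcard]
  let E : K ≃ A := Fintype.equivOfCardEq hcard'
  refine ⟨fun k => (E k).1, fun s => ?_⟩
  by_cases hs : s ∈ A
  · refine ⟨E.symm ⟨s, hs⟩, Or.inl (by simp), ?_⟩
    rintro k (hk | hk)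
    · rw [Equiv.eq_symm_apply]
      exact Subtype.ext hk.symm
    · exfalso
      have h4 := (E k).2
      rw [hA] at h4 hs
      rw [hk, h1] at hs
      exact lt_asymm h4 hs
  · have hs' : ι s ∈ A := by
      rw [hA] at hs ⊢
      rw [h1]
      exact lt_of_le_of_ne (not_lt.1 hs) fun h' => h2 s (e.injective h')
    refine ⟨E.symm ⟨ι s, hs'⟩, Or.inr (by simp [h1]), ?_⟩
    rintro k (hk | hk)
    · exact absurd (hk ▸ (E k).2) hs
    · rw [Equiv.eq_symm_apply]
      refine Subtype.ext ?_
      change (E k).1 = ι s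
      rw [hk, h1]

theorem exists_edges (T : Tri N) : ∃ E : Fin N → Fin N × Fin 4 × Fin 4, IsEdges T E := by
  choose j a b hab he using T.edge_surj
  exact ⟨fun e => (j e, a e, b e), fun e => ⟨hab e, he e⟩⟩

theorem exists_faces (T : Tri N) : ∃ F : Fin N ⊕ Fin N → Fin N × Fin 4, IsFaces T F := by
  refine xf_inv (X := Fin N × Fin 4) (K := Fin N ⊕ Fin N)
    (fun s => (T.nbr s.1 s.2, T.glue s.1 s.2 s.2)) ?_ ?_ ?_
  · rintro ⟨j, i⟩
    refine Prod.ext (T.nbr_nbr j i) ?_
    change T.glue (T.nbr j i) (T.glue j i i) (T.glue j i i) = i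
    rw [T.glue_glue]
    simp
  · rintro ⟨j, i⟩
    exact T.ne_self j i
  · simp
    omega

end Pool.Agent.OL36
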