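import Pool.Agent.LibOL36.TDefs2

/-! # Row XG: the holonomy exists -/

set_option autoImplicit false

open Matrix

namespace Pool.Agent.OL36

variable {N : ℕ}

private theorem xg_om_pt (z : ℂ) (hz : z ≠ 0) (hz1 : z ≠ 1) (a b : Fin 4) (hab : a ≠ b) :
    om (pt z a) (pt z b) ≠ 0 := by
  have h1 : (1 : ℂ) - z ≠ 0 := sub_ne_zero.mpr (Ne.symm hz1)
  have h2 : z - 1 ≠ 0 := sub_ne_zero.mpr hz1
  fin_cases a <;> fin_cases b <;> simp_all [pt, om]

private theorem xg_three (u v w u' v' w' : Fin 2 → ℂ) (h1 : om u v ≠ 0) (h2 : om v w ≠ 0)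
    (h3 : om u w ≠ 0) (h1' : om u' v' ≠ 0) (h2' : om v' w' ≠ 0) (h3' : om u' w' ≠ 0) :
    ∃ g : M2, g.det ≠ 0 ∧ (∃ c : ℂ, c ≠ 0 ∧ g *ᵥ u = c • u') ∧ (∃ c : ℂ, c ≠ 0 ∧ g *ᵥ v = c • v') ∧
      (∃ c : ℂ, c ≠ 0 ∧ g *ᵥ w = c • w') := by
  have h2r : om w v ≠ 0 := by
    intro h
    apply h2
    have : om v w = - om w v := by simp only [om]; ring
    rw [this, h, neg_zero]
  have h2r' : om w' v' ≠ 0 := by
    intro h
    apply h2'
    have : om v' w' = - om w' v' := by simp only [om]; ring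
    rw [this, h, neg_zero]
  set α : ℂ := om w v / om u v with hα
  set β : ℂ := om u w / om u v with hβ
  set α' : ℂ := om w' v' / om u' v' with hα'
  set β' : ℂ := om u' w' / om u' v' with hβ'
  have a0 : α ≠ 0 := div_ne_zero h2r h1
  have b0 : β ≠ 0 := div_ne_zero h3 h1
  have a0' : α' ≠ 0 := div_ne_zero h2r' h1'
  have b0' : β' ≠ 0 := div_ne_zero h3' h1'
  set A : M2 := !![α * u 0, β * v 0; α * u 1, β * v 1] with hA
  set A' : M2 := !![α' * u' 0, β' * v' 0; α' * u' 1, β' * v' 1] with hA'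
  have dA : A.det = α * β * om u v := by
    rw [hA, Matrix.det_fin_two]
    simp only [Matrix.of_apply, Matrix.cons_val', Matrix.cons_val_zero, Matrix.cons_val_one,
      Matrix.cons_val_fin_one, om]
    ring
  have dA' : A'.det = α' * β' * om u' v' := by
    rw [hA', Matrix.det_fin_two]
    simp only [Matrix.of_apply, Matrix.cons_val', Matrix.cons_val_zero, Matrix.cons_val_one,
      Matrix.cons_val_fin_one, om]
    ring
  have dA0 : A.det ≠ 0 := by rw [dA]; exact mul_ne_zero (mul_ne_zero a0 b0) h1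
  have dA0' : A'.det ≠ 0 := by rw [dA']; exact mul_ne_zero (mul_ne_zero a0' b0') h1'
  have key : ∀ e : Fin 2 → ℂ, (A' * A⁻¹) *ᵥ (A *ᵥ e) = A' *ᵥ e := by
    intro e
    rw [Matrix.mulVec_mulVec, Matrix.mul_assoc,
      Matrix.nonsing_inv_mul A (isUnit_iff_ne_zero.mpr dA0), Matrix.mul_one]
  have e1 : A *ᵥ ![1, 0] = α • u := by
    ext i; fin_cases i <;> simp [hA, Matrix.mulVec, dotProduct, Fin.sum_univ_two]
  have e1' : A' *ᵥ ![1, 0] = α' • u' := by
    ext i; fin_cases i <;> simp [hA', Matrix.mulVec, dotProduct, Fin.sum_univ_two]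
  have e2 : A *ᵥ ![0, 1] = β • v := by
    ext i; fin_cases i <;> simp [hA, Matrix.mulVec, dotProduct, Fin.sum_univ_two]
  have e2' : A' *ᵥ ![0, 1] = β' • v' := by
    ext i; fin_cases i <;> simp [hA', Matrix.mulVec, dotProduct, Fin.sum_univ_two]
  have w0 : ∀ (x y t : Fin 2 → ℂ) (h : om x y ≠ 0) (i : Fin 2),
      om t y / om x y * x i + om x t / om x y * y i = t i := by
    intro x y t h i
    have h' : x 0 * y 1 - x 1 * y 0 ≠ 0 := h
    rw [div_mul_eq_mul_div, div_mul_eq_mul_div, ← add_div, div_eq_iff h]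
    fin_cases i <;> simp [om] <;> ring
  have e3 : A *ᵥ ![1, 1] = w := by
    ext i
    have h := w0 u v w h1 i
    rw [← hα, ← hβ] at h
    rw [← h]
    fin_cases i <;> simp [hA, Matrix.mulVec, dotProduct, Fin.sum_univ_two]
  have e3' : A' *ᵥ ![1, 1] = w' := by
    ext i
    have h := w0 u' v' w' h1' i
    rw [← hα', ← hβ'] at h
    rw [← h]
    fin_cases i <;> simp [hA', Matrix.mulVec, dotProduct, Fin.sum_univ_two]
  refine ⟨A' * A⁻¹, ?_, ⟨α' / α, div_ne_zero a0' a0, ?_⟩, ⟨β' / β, div_ne_zero b0' b0, ?_⟩,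
    ⟨1, one_ne_zero, ?_⟩⟩
  · have hinv : (A⁻¹).det ≠ 0 := by
      intro h
      have hm : (A * A⁻¹).det = 1 := by
        rw [Matrix.mul_nonsing_inv A (isUnit_iff_ne_zero.mpr dA0), Matrix.det_one]
      rw [Matrix.det_mul, h, mul_zero] at hm
      exact zero_ne_one hm
    rw [Matrix.det_mul]
    exact mul_ne_zero dA0' hinv
  · have h := key ![1, 0]
    rw [e1, e1', Matrix.mulVec_smul] at h
    have : (A' * A⁻¹) *ᵥ u = α⁻¹ • (α • ((A' * A⁻¹) *ᵥ u)) := by
      rw [smul_smul, inv_mul_cancel₀ a0, one_smul]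
    rw [this, h, smul_smul, div_eq_mul_inv, mul_comm]
  · have h := key ![0, 1]
    rw [e2, e2', Matrix.mulVec_smul] at h
    have : (A' * A⁻¹) *ᵥ v = β⁻¹ • (β • ((A' * A⁻¹) *ᵥ v)) := by
      rw [smul_smul, inv_mul_cancel₀ b0, one_smul]
    rw [this, h, smul_smul, div_eq_mul_inv, mul_comm]
  · have h := key ![1, 1]
    rw [e3, e3'] at h
    rw [h, one_smul]

theorem exists_hol (T : Tri N) (z : Fin N → ℂ) (hz : ∀ j, z j ≠ 0 ∧ z j ≠ 1) :
    ∃ g : Fin N → Fin 4 → M2, IsHol T z g := by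
  have H : ∀ j i, ∃ g : M2, g.det ≠ 0 ∧ ∀ a, a ≠ i → ∃ c : ℂ, c ≠ 0 ∧
      g *ᵥ (pt (z j) a) = c • pt (z (T.nbr j i)) (T.glue j i a) := by
    intro j i
    have hp : ∀ a b : Fin 4, a ≠ b → om (pt (z j) a) (pt (z j) b) ≠ 0 := fun a b hab =>
      xg_om_pt (z j) (hz j).1 (hz j).2 a b hab
    have hp' : ∀ a b : Fin 4, a ≠ b →
        om (pt (z (T.nbr j i)) (T.glue j i a)) (pt (z (T.nbr j i)) (T.glue j i b)) ≠ 0 :=
      fun a b hab => xg_om_pt _ (hz _).1 (hz _).2 _ _ (fun h => hab ((T.glue j i).injective h))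
    have n01 : i.succAbove (0 : Fin 3) ≠ i.succAbove 1 := by
      intro h; exact absurd (Fin.succAbove_right_injective h) (by decide)
    have n12 : i.succAbove (1 : Fin 3) ≠ i.succAbove 2 := by
      intro h; exact absurd (Fin.succAbove_right_injective h) (by decide)
    have n02 : i.succAbove (0 : Fin 3) ≠ i.succAbove 2 := by
      intro h; exact absurd (Fin.succAbove_right_injective h) (by decide)
    obtain ⟨g, hd, hu, hv, hw⟩ := xg_three _ _ _ _ _ _ (hp _ _ n01) (hp _ _ n12) (hp _ _ n02)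
      (hp' _ _ n01) (hp' _ _ n12) (hp' _ _ n02)
    refine ⟨g, hd, ?_⟩
    intro a ha
    obtain ⟨k, hk⟩ := Fin.exists_succAbove_eq ha
    subst hk
    fin_cases k
    · exact hu
    · exact hv
    · exact hw
  choose g hg using H
  exact ⟨g, hg⟩

end Pool.Agent.OL36
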