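import Pool.Agent.LibOL36.XS
import Pool.Agent.LibOL36.XA
import Pool.Agent.LibOL36.J1
import Pool.Agent.LibOL36.S1
import Pool.Agent.LibOL36.H1
import Pool.Agent.LibOL36.E2

/-! # Row XN: the translation length of an essential curve

Plan. `Sf` from `exists_surf T E hE` (E given). `ell` is antisymmetric under `al` and sums to zero over a triangle (`VV_sum`, `VV_al`, `Lk_ph` of V1: `ell d = -2 ∑ e, VV T u e d`), `J_eq`: `Sf.J (hc γ) ell = 6 trl u γ`.
Suppose `trl u γ = 0`. `hc γ d = (γ.cross d.1 (d.2.1 0) (d.2.1 2) : ℂ)` (unfold, `push_cast`, the conjunctions in another order); call the integer function `c`: `Sf.Cyc c` (from `hc_al`, `hc_ph`, cast injective).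
`spanC`: `c = a x0 + b y0 + dl f` (`a b : ℤ`), `ell = p x0 + q y0 + dl h` (`p q : ℂ`), so `conj ell = conj p x0 + conj q y0 + dl (conj h)`. With `J_lin`, `J_antisymm`, `J_dl` (TJ): `0 = J c ell = (a q - b p) (± 6)`,
`J ell (conj ell) = (p conj q - q conj p) (± 6) ≠ 0` (`area_ne`). If `a ≠ 0` then `q = (b / a) p`, `p conj q - q conj p = 0`, contradiction; same if `b ≠ 0`. So `c = dl f` with `f : Fin N × Bool → ℤ`;
`m j a b := f (vmE T E j a b)`: invariance by `vmE_iff` (`OE` by one step), and `dl f d = f (vm d) - f (vm (ph (ph d)))`, `ph (ph d) = (a, q, p, i)`: exactly the condition in `NullHomologous` for the even permutation `d.2.1`. -/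

set_option autoImplicit false

open Matrix

namespace Pool.Agent.OL36

variable {N : ℕ}

private theorem xn_self {Δ Q P : Type} (Sf : Surf Δ Q P) [Fintype Δ] (w : Δ → ℂ) :
    Sf.J w w = 0 := by
  have h := Sf.J_antisymm w w
  have h2 : (2 : ℂ) * Sf.J w w = 0 := by linear_combination h
  simpa using h2

private theorem xn_J1 {Δ Q P : Type} (Sf : Surf Δ Q P) [Fintype Δ] (x y w : Δ → ℂ)
    (hw : Sf.Cyc w) (a b : ℂ) (f : P → ℂ) :
    Sf.J (fun d => a * x d + b * y d + Sf.dl f d) w = a * Sf.J x w + b * Sf.J y w := by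
  have h1 := Sf.J_lin (1 : ℂ) 1 (fun d => a * x d + b * y d) (Sf.dl f) w
  rw [Sf.J_dl f w hw, Sf.J_lin a b x y w] at h1
  have h2 : (fun d => (1 : ℂ) * (a * x d + b * y d) + 1 * Sf.dl f d) =
      fun d => a * x d + b * y d + Sf.dl f d := by
    funext d; ring
  rw [h2] at h1
  rw [h1]; ring

private theorem xn_cyc {Δ Q P : Type} (Sf : Surf Δ Q P) (x y : Δ → ℂ)
    (hx : Sf.Cyc x) (hy : Sf.Cyc y) (a b : ℂ) (f : P → ℂ) :
    Sf.Cyc (fun d => a * x d + b * y d + Sf.dl f d) := by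
  have hf := Sf.dl_cyc f
  refine ⟨fun d => ?_, fun d => ?_⟩
  · show a * x (Sf.α d) + b * y (Sf.α d) + Sf.dl f (Sf.α d) = _
    rw [hx.1 d, hy.1 d, hf.1 d]
    ring
  · show a * x d + b * y d + Sf.dl f d + (a * x (Sf.φ d) + b * y (Sf.φ d) + Sf.dl f (Sf.φ d)) +
      (a * x (Sf.φ (Sf.φ d)) + b * y (Sf.φ (Sf.φ d)) + Sf.dl f (Sf.φ (Sf.φ d))) = 0
    linear_combination a * hx.2 d + b * hy.2 d + hf.2 d

private theorem xn_J {Δ Q P : Type} (Sf : Surf Δ Q P) [Fintype Δ] (x y : Δ → ℂ)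
    (hx : Sf.Cyc x) (hy : Sf.Cyc y) (a b p q : ℂ) (f h : P → ℂ) :
    Sf.J (fun d => a * x d + b * y d + Sf.dl f d) (fun d => p * x d + q * y d + Sf.dl h d) =
      (a * q - b * p) * Sf.J x y := by
  rw [xn_J1 Sf x y _ (xn_cyc Sf x y hx hy p q h) a b f]
  have h1 := Sf.J_antisymm x (fun d => p * x d + q * y d + Sf.dl h d)
  have h2 := Sf.J_antisymm y (fun d => p * x d + q * y d + Sf.dl h d)
  rw [xn_J1 Sf x y x hx p q h, xn_self, Sf.J_antisymm x y] at h1
  rw [xn_J1 Sf x y y hy p q h, xn_self] at h2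
  linear_combination a * h1 + b * h2

private theorem xn_cross (T : Tri N) (γ : Curve T) (d : Dt N) :
    hc γ d = ((γ.cross d.1 (d.2.1 0) (d.2.1 2) : ℤ) : ℂ) := by
  unfold hc Curve.cross
  push_cast
  refine Finset.sum_congr rfl fun k _ => ?_
  congr 1
  · by_cases h : (γ.x k).1 = d.1 ∧ (γ.x k).2 2 = d.2.1 2 ∧ (γ.x k).2 0 = d.2.1 0
    · rw [if_pos h, if_pos ⟨h.1, h.2.2, h.2.1⟩]
    · rw [if_neg h, if_neg fun h' => h ⟨h'.1, h'.2.2, h'.2.1⟩]
  · by_cases h : (γ.x k).1 = d.1 ∧ (γ.x k).2 3 = d.2.1 2 ∧ (γ.x k).2 0 = d.2.1 0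
    · rw [if_pos h, if_pos ⟨h.1, h.2.2, h.2.1⟩]
    · rw [if_neg h, if_neg fun h' => h ⟨h'.1, h'.2.2, h'.2.1⟩]

theorem trl_ne (T : Tri N) (z : Fin N → ℂ) (him : ∀ j, 0 < (z j).im)
    (u : Fin N → Fin 4 → Fin 2 → ℂ) (hu : IsDec T z u) (E : Fin N → Fin N × Fin 4 × Fin 4)
    (hE : IsEdges T E) (e₀ : Fin N) (γ : Curve T) (hγ : ¬ γ.NullHomologous) : trl u γ ≠ 0 := by
  intro htr
  apply hγ
  obtain ⟨Sf, hα, hφ, hq, hv⟩ := exists_surf T E hE
  have hne : Nonempty (Dt N) := ⟨(e₀, ⟨1, by simp⟩)⟩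
  have hcardD : 2 * Fintype.card (Fin N × Bool) + 2 * Fintype.card (Fin N × Fin 4) =
      Fintype.card (Dt N) := by
    have h12 : Fintype.card {π : Equiv.Perm (Fin 4) // Equiv.Perm.sign π = 1} = 12 := by decide
    rw [Fintype.card_prod, Fintype.card_prod, Fintype.card_prod, h12]
    simp
    ring
  obtain ⟨x0, y0, hx, hy, hJ, hZ, hC⟩ := Sf.spanC hcardD
  have hXc : Sf.Cyc (fun d => (x0 d : ℂ)) := by
    refine ⟨fun d => ?_, fun d => ?_⟩
    · show ((x0 (Sf.α d) : ℤ) : ℂ) = -((x0 d : ℤ) : ℂ)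
      rw [hx.1 d]; push_cast; rfl
    · show ((x0 d : ℤ) : ℂ) + ((x0 (Sf.φ d) : ℤ) : ℂ) + ((x0 (Sf.φ (Sf.φ d)) : ℤ) : ℂ) = 0
      have := hx.2 d
      exact_mod_cast this
  have hYc : Sf.Cyc (fun d => (y0 d : ℂ)) := by
    refine ⟨fun d => ?_, fun d => ?_⟩
    · show ((y0 (Sf.α d) : ℤ) : ℂ) = -((y0 d : ℤ) : ℂ)
      rw [hy.1 d]; push_cast; rfl
    · show ((y0 d : ℤ) : ℂ) + ((y0 (Sf.φ d) : ℤ) : ℂ) + ((y0 (Sf.φ (Sf.φ d)) : ℤ) : ℂ) = 0
      have := hy.2 d
      exact_mod_cast this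
  have hJc : Sf.J (fun d => (x0 d : ℂ)) (fun d => (y0 d : ℂ)) ≠ 0 := by
    have h1 : Sf.J (fun d => (x0 d : ℂ)) (fun d => (y0 d : ℂ)) = ((Sf.J x0 y0 : ℤ) : ℂ) := by
      simp only [Surf.J]
      push_cast
      rfl
    rw [h1]
    rcases hJ with h | h <;> rw [h] <;> norm_num
  -- the integral cocycle of the curve
  have hcyc : Sf.Cyc (fun d : Dt N => γ.cross d.1 (d.2.1 0) (d.2.1 2)) := by
    refine ⟨fun d => ?_, fun d => ?_⟩
    · have h := hc_al T γ d
      rw [xn_cross, xn_cross] at h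
      rw [hα]
      exact_mod_cast h
    · have h := hc_ph T γ d
      rw [xn_cross, xn_cross, xn_cross] at h
      rw [hφ]
      exact_mod_cast h
  obtain ⟨a, b, f, hf⟩ := hZ _ hcyc
  -- the side vectors
  have hell : ∀ d, ell u d = -2 * ∑ e, VV T u e d := by
    intro d
    rw [VV_sum, ell]
    ring
  have hec : Sf.Cyc (ell u) := by
    refine ⟨fun d => ?_, fun d => ?_⟩
    · rw [hα, hell, hell, Finset.sum_congr rfl fun e _ => VV_al T z u hu e d,
        Finset.sum_neg_distrib]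
      ring
    · rw [hφ]
      exact Lk_ph T z u hu d
  obtain ⟨p, q, h, hh⟩ := hC _ hec
  -- the pairing of the curve with the side vectors
  have e1 : (a : ℂ) * q - b * p = 0 := by
    have h1 : Sf.J (hc γ) (ell u) = 6 * trl u γ := by
      have h2 := J_eq T z u hu γ
      have h3 : Sf.J (hc γ) (ell u) =
          -2 * ∑ d : Dt N, hc γ d * ((∑ e, VV T u e (ph d)) - ∑ e, VV T u e (ph (ph d))) := by
        rw [Surf.J, hφ, Finset.mul_sum]
        refine Finset.sum_congr rfl fun d _ => ?_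
        rw [hell (ph d), hell (ph (ph d))]
        ring
      rw [h3, h2]
      ring
    have h4 : hc γ = fun d => (a : ℂ) * (x0 d : ℂ) + (b : ℂ) * (y0 d : ℂ) +
        Sf.dl (fun v => (f v : ℂ)) d := by
      funext d
      rw [xn_cross, hf d]
      simp only [Surf.dl]
      push_cast
      rfl
    have h5 : ell u = fun d => p * (x0 d : ℂ) + q * (y0 d : ℂ) + Sf.dl h d := funext hh
    rw [h4, h5, xn_J Sf _ _ hXc hYc, htr, mul_zero] at h1
    exact (mul_eq_zero.1 h1).resolve_right hJc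
  have e2 : p * (starRingEnd ℂ) q - q * (starRingEnd ℂ) p ≠ 0 := by
    intro h0
    have h1 := area_ne T z him u hu e₀
    apply h1
    have h6 : (fun d => (starRingEnd ℂ) (ell u d)) = fun d => (starRingEnd ℂ) p * (x0 d : ℂ) +
        (starRingEnd ℂ) q * (y0 d : ℂ) + Sf.dl (fun v => (starRingEnd ℂ) (h v)) d := by
      funext d
      rw [hh d]
      simp only [Surf.dl, map_add, map_mul, map_sub, map_intCast]
    have h5 : ell u = fun d => p * (x0 d : ℂ) + q * (y0 d : ℂ) + Sf.dl h d := funext hh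
    have h7 : Sf.J (ell u) (fun d => (starRingEnd ℂ) (ell u d)) = 0 := by
      rw [h6]
      conv_lhs => rw [h5]
      rw [xn_J Sf _ _ hXc hYc, h0, zero_mul]
    rw [Surf.J, hφ] at h7
    exact h7
  have ha : a = 0 := by
    by_contra ha0
    apply e2
    have ha1 : (a : ℂ) ≠ 0 := by exact_mod_cast ha0
    have h1 : (a : ℂ) * q = b * p := by linear_combination e1
    have h2 : (a : ℂ) * (starRingEnd ℂ) q = b * (starRingEnd ℂ) p := by
      have := congrArg (starRingEnd ℂ) h1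
      simpa only [map_mul, map_intCast] using this
    apply mul_left_cancel₀ ha1
    linear_combination p * h2 - (starRingEnd ℂ) p * h1
  have hb : b = 0 := by
    by_contra hb0
    apply e2
    have hb1 : (b : ℂ) ≠ 0 := by exact_mod_cast hb0
    have h1 : (a : ℂ) * q = b * p := by linear_combination e1
    have h2 : (a : ℂ) * (starRingEnd ℂ) q = b * (starRingEnd ℂ) p := by
      have := congrArg (starRingEnd ℂ) h1
      simpa only [map_mul, map_intCast] using this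
    apply mul_left_cancel₀ hb1
    linear_combination q * h2 - (starRingEnd ℂ) q * h1
  -- the curve is null-homologous
  refine ⟨fun j a b => f (vmE T E j a b), fun j i a b hab hai hbi => ?_, fun j π hπ => ?_⟩
  · show f _ = f _
    congr 1
    symm
    rw [vmE_iff T E hE _ _ _ _ _ _ hab fun h => hab ((T.glue j i).injective h)]
    exact Relation.EqvGen.rel _ _ ⟨i, fun h => hai h.symm, fun h => hbi h.symm, rfl⟩
  · have h1 := hf (j, ⟨π, hπ⟩)
    rw [ha, hb] at h1
    simp only [Surf.dl, hv, hφ, zero_mul, zero_add] at h1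
    obtain ⟨a1, a2, a3, a4, a5⟩ := ph_val (N := N) (j, ⟨π, hπ⟩)
    obtain ⟨b1, b2, b3, b4, b5⟩ := ph_val (ph (N := N) (j, ⟨π, hπ⟩))
    rw [b1, b2, b3, a1, a2, a4] at h1
    exact h1

end Pool.Agent.OL36
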