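import Pool.Agent.LibOL36.S0
import Pool.Agent.LibOL36.TDefs2

/-! # Row XP: the potential

Plan. State space = darts `d` (the entry side of a link triangle). Two moves: `L d := al (ph d)` (leave through `ph d`), `R d := al (ph (ph d))` (leave through
`ph (ph d)`), with factors `ω (ph d)`, `ω (ph (ph d))`. Inductive predicate `Rel d d' λ` (private inductive, or: exists a list of booleans): `Rel d d 1`,
`Rel (L d) d' λ → Rel d d' (λ * ω (ph d))`, `Rel (R d) d' λ → Rel d d' (λ * ω (ph (ph d)))`.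
(1) transitive, multiplicative (induction). (2) CLOSED: `Rel d d λ → λ = 1`: from `Rel d d' λ` get `m` and a sequence of flags `x_0, ..., x_{m-1}` with `x_0` entering through `d`
(`x_0.1 = d.1`, `x_0.2 0 = d.2.1 0`, `x_0.2 3 = d.2.1 2`), leaving through the chosen side, `Step T (x k) (x (k+1))` for `k + 1 < m`, the exit of `x_{m-1}` being `al d'`, and `λ` the
product of the `ω` of the exit darts; flag for `(d, exit D)`: `j = d.1`, `a`, `b` = the fourth vertex, `c = D.2.1 2`, `d = d.2.1 2`. If `d = d'` put `x_m := x_0`: a `Curve` of length `m`; `h2` gives `λ = 1`.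
(3) `L`, `R` are permutations of a finite set (`al_al`, `ph_ph_ph`): `L^[n] d = d` for some `n ≥ 1` (`Function.Injective` on a `Finite` type: `mem_periodicPts`/`Function.IsPeriodicPt` or
`isOfFinOrder`), so `Rel (L d) d μ` for some `μ`, and `μ * ω (ph d) = 1` by (2): hence `Rel d d' λ → ∃ λ', Rel d' d λ'` and `λ λ' = 1`.
(4) `Rel d (ph (ph d)) 1`: `L d = al (ph d)` and `R (ph (ph d)) = al (ph (ph (ph (ph d)))) = al (ph d)`: the first with factor `ω (ph d)`, the second
with factor `ω (ph (ph (ph (ph d)))) = ω (ph d)`; invert the second by (3): total factor `1`. So all three darts over a corner are related with factor `1` (`dt_qm_inj`).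
(5) by (4), `L`, for each dart `d`: `Rel (any dart over the corner of d) (any dart over the corner of al d) (ω d)`. With `T.link_conn` (`EqvGen` induction): any two darts are related by some non-zero
factor. (6) Fix `d0` (if there is none, the statement is trivial: `s := 1`; `N = 0`), for a corner `τ` choose a dart `d` over it (`exists_dt02`) and let `s τ` be THE factor `λ` with `Rel d0 d λ` (unique by
(3) and (2)). All factors are non-zero since `ω d ≠ 0` by `h1`. -/

set_option autoImplicit false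

open Matrix

namespace Pool.Agent.OL36

variable {N : ℕ}

/-- The dart through which the move `b` leaves. -/
private def ext (b : Bool) (d : Dt N) : Dt N := if b then ph d else ph (ph d)

/-- The move `b`. -/
private def mv (T : Tri N) (b : Bool) (d : Dt N) : Dt N := T.al (ext b d)

/-- The flag of the move `b`. -/
private def fl (b : Bool) (d : Dt N) : Flag N :=
  (d.1, d.2.1 * (if b then Equiv.swap 2 3 else Equiv.swap 1 3 * Equiv.swap 2 3))

private theorem fl_val (b : Bool) (d : Dt N) :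
    (fl b d).1 = d.1 ∧ (fl b d).2 0 = d.2.1 0 ∧ (fl b d).2 2 = (ext b d).2.1 2 ∧
      (fl b d).2 3 = d.2.1 2 := by
  obtain ⟨-, a0, a1, a2, a3⟩ := ph_val d
  obtain ⟨-, b0, b1, b2, b3⟩ := ph_val (ph d)
  cases b
  · refine ⟨rfl, ?_, ?_, ?_⟩
    · show d.2.1 ((Equiv.swap 1 3 * Equiv.swap 2 3 : Equiv.Perm (Fin 4)) 0) = d.2.1 0
      exact congrArg _ (by decide)
    · show d.2.1 ((Equiv.swap 1 3 * Equiv.swap 2 3 : Equiv.Perm (Fin 4)) 2) = (ph (ph d)).2.1 2
      rw [b2, a3]
      exact congrArg _ (by decide)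
    · show d.2.1 ((Equiv.swap 1 3 * Equiv.swap 2 3 : Equiv.Perm (Fin 4)) 3) = d.2.1 2
      exact congrArg _ (by decide)
  · refine ⟨rfl, ?_, ?_, ?_⟩
    · show d.2.1 ((Equiv.swap 2 3 : Equiv.Perm (Fin 4)) 0) = d.2.1 0
      exact congrArg _ (by decide)
    · show d.2.1 ((Equiv.swap 2 3 : Equiv.Perm (Fin 4)) 2) = (ph d).2.1 2
      rw [a2]
      exact congrArg _ (by decide)
    · show d.2.1 ((Equiv.swap 2 3 : Equiv.Perm (Fin 4)) 3) = d.2.1 2
      exact congrArg _ (by decide)

private theorem ext_val (b : Bool) (d : Dt N) :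
    (ext b d).1 = d.1 ∧ (ext b d).2.1 0 = d.2.1 0 := by
  obtain ⟨a, a0, -⟩ := ph_val d
  obtain ⟨b', b0, -⟩ := ph_val (ph d)
  cases b
  · exact ⟨b'.trans a, b0.trans a0⟩
  · exact ⟨a, a0⟩

private theorem fl_step (T : Tri N) (b b' : Bool) (d : Dt N) :
    Step T (fl b d) (fl b' (mv T b d)) := by
  obtain ⟨f1, f2, f3, f4⟩ := fl_val b d
  obtain ⟨g1, g2, g3, g4⟩ := fl_val b' (mv T b d)
  obtain ⟨e1, e2⟩ := ext_val b d
  obtain ⟨v1, v2, -, v4, -⟩ := al_val T (ext b d)
  refine ⟨?_, ?_, ?_⟩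
  · rw [g1, f1, f3, ← e1]
    exact v1
  · rw [g2, f1, f3, f2, ← e1, ← e2]
    exact v2
  · rw [g4, f1, f3, ← e1]
    exact v4

/-- The states of a walk. -/
private def st (T : Tri N) (b : ℕ → Bool) (d : Dt N) : ℕ → Dt N
  | 0 => d
  | k + 1 => mv T (b k) (st T b d k)

private theorem st_congr (T : Tri N) (b b' : ℕ → Bool) (d : Dt N) (n : ℕ)
    (h : ∀ k < n, b k = b' k) : ∀ k ≤ n, st T b d k = st T b' d k := by
  intro k
  induction k with
  | zero => intro _; rfl
  | succ k ih =>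
    intro hk
    show mv T (b k) (st T b d k) = mv T (b' k) (st T b' d k)
    rw [ih (by omega), h k (by omega)]

/-- `d'` is reached from `d` with the factor `c`. -/
private inductive Rel (T : Tri N) (ω : Dt N → ℂ) (d : Dt N) : Dt N → ℂ → Prop
  | refl : Rel T ω d d 1
  | stp (d' : Dt N) (c : ℂ) (b : Bool) (h : Rel T ω d d' c) :
      Rel T ω d (mv T b d') (c * ω (ext b d'))

private theorem Rel.trans {T : Tri N} {ω : Dt N → ℂ} {d d' d'' : Dt N} {c c' : ℂ}
    (h : Rel T ω d d' c) (h' : Rel T ω d' d'' c') : Rel T ω d d'' (c * c') := by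
  induction h' with
  | refl => rw [mul_one]; exact h
  | stp e c' b _ ih =>
    rw [← mul_assoc]
    exact Rel.stp e _ b ih

private theorem Rel.seq {T : Tri N} {ω : Dt N → ℂ} {d d' : Dt N} {c : ℂ}
    (h : Rel T ω d d' c) : ∃ (n : ℕ) (b : ℕ → Bool), st T b d n = d' ∧
      ∏ k ∈ Finset.range n, ω (ext (b k) (st T b d k)) = c := by
  induction h with
  | refl => exact ⟨0, fun _ => false, rfl, by simp⟩
  | stp e c b _ ih =>
    obtain ⟨n, b0, h1, h2⟩ := ih
    have hc := st_congr T b0 (fun k => if k = n then b else b0 k) d n (by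
      intro k hk
      simp only [if_neg hk.ne])
    refine ⟨n + 1, fun k => if k = n then b else b0 k, ?_, ?_⟩
    · show mv T (if n = n then b else b0 n) (st T _ d n) = mv T b e
      rw [← hc n le_rfl, h1, if_pos rfl]
    · rw [Finset.prod_range_succ]
      have hlast : ω (ext ((fun k => if k = n then b else b0 k) n)
          (st T (fun k => if k = n then b else b0 k) d n)) = ω (ext b e) := by
        rw [← hc n le_rfl, h1]
        show ω (ext (if n = n then b else b0 n) e) = ω (ext b e)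
        rw [if_pos rfl]
      have hfirst : ∏ k ∈ Finset.range n, ω (ext ((fun k => if k = n then b else b0 k) k)
          (st T (fun k => if k = n then b else b0 k) d k)) = c := by
        rw [← h2]
        refine Finset.prod_congr rfl ?_
        intro k hk
        have hk' := Finset.mem_range.mp hk
        rw [← hc k hk'.le]
        show ω (ext (if k = n then b else b0 k) (st T b0 d k)) = ω (ext (b0 k) (st T b0 d k))
        rw [if_neg hk'.ne]
      exact congrArg₂ (· * ·) hfirst hlast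

private theorem Rel.closed {T : Tri N} {ω : Dt N → ℂ}
    (h2 : ∀ (γ : Curve T) (D : ℕ → Dt N), IsExit γ D →
      ∏ k ∈ Finset.range γ.m, ω (D k) = 1) {d : Dt N} {c : ℂ}
    (h : Rel T ω d d c) : c = 1 := by
  obtain ⟨n, b, hn, hc⟩ := h.seq
  rcases Nat.eq_zero_or_pos n with h0 | h0
  · subst h0
    simpa using hc.symm
  · have hco := st_congr T b (fun k => if k = n then b 0 else b k) d n (by
      intro k hk
      simp only [if_neg hk.ne])
    set b' : ℕ → Bool := fun k => if k = n then b 0 else b k with hb'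
    let γ : Curve T :=
      { m := n
        x := fun k => fl (b' k) (st T b' d k)
        closed := by
          show fl (b' n) (st T b' d n) = fl (b' 0) d
          rw [← hco n le_rfl, hn, hb']
          simp only [if_true, if_neg h0.ne]
        step := fun k _ => fl_step T (b' k) (b' (k + 1)) (st T b' d k) }
    have hex : IsExit γ (fun k => ext (b' k) (st T b' d k)) := by
      intro k _
      obtain ⟨f1, f2, f3, -⟩ := fl_val (b' k) (st T b' d k)
      obtain ⟨e1, e2⟩ := ext_val (b' k) (st T b' d k)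
      exact ⟨e1.trans f1.symm, e2.trans f2.symm, f3.symm⟩
    have h3 := h2 γ _ hex
    rw [← hc, ← h3]
    refine Finset.prod_congr rfl ?_
    intro k hk
    have hk' : k < n := Finset.mem_range.mp hk
    show ω (ext (b k) (st T b d k)) = ω (ext (b' k) (st T b' d k))
    rw [← hco k hk'.le, hb']
    simp only [if_neg hk'.ne]

private theorem al_inj (T : Tri N) : Function.Injective (T.al) := by
  intro d d' h
  rw [← al_al T d, ← al_al T d', h]

private theorem ph_inj : Function.Injective (ph : Dt N → Dt N) := by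
  intro d d' h
  rw [← ph_ph_ph d, ← ph_ph_ph d', h]

private theorem mv_inj (T : Tri N) (b : Bool) : Function.Injective (mv T b) := by
  cases b
  · intro d d' h
    exact ph_inj (ph_inj (al_inj T h))
  · intro d d' h
    exact ph_inj (al_inj T h)

private theorem rel_iter (T : Tri N) (ω : Dt N → ℂ) (b : Bool) (d : Dt N) (n : ℕ) :
    ∃ c, Rel T ω d ((mv T b)^[n] d) c := by
  induction n with
  | zero => exact ⟨1, Rel.refl⟩
  | succ n ih =>
    obtain ⟨c, hc⟩ := ih
    rw [Function.iterate_succ_apply']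
    exact ⟨_, Rel.stp _ _ b hc⟩

private theorem rel_back (T : Tri N) (ω : Dt N → ℂ) (b : Bool) (d : Dt N) :
    ∃ c, Rel T ω (mv T b d) d c := by
  obtain ⟨n, hn, hp⟩ := (mv_inj T b).mem_periodicPts d
  obtain ⟨m, rfl⟩ : ∃ m, n = m + 1 := ⟨n - 1, by omega⟩
  obtain ⟨c, hc⟩ := rel_iter T ω b (mv T b d) m
  refine ⟨c, ?_⟩
  have h1 : (mv T b)^[m] (mv T b d) = d := hp
  rw [h1] at hc
  exact hc

private theorem Rel.symm {T : Tri N} {ω : Dt N → ℂ}
    (h2 : ∀ (γ : Curve T) (D : ℕ → Dt N), IsExit γ D →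
      ∏ k ∈ Finset.range γ.m, ω (D k) = 1) {d d' : Dt N} {c : ℂ}
    (h : Rel T ω d d' c) : ∃ c', Rel T ω d' d c' ∧ c * c' = 1 := by
  have h3 : ∃ c', Rel T ω d' d c' := by
    induction h with
    | refl => exact ⟨1, Rel.refl⟩
    | stp e c b _ ih =>
      obtain ⟨c1, hc1⟩ := ih
      obtain ⟨c2, hc2⟩ := rel_back T ω b e
      exact ⟨_, hc2.trans hc1⟩
  obtain ⟨c', hc'⟩ := h3
  exact ⟨c', hc', Rel.closed h2 (h.trans hc')⟩

private theorem Rel.uniq {T : Tri N} {ω : Dt N → ℂ}
    (h2 : ∀ (γ : Curve T) (D : ℕ → Dt N), IsExit γ D →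
      ∏ k ∈ Finset.range γ.m, ω (D k) = 1) {d d' : Dt N} {c c' : ℂ}
    (h : Rel T ω d d' c) (h' : Rel T ω d d' c') : c = c' := by
  obtain ⟨e, he, hce⟩ := Rel.symm h2 h
  have h3 := Rel.closed h2 (h'.trans he)
  have h4 : e ≠ 0 := by
    intro h0
    rw [h0, mul_zero] at h3
    exact zero_ne_one h3
  exact mul_right_cancel₀ h4 (hce.trans h3.symm)

private theorem rel_ph2 {T : Tri N} {ω : Dt N → ℂ}
    (h2 : ∀ (γ : Curve T) (D : ℕ → Dt N), IsExit γ D →
      ∏ k ∈ Finset.range γ.m, ω (D k) = 1) (d : Dt N) : Rel T ω d (ph (ph d)) 1 := by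
  have h3 : Rel T ω d (T.al (ph d)) (1 * ω (ph d)) := Rel.stp d 1 true Rel.refl
  have h4 : Rel T ω (ph (ph d)) (T.al (ph (ph (ph (ph d))))) (1 * ω (ph (ph (ph (ph d))))) :=
    Rel.stp (ph (ph d)) 1 false Rel.refl
  rw [ph_ph_ph (ph d)] at h4
  obtain ⟨e, he, hce⟩ := Rel.symm h2 h4
  have h5 := h3.trans he
  rw [hce] at h5
  exact h5

private theorem rel_ph {T : Tri N} {ω : Dt N → ℂ}
    (h2 : ∀ (γ : Curve T) (D : ℕ → Dt N), IsExit γ D →
      ∏ k ∈ Finset.range γ.m, ω (D k) = 1) (d : Dt N) : Rel T ω d (ph d) 1 := by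
  have h3 := (rel_ph2 h2 d).trans (rel_ph2 h2 (ph (ph d)))
  rw [ph_ph_ph (ph d), mul_one] at h3
  exact h3

private theorem rel_corner {T : Tri N} {ω : Dt N → ℂ}
    (h2 : ∀ (γ : Curve T) (D : ℕ → Dt N), IsExit γ D →
      ∏ k ∈ Finset.range γ.m, ω (D k) = 1) (d d' : Dt N)
    (h : (d.1, d.2.1 0) = (d'.1, d'.2.1 0)) : Rel T ω d d' 1 := by
  rcases dt_qm_inj d d' h with h3 | h3 | h3
  · rw [h3]
    exact Rel.refl
  · rw [h3]
    exact rel_ph h2 d
  · rw [h3]
    exact rel_ph2 h2 d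

private theorem rel_al {T : Tri N} {ω : Dt N → ℂ}
    (h2 : ∀ (γ : Curve T) (D : ℕ → Dt N), IsExit γ D →
      ∏ k ∈ Finset.range γ.m, ω (D k) = 1) (d : Dt N) : Rel T ω d (T.al d) (ω d) := by
  have h3 : Rel T ω (ph (ph d)) (T.al (ph (ph (ph d)))) (1 * ω (ph (ph (ph d)))) :=
    Rel.stp (ph (ph d)) 1 true Rel.refl
  have h4 := (rel_ph2 h2 d).trans h3
  rw [ph_ph_ph, one_mul, one_mul] at h4
  exact h4

private theorem rel_conn {T : Tri N} {ω : Dt N → ℂ}
    (h2 : ∀ (γ : Curve T) (D : ℕ → Dt N), IsExit γ D →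
      ∏ k ∈ Finset.range γ.m, ω (D k) = 1) (s s' : Fin N × Fin 4)
    (h : Relation.EqvGen (fun s s' : Fin N × Fin 4 =>
      ∃ i, i ≠ s.2 ∧ s' = (T.nbr s.1 i, T.glue s.1 i s.2)) s s') :
    ∀ d d' : Dt N, (d.1, d.2.1 0) = s → (d'.1, d'.2.1 0) = s' → ∃ c, Rel T ω d d' c := by
  induction h with
  | rel s s' h =>
    intro d d' hd hd'
    obtain ⟨i, hi, rfl⟩ := h
    obtain ⟨e, e1, e2, e3⟩ := exists_dt02 s.1 s.2 i hi.symm
    obtain ⟨v1, v2, -⟩ := al_val T e
    have h3 := rel_corner (ω := ω) h2 d e (by rw [hd, e1, e2])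
    have h4 := rel_al (ω := ω) h2 e
    have h5 := rel_corner (ω := ω) h2 (T.al e) d' (by rw [hd', v1, v2, e1, e2, e3])
    exact ⟨_, (h3.trans h4).trans h5⟩
  | refl s =>
    intro d d' hd hd'
    exact ⟨1, rel_corner h2 d d' (by rw [hd, hd'])⟩
  | symm s s' _ ih =>
    intro d d' hd hd'
    obtain ⟨c, hc⟩ := ih d' d hd' hd
    obtain ⟨c', hc', -⟩ := Rel.symm h2 hc
    exact ⟨c', hc'⟩
  | trans s t s' _ _ ih1 ih2 =>
    intro d d' hd hd'
    obtain ⟨e, e1, e2, -⟩ := exists_dt02 t.1 t.2 (t.2 + 1) (by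
      generalize t.2 = x
      revert x
      decide)
    have he : (e.1, e.2.1 0) = t := by rw [e1, e2]
    obtain ⟨c1, hc1⟩ := ih1 d e hd he
    obtain ⟨c2, hc2⟩ := ih2 e d' he hd'
    exact ⟨_, hc1.trans hc2⟩

theorem exists_pot (T : Tri N) (ω : Dt N → ℂ) (h1 : ∀ d, ω (T.al d) * ω d = 1)
    (h2 : ∀ (γ : Curve T) (D : ℕ → Dt N), IsExit γ D →
      ∏ k ∈ Finset.range γ.m, ω (D k) = 1) :
    ∃ s : Fin N × Fin 4 → ℂ, (∀ τ, s τ ≠ 0) ∧
      ∀ d : Dt N, s ((T.al d).1, (T.al d).2.1 0) = ω d * s (d.1, d.2.1 0) := by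
  classical
  rcases isEmpty_or_nonempty (Dt N) with hE | ⟨⟨d0⟩⟩
  · exact ⟨fun _ => 1, fun _ => one_ne_zero, fun d => (hE.false d).elim⟩
  have hex : ∀ τ : Fin N × Fin 4, ∃ e : Dt N, (e.1, e.2.1 0) = τ := by
    intro τ
    obtain ⟨e, e1, e2, -⟩ := exists_dt02 τ.1 τ.2 (τ.2 + 1) (by
      generalize τ.2 = x
      revert x
      decide)
    exact ⟨e, by rw [e1, e2]⟩
  choose e he using hex
  have hex2 : ∀ τ : Fin N × Fin 4, ∃ c, Rel T ω d0 (e τ) c := fun τ =>
    rel_conn h2 _ _ (T.link_conn _ _ _ _) d0 (e τ) rfl rfl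
  choose s hs using hex2
  refine ⟨s, ?_, ?_⟩
  · intro τ h0
    obtain ⟨c', -, hc'⟩ := Rel.symm h2 (hs τ)
    rw [h0, zero_mul] at hc'
    exact zero_ne_one hc'
  · intro d
    have h3 := (hs (d.1, d.2.1 0)).trans
      (rel_corner (ω := ω) h2 (e (d.1, d.2.1 0)) d (he _))
    have h4 := h3.trans (rel_al (ω := ω) h2 d)
    have h5 := h4.trans (rel_corner (ω := ω) h2 (T.al d) (e ((T.al d).1, (T.al d).2.1 0))
      (he _).symm)
    have h6 := Rel.uniq h2 (hs ((T.al d).1, (T.al d).2.1 0)) h5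
    rw [h6]
    ring

end Pool.Agent.OL36
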