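import Pool.Agent.LibOL36.XE
import Pool.Agent.LibOL36.F2

/-! # Row XV: the family `w`

Plan. `w (e₀, 0) := torusCycle P` with coordinates `f = 1`, `y = 0` (`torusCycle P j a b = ev2 T E u 1 0 j a b`, as `P j a = nil (u j a)`); for `r ≠ (e₀, 0)`: `w r := ev2 T E u f_r y_r` with
`f_(e,0) = 1_{(e, true)}`, `f_(e,1) = 1_{(e, false)}`, `f_(e,2) = 0`, `y_(e,2) = 1_e`, else `y = 0`. `A2_eq` (F2): the determinant is `det W * ∏ (om ^ 2 / 2)`, the product is non-zero, and `W` is the identity
matrix with the row `(e₀, 0)` replaced by the row `c ↦ ![1, 1, 0] c.2`: `det = 1` (`Matrix.det_updateRow_eq..`/cofactor: `W = (1 : Matrix).updateRow (e₀,0) v`, `det_updateRow_sum` or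
`Matrix.det_updateRow_sum_aux`: `v = ∑ c, v c • (1 : Matrix) c`, `Matrix.det_updateRow_sum` gives `v (e₀,0) • det 1 = 1`). -/

set_option autoImplicit false

open Matrix

namespace Pool.Agent.OL36

variable {N : ℕ}

private theorem xv_det (e₀ : Fin N) (v : Fin N × Fin 3 → ℂ) :
    ((1 : Matrix (Fin N × Fin 3) (Fin N × Fin 3) ℂ).updateRow (e₀, 0) v).det = v (e₀, 0) := by
  rw [← Matrix.cramer_transpose_apply, Matrix.transpose_one, Matrix.cramer_one]
  rfl

theorem exists_w (T : Tri N) (z : Fin N → ℂ) (g P : Fin N → Fin 4 → M2) (hP : IsPar T z g P)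
    (u : Fin N → Fin 4 → Fin 2 → ℂ) (hu : IsDec T z u) (hPu : ∀ j a, P j a = nil (u j a))
    (E : Fin N → Fin N × Fin 4 × Fin 4) (hE : IsEdges T E) (e₀ : Fin N) :
    ∃ w : Fin N × Fin 3 → Fin N → Fin 4 → Fin 4 → M2, (∀ r, IsChain2 T g (w r)) ∧
      w (e₀, 0) = torusCycle P ∧
      Matrix.det (fun r c : Fin N × Fin 3 =>
        co (w r (E c.1).1 (E c.1).2.1 (E c.1).2.2) c.2) ≠ 0 := by
  classical
  have hg : ∀ j i a, a ≠ i →
      nil (u (T.nbr j i) (T.glue j i a)) = g j i * nil (u j a) * (g j i)⁻¹ := by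
    intro j i a h
    rw [← hPu, ← hPu]
    exact hP.2 j i a h
  let f : Fin N × Fin 3 → Fin N × Bool → ℂ := fun r q =>
    if r = (e₀, 0) then 1 else
      if r.1 = q.1 ∧ r.2 = (if q.2 = true then 0 else 1) then 1 else 0
  let y : Fin N × Fin 3 → Fin N → ℂ := fun r e =>
    if r = (e₀, 0) then 0 else if r.1 = e ∧ r.2 = 2 then 1 else 0
  refine ⟨fun r j a b => ev2 T E u (f r) (y r) j a b, ?_, ?_, ?_⟩
  · intro r
    exact chain2_ev T z g u hu hg E hE (f r) (y r)
  · funext j a b
    simp only [ev2, torusCycle, hPu, f, y, if_true, one_smul, zero_smul, add_zero]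
  · rw [A2_eq T z u hu E hE f y]
    refine mul_ne_zero ?_ ?_
    · have hM : (fun r c : Fin N × Fin 3 =>
          (![f r (c.1, true), f r (c.1, false), y r c.1] : Fin 3 → ℂ) c.2) =
          (1 : Matrix (Fin N × Fin 3) (Fin N × Fin 3) ℂ).updateRow (e₀, 0)
            (fun c => (![1, 1, 0] : Fin 3 → ℂ) c.2) := by
        funext r c
        rw [Matrix.updateRow_apply]
        by_cases hr : r = (e₀, 0)
        · simp only [hr, f, y, if_true]
        · simp only [hr, f, y, if_false]
          obtain ⟨r1, r2⟩ := r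
          obtain ⟨c1, c2⟩ := c
          rw [Matrix.one_apply]
          by_cases h1 : r1 = c1
          · subst h1
            fin_cases c2 <;> fin_cases r2 <;> simp
          · fin_cases c2 <;> simp [h1]
      rw [hM, xv_det]
      simp
    · rw [Finset.prod_ne_zero_iff]
      intro e _
      have h := hu.ne (E e).1 (E e).2.1 (E e).2.2 (hE e).1
      exact div_ne_zero (pow_ne_zero 2 h) two_ne_zero

end Pool.Agent.OL36
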