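import Pool.Agent.LibOL36.Main
import Pool.Agent.LibOL36.KG
import Pool.Agent.LibOL36.XG
import Pool.Agent.LibOL36.XC
import Pool.Agent.LibOL36.XP
import Pool.Agent.LibOL36.XF
import Pool.Agent.LibOL36.XV
import Pool.Agent.LibOL36.XB
import Pool.Agent.LibOL36.XN
import Pool.Agent.LibOL36.H0

/-! # Existence of the torsion -/

set_option autoImplicit false

open Matrix

namespace Pool.Agent.OL36

variable {N : ℕ}

/-- The invariant nilpotent vectors exist at the complete structure. -/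
theorem exists_par (T : Tri N) (z : Fin N → ℂ) (hz : ∀ j, z j ≠ 0 ∧ z j ≠ 1)
    (g : Fin N → Fin 4 → M2) (hg : IsHol T z g) (hC : T.Complete z) :
    ∃ P : Fin N → Fin 4 → M2, IsPar T z g P := by
  obtain ⟨s, hs0, hs⟩ := exists_pot T (wt T z) (wt_al T z hz)
    (fun γ D hD => wt_curve T z hz hC γ D hD)
  refine ⟨fun j a => s (j, a) • nil (pt (z j) a), fun j a => ⟨s (j, a), hs0 _, rfl⟩, ?_⟩
  intro j i a ha
  obtain ⟨d, h1, h2, h3⟩ := exists_dt02 j a i ha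
  obtain ⟨a1, a2, -, -, -⟩ := al_val T d
  have hn := nil_hol T z hz g hg d
  have hd := hs d
  rw [a1, a2, h1, h2, h3] at hn
  rw [a1, a2, h1, h2, h3] at hd
  show s (T.nbr j i, T.glue j i a) • nil (pt (z (T.nbr j i)) (T.glue j i a)) =
    g j i * (s (j, a) • nil (pt (z j) a)) * (g j i)⁻¹
  rw [Matrix.mul_smul, Matrix.smul_mul, hn, hd, smul_smul, mul_comm]

theorem six_ne (T : Tri N) (z : Fin N → ℂ) (u : Fin N → Fin 4 → Fin 2 → ℂ) (hu : IsDec T z u)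
    (j : Fin N) : six u j ≠ 0 := by
  have h := hu.ne j
  simp only [six]
  exact mul_ne_zero (mul_ne_zero (mul_ne_zero (h 0 1 (by decide)) (h 0 2 (by decide)))
    (h 0 3 (by decide))) (mul_ne_zero (mul_ne_zero (h 1 2 (by decide)) (h 1 3 (by decide)))
    (h 2 3 (by decide)))

theorem zprod_ne (z : Fin N → ℂ) (hz : ∀ j, z j ≠ 0 ∧ z j ≠ 1) (f : Fin 3 → Fin N → ℤ) :
    ∏ j, ∏ t, zeta t (z j) ^ (f t j) ≠ 0 := by
  refine Finset.prod_ne_zero_iff.mpr (fun j _ => Finset.prod_ne_zero_iff.mpr (fun t _ => ?_))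
  apply zpow_ne_zero
  have h0 := (hz j).1
  have h1 : z j - 1 ≠ 0 := sub_ne_zero.mpr (hz j).2
  have h1' : 1 - z j ≠ 0 := sub_ne_zero.mpr (Ne.symm (hz j).2)
  fin_cases t
  · simpa [zeta] using h0
  · simpa [zeta] using h1'
  · simp only [zeta]
    exact div_ne_zero one_ne_zero (mul_ne_zero h0 h1)

/-- The torsion has a value if `H₀ = 0` and the matrix of the 1-loop invariant is invertible. -/
theorem exists_tor (T : Tri N) (z : Fin N → ℂ) (hz : ∀ j, z j ≠ 0 ∧ z j ≠ 1) (γ : Curve T)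
    (e₀ : Fin N) (f : Fin 3 → Fin N → ℤ) (hf : T.Flat f) (g P : Fin N → Fin 4 → M2)
    (hg : IsHol T z g) (hP : IsPar T z g P) (hdet : (hatG T z γ e₀).det ≠ 0)
    (hb : ∃ b : Fin N × Fin 3 → Fin N → Fin 4 → M2, (∀ r, IsChain1 T g (b r)) ∧
      Matrix.det (fun r c : Fin N × Fin 3 => co (bd1 (b r) c.1) c.2) ≠ 0) :
    ∃ t, IsATor T z γ t := by
  obtain ⟨b, hb1, hb2⟩ := hb
  obtain ⟨E, hE⟩ := exists_edges T
  obtain ⟨F, hF⟩ := exists_faces T
  obtain ⟨u, hu, hPu⟩ := exists_dec T z hz g P hg hP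
  obtain ⟨w, hw1, hw2, hw3⟩ := exists_w T z g P hP u hu hPu E hE e₀
  have key := main_key T z hz γ e₀ f hf g P F E (e₀, 0) w b hg hP hF hE hw1 hb1 hw2 _ _ _
    rfl rfl rfl
  refine ⟨_, g, P, F, E, (e₀, 0), w, b, hg, hP, hF, hE, hw1, hb1, hw2, _, _, _, rfl, rfl, rfl,
    hb2, ?_, hw3, rfl⟩
  intro h0
  rw [h0] at key
  have h1 : (hatG T z γ e₀).det ^ 2 *
      ((Matrix.det (fun r c : Fin N × Fin 3 => co (bd1 (b r) c.1) c.2)) ^ 2 *
      (Matrix.det (fun r c : Fin N × Fin 3 =>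
        co (w r (E c.1).1 (E c.1).2.1 (E c.1).2.2) c.2)) ^ 2) = 0 := by
    rw [← key]; ring
  exact mul_ne_zero (pow_ne_zero 2 hdet) (mul_ne_zero (pow_ne_zero 2 hb2) (pow_ne_zero 2 hw3)) h1

/-- Geometric triangulations and essential curves. -/
theorem exists_tor_geom (T : Tri N) (z : Fin N → ℂ) (him : ∀ j, 0 < (z j).im)
    (hC : T.Complete z) (γ : Curve T) (hγ : ¬ γ.NullHomologous)
    (e₀ : Fin N) (f : Fin 3 → Fin N → ℤ) (hf : T.Flat f) : ∃ t, IsATor T z γ t := by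
  have hz : ∀ j, z j ≠ 0 ∧ z j ≠ 1 := by
    intro j
    constructor
    · intro h0; have := him j; rw [h0] at this; simp at this
    · intro h0; have := him j; rw [h0] at this; simp at this
  obtain ⟨g, hg⟩ := exists_hol T z hz
  obtain ⟨P, hP⟩ := exists_par T z hz g hg hC
  obtain ⟨E, hE⟩ := exists_edges T
  obtain ⟨u, hu, hPu⟩ := exists_dec T z hz g P hg hP
  have hgn : ∀ j i a, a ≠ i →
      nil (u (T.nbr j i) (T.glue j i a)) = g j i * nil (u j a) * (g j i)⁻¹ := by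
    intro j i a ha
    rw [← hPu, ← hPu]
    exact hP.2 j i a ha
  have htr := trl_ne T z him u hu E hE e₀ γ hγ
  exact exists_tor T z hz γ e₀ f hf g P hg hP (det_ne T z him u hu E hE γ e₀ htr)
    (exists_b_trl T z hz g u hu hgn γ htr)

/-- Curves with non-trivial holonomy. -/
theorem exists_tor_hol (T : Tri N) (z : Fin N → ℂ) (hz : ∀ j, z j ≠ 0 ∧ z j ≠ 1)
    (hC : T.Complete z) (γ : Curve T) (e₀ : Fin N) (f : Fin 3 → Fin N → ℤ) (hf : T.Flat f)
    (g : Fin N → Fin 4 → M2) (hg : IsHol T z g) (hγ : ∀ c : ℂ, γ.hol g ≠ c • (1 : M2))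
    (hdet : (hatG T z γ e₀).det ≠ 0) : ∃ t, IsATor T z γ t := by
  obtain ⟨P, hP⟩ := exists_par T z hz g hg hC
  exact exists_tor T z hz γ e₀ f hf g P hg hP hdet (exists_b T z hz g P hg hP γ hγ)

theorem main_value (T : Tri N) (z : Fin N → ℂ) (hz : ∀ j, z j ≠ 0 ∧ z j ≠ 1) (γ : Curve T)
    (e₀ : Fin N) (f : Fin 3 → Fin N → ℤ) (hf : T.Flat f) (t : ℂ) (ht : IsATor T z γ t) :
    t = oneLoop T z γ e₀ f ∨ t = -oneLoop T z γ e₀ f := by
  have h2 : (2 * ∏ j, ∏ t, zeta t (z j) ^ (f t j)) ≠ 0 :=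
    mul_ne_zero two_ne_zero (zprod_ne z hz f)
  rcases main_id T z hz γ e₀ f hf t ht with h | h
  · left
    rw [oneLoop, eq_div_iff h2, h]
  · right
    rw [oneLoop, ← neg_div, eq_div_iff h2, h]

theorem ator_ne (T : Tri N) (z : Fin N → ℂ) (γ : Curve T) (t : ℂ) (ht : IsATor T z γ t) :
    t ≠ 0 := by
  obtain ⟨g, P, F, E, k₀, w, b, -, -, -, -, -, -, -, A₀, A₁, A₂, -, -, -, n₀, n₁, n₂, ht⟩ := ht
  rw [ht]
  exact div_ne_zero n₁ (mul_ne_zero n₀ n₂)

/-- The full theorem. -/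
theorem one_loop (T : Tri N) (z : Fin N → ℂ) (hz : ∀ j, z j ≠ 0 ∧ z j ≠ 1)
    (hC : T.Complete z) (γ : Curve T) (e₀ : Fin N) (f : Fin 3 → Fin N → ℤ) (hf : T.Flat f) :
    (∀ t, IsATor T z γ t → t = oneLoop T z γ e₀ f ∨ t = -oneLoop T z γ e₀ f) ∧
    ((∀ j, 0 < (z j).im) → ¬ γ.NullHomologous → ∃ t, IsATor T z γ t) ∧
    (∀ g, IsHol T z g → (∀ c : ℂ, γ.hol g ≠ c • (1 : M2)) →
      ((∃ t, IsATor T z γ t) ↔ oneLoop T z γ e₀ f ≠ 0)) := by
  refine ⟨main_value T z hz γ e₀ f hf, fun him hγ => exists_tor_geom T z him hC γ hγ e₀ f hf, ?_⟩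
  intro g hg hhol
  constructor
  · rintro ⟨t, ht⟩ h0
    have := ator_ne T z γ t ht
    rcases main_value T z hz γ e₀ f hf t ht with h | h
    · exact this (by rw [h, h0])
    · exact this (by rw [h, h0, neg_zero])
  · intro h0
    refine exists_tor_hol T z hz hC γ e₀ f hf g hg hhol ?_
    intro hd
    apply h0
    rw [oneLoop, hd, zero_div]

end Pool.Agent.OL36
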